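import Pool.Agent.Work.MP_bc729a_al.CG.Brec

/-! # Module BnO (M): there are at least as many images of a totally singular space as points, III

Let `Q = |K|`. In each case `x, y` from `exists_opp_in`, `W'`, `E'` as in `dsc`, `bn_rec`: `pn W * bn D W' E' ≤ bn D W E * pn E`.
`bn_o4`: `bn D W' E' ≥ 1` (`bn_pos`), `pn W' = 2` (`pn_two`, `E'` is a point), `pn W = 1 + 2 Q + Q ^ 2` (`pn_rec`), `pn E = 1 + Q` (`pn_ts`); cancel `1 + Q`. (`pn_o4`, `pn_o6`, `pn_o8` are the values of `pn W`, from `pn_rec` with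
`dsc`.) `bn_o6`: `bn D W' E' ≥ 1 + Q` (`bn_o4`), `pn W = (1 + Q ^ 2) (1 + Q + Q ^ 2)` (`pn_o6`), `pn E = 1 + Q + Q ^ 2`; cancel. `bn_o`: induction on `k = finrank E ≥ 4`. `k = 4`: `pn E = 1 + Q + Q ^ 2 + Q ^ 3 = (1 + Q ^ 2) (1 + Q) ≤ bn D W' E'`
(`bn_o6`), so `pn W * pn E ≤ bn D W E * pn E`. `k ≥ 5`: `bn D W' E' ≥ pn W' ≥ pn E' + Q ^ (2 k - 4) ≥ pn E' + Q ^ (k - 1) = pn E` (induction, `pn_ge`, `pn_succ`). -/

namespace Pool.Agent.Work.MP_bc729a_al.CG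

open Module

universe u v

variable {K : Type u} {V : Type v} [Field K] [AddCommGroup V] [Module K V] [Finite K] [Finite V]

namespace PS

variable {Φ : PS K V}

private theorem bnO_pt {E : Submodule K V} (hE : Φ.TS E) (h : finrank K E = 1) : Φ.IsPt E := by
  obtain ⟨v, hv0, hv⟩ := finrank_eq_one_iff'.1 h
  have h0 : (v : V) ≠ 0 := fun h' => hv0 (Subtype.ext h')
  have h1 : E = Submodule.span K {(v : V)} := by
    apply le_antisymm
    · intro w hw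
      obtain ⟨c, hc⟩ := hv ⟨w, hw⟩
      rw [Submodule.mem_span_singleton]
      exact ⟨c, congrArg Subtype.val hc⟩
    · rw [Submodule.span_singleton_le_iff_mem]
      exact v.2
  exact ⟨v, h0, hE.1 _ v.2, h1⟩

private theorem bnO_ne {E : Submodule K V} (h : 0 < finrank K E) : E ≠ ⊥ := by
  intro h'
  have h2 : finrank K E = 0 := Submodule.finrank_eq_zero.2 h'
  omega

private theorem bnO_step {D : Subgroup (V ≃ₗ[K] V)} (hD : Φ.Grp D) {W E x y : Submodule K V}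
    (hW : Φ.ND W) (hd : 3 ≤ finrank K W ∨ 2 ≤ Φ.t) (hE : Φ.TS E) (hEW : E ≤ W)
    (hx : Φ.IsPt x) (hxE : x ≤ E) (hy : Φ.IsPt y) (hyW : y ≤ W) (h : ¬ y ≤ Φ.orth x)
    (h1 : Φ.pn E ≤ Φ.bn D (W ⊓ Φ.orth (x ⊔ y)) (E ⊓ Φ.orth y)) : Φ.pn W ≤ Φ.bn D W E := by
  have h2 := bn_rec hD hW hd hE hEW hx hxE hy hyW h
  have h3 : 0 < Φ.pn E := pn_pos_of hx hxE
  have h4 : Φ.pn W * Φ.pn E ≤ Φ.bn D W E * Φ.pn E := (Nat.mul_le_mul_left _ h1).trans h2
  exact Nat.le_of_mul_le_mul_right h4 h3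

theorem pn_o4 (ht : Φ.t = 1) {W E : Submodule K V} (hW : Φ.ND W) (hE : Φ.TS E) (hEW : E ≤ W)
    (h2 : finrank K E = 2) (h4 : finrank K W = 4) : Φ.pn W = (1 + Nat.card K) ^ 2 := by
  obtain ⟨x, y, hx, hxE, hy, hyW, hxy⟩ := exists_opp_in hW hE hEW (bnO_ne (by omega))
  obtain ⟨hW', hwd, hE', hed, hEW', -⟩ := dsc hW hE hEW hx hxE hy hyW hxy
  have h5 := pn_two hW' (by omega) (bnO_pt hE' (by omega)) hEW'
  have h6 := pn_rec hW hx (hxE.trans hEW) hy hyW hxy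
  rw [h5, ht, h4] at h6
  rw [h6]
  ring

theorem pn_o6 (ht : Φ.t = 1) {W E : Submodule K V} (hW : Φ.ND W) (hE : Φ.TS E) (hEW : E ≤ W)
    (h2 : finrank K E = 3) (h4 : finrank K W = 6) :
    Φ.pn W = (1 + Nat.card K ^ 2) * (1 + Nat.card K + Nat.card K ^ 2) := by
  obtain ⟨x, y, hx, hxE, hy, hyW, hxy⟩ := exists_opp_in hW hE hEW (bnO_ne (by omega))
  obtain ⟨hW', hwd, hE', hed, hEW', -⟩ := dsc hW hE hEW hx hxE hy hyW hxy
  have h5 := pn_o4 ht hW' hE' hEW' (by omega) (by omega)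
  have h6 := pn_rec hW hx (hxE.trans hEW) hy hyW hxy
  rw [h5, ht, h4] at h6
  rw [h6]
  ring

theorem bn_o4 {D : Subgroup (V ≃ₗ[K] V)} (hD : Φ.Grp D) (ht : Φ.t = 1)
    {W E : Submodule K V} (hW : Φ.ND W) (hE : Φ.TS E) (hEW : E ≤ W) (h2 : finrank K E = 2)
    (h4 : finrank K W = 4) : 1 + Nat.card K ≤ Φ.bn D W E := by
  obtain ⟨x, y, hx, hxE, hy, hyW, hxy⟩ := exists_opp_in hW hE hEW (bnO_ne (by omega))
  have h5 := bn_rec hD hW (Or.inl (by omega)) hE hEW hx hxE hy hyW hxy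
  have h6 : 0 < Φ.bn D (W ⊓ Φ.orth (x ⊔ y)) (E ⊓ Φ.orth y) := bn_pos
  have h7 := pn_ts hE
  rw [h2] at h7
  have h8 : Φ.pn E = 1 + Nat.card K := by
    rw [h7]
    simp [Finset.sum_range_succ]
  have h9 := pn_o4 ht hW hE hEW h2 h4
  have h10 : Φ.pn W ≤ Φ.bn D W E * Φ.pn E :=
    (Nat.le_mul_of_pos_right _ h6).trans h5
  rw [h8, h9, pow_two] at h10
  exact Nat.le_of_mul_le_mul_right h10 (by omega)

theorem bn_o6 {D : Subgroup (V ≃ₗ[K] V)} (hD : Φ.Grp D) (ht : Φ.t = 1)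
    {W E : Submodule K V} (hW : Φ.ND W) (hE : Φ.TS E) (hEW : E ≤ W) (h2 : finrank K E = 3)
    (h4 : finrank K W = 6) : (1 + Nat.card K ^ 2) * (1 + Nat.card K) ≤ Φ.bn D W E := by
  obtain ⟨x, y, hx, hxE, hy, hyW, hxy⟩ := exists_opp_in hW hE hEW (bnO_ne (by omega))
  obtain ⟨hW', hwd, hE', hed, hEW', -⟩ := dsc hW hE hEW hx hxE hy hyW hxy
  have h5 := bn_rec hD hW (Or.inl (by omega)) hE hEW hx hxE hy hyW hxy
  have h6 := bn_o4 hD ht hW' hE' hEW' (by omega) (by omega)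
  have h7 := pn_ts hE
  rw [h2] at h7
  have h8 : Φ.pn E = 1 + Nat.card K + Nat.card K ^ 2 := by
    rw [h7]
    simp [Finset.sum_range_succ]
  have h9 := pn_o6 ht hW hE hEW h2 h4
  have h10 : Φ.pn W * (1 + Nat.card K) ≤ Φ.bn D W E * Φ.pn E :=
    (Nat.mul_le_mul_left _ h6).trans h5
  rw [h8, h9] at h10
  have h11 : ((1 + Nat.card K ^ 2) * (1 + Nat.card K)) * (1 + Nat.card K + Nat.card K ^ 2) ≤
      Φ.bn D W E * (1 + Nat.card K + Nat.card K ^ 2) := by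
    refine le_trans (le_of_eq ?_) h10
    ring
  exact Nat.le_of_mul_le_mul_right h11 (by omega)

private theorem bnO_aux {D : Subgroup (V ≃ₗ[K] V)} (hD : Φ.Grp D) (ht : Φ.t = 1) (k : ℕ) :
    ∀ W E : Submodule K V, finrank K E = k + 4 → Φ.ND W → Φ.TS E → E ≤ W →
    finrank K W = 2 * finrank K E → Φ.pn W ≤ Φ.bn D W E := by
  have hQ : 1 < Nat.card K := Finite.one_lt_card
  induction k with
  | zero =>
    intro W E hk hW hE hEW h4
    obtain ⟨x, y, hx, hxE, hy, hyW, hxy⟩ := exists_opp_in hW hE hEW (bnO_ne (by omega))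
    obtain ⟨hW', hwd, hE', hed, hEW', -⟩ := dsc hW hE hEW hx hxE hy hyW hxy
    apply bnO_step hD hW (Or.inl (by omega)) hE hEW hx hxE hy hyW hxy
    have h6 := bn_o6 hD ht hW' hE' hEW' (by omega) (by omega)
    have h7 := pn_ts hE
    rw [hk] at h7
    refine le_trans (le_of_eq ?_) h6
    rw [h7]
    simp only [zero_add, Finset.sum_range_succ, Finset.sum_range_zero]
    ring
  | succ k ih =>
    intro W E hk hW hE hEW h4
    obtain ⟨x, y, hx, hxE, hy, hyW, hxy⟩ := exists_opp_in hW hE hEW (bnO_ne (by omega))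
    obtain ⟨hW', hwd, hE', hed, hEW', -⟩ := dsc hW hE hEW hx hxE hy hyW hxy
    apply bnO_step hD hW (Or.inl (by omega)) hE hEW hx hxE hy hyW hxy
    have h3 := ih _ _ (by omega) hW' hE' hEW' (by omega)
    have h5 := pn_ge hW' hE' hEW' (bnO_ne (by omega))
    have h6 := pn_succ hE hE' hed
    have h7 : Nat.card K ^ (finrank K E - 1) ≤
        Φ.t * Nat.card K ^ (finrank K ↥(W ⊓ Φ.orth (x ⊔ y)) - 2) := by
      rw [ht, one_mul]
      exact Nat.pow_le_pow_right (by omega) (by omega)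
    omega

theorem bn_o {D : Subgroup (V ≃ₗ[K] V)} (hD : Φ.Grp D) (ht : Φ.t = 1)
    {W E : Submodule K V} (hW : Φ.ND W) (hE : Φ.TS E) (hEW : E ≤ W) (h3 : 4 ≤ finrank K E)
    (h4 : finrank K W = 2 * finrank K E) : Φ.pn W ≤ Φ.bn D W E :=
  bnO_aux hD ht (finrank K E - 4) W E (by omega) hW hE hEW h4

end PS

end Pool.Agent.Work.MP_bc729a_al.CG
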