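import Pool.Agent.Work.MP_bc729a_al.CG.Brec

/-! # Module BnU (S-M): there are at least as many images of a totally singular space as points, II

Let `Q = |K| = t * t`, so `t ≥ 2` (`Q ≥ 2`).
PROOF of `bn_u4`. `x, y` from `exists_opp_in`, `W'`, `E'` as in `dsc`: `finrank W' = 2`, `E'` is a point (dimension `1`, `TS.isPt`), `bn D W' E' = pn W' = 1 + t` (`bn_pt`, `2 ≤ t`, `pn_two`). `pn_rec` for `W`:
`pn W = 1 + Q (1 + t) + t Q ^ 2 = (1 + t ^ 2) (1 + t ^ 3)`. `pn E = 1 + Q = 1 + t ^ 2` (`pn_ts`). `bn_rec`: `(1 + t ^ 2) (1 + t ^ 3) (1 + t) ≤ bn D W E * (1 + t ^ 2)`; cancel `1 + t ^ 2`.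
PROOF of `bn_u`. Induction on `k = finrank E ≥ 3`, `w = 2 k`. With `x, y, W', E'` as before (`finrank W' = 2 (k - 1)`) it is enough that `pn E ≤ bn D W' E'` (as in BnA: `bn_rec`, divide by `pn E > 0`).
`k = 3`: `pn E = 1 + t ^ 2 + t ^ 4 ≤ (t ^ 3 + 1) (t + 1) ≤ bn D W' E'` (`bn_u4`). `k ≥ 4`: `bn D W' E' ≥ pn W' ≥ pn E' + t Q ^ (2 k - 4) ≥ pn E' + Q ^ (k - 1) = pn E` (induction, `pn_ge`, `pn_succ`). -/

namespace Pool.Agent.Work.MP_bc729a_al.CG

open Module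

universe u v

variable {K : Type u} {V : Type v} [Field K] [AddCommGroup V] [Module K V] [Finite K] [Finite V]

namespace PS

variable {Φ : PS K V}

omit [Finite V] in
private theorem two_le_t (ht : Φ.t * Φ.t = Nat.card K) : 2 ≤ Φ.t := by
  have h1 : 1 < Nat.card K := Finite.one_lt_card
  by_contra h
  have h2 : Φ.t ≤ 1 := by omega
  have h3 : Φ.t * Φ.t ≤ 1 * 1 := Nat.mul_le_mul h2 h2
  omega

omit [Finite K] in
private theorem pt_of_one {E : Submodule K V} (hE : Φ.TS E) (h1 : finrank K E = 1) : Φ.IsPt E := by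
  have hne : E ≠ ⊥ := by
    rintro rfl
    rw [finrank_bot] at h1
    omega
  obtain ⟨v, hv, h0⟩ := Submodule.exists_mem_ne_zero_of_ne_bot hne
  have h2 : Submodule.span K {v} = E := by
    refine Submodule.eq_of_le_of_finrank_eq ?_ ?_
    · rw [Submodule.span_singleton_le_iff_mem]
      exact hv
    · rw [finrank_span_singleton h0, h1]
  rw [← h2]
  exact hE.isPt hv h0

theorem bn_u4 {D : Subgroup (V ≃ₗ[K] V)} (hD : Φ.Grp D) (ht : Φ.t * Φ.t = Nat.card K)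
    {W E : Submodule K V} (hW : Φ.ND W) (hE : Φ.TS E) (hEW : E ≤ W) (h2 : finrank K E = 2)
    (h4 : finrank K W = 4) : (Φ.t ^ 3 + 1) * (Φ.t + 1) ≤ Φ.bn D W E := by
  have ht2 := two_le_t (Φ := Φ) ht
  have hne : E ≠ ⊥ := by
    rintro rfl
    rw [finrank_bot] at h2
    omega
  obtain ⟨x, y, hx, hxE, hy, hyW, hxy⟩ := exists_opp_in hW hE hEW hne
  obtain ⟨hND, hf, hTS, hfE, hle, -⟩ := dsc hW hE hEW hx hxE hy hyW hxy
  have hpt := pt_of_one hTS (by omega)
  have e1 := bn_pt hD hND (Or.inr ht2) hpt hle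
  have e2 := pn_two hND (by omega) hpt hle
  have e3 := pn_rec hW hx (hxE.trans hEW) hy hyW hxy
  have e4 := pn_ts hE
  have e5 := bn_rec hD hW (Or.inr ht2) hE hEW hx hxE hy hyW hxy
  rw [e1, e3, e2, e4, h4, h2, ← ht] at e5
  have h0 : 0 < 1 + Φ.t * Φ.t := by omega
  refine Nat.le_of_mul_le_mul_right ?_ h0
  calc (Φ.t ^ 3 + 1) * (Φ.t + 1) * (1 + Φ.t * Φ.t)
      = (1 + Φ.t * Φ.t * (1 + Φ.t) + Φ.t * (Φ.t * Φ.t) ^ (4 - 2)) * (1 + Φ.t) := by
        norm_num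
        ring
    _ ≤ Φ.bn D W E * ∑ i ∈ Finset.range 2, (Φ.t * Φ.t) ^ i := e5
    _ = Φ.bn D W E * (1 + Φ.t * Φ.t) := by
        rw [Finset.sum_range_succ, Finset.sum_range_one, pow_zero, pow_one]

theorem bn_u {D : Subgroup (V ≃ₗ[K] V)} (hD : Φ.Grp D) (ht : Φ.t * Φ.t = Nat.card K)
    {W E : Submodule K V} (hW : Φ.ND W) (hE : Φ.TS E) (hEW : E ≤ W) (h3 : 3 ≤ finrank K E)
    (h4 : finrank K W = 2 * finrank K E) : Φ.pn W ≤ Φ.bn D W E := by
  have ht2 := two_le_t (Φ := Φ) ht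
  obtain ⟨k, hk⟩ : ∃ k, k = finrank K E := ⟨_, rfl⟩
  induction k using Nat.strong_induction_on generalizing W E with
  | _ k ih =>
    have hne : E ≠ ⊥ := by
      rintro rfl
      rw [finrank_bot] at h3
      omega
    obtain ⟨x, y, hx, hxE, hy, hyW, hxy⟩ := exists_opp_in hW hE hEW hne
    obtain ⟨hND, hf, hTS, hfE, hle, -⟩ := dsc hW hE hEW hx hxE hy hyW hxy
    have e5 := bn_rec hD hW (Or.inr ht2) hE hEW hx hxE hy hyW hxy
    have hkey : Φ.pn E ≤ Φ.bn D (W ⊓ Φ.orth (x ⊔ y)) (E ⊓ Φ.orth y) := by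
      rcases Nat.lt_or_ge 3 (finrank K E) with h5 | h5
      · have h6 := ih (k - 1) (by omega) hND hTS hle (by omega) (by omega) (by omega)
        have hne' : E ⊓ Φ.orth y ≠ ⊥ := by
          intro h0
          rw [h0, finrank_bot] at hfE
          omega
        have h7 := pn_ge hND hTS hle hne'
        have h8 := pn_succ hE hTS hfE
        have h9 : Nat.card K ^ (finrank K E - 1) ≤
            Φ.t * Nat.card K ^ (finrank K ↥(W ⊓ Φ.orth (x ⊔ y)) - 2) := by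
          have h10 : Nat.card K ^ (finrank K E - 1) ≤
              Nat.card K ^ (finrank K ↥(W ⊓ Φ.orth (x ⊔ y)) - 2) :=
            Nat.pow_le_pow_right Nat.card_pos (by omega)
          exact h10.trans (Nat.le_mul_of_pos_left _ (by omega))
        omega
      · have h6 := bn_u4 hD ht hND hTS hle (by omega) (by omega)
        refine le_trans ?_ h6
        rw [pn_ts hE]
        have h7 : finrank K E = 3 := by omega
        rw [h7, ← ht, Finset.sum_range_succ, Finset.sum_range_succ, Finset.sum_range_one]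
        have h8 : Φ.t * Φ.t ≤ Φ.t * Φ.t * Φ.t := Nat.le_mul_of_pos_right _ (by omega)
        calc (Φ.t * Φ.t) ^ 0 + (Φ.t * Φ.t) ^ 1 + (Φ.t * Φ.t) ^ 2
            = 1 + Φ.t * Φ.t + Φ.t ^ 4 := by ring
          _ ≤ 1 + Φ.t * Φ.t * Φ.t + Φ.t ^ 4 + Φ.t := by omega
          _ = (Φ.t ^ 3 + 1) * (Φ.t + 1) := by ring
    have hpos := pn_pos_of hx hxE
    refine Nat.le_of_mul_le_mul_right ?_ hpos
    exact (Nat.mul_le_mul_left _ hkey).trans e5

end PS

end Pool.Agent.Work.MP_bc729a_al.CG
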