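import Pool.Agent.Work.MP_bc729a_al.CG.BnA
import Pool.Agent.Work.MP_bc729a_al.CG.BnU
import Pool.Agent.Work.MP_bc729a_al.CG.BnO

/-! # Module Bnd (S-M): more images than points

Let `n = finrank V`, `k = finrank E ≥ 2`, `Q = |K|`, `2 k ≤ n` (`ts_dim`, `ND_top`). `x, y` from `exists_opp_in` with `W = ⊤`, `W' = ⊤ ⊓ orth (x ⊔ y)`, `E' = E ⊓ orth y` as in `dsc`, `finrank W' = n - 2`, `finrank E' = k - 1 ≥ 1`.
It is enough that `pn E < bn D W' E'`: then `pn ⊤ * pn E < pn ⊤ * bn D W' E' ≤ bn D ⊤ E * pn E` (`bn_rec`, `pn_pos_of`). `pn E = pn E' + Q ^ (k - 1)` (`pn_succ`), `pn W' ≥ pn E' + t Q ^ (n - 4)` (`pn_ge`).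
(i) `n ≥ 2 k + 1` or `t = Q`: `bn D W' E' ≥ pn W'` (`bn_ge`), so `t Q ^ (n - 4) > Q ^ (k - 1)` is enough. If `t = Q` (then `c ≥ 1`, `n ≥ 5`): `n - 3 > k - 1`, as `n ≥ 5`, `n ≥ 2 k`. Otherwise `n ≥ 2 k + 1`; if `t ≥ 2`: `n - 4 ≥ k - 1` (`n ≥ 5` and
`n ≥ 2 k + 1`); if `t = 1`: `c = 3` (`typ`), `n ≥ 7` and `n - 4 > k - 1`.
(ii) `n = 2 k`, `t * t = Q`, `c = 2`: `n ≥ 6`, `k ≥ 3`. `k = 3`: `bn D W' E' ≥ (t ^ 3 + 1) (t + 1) > 1 + t ^ 2 + t ^ 4 = pn E` (`bn_u4`). `k ≥ 4`: `bn D W' E' ≥ pn W'` (`bn_u`) and `t Q ^ (2 k - 4) > Q ^ (k - 1)`.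
(iii) `n = 2 k`, `t = 1`, `c = 3`: `n ≥ 7`, so `k ≥ 4`, and `k ≠ 4` by hypothesis; `bn D W' E' ≥ pn W'` (`bn_o`, `k - 1 ≥ 4`) and `Q ^ (2 k - 4) > Q ^ (k - 1)`. -/

namespace Pool.Agent.Work.MP_bc729a_al.CG

open Module

universe u v

variable {K : Type u} {V : Type v} [Field K] [AddCommGroup V] [Module K V] [Finite K] [Finite V]

namespace PS

variable {Φ : PS K V}

theorem idx_bound {D : Subgroup (V ≃ₗ[K] V)} (hD : Φ.Grp D) (hc : Φ.c + 4 ≤ finrank K V)
    {E : Submodule K V} (hE : Φ.TS E) (h2 : 2 ≤ finrank K E)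
    (h8 : ¬ (Φ.t = 1 ∧ finrank K V = 8 ∧ finrank K E = 4)) :
    Φ.pn ⊤ < Φ.bn D ⊤ E := by
  have hQ : 1 < Nat.card K := Finite.one_lt_card
  have htp := Φ.t_pos
  have h2k : 2 * finrank K E ≤ finrank K V := by
    have h := ts_dim ND_top hE le_top
    rwa [finrank_top] at h
  have hEb : E ≠ ⊥ := by
    rintro rfl
    rw [finrank_bot] at h2
    omega
  obtain ⟨x, y, hx, hxE, hy, hyW, hxy⟩ := exists_opp_in ND_top hE le_top hEb
  obtain ⟨hW', hfW, hE', hfE, hEW', -⟩ := dsc ND_top hE le_top hx hxE hy hyW hxy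
  have hrec := bn_rec hD ND_top (Or.inl (by rw [finrank_top]; have := Φ.one_le_c; omega)) hE
    le_top hx hxE hy hyW hxy
  rw [finrank_top] at hfW
  set W' := (⊤ : Submodule K V) ⊓ Φ.orth (x ⊔ y) with hW'd
  set E' := E ⊓ Φ.orth y with hE'd
  have hE'b : E' ≠ ⊥ := by
    intro hb
    rw [hb, finrank_bot] at hfE
    omega
  have hsucc := pn_succ hE hE' hfE
  have hge := pn_ge hW' hE' hEW' hE'b
  have hfW2 : finrank K ↥W' - 2 = finrank K V - 4 := by omega
  rw [hfW2] at hge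
  have hpE : 0 < Φ.pn E := pn_pos_of hx hxE
  have hpT : 0 < Φ.pn ⊤ := pn_pos_of hx (hxE.trans le_top)
  suffices hmain : Φ.pn E < Φ.bn D W' E' by
    by_contra hcon
    have hcon' := not_lt.1 hcon
    have h3 : Φ.pn ⊤ * Φ.pn E < Φ.pn ⊤ * Φ.bn D W' E' := Nat.mul_lt_mul_of_pos_left hmain hpT
    have h4 : Φ.bn D ⊤ E * Φ.pn E ≤ Φ.pn ⊤ * Φ.pn E := Nat.mul_le_mul_right _ hcon'
    omega
  have key : Φ.pn W' ≤ Φ.bn D W' E' →
      Nat.card K ^ (finrank K E - 1) < Φ.t * Nat.card K ^ (finrank K V - 4) →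
      Φ.pn E < Φ.bn D W' E' := by
    intro h3 h4
    omega
  by_cases hi : 2 * finrank K E + 1 ≤ finrank K V ∨ Φ.t = Nat.card K
  · apply key (bn_ge hD hW' hE' hEW' hE'b (hi.imp (by intro h; omega) id))
    by_cases ht : Φ.t = Nat.card K
    · have hc1 : 5 ≤ finrank K V := by have := Φ.one_le_c; omega
      rw [ht, ← pow_succ']
      apply Nat.pow_lt_pow_right hQ
      omega
    · have hi1 : 2 * finrank K E + 1 ≤ finrank K V := hi.resolve_right ht
      rcases Nat.lt_or_ge Φ.t 2 with h1 | h1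
      · have ht1 : Φ.t = 1 := by omega
        have hc3 : Φ.c = 3 := by
          rcases Φ.typ with ⟨h, -⟩ | ⟨-, h⟩ | ⟨-, h⟩
          · exact h
          · rw [ht1] at h
            omega
          · exact absurd h ht
        rw [ht1, one_mul]
        apply Nat.pow_lt_pow_right hQ
        omega
      · have h3 : Nat.card K ^ (finrank K E - 1) ≤ Nat.card K ^ (finrank K V - 4) :=
          Nat.pow_le_pow_right (by omega) (by omega)
        have h4 : 0 < Nat.card K ^ (finrank K E - 1) := pow_pos (by omega) _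
        calc Nat.card K ^ (finrank K E - 1) < 2 * Nat.card K ^ (finrank K E - 1) := by omega
          _ ≤ Φ.t * Nat.card K ^ (finrank K V - 4) := Nat.mul_le_mul h1 h3
  · have hn : finrank K V = 2 * finrank K E := by
      have h5 : ¬ 2 * finrank K E + 1 ≤ finrank K V := fun h => hi (Or.inl h)
      omega
    have ht : Φ.t ≠ Nat.card K := fun h => hi (Or.inr h)
    have hfW3 : finrank K ↥W' = 2 * finrank K ↥E' := by omega
    have hbig : 4 ≤ finrank K E →
        Nat.card K ^ (finrank K E - 1) < Φ.t * Nat.card K ^ (finrank K V - 4) := by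
      intro h4
      have h3 : Nat.card K ^ (finrank K E - 1) < Nat.card K ^ (finrank K V - 4) :=
        Nat.pow_lt_pow_right hQ (by omega)
      exact h3.trans_le (Nat.le_mul_of_pos_left _ htp)
    rcases Φ.typ with ⟨hc3, ht1⟩ | ⟨hc2, htt⟩ | ⟨-, h⟩
    · have hk5 : 5 ≤ finrank K E := by
        by_contra hcon
        have hk4 : finrank K E = 4 := by omega
        exact h8 ⟨ht1, by omega, hk4⟩
      exact key (bn_o hD ht1 hW' hE' hEW' (by omega) hfW3) (hbig (by omega))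
    · by_cases hk3 : finrank K E = 3
      · have h4 := bn_u4 hD htt hW' hE' hEW' (by omega) (by omega)
        have h5 : Φ.pn E = 1 + Nat.card K + Nat.card K ^ 2 := by
          rw [pn_ts hE, hk3]
          simp [Finset.sum_range_succ]
        refine lt_of_lt_of_le ?_ h4
        rw [h5, ← htt]
        nlinarith [pow_pos htp 2, pow_pos htp 3, mul_pos htp htp, sq_nonneg ((Φ.t : ℤ) - 1)]
      · have h3 : 3 ≤ finrank K E := by omega
        exact key (bn_u hD htt hW' hE' hEW' (by omega) hfW3) (hbig (by omega))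
    · exact absurd h ht

end PS

end Pool.Agent.Work.MP_bc729a_al.CG
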