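import Pool.Agent.Work.MP_bc729a_al.CG.Bas

/-! # The classical groups: definitions -/

namespace Pool.Agent.Work.MP_bc729a_al.CG

open Module

universe u v

variable {K : Type u} {V : Type v} [Field K] [AddCommGroup V] [Module K V]

/-- the isometries of a bilinear form -/
def SpB (B : LinearMap.BilinForm K V) : Subgroup (V ≃ₗ[K] V) where
  carrier := {g | ∀ u v, B (g u) (g v) = B u v}
  one_mem' := fun _ _ => rfl
  mul_mem' := by
    intro a b ha hb u v
    exact (ha (b u) (b v)).trans (hb u v)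
  inv_mem' := by
    intro a ha u v
    have h := ha (a⁻¹ u) (a⁻¹ v)
    have e1 : a (a⁻¹ u) = u := a.apply_symm_apply u
    have e2 : a (a⁻¹ v) = v := a.apply_symm_apply v
    rw [e1, e2] at h
    exact h.symm

theorem mem_SpB {B : LinearMap.BilinForm K V} {g : V ≃ₗ[K] V} :
    g ∈ SpB B ↔ ∀ u v, B (g u) (g v) = B u v := Iff.rfl

/-- the isometries of determinant one of a sesquilinear form -/
def SUh {σ : K →+* K} (h : V →ₛₗ[σ] V →ₗ[K] K) : Subgroup (V ≃ₗ[K] V) where
  carrier := {g | (∀ u v, h (g u) (g v) = h u v) ∧ LinearEquiv.det g = 1}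
  one_mem' := ⟨fun _ _ => rfl, map_one _⟩
  mul_mem' := by
    rintro a b ⟨ha, ha'⟩ ⟨hb, hb'⟩
    refine ⟨fun u v => (ha (b u) (b v)).trans (hb u v), ?_⟩
    rw [map_mul, ha', hb', mul_one]
  inv_mem' := by
    rintro a ⟨ha, ha'⟩
    refine ⟨fun u v => ?_, by rw [map_inv, ha', inv_one]⟩
    have h := ha (a⁻¹ u) (a⁻¹ v)
    have e1 : a (a⁻¹ u) = u := a.apply_symm_apply u
    have e2 : a (a⁻¹ v) = v := a.apply_symm_apply v
    rw [e1, e2] at h
    exact h.symm

theorem mem_SUh {σ : K →+* K} {h : V →ₛₗ[σ] V →ₗ[K] K} {g : V ≃ₗ[K] V} :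
    g ∈ SUh h ↔ (∀ u v, h (g u) (g v) = h u v) ∧ LinearEquiv.det g = 1 := Iff.rfl

/-- the isometries of a quadratic form -/
def OQ (Q : QuadraticForm K V) : Subgroup (V ≃ₗ[K] V) where
  carrier := {g | ∀ v, Q (g v) = Q v}
  one_mem' := fun _ => rfl
  mul_mem' := by
    intro a b ha hb v
    exact (ha (b v)).trans (hb v)
  inv_mem' := by
    intro a ha v
    have h := ha (a⁻¹ v)
    have e1 : a (a⁻¹ v) = v := a.apply_symm_apply v
    rw [e1] at h
    exact h.symm

theorem mem_OQ {Q : QuadraticForm K V} {g : V ≃ₗ[K] V} :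
    g ∈ OQ Q ↔ ∀ v, Q (g v) = Q v := Iff.rfl

/-- the Eichler transformation -/
def eich (Q : QuadraticForm K V) (x u : V) : V →ₗ[K] V where
  toFun v := v + QuadraticMap.polar Q v x • u - QuadraticMap.polar Q v u • x -
    (Q u * QuadraticMap.polar Q v x) • x
  map_add' := by
    intro a b
    rw [QuadraticMap.polar_add_left, QuadraticMap.polar_add_left]
    module
  map_smul' := by
    intro a b
    rw [QuadraticMap.polar_smul_left, QuadraticMap.polar_smul_left]
    simp only [smul_eq_mul, RingHom.id_apply]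
    module

theorem eich_apply (Q : QuadraticForm K V) (x u v : V) :
    eich Q x u v = v + QuadraticMap.polar Q v x • u - QuadraticMap.polar Q v u • x -
      (Q u * QuadraticMap.polar Q v x) • x := rfl

end Pool.Agent.Work.MP_bc729a_al.CG
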