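import Pool.Agent.Work.MP_bc729a_al.CG.Nd

/-! # Module Hyp (M): existence of singular points

PROOF. `le_span_or`: for a point `x` and `v ∉ orth x` write `x = span {x₀}`, `B v x₀ ≠ 0` (`mem_orth_span`).
`sep`. `z = span {z₀}`. If `¬ z ≤ orth E` there is `e ∈ E` with `B z₀ e ≠ 0`, `w = span {e}` (`TS.isPt`; `w ≤ E ≤ orth E`). Otherwise
`z ≤ orth E`. There is `u ∈ W ⊓ orth E` with `B u z₀ ≠ 0`: otherwise `z₀ ∈ orth (W ⊓ orth E) = orth W ⊔ E` (`orth_inf`, `orth_orth`),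
`z₀ = a + e`, `a = z₀ - e ∈ W ⊓ orth W = ⊥`, so `z₀ = e ∈ E`, `z ≤ E`, contradiction. By `exists_S` there is `a` with `S (u + a • z₀)`;
`w = span {u + a • z₀}`: `B (u + a • z₀) z₀ = B u z₀ + a * B z₀ z₀ = B u z₀ ≠ 0` (so the vector is not `0`), and `z₀ ∈ W ⊓ orth E`.
`exists_opp`: `sep` with `E = ⊥`. `exists_opp2`: `x = span {x₀}`, `x' = span {x₀'}`, `B x₀ x₀' = 0`. There is `u ∈ W` with `B u x₀ ≠ 0`,
`B u x₀' ≠ 0`: otherwise `W` is the union of `W ⊓ orth x` and `W ⊓ orth x'`, both proper in `W` (`exists_opp`), impossible for groups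
(if `u₁` is outside the first and `u₂` outside the second, then `u₁ ∈` second, `u₂ ∈` first and `u₁ + u₂` is in neither). `exists_S`:
`S (u + a • x₀)`; `w` its span.
`hyp_nd`: `x = span {x₀}`, `y = span {y₀}`, `B y₀ x₀ ≠ 0`, `B x₀ y₀ ≠ 0`, `B x₀ x₀ = B y₀ y₀ = 0` (`S_B`): `x ⊓ y = ⊥` (a common vector is
perpendicular to both), so the dimension is `2`; if `a • x₀ + b • y₀ ∈ orth (x ⊔ y)` then `b = 0` and `a = 0`.
`span_pts`: let `M` be the right side. `x ≤ M`. If `v ∈ W`, `B v x₀ ≠ 0` then `v + a • x₀` is singular for some `a`, in `M`, so `v ∈ M`. Choose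
`y₀ ∈ W` with `B y₀ x₀ ≠ 0` (`exists_opp`); if `B v x₀ = 0` then `v + y₀ ∈ M` and `y₀ ∈ M`, so `v ∈ M`.
`exists_pt`: `Φ.ex`. -/

namespace Pool.Agent.Work.MP_bc729a_al.CG

open Module

universe u v

variable {K : Type u} {V : Type v} [Field K] [AddCommGroup V] [Module K V] [Finite K] [Finite V]

namespace PS

variable {Φ : PS K V}

theorem sep {W E z : Submodule K V} (hW : Φ.ND W) (hE : Φ.TS E) (hEW : E ≤ W)
    (hz : Φ.IsPt z) (hzW : z ≤ W) (h : ¬ z ≤ E) :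
    ∃ w, Φ.IsPt w ∧ w ≤ W ∧ w ≤ Φ.orth E ∧ ¬ w ≤ Φ.orth z := by
  obtain ⟨z₀, hz0, hzS, rfl⟩ := hz
  have hz₀W : z₀ ∈ W := hzW (Submodule.mem_span_singleton_self z₀)
  by_cases hzE : Submodule.span K {z₀} ≤ Φ.orth E
  · -- a vector of `W ⊓ orth E` not perpendicular to `z₀`
    have hex : ∃ u ∈ W ⊓ Φ.orth E, Φ.B u z₀ ≠ 0 := by
      by_contra hcon
      push Not at hcon
      have h1 : z₀ ∈ Φ.orth (W ⊓ Φ.orth E) := fun u hu => Φ.refl _ _ (hcon u hu)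
      rw [Φ.orth_inf, Φ.orth_orth] at h1
      obtain ⟨a, ha, e, he, hae⟩ := Submodule.mem_sup.1 h1
      have haW : a ∈ W := by
        have h2 := W.sub_mem hz₀W (hEW he)
        rwa [← hae, add_sub_cancel_right] at h2
      have ha0 : a ∈ W ⊓ Φ.orth W := ⟨haW, ha⟩
      unfold ND at hW
      rw [hW, Submodule.mem_bot] at ha0
      rw [ha0, zero_add] at hae
      apply h
      rw [Submodule.span_singleton_le_iff_mem, ← hae]
      exact he
    obtain ⟨u, hu, hne⟩ := hex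
    obtain ⟨a, ha⟩ := Φ.exists_S hzS hne
    have hB : Φ.B (u + a • z₀) z₀ ≠ 0 := by
      rw [Φ.add_left, Φ.smul_left, Φ.S_B z₀ hzS, mul_zero, add_zero]
      exact hne
    have hz₀E : z₀ ∈ Φ.orth E := hzE (Submodule.mem_span_singleton_self z₀)
    refine ⟨Submodule.span K {u + a • z₀}, isPt_span ?_ ha, ?_, ?_, ?_⟩
    · intro h0
      rw [h0, Φ.B_zero_left] at hB
      exact hB rfl
    · rw [Submodule.span_singleton_le_iff_mem]
      exact W.add_mem hu.1 (W.smul_mem _ hz₀W)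
    · rw [Submodule.span_singleton_le_iff_mem]
      exact (Φ.orth E).add_mem hu.2 ((Φ.orth E).smul_mem _ hz₀E)
    · rw [Φ.span_le_orth]
      exact hB
  · rw [Φ.span_le_orth'] at hzE
    push Not at hzE
    obtain ⟨e, he, hne⟩ := hzE
    have he0 : e ≠ 0 := by
      rintro rfl
      exact hne (Φ.B_zero_right z₀)
    have hle : Submodule.span K {e} ≤ E := by
      rw [Submodule.span_singleton_le_iff_mem]
      exact he
    refine ⟨Submodule.span K {e}, hE.isPt he he0, hle.trans hEW, hle.trans hE.2, ?_⟩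
    rw [Φ.span_le_orth]
    intro h0
    exact hne (Φ.refl _ _ h0)

theorem exists_opp {W x : Submodule K V} (hW : Φ.ND W) (hx : Φ.IsPt x) (hxW : x ≤ W) :
    ∃ y, Φ.IsPt y ∧ y ≤ W ∧ ¬ y ≤ Φ.orth x := by
  have hbot : Φ.TS (⊥ : Submodule K V) := by
    refine ⟨fun v hv => ?_, bot_le⟩
    rw [(Submodule.mem_bot K).1 hv]
    exact Φ.S_zero
  obtain ⟨w, h1, h2, -, h3⟩ := sep hW hbot bot_le hx hxW
    (fun h => hx.ne_bot (eq_bot_iff.2 h))
  exact ⟨w, h1, h2, h3⟩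

omit [Finite V] in
/-- a vector which is perpendicular to neither of two perpendicular points gives a point -/
private theorem pt_of_vec {W : Submodule K V} {x₀ x₁ u : V} (hS : Φ.S x₀)
    (hx₀ : x₀ ∈ W) (hu : u ∈ W) (h01 : Φ.B x₀ x₁ = 0) (h0 : Φ.B u x₀ ≠ 0) (h1 : Φ.B u x₁ ≠ 0) :
    ∃ w, Φ.IsPt w ∧ w ≤ W ∧ ¬ w ≤ Φ.orth (Submodule.span K {x₀}) ∧
      ¬ w ≤ Φ.orth (Submodule.span K {x₁}) := by
  obtain ⟨a, ha⟩ := Φ.exists_S hS h0
  have hB : Φ.B (u + a • x₀) x₀ ≠ 0 := by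
    rw [Φ.add_left, Φ.smul_left, Φ.S_B x₀ hS, mul_zero, add_zero]
    exact h0
  have hB1 : Φ.B (u + a • x₀) x₁ ≠ 0 := by
    rw [Φ.add_left, Φ.smul_left, h01, mul_zero, add_zero]
    exact h1
  refine ⟨Submodule.span K {u + a • x₀}, isPt_span ?_ ha, ?_, ?_, ?_⟩
  · intro h0
    rw [h0, Φ.B_zero_left] at hB
    exact hB rfl
  · rw [Submodule.span_singleton_le_iff_mem]
    exact W.add_mem hu (W.smul_mem _ hx₀)
  · rw [Φ.span_le_orth]
    exact hB
  · rw [Φ.span_le_orth]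
    exact hB1

theorem exists_opp2 {W x x' : Submodule K V} (hW : Φ.ND W) (hx : Φ.IsPt x) (hxW : x ≤ W)
    (hx' : Φ.IsPt x') (hxW' : x' ≤ W) (h : x ≤ Φ.orth x') :
    ∃ w, Φ.IsPt w ∧ w ≤ W ∧ ¬ w ≤ Φ.orth x ∧ ¬ w ≤ Φ.orth x' := by
  obtain ⟨y, hy, hyW, hyx⟩ := exists_opp hW hx hxW
  obtain ⟨y', hy', hyW', hyx'⟩ := exists_opp hW hx' hxW'
  obtain ⟨x₀, hx0, hxS, rfl⟩ := hx
  obtain ⟨x₁, hx1, hxS1, rfl⟩ := hx'
  obtain ⟨y₀, hy0, hyS, rfl⟩ := hy
  obtain ⟨y₁, hy1, hyS1, rfl⟩ := hy'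
  rw [Φ.span_le_orth] at hyx hyx' h
  have hx₀W : x₀ ∈ W := hxW (Submodule.mem_span_singleton_self x₀)
  have hy₀W : y₀ ∈ W := hyW (Submodule.mem_span_singleton_self y₀)
  have hy₁W : y₁ ∈ W := hyW' (Submodule.mem_span_singleton_self y₁)
  by_cases c1 : Φ.B y₀ x₁ = 0
  · by_cases c2 : Φ.B y₁ x₀ = 0
    · refine pt_of_vec hxS hx₀W (W.add_mem hy₀W hy₁W) h ?_ ?_
      · rw [Φ.add_left, c2, add_zero]
        exact hyx
      · rw [Φ.add_left, c1, zero_add]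
        exact hyx'
    · exact pt_of_vec hxS hx₀W hy₁W h c2 hyx'
  · exact pt_of_vec hxS hx₀W hy₀W h hyx c1

theorem hyp_nd {x y : Submodule K V} (hx : Φ.IsPt x) (hy : Φ.IsPt y) (h : ¬ y ≤ Φ.orth x) :
    Φ.ND (x ⊔ y) ∧ finrank K ↥(x ⊔ y) = 2 := by
  have hfx := hx.finrank
  have hfy := hy.finrank
  have hinf : x ⊓ y = ⊥ := by
    refine hx.inf_eq_bot (fun hxy => h ?_)
    have := hx.eq_of_le hy hxy
    rw [this]
    exact hy.self
  obtain ⟨x₀, hx0, hxS, rfl⟩ := hx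
  obtain ⟨y₀, hy0, hyS, rfl⟩ := hy
  rw [Φ.span_le_orth] at h
  have h' : Φ.B x₀ y₀ ≠ 0 := fun h0 => h (Φ.refl _ _ h0)
  constructor
  · unfold ND
    rw [eq_bot_iff]
    rintro v ⟨hv, hvo⟩
    obtain ⟨a', ha, b', hb, rfl⟩ := Submodule.mem_sup.1 hv
    obtain ⟨a, rfl⟩ := Submodule.mem_span_singleton.1 ha
    obtain ⟨b, rfl⟩ := Submodule.mem_span_singleton.1 hb
    rw [Φ.orth_sup] at hvo
    have h1 := Φ.mem_orth_span.1 hvo.1
    have h2 := Φ.mem_orth_span.1 hvo.2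
    rw [Φ.add_left, Φ.smul_left, Φ.smul_left, Φ.S_B x₀ hxS, mul_zero, zero_add] at h1
    rw [Φ.add_left, Φ.smul_left, Φ.smul_left, Φ.S_B y₀ hyS, mul_zero, add_zero] at h2
    have hb0 : b = 0 := (mul_eq_zero.1 h1).resolve_right h
    have ha0 : a = 0 := (mul_eq_zero.1 h2).resolve_right h'
    rw [Submodule.mem_bot, ha0, hb0, zero_smul, zero_smul, add_zero]
  · have h1 := Submodule.finrank_sup_add_finrank_inf_eq (Submodule.span K {x₀})
      (Submodule.span K {y₀})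
    rw [hinf, finrank_bot, hfx, hfy, add_zero] at h1
    exact h1

theorem span_pts {W x : Submodule K V} (hW : Φ.ND W) (hx : Φ.IsPt x) (hxW : x ≤ W) :
    W = sSup {z | Φ.IsPt z ∧ z ≤ W} := by
  apply le_antisymm
  · obtain ⟨y, hy, hyW, hyx⟩ := exists_opp hW hx hxW
    have hle : ∀ z, Φ.IsPt z → z ≤ W → z ≤ sSup {z | Φ.IsPt z ∧ z ≤ W} :=
      fun z h1 h2 => le_sSup ⟨h1, h2⟩
    have hxM := hle x hx hxW
    obtain ⟨x₀, hx0, hxS, rfl⟩ := hx
    obtain ⟨y₀, hy0, hyS, rfl⟩ := hy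
    rw [Φ.span_le_orth] at hyx
    have hx₀W : x₀ ∈ W := hxW (Submodule.mem_span_singleton_self x₀)
    have hy₀W : y₀ ∈ W := hyW (Submodule.mem_span_singleton_self y₀)
    have hx₀M := hxM (Submodule.mem_span_singleton_self x₀)
    have key : ∀ v ∈ W, Φ.B v x₀ ≠ 0 → v ∈ sSup {z | Φ.IsPt z ∧ z ≤ W} := by
      intro v hv hne
      obtain ⟨a, ha⟩ := Φ.exists_S hxS hne
      have hB : Φ.B (v + a • x₀) x₀ ≠ 0 := by
        rw [Φ.add_left, Φ.smul_left, Φ.S_B x₀ hxS, mul_zero, add_zero]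
        exact hne
      have h0 : v + a • x₀ ≠ 0 := by
        intro h0
        rw [h0, Φ.B_zero_left] at hB
        exact hB rfl
      have h1 := hle (Submodule.span K {v + a • x₀}) (isPt_span h0 ha) (by
        rw [Submodule.span_singleton_le_iff_mem]
        exact W.add_mem hv (W.smul_mem _ hx₀W))
      have h2 := h1 (Submodule.mem_span_singleton_self _)
      have h3 := Submodule.sub_mem _ h2 (Submodule.smul_mem _ a hx₀M)
      rwa [add_sub_cancel_right] at h3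
    intro v hv
    by_cases h0 : Φ.B v x₀ = 0
    · have h1 := key (v + y₀) (W.add_mem hv hy₀W) (by
        rw [Φ.add_left, h0, zero_add]
        exact hyx)
      have h2 := key y₀ hy₀W hyx
      have h3 := Submodule.sub_mem _ h1 h2
      rwa [add_sub_cancel_right] at h3
    · exact key v hv h0
  · exact sSup_le (fun z hz => hz.2)

theorem exists_pt {W : Submodule K V} (h : Φ.c ≤ finrank K W) : ∃ x, Φ.IsPt x ∧ x ≤ W := by
  obtain ⟨v, hv, h0, hS⟩ := Φ.ex W h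
  refine ⟨Submodule.span K {v}, isPt_span h0 hS, ?_⟩
  rw [Submodule.span_singleton_le_iff_mem]
  exact hv

end PS

end Pool.Agent.Work.MP_bc729a_al.CG
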