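import Pool.Agent.Work.MP_bc729a_al.CG.Pts
import Pool.Agent.Work.MP_bc729a_al.CG.Hyp

/-! # Module Rec (M-L): the number of points of a nondegenerate subspace

Let `Q = |K|`, `x = span {x₀}`, `y = span {y₀}`, `W' = W ⊓ orth (x ⊔ y)`, `finrank W' = finrank W - 2` (`ND.finrank_inf_orth`, `hyp_nd`).
PROOF of `card_opp`. Take `y` from `exists_opp`, scaled such that `B y₀ x₀ = 1`. The points `z ≤ W` with `¬ z ≤ orth x` correspond to the singular vectors
`v ∈ W` with `B v x₀ = 1` (`z = span {v}`; every such point contains exactly one such vector). `v ↦ v - y₀` is a bijection of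
`{v ∈ W | B v x₀ = 1}` with `W ⊓ orth x`, which is the direct sum of `x` and `W'` (`x ≤ W ⊓ orth x`, `x ⊓ W' = ⊥` as `x` is not perpendicular to
`y`, dimensions). So the vectors are `y₀ + u + a • x₀`, `u ∈ W'`, `a ∈ K`, uniquely; for each `u` there are exactly `t` numbers `a` with
`S (y₀ + u + a • x₀)` (`card_t`, `B (y₀ + u) x₀ = 1`). So the number is `t |W'| = t Q ^ (finrank W - 2)`.
PROOF of `pn_rec`. The points of `W` are: the points not perpendicular to `x` (`card_opp`), `x`, and the points `z ≠ x` of `W ⊓ orth x`. The last ones are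
`span {u + a • x₀}` with `u ∈ W'` spanning a point (`S (u + a • x₀) ↔ S u`), `a ∈ K`: the map `z ↦ (x ⊔ z) ⊓ W'` onto the points of
`W'` has fibres of size `Q` (the points `≠ x` of the line `x ⊔ u`; `pn (x ⊔ u) = 1 + Q`). Alternatively count vectors and use `pn_vec`: the
singular vectors of `W ⊓ orth x = x ⊕ W'` are `a • x₀ + u` with `u ∈ W'` singular, `Q ((Q - 1) pn W' + 1)` many. -/

namespace Pool.Agent.Work.MP_bc729a_al.CG

open Module

universe u v

variable {K : Type u} {V : Type v} [Field K] [AddCommGroup V] [Module K V] [Finite K] [Finite V]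

namespace PS

variable {Φ : PS K V}

private theorem cardSub (W : Submodule K V) : Nat.card W = Nat.card K ^ finrank K W := by
  have := Fintype.ofFinite K
  have := Fintype.ofFinite W
  rw [Nat.card_eq_fintype_card, Nat.card_eq_fintype_card]
  exact Module.card_eq_pow_finrank

private theorem mem_w' {W : Submodule K V} {x₀ y₀ u : V} :
    u ∈ W ⊓ Φ.orth (Submodule.span K {x₀} ⊔ Submodule.span K {y₀}) ↔
      u ∈ W ∧ Φ.B u x₀ = 0 ∧ Φ.B u y₀ = 0 := by
  rw [Φ.orth_sup, Submodule.mem_inf, Submodule.mem_inf, Φ.mem_orth_span, Φ.mem_orth_span]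

/-- decomposition of the vectors of `W` perpendicular to `x₀` -/
private theorem decomp {W : Submodule K V} {x₀ y₀ v : V} (hx₀ : x₀ ∈ W) (hxx : Φ.B x₀ x₀ = 0)
    (hxy : Φ.B x₀ y₀ ≠ 0) (hv : v ∈ W) (hvx : Φ.B v x₀ = 0) :
    ∃ a : K, ∃ u, u ∈ W ⊓ Φ.orth (Submodule.span K {x₀} ⊔ Submodule.span K {y₀}) ∧
      v = u + a • x₀ := by
  refine ⟨Φ.B v y₀ / Φ.B x₀ y₀, v - (Φ.B v y₀ / Φ.B x₀ y₀) • x₀, ?_, by abel⟩
  rw [mem_w']
  refine ⟨W.sub_mem hv (W.smul_mem _ hx₀), ?_, ?_⟩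
  · rw [Φ.B_sub_left, Φ.smul_left, hvx, hxx, mul_zero, sub_zero]
  · rw [Φ.B_sub_left, Φ.smul_left, div_mul_cancel₀ _ hxy, sub_self]

private theorem decomp_inj {W : Submodule K V} {x₀ y₀ u u' : V} {a a' : K}
    (hxy : Φ.B x₀ y₀ ≠ 0)
    (hu : u ∈ W ⊓ Φ.orth (Submodule.span K {x₀} ⊔ Submodule.span K {y₀}))
    (hu' : u' ∈ W ⊓ Φ.orth (Submodule.span K {x₀} ⊔ Submodule.span K {y₀}))
    (h : u + a • x₀ = u' + a' • x₀) : u = u' ∧ a = a' := by
  rw [mem_w'] at hu hu'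
  have h1 : Φ.B (u + a • x₀) y₀ = Φ.B (u' + a' • x₀) y₀ := by rw [h]
  rw [Φ.add_left, Φ.add_left, Φ.smul_left, Φ.smul_left, hu.2.2, hu'.2.2, zero_add, zero_add] at h1
  have h2 : a = a' := mul_right_cancel₀ hxy h1
  rw [h2] at h
  exact ⟨add_right_cancel h, h2⟩

private theorem opp_aux {W : Submodule K V} {x₀ y₀ : V} (hx₀ : x₀ ∈ W) (hSx : Φ.S x₀)
    (hy₀ : y₀ ∈ W) (hB : Φ.B y₀ x₀ = 1) :
    Nat.card {z : Submodule K V // Φ.IsPt z ∧ z ≤ W ∧ ¬ z ≤ Φ.orth (Submodule.span K {x₀})} =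
      Φ.t * Nat.card ↥(W ⊓ Φ.orth (Submodule.span K {x₀} ⊔ Submodule.span K {y₀})) := by
  have hxx : Φ.B x₀ x₀ = 0 := Φ.S_B x₀ hSx
  have hxy : Φ.B x₀ y₀ ≠ 0 := by
    intro h
    have := Φ.refl _ _ h
    rw [hB] at this
    exact one_ne_zero this
  set W' := W ⊓ Φ.orth (Submodule.span K {x₀} ⊔ Submodule.span K {y₀}) with hW'
  have hBv : ∀ (u : W') (a : K), Φ.B (y₀ + (u : V) + a • x₀) x₀ = 1 := by
    intro u a
    have h1 := mem_w'.1 u.2
    rw [Φ.add_left, Φ.add_left, Φ.smul_left, hB, h1.2.1, hxx, mul_zero, add_zero, add_zero]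
  have hmem : ∀ (u : W') (a : K), y₀ + (u : V) + a • x₀ ∈ W := by
    intro u a
    exact W.add_mem (W.add_mem hy₀ (mem_w'.1 u.2).1) (W.smul_mem _ hx₀)
  have hne : ∀ (u : W') (a : K), y₀ + (u : V) + a • x₀ ≠ 0 := by
    intro u a h
    have h1 := hBv u a
    rw [h, Φ.B_zero_left] at h1
    exact zero_ne_one h1
  have := Fintype.ofFinite W'
  let F : (Σ u : W', {a : K // Φ.S (y₀ + (u : V) + a • x₀)}) →
      {z : Submodule K V // Φ.IsPt z ∧ z ≤ W ∧ ¬ z ≤ Φ.orth (Submodule.span K {x₀})} :=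
    fun p => ⟨Submodule.span K {y₀ + (p.1 : V) + (p.2 : K) • x₀},
      isPt_span (hne p.1 p.2) p.2.2,
      by
        rw [Submodule.span_singleton_le_iff_mem]
        exact hmem p.1 p.2,
      by
        rw [Φ.span_le_orth, hBv]
        exact one_ne_zero⟩
  have hF : Function.Bijective F := by
    constructor
    · rintro ⟨u, a, ha⟩ ⟨u', a', ha'⟩ h
      have h1 : Submodule.span K {y₀ + (u : V) + a • x₀} =
          Submodule.span K {y₀ + (u' : V) + a' • x₀} := congrArg Subtype.val h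
      have h2 : y₀ + (u : V) + a • x₀ ∈ Submodule.span K {y₀ + (u' : V) + a' • x₀} := by
        rw [← h1]
        exact Submodule.mem_span_singleton_self _
      obtain ⟨c, hc⟩ := Submodule.mem_span_singleton.1 h2
      have h3 : Φ.B (c • (y₀ + (u' : V) + a' • x₀)) x₀ = Φ.B (y₀ + (u : V) + a • x₀) x₀ := by
        rw [hc]
      rw [Φ.smul_left, hBv, hBv, mul_one] at h3
      rw [h3, one_smul] at hc
      have h4 : (u : V) + a • x₀ = u' + a' • x₀ := by
        have h5 : y₀ + ((u : V) + a • x₀) = y₀ + ((u' : V) + a' • x₀) := by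
          rw [← add_assoc, ← add_assoc, hc]
        exact add_left_cancel h5
      obtain ⟨h5, h6⟩ := decomp_inj hxy u.2 u'.2 h4
      obtain rfl : u = u' := Subtype.ext h5
      subst h6
      rfl
    · rintro ⟨z, hz, hzW, hzx⟩
      obtain ⟨w, hw0, hwS, rfl⟩ := hz
      rw [Φ.span_le_orth] at hzx
      rw [Submodule.span_singleton_le_iff_mem] at hzW
      set v := (Φ.B w x₀)⁻¹ • w with hv
      have hvB : Φ.B v x₀ = 1 := by
        rw [hv, Φ.smul_left, inv_mul_cancel₀ hzx]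
      have hvW : v ∈ W := W.smul_mem _ hzW
      have hvS : Φ.S v := Φ.S_smul _ _ hwS
      have h1 : Φ.B (v - y₀) x₀ = 0 := by
        rw [Φ.B_sub_left, hvB, hB, sub_self]
      obtain ⟨a, u, hu, hua⟩ := decomp hx₀ hxx hxy (W.sub_mem hvW hy₀) h1
      have h2 : y₀ + u + a • x₀ = v := by
        rw [add_assoc, ← hua]
        abel
      refine ⟨⟨⟨u, hu⟩, a, ?_⟩, ?_⟩
      · rw [h2]
        exact hvS
      · apply Subtype.ext
        change Submodule.span K {y₀ + u + a • x₀} = Submodule.span K {w}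
        rw [h2, hv]
        exact Submodule.span_singleton_smul_eq (IsUnit.mk0 _ (inv_ne_zero hzx)) w
  rw [← Nat.card_congr (Equiv.ofBijective F hF), Nat.card_sigma]
  have h3 : ∀ u : W', Nat.card {a : K // Φ.S (y₀ + (u : V) + a • x₀)} = Φ.t := by
    intro u
    apply Φ.card_t x₀ _ hSx
    rw [Φ.add_left, hB, (mem_w'.1 u.2).2.1, add_zero]
    exact one_ne_zero
  rw [Finset.sum_congr rfl fun u _ => h3 u, Finset.sum_const, Finset.card_univ, smul_eq_mul,
    mul_comm, Nat.card_eq_fintype_card]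

private theorem vec_aux {W : Submodule K V} {x₀ y₀ : V} (hx₀ : x₀ ∈ W) (hSx : Φ.S x₀)
    (hxy : Φ.B x₀ y₀ ≠ 0) :
    Nat.card {v : V // v ∈ W ⊓ Φ.orth (Submodule.span K {x₀}) ∧ Φ.S v} =
      Nat.card K *
        Nat.card {v : V // v ∈ W ⊓ Φ.orth (Submodule.span K {x₀} ⊔ Submodule.span K {y₀}) ∧
          Φ.S v} := by
  have hxx : Φ.B x₀ x₀ = 0 := Φ.S_B x₀ hSx
  let F : K × {v : V // v ∈ W ⊓ Φ.orth (Submodule.span K {x₀} ⊔ Submodule.span K {y₀}) ∧
      Φ.S v} → {v : V // v ∈ W ⊓ Φ.orth (Submodule.span K {x₀}) ∧ Φ.S v} :=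
    fun p => ⟨p.2.1 + p.1 • x₀, by
      obtain ⟨a, u, hu, hS⟩ := p
      have h1 := mem_w'.1 hu
      refine ⟨?_, ?_⟩
      · rw [Submodule.mem_inf, Φ.mem_orth_span]
        refine ⟨W.add_mem h1.1 (W.smul_mem _ hx₀), ?_⟩
        rw [Φ.add_left, Φ.smul_left, h1.2.1, hxx, mul_zero, add_zero]
      · apply Φ.S_add _ _ hS (Φ.S_smul _ _ hSx)
        rw [Φ.smul_right, h1.2.1, mul_zero]⟩
  have hF : Function.Bijective F := by
    constructor
    · rintro ⟨a, u, hu, hS⟩ ⟨a', u', hu', hS'⟩ h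
      have h1 : u + a • x₀ = u' + a' • x₀ := congrArg Subtype.val h
      obtain ⟨h2, h3⟩ := decomp_inj hxy hu hu' h1
      subst h2
      subst h3
      rfl
    · rintro ⟨v, hv, hS⟩
      rw [Submodule.mem_inf, Φ.mem_orth_span] at hv
      obtain ⟨a, u, hu, hua⟩ := decomp hx₀ hxx hxy hv.1 hv.2
      refine ⟨⟨a, u, hu, ?_⟩, Subtype.ext hua.symm⟩
      have h1 : u = v - a • x₀ := by
        rw [hua]
        abel
      rw [h1]
      apply Φ.S_sub hS (Φ.S_smul _ _ hSx)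
      rw [Φ.smul_right, hv.2, mul_zero]
  rw [← Nat.card_congr (Equiv.ofBijective F hF), Nat.card_prod]

private theorem scale {x y W : Submodule K V} (hx : Φ.IsPt x) (hxW : x ≤ W) (hy : Φ.IsPt y)
    (hyW : y ≤ W) (h : ¬ y ≤ Φ.orth x) :
    ∃ x₀ y₀ : V, x = Submodule.span K {x₀} ∧ y = Submodule.span K {y₀} ∧ x₀ ∈ W ∧ y₀ ∈ W ∧
      Φ.S x₀ ∧ Φ.S y₀ ∧ Φ.B y₀ x₀ = 1 := by
  obtain ⟨x₀, -, hxS, rfl⟩ := hx
  obtain ⟨y₁, -, hyS, rfl⟩ := hy
  rw [Φ.span_le_orth] at h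
  rw [Submodule.span_singleton_le_iff_mem] at hxW hyW
  refine ⟨x₀, (Φ.B y₁ x₀)⁻¹ • y₁, rfl, ?_, hxW, W.smul_mem _ hyW, hxS, Φ.S_smul _ _ hyS, ?_⟩
  · exact (Submodule.span_singleton_smul_eq (IsUnit.mk0 _ (inv_ne_zero h)) y₁).symm
  · rw [Φ.smul_left, inv_mul_cancel₀ h]

private theorem card_split {α : Type*} [Finite α] (p q : α → Prop) :
    Nat.card {z : α // p z} = Nat.card {z : α // p z ∧ q z} + Nat.card {z : α // p z ∧ ¬ q z} := by
  classical
  have e : {z : α // p z} ≃ {z : α // p z ∧ q z} ⊕ {z : α // p z ∧ ¬ q z} :=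
    { toFun := fun z => if h : q z.1 then Sum.inl ⟨z.1, z.2, h⟩ else Sum.inr ⟨z.1, z.2, h⟩
      invFun := fun z => Sum.elim (fun w => ⟨w.1, w.2.1⟩) (fun w => ⟨w.1, w.2.1⟩) z
      left_inv := by
        intro z
        by_cases h : q z.1
        · simp [h]
        · simp [h]
      right_inv := by
        rintro (⟨w, h1, h2⟩ | ⟨w, h1, h2⟩)
        · simp [h2]
        · simp [h2] }
  rw [Nat.card_congr e, Nat.card_sum]

private theorem finite_sub : Finite (Submodule K V) :=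
  Finite.of_injective (fun W : Submodule K V => (W : Set V)) SetLike.coe_injective

theorem card_opp {W x : Submodule K V} (hW : Φ.ND W) (hx : Φ.IsPt x) (hxW : x ≤ W) :
    Nat.card {y : Submodule K V // Φ.IsPt y ∧ y ≤ W ∧ ¬ y ≤ Φ.orth x} =
      Φ.t * Nat.card K ^ (finrank K W - 2) := by
  obtain ⟨y, hy, hyW, hxy⟩ := exists_opp hW hx hxW
  have h1 := (hyp_nd hx hy hxy).2
  have h2 := hW.finrank_inf_orth (sup_le hxW hyW)
  obtain ⟨x₀, y₀, rfl, rfl, hx₀, hy₀, hSx, hSy, hB⟩ := scale hx hxW hy hyW hxy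
  rw [opp_aux hx₀ hSx hy₀ hB, cardSub]
  congr 2
  omega

theorem pn_rec {W x y : Submodule K V} (hW : Φ.ND W) (hx : Φ.IsPt x) (hxW : x ≤ W)
    (hy : Φ.IsPt y) (hyW : y ≤ W) (h : ¬ y ≤ Φ.orth x) :
    Φ.pn W = 1 + Nat.card K * Φ.pn (W ⊓ Φ.orth (x ⊔ y)) +
      Φ.t * Nat.card K ^ (finrank K W - 2) := by
  have h0 := card_opp hW hx hxW
  obtain ⟨x₀, y₀, rfl, rfl, hx₀, hy₀, hSx, hSy, hB⟩ := scale hx hxW hy hyW h
  have hxy : Φ.B x₀ y₀ ≠ 0 := by
    intro h
    have := Φ.refl _ _ h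
    rw [hB] at this
    exact one_ne_zero this
  have hfin := finite_sub (K := K) (V := V)
  have h1 : Φ.pn W = Φ.pn (W ⊓ Φ.orth (Submodule.span K {x₀})) +
      Φ.t * Nat.card K ^ (finrank K W - 2) := by
    rw [← h0]
    unfold PS.pn
    rw [card_split (fun z : Submodule K V => Φ.IsPt z ∧ z ≤ W)
      (fun z => z ≤ Φ.orth (Submodule.span K {x₀}))]
    congr 1
    · refine Nat.card_congr (Equiv.subtypeEquivRight fun z => ?_)
      rw [le_inf_iff, and_assoc]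
    · refine Nat.card_congr (Equiv.subtypeEquivRight fun z => ?_)
      rw [and_assoc]
  have h2 := pn_vec (Φ := Φ) (W ⊓ Φ.orth (Submodule.span K {x₀}))
  have h3 := pn_vec (Φ := Φ)
    (W ⊓ Φ.orth (Submodule.span K {x₀} ⊔ Submodule.span K {y₀}))
  rw [vec_aux hx₀ hSx hxy, ← h3] at h2
  have hQ : 1 < Nat.card K := Finite.one_lt_card
  obtain ⟨q, hq⟩ : ∃ q, Nat.card K = q + 2 := ⟨Nat.card K - 2, by omega⟩
  rw [h1]
  congr 1
  rw [hq] at h2 ⊢
  have h4 : q + 2 - 1 = q + 1 := by omega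
  rw [h4] at h2
  have h5 : (q + 1) * Φ.pn (W ⊓ Φ.orth (Submodule.span K {x₀})) =
      (q + 1) * (1 + (q + 2) *
        Φ.pn (W ⊓ Φ.orth (Submodule.span K {x₀} ⊔ Submodule.span K {y₀}))) := by
    nlinarith [h2]
  exact Nat.eq_of_mul_eq_mul_left (Nat.succ_pos q) h5

end PS

end Pool.Agent.Work.MP_bc729a_al.CG
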