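import Pool.Agent.Work.MP_bc729a_al.CG.Tst
import Pool.Agent.Work.MP_bc729a_al.CG.Rec

/-! # Module Dsc (S-M): residues

Here `x` is a point of the totally singular space `E ≤ W` and `y ≤ W` a point opposite to `x`, `W' = W ⊓ orth (x ⊔ y)`, `E' = E ⊓ orth y`.
PROOF of `dsc`. `hyp_nd` and `ND.inf_orth` (`x ⊔ y ≤ W`), `ND.finrank_inf_orth`; `orth y` is a hyperplane (`finrank_orth`, `IsPt.finrank`) not containing `x`, so not containing `E`: `finrank E' + 1 = finrank E`.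
`E' ≤ E ≤ W`, `E' ≤ E ≤ orth E ≤ orth x`, `E' ≤ orth y`, and `orth_sup`. `x ⊔ E' = E` (modular law or dimensions). `TS.mono`.
`ts_dim`: `E ≤ W ⊓ orth E`, `ND.finrank_inf_orth`. `exists_opp_in`: a vector `≠ 0` of `E` spans a point (`TS.isPt`), `exists_opp`.
`pn_ge`: the points of `E` are `≤ orth x` (`x` a point of `E`), so they are disjoint from the points counted by `card_opp`.
`pn_succ`: `pn_ts` for `E` and `E'` (`Finset.sum_range_succ`). `pn_two`: `pn_rec`, `W ⊓ orth (x ⊔ y)` has dimension `0` (`dsc` with `E = x`), `pn_bot`. -/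

namespace Pool.Agent.Work.MP_bc729a_al.CG

open Module

universe u v

variable {K : Type u} {V : Type v} [Field K] [AddCommGroup V] [Module K V] [Finite K] [Finite V]

namespace PS

variable {Φ : PS K V}

theorem dsc {W E x y : Submodule K V} (hW : Φ.ND W) (hE : Φ.TS E) (hEW : E ≤ W)
    (hx : Φ.IsPt x) (hxE : x ≤ E) (hy : Φ.IsPt y) (hyW : y ≤ W) (h : ¬ y ≤ Φ.orth x) :
    Φ.ND (W ⊓ Φ.orth (x ⊔ y)) ∧ finrank K ↥(W ⊓ Φ.orth (x ⊔ y)) + 2 = finrank K W ∧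
      Φ.TS (E ⊓ Φ.orth y) ∧ finrank K ↥(E ⊓ Φ.orth y) + 1 = finrank K E ∧
      E ⊓ Φ.orth y ≤ W ⊓ Φ.orth (x ⊔ y) ∧ x ⊔ E ⊓ Φ.orth y = E := by
  obtain ⟨hL, hL2⟩ := hyp_nd hx hy h
  have hLW : x ⊔ y ≤ W := sup_le (hxE.trans hEW) hyW
  have h1 := hW.inf_orth hL hLW
  have h2 := hW.finrank_inf_orth hLW
  rw [hL2] at h2
  have hTS : Φ.TS (E ⊓ Φ.orth y) := hE.mono inf_le_left
  have hxy : ¬ x ≤ Φ.orth y := fun hh => h (Φ.le_orth_comm.1 hh)
  have hinf : x ⊓ Φ.orth y = ⊥ := hx.inf_eq_bot hxy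
  have hyr := hy.finrank
  have hxr := hx.finrank
  have hor := finrank_orth (Φ := Φ) y
  have htop : x ⊔ Φ.orth y = ⊤ := by
    apply Submodule.eq_top_of_finrank_eq
    have h3 := Submodule.finrank_sup_add_finrank_inf_eq x (Φ.orth y)
    rw [hinf, finrank_bot] at h3
    omega
  have hmod : x ⊔ E ⊓ Φ.orth y = E := by
    rw [inf_comm E, ← sup_inf_assoc_of_le (Φ.orth y) hxE, htop, top_inf_eq]
  refine ⟨h1, h2, hTS, ?_, ?_, hmod⟩
  · have h3 := Submodule.finrank_sup_add_finrank_inf_eq x (E ⊓ Φ.orth y)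
    have h4 : x ⊓ (E ⊓ Φ.orth y) = ⊥ := by
      rw [eq_bot_iff, ← hinf]
      exact inf_le_inf_left x inf_le_right
    rw [hmod, h4, finrank_bot] at h3
    omega
  · rw [Φ.orth_sup]
    refine le_inf (inf_le_left.trans hEW) (le_inf ?_ inf_le_right)
    exact inf_le_left.trans (hE.2.trans (Φ.orth_anti hxE))

theorem ts_dim {W E : Submodule K V} (hW : Φ.ND W) (hE : Φ.TS E) (hEW : E ≤ W) :
    2 * finrank K E ≤ finrank K W := by
  have h1 : E ≤ W ⊓ Φ.orth E := le_inf hEW hE.2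
  have h2 := Submodule.finrank_mono h1
  have h3 := hW.finrank_inf_orth hEW
  omega

theorem exists_opp_in {W E : Submodule K V} (hW : Φ.ND W) (hE : Φ.TS E) (hEW : E ≤ W)
    (h0 : E ≠ ⊥) :
    ∃ x y, Φ.IsPt x ∧ x ≤ E ∧ Φ.IsPt y ∧ y ≤ W ∧ ¬ y ≤ Φ.orth x := by
  obtain ⟨v, hv, hv0⟩ := (Submodule.ne_bot_iff E).1 h0
  have hx := hE.isPt hv hv0
  have hxE : Submodule.span K {v} ≤ E := by
    rw [Submodule.span_singleton_le_iff_mem]
    exact hv
  obtain ⟨y, hy, hyW, hyx⟩ := exists_opp hW hx (hxE.trans hEW)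
  exact ⟨_, y, hx, hxE, hy, hyW, hyx⟩

theorem pn_ge {W E : Submodule K V} (hW : Φ.ND W) (hE : Φ.TS E) (hEW : E ≤ W) (h0 : E ≠ ⊥) :
    Φ.pn E + Φ.t * Nat.card K ^ (finrank K W - 2) ≤ Φ.pn W := by
  obtain ⟨x, y, hx, hxE, hy, hyW, hyx⟩ := exists_opp_in hW hE hEW h0
  rw [← card_opp hW hx (hxE.trans hEW), pn, pn, ← Nat.card_sum]
  have hEx : E ≤ Φ.orth x := hE.2.trans (Φ.orth_anti hxE)
  let f : {z : Submodule K V // Φ.IsPt z ∧ z ≤ E} ⊕
      {z : Submodule K V // Φ.IsPt z ∧ z ≤ W ∧ ¬ z ≤ Φ.orth x} →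
      {z : Submodule K V // Φ.IsPt z ∧ z ≤ W} :=
    Sum.elim (fun z => ⟨z.1, z.2.1, z.2.2.trans hEW⟩) (fun z => ⟨z.1, z.2.1, z.2.2.1⟩)
  apply Nat.card_le_card_of_injective f
  rintro (a | a) (b | b) hab
  · have h1 : a.1 = b.1 := congrArg (fun z => z.1) hab
    rw [Subtype.ext h1]
  · have h1 : a.1 = b.1 := congrArg (fun z => z.1) hab
    exact absurd (h1 ▸ a.2.2.trans hEx) b.2.2.2
  · have h1 : a.1 = b.1 := congrArg (fun z => z.1) hab
    exact absurd (h1.symm ▸ b.2.2.trans hEx) a.2.2.2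
  · have h1 : a.1 = b.1 := congrArg (fun z => z.1) hab
    rw [Subtype.ext h1]

theorem pn_succ {E E' : Submodule K V} (hE : Φ.TS E) (hE' : Φ.TS E')
    (h : finrank K E' + 1 = finrank K E) :
    Φ.pn E = Φ.pn E' + Nat.card K ^ (finrank K E - 1) := by
  rw [pn_ts hE, pn_ts hE', ← h, Finset.sum_range_succ, Nat.add_sub_cancel]

theorem pn_two {W x : Submodule K V} (hW : Φ.ND W) (h2 : finrank K W = 2) (hx : Φ.IsPt x)
    (hxW : x ≤ W) : Φ.pn W = 1 + Φ.t := by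
  obtain ⟨y, hy, hyW, hyx⟩ := exists_opp hW hx hxW
  obtain ⟨-, h3, -⟩ := dsc hW hx.ts hxW hx le_rfl hy hyW hyx
  have h4 : W ⊓ Φ.orth (x ⊔ y) = ⊥ := by
    rw [← Submodule.finrank_eq_zero (R := K)]
    omega
  have h5 := pn_rec hW hx hxW hy hyW hyx
  rw [h4, pn_bot, h2] at h5
  simpa using h5

end PS

end Pool.Agent.Work.MP_bc729a_al.CG
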