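import Pool.Agent.Work.MP_bc729a_al.CG.Hyp

/-! # Module Tst (M): the unipotent radical of a point stabiliser

PROOF of `u_trans`. `x = span {x₀}`, `y = span {y₀}`, `y' = span {y₀'}`, `B y₀ x₀ ≠ 0`, `B y₀' x₀ ≠ 0` (`mem_orth_span`, `span_le_orth`); multiply `y₀'` by a
scalar such that `B y₀' x₀ = B y₀ x₀` (`S_smul`). Take `g` from `Φ.ei x₀ y₀ y₀'`. For `v ∈ x` `g v = v` as `g x₀ = x₀`. If `v ∈ orth W` then
`B v x₀ = 0` and `B v (y₀' - y₀) = 0`, so `g v = v`.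
`IsU.conj`: `h * g * h⁻¹ ∈ Iso`; if `v = h u`, `u ∈ x`, then `(h g h⁻¹) v = h (g u) = h u = v`; if `v ∈ orth (x.map h) = (orth x).map h` (`orth_map`),
`v = h u`, then `(h g h⁻¹) v - v = h (g u - u) ∈ x.map h`. `UU_conj`: the same for all elements.
`IsU.map_eq`: `g` fixes the vectors of `x`. `IsU.map_line`: for `v ∈ E`, `g v = v + (g v - v) ∈ E`; dimensions.
`IsU.pow`: `N = g - 1` (in `Module.End K V`) maps `V` into `orth x` (`B (g v - v) w = B (g v) (g w) - B v w = 0` for `w ∈ x`), `orth x` into `x` and `x` to `0`, so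
`N ^ 3 = 0`, so `N ^ (p ^ 2) = 0` (`p ^ 2 ≥ 4`), and `N ^ (p ^ 2) = g ^ (p ^ 2) - 1` (characteristic `p`, `g` and `1` commute).
`IsU.ext`: let `f = h⁻¹ * g`, `IsU x f`, `f y₀ = y₀` for all `y₀ ∈ y`. For `v ∈ orth (x ⊔ y)`: `f v - v ∈ x`, and `B (f v - v) y₀ = B (f v) (f y₀) - B v y₀ = 0`, so
`f v - v ∈ x ⊓ orth y = ⊥` (`IsPt.inf_eq_bot`). So `f = 1` on `x`, `y` and `orth (x ⊔ y)`, whose sum is `⊤` (`hyp_nd`, `ND.sup`). -/

namespace Pool.Agent.Work.MP_bc729a_al.CG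

open Module

universe u v

variable {K : Type u} {V : Type v} [Field K] [AddCommGroup V] [Module K V] [Finite K] [Finite V]

namespace PS

variable {Φ : PS K V}

theorem u_trans {W x y y' : Submodule K V} (hx : Φ.IsPt x) (hxW : x ≤ W) (hy : Φ.IsPt y)
    (hyW : y ≤ W) (hy' : Φ.IsPt y') (hyW' : y' ≤ W) (h : ¬ y ≤ Φ.orth x)
    (h' : ¬ y' ≤ Φ.orth x) :
    ∃ g : V ≃ₗ[K] V, Φ.IsU x g ∧ (∀ v ∈ Φ.orth W, g v = v) ∧
      y.map (g : V →ₗ[K] V) = y' := by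
  obtain ⟨x0, hx0, hxS, rfl⟩ := hx
  obtain ⟨y0, hy0, hyS, rfl⟩ := hy
  obtain ⟨y1, hy1, hy1S, rfl⟩ := hy'
  rw [Φ.span_le_orth] at h h'
  have hx0W : x0 ∈ W := hxW (Submodule.mem_span_singleton_self x0)
  have hy0W : y0 ∈ W := hyW (Submodule.mem_span_singleton_self y0)
  have hy1W : y1 ∈ W := hyW' (Submodule.mem_span_singleton_self y1)
  have hc : Φ.B y0 x0 / Φ.B y1 x0 ≠ 0 := div_ne_zero h h'
  have hB : Φ.B ((Φ.B y0 x0 / Φ.B y1 x0) • y1) x0 = Φ.B y0 x0 := by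
    rw [Φ.smul_left, div_mul_cancel₀ _ h']
  obtain ⟨g, hgB, hgS, hgx, hgy, hg1, hg2⟩ := Φ.ei x0 y0 ((Φ.B y0 x0 / Φ.B y1 x0) • y1) hxS hyS
    (Φ.S_smul _ _ hy1S) h hB
  refine ⟨g, ⟨⟨hgB, hgS⟩, ?_, ?_⟩, ?_, ?_⟩
  · intro v hv
    obtain ⟨a, rfl⟩ := Submodule.mem_span_singleton.1 hv
    rw [map_smul, hgx]
  · intro v hv
    exact hg1 v (Φ.mem_orth_span.1 hv)
  · intro v hv
    exact hg2 v (hv x0 hx0W) (hv _ (W.sub_mem (W.smul_mem _ hy1W) hy0W))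
  · rw [Submodule.map_span, Set.image_singleton]
    have e : (g : V →ₗ[K] V) y0 = (Φ.B y0 x0 / Φ.B y1 x0) • y1 := hgy
    rw [e]
    exact Submodule.span_singleton_smul_eq (isUnit_iff_ne_zero.2 hc) y1

theorem IsU.conj {x : Submodule K V} {g h : V ≃ₗ[K] V} (hg : Φ.IsU x g) (hh : h ∈ Φ.Iso) :
    Φ.IsU (x.map (h : V →ₗ[K] V)) (h * g * h⁻¹) := by
  refine ⟨Φ.Iso.mul_mem (Φ.Iso.mul_mem hh hg.1) (Φ.Iso.inv_mem hh), ?_, ?_⟩
  · rintro _ ⟨u, hu, rfl⟩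
    have e1 : h⁻¹ (h u) = u := h.symm_apply_apply u
    change h (g (h⁻¹ (h u))) = h u
    rw [e1, hg.2.1 u hu]
  · intro v hv
    rw [orth_map hh] at hv
    obtain ⟨u, hu, rfl⟩ := hv
    have e1 : h⁻¹ (h u) = u := h.symm_apply_apply u
    change h (g (h⁻¹ (h u))) - h u ∈ x.map (h : V →ₗ[K] V)
    rw [e1, ← map_sub]
    exact ⟨g u - u, hg.2.2 u hu, rfl⟩

theorem UU_conj {x : Submodule K V} {h : V ≃ₗ[K] V} (hh : h ∈ Φ.Iso) {P : Subgroup (V ≃ₗ[K] V)}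
    (hP : h ∈ P) (hx : Φ.UU x ≤ P) : Φ.UU (x.map (h : V →ₗ[K] V)) ≤ P := by
  intro k hk
  have h1 := IsU.conj (Φ.mem_UU.1 hk) (Φ.Iso.inv_mem hh)
  have e1 : (x.map (h : V →ₗ[K] V)).map ((h⁻¹ : V ≃ₗ[K] V) : V →ₗ[K] V) = x := by
    ext v
    constructor
    · rintro ⟨_, ⟨u, hu, rfl⟩, rfl⟩
      have e2 : h⁻¹ (h u) = u := h.symm_apply_apply u
      change h⁻¹ (h u) ∈ x
      rw [e2]
      exact hu
    · intro hv
      exact ⟨h v, ⟨v, hv, rfl⟩, h.symm_apply_apply v⟩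
  rw [e1, inv_inv] at h1
  have h2 : h⁻¹ * k * h ∈ P := hx (Φ.mem_UU.2 h1)
  have h3 : h * (h⁻¹ * k * h) * h⁻¹ ∈ P := P.mul_mem (P.mul_mem hP h2) (P.inv_mem hP)
  have e3 : h * (h⁻¹ * k * h) * h⁻¹ = k := by group
  rw [e3] at h3
  exact h3

theorem IsU.map_eq {x : Submodule K V} {g : V ≃ₗ[K] V} (hg : Φ.IsU x g) :
    x.map (g : V →ₗ[K] V) = x := by
  ext v
  constructor
  · rintro ⟨u, hu, rfl⟩
    have e : (g : V →ₗ[K] V) u = u := hg.2.1 u hu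
    rw [e]
    exact hu
  · intro hv
    exact ⟨v, hv, hg.2.1 v hv⟩

theorem IsU.map_line {x E : Submodule K V} {g : V ≃ₗ[K] V} (hg : Φ.IsU x g) (hxE : x ≤ E)
    (hE : E ≤ Φ.orth x) : E.map (g : V →ₗ[K] V) = E := by
  apply Submodule.eq_of_le_of_finrank_eq
  · rintro _ ⟨u, hu, rfl⟩
    have e : (g : V →ₗ[K] V) u = u + (g u - u) := by
      change g u = _
      abel
    rw [e]
    exact E.add_mem hu (hxE (hg.2.2 u (hE hu)))
  · exact finrank_map_eq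

private theorem IsU.sub_mem_orth {x : Submodule K V} {g : V ≃ₗ[K] V} (hg : Φ.IsU x g) (v : V) :
    g v - v ∈ Φ.orth x := by
  intro w hw
  rw [Φ.B_sub_left]
  have h1 := hg.1.1 v w
  rw [hg.2.1 w hw] at h1
  rw [h1, sub_self]

private theorem IsU.pow_apply {x : Submodule K V} {g : V ≃ₗ[K] V} (hg : Φ.IsU x g) (v : V)
    (m : ℕ) : (g ^ m) v = v + m • (g v - v) + (m.choose 2) • (g (g v - v) - (g v - v)) := by
  have h3 : g (g (g v - v) - (g v - v)) = g (g v - v) - (g v - v) :=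
    hg.2.1 _ (hg.2.2 _ (hg.sub_mem_orth v))
  induction m with
  | zero =>
    rw [pow_zero, zero_smul, add_zero]
    change v = v + (Nat.choose 0 2) • _
    rw [show Nat.choose 0 2 = 0 from rfl, zero_smul, add_zero]
  | succ m ih =>
    rw [pow_succ']
    change g ((g ^ m) v) = _
    rw [ih, map_add, map_add, map_nsmul, map_nsmul, h3]
    have e1 : (m + 1).choose 2 = m + m.choose 2 := by
      rw [Nat.choose_succ_succ' m 1, Nat.choose_one_right]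
    have e2 : g v = v + (g v - v) := by abel
    have e3 : g (g v - v) = (g v - v) + (g (g v - v) - (g v - v)) := by abel
    rw [e1, add_smul, add_smul, one_smul]
    generalize hN : g v - v = N at e2 e3 ⊢
    generalize hN2 : g N - N = N2 at e3 ⊢
    rw [e2, e3, smul_add]
    abel

theorem IsU.pow {p : ℕ} [Fact p.Prime] [CharP K p] {x : Submodule K V} {g : V ≃ₗ[K] V}
    (hg : Φ.IsU x g) : g ^ (p ^ 2) = 1 := by
  have hp : p.Prime := Fact.out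
  have hz : ∀ (n : ℕ) (w : V), p ∣ n → n • w = 0 := by
    intro n w hn
    rw [← Nat.cast_smul_eq_nsmul K n w, (CharP.cast_eq_zero_iff K p n).2 hn, zero_smul]
  have h1 : p ∣ p ^ 2 := dvd_pow_self p two_ne_zero
  have h2 : p ∣ (p ^ 2).choose 2 := by
    apply hp.dvd_choose_pow two_ne_zero
    have := hp.two_le
    nlinarith
  apply LinearEquiv.ext
  intro v
  rw [hg.pow_apply v, hz _ _ h1, hz _ _ h2, add_zero, add_zero]
  rfl

theorem IsU.ext {x y : Submodule K V} {g h : V ≃ₗ[K] V} (hg : Φ.IsU x g) (hh : Φ.IsU x h)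
    (hx : Φ.IsPt x) (hy : Φ.IsPt y) (hxy : ¬ y ≤ Φ.orth x) (e : ∀ v ∈ y, g v = h v) :
    g = h := by
  have hf : Φ.IsU x (h⁻¹ * g) :=
    Φ.mem_UU.1 ((Φ.UU x).mul_mem ((Φ.UU x).inv_mem (Φ.mem_UU.2 hh)) (Φ.mem_UU.2 hg))
  have hfy : ∀ v ∈ y, (h⁻¹ * g) v = v := by
    intro v hv
    change h⁻¹ (g v) = v
    rw [e v hv]
    exact h.symm_apply_apply v
  have key : ∀ v, (h⁻¹ * g) v = v := by
    intro v
    have hv : v ∈ (x ⊔ y) ⊔ Φ.orth (x ⊔ y) := by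
      rw [(hyp_nd hx hy hxy).1.sup]
      exact Submodule.mem_top
    obtain ⟨l, hl, m, hm, rfl⟩ := Submodule.mem_sup.1 hv
    obtain ⟨a, ha, b, hb, rfl⟩ := Submodule.mem_sup.1 hl
    have hmo := hm
    rw [Φ.orth_sup] at hmo
    have h1 : (h⁻¹ * g) m - m ∈ x := hf.2.2 m hmo.1
    have h2 : (h⁻¹ * g) m - m ∈ Φ.orth y := by
      intro w hw
      rw [Φ.B_sub_left]
      have h3 := hf.1.1 m w
      rw [hfy w hw] at h3
      rw [h3, sub_self]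
    have h4 : x ⊓ Φ.orth y = ⊥ := by
      apply hx.inf_eq_bot
      intro h5
      exact hxy (Φ.le_orth_comm.1 h5)
    have h5 : (h⁻¹ * g) m - m ∈ (⊥ : Submodule K V) := by
      rw [← h4]
      exact ⟨h1, h2⟩
    have h6 : (h⁻¹ * g) m = m := sub_eq_zero.1 ((Submodule.mem_bot K).1 h5)
    rw [map_add, map_add, hf.2.1 a ha, hfy b hb, h6]
  apply LinearEquiv.ext
  intro v
  have h1 : h ((h⁻¹ * g) v) = h v := by rw [key v]
  have h2 : h ((h⁻¹ * g) v) = g v := h.apply_symm_apply (g v)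
  rw [← h2, h1]

end PS

end Pool.Agent.Work.MP_bc729a_al.CG
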