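import Pool.Agent.Work.MP_bc729a_al.CG.EiA
import Pool.Agent.Work.MP_bc729a_al.CG.Tst
import Pool.Agent.Work.MP_bc729a_al.CG.Dsc

/-! # Module OrC (M-L): the unipotent radicals are contained in the commutator subgroup

Let `x = span {x₀}`, `O = OQ Q`; elements of `O` preserve `B = polar Q` and `S`, so `O ≤ Φ.Iso`. For `u` with `B u x₀ = 0` let `E u ∈ O` be the Eichler transformation (`eich_bij`), `E (u + u') = E u * E u'` (`eich_mul`), `r * E u * r⁻¹ = E (r u)` for `r ∈ O`, `r x₀ = x₀` (`eich_conj`).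
PROOF. (1) Let `IsU x g`. Let `y₀` be singular with `B y₀ x₀ = 1` (`exists_opp` with `W = ⊤`, scaled), `u = g y₀ - y₀`; `B u x₀ = B (g y₀) (g x₀) - B y₀ x₀ = 0`. `0 = Q (g y₀) = Q (y₀ + u) = Q u + B y₀ u`, so `E u y₀ = y₀ + u - B y₀ u • x₀ - Q u • x₀ = g y₀`. `IsU x (E u)`: it fixes `x₀` and `E u v - v = - B v u • x₀` for
`B v x₀ = 0`. `IsU.ext` (with `y = span {y₀}`) gives `g = E u`.
(2) Let `e` satisfy `B e x₀ = 0`, `Q e ≠ 0`, and `c : K`; then `E (c • e) ∈ ⁅O, O⁆`. `r v = v - ((Q e)⁻¹ * B v e) • e` is in `O` (a reflection; `r (r v) = v`) and fixes `x₀`. There is `u'` with `B u' x₀ = 0`, `B u' e = - c * Q e`: `e ∉ x` (`Q` vanishes on `x`), so `e ∉ orth (orth x)` (`orth_orth`), so there is `u'' ∈ orth x` with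
`B u'' e ≠ 0`; scale. Then `r u' - u' = c • e` and `⁅r, E u'⁆ = r * E u' * r⁻¹ * (E u')⁻¹ = E (r u') * E (- u') = E (c • e)`.
(3) Let `B u x₀ = 0`. If `Q u ≠ 0` then `E u ∈ ⁅O, O⁆` by (2), `c = 1`. If `Q u = 0`: there is `e` with `B e x₀ = 0`, `B e u = 0`, `Q e ≠ 0`: otherwise `U = orth (span {x₀} ⊔ span {u})` is totally singular (`B v w = Q (v + w) - Q v - Q w`), of dimension `≥ n - 2` (`finrank_orth`), so `2 (n - 2) ≤ n` (`ts_dim` with `W = ⊤`), `n ≤ 4`.
`Q (u + e) = Q e ≠ 0`, `E u = E (u + e) * E ((-1) • e)`, both factors are in `⁅O, O⁆` by (2). -/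

namespace Pool.Agent.Work.MP_bc729a_al.CG

open Module

universe u v

variable {K : Type u} {V : Type v} [Field K] [AddCommGroup V] [Module K V] [Finite K] [Finite V]

namespace PS

variable {Φ : PS K V}

private theorem orc_iso {Q : QuadraticForm K V} (hB : ∀ u v, Φ.B u v = QuadraticMap.polar Q u v)
    (hS : ∀ v, Φ.S v ↔ Q v = 0) {g : V ≃ₗ[K] V} (hg : g ∈ OQ Q) : g ∈ Φ.Iso := by
  rw [mem_Iso]
  have h := mem_OQ.1 hg
  refine ⟨fun u v => ?_, fun v => ?_⟩
  · rw [hB, hB]
    unfold QuadraticMap.polar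
    rw [← map_add, h, h, h]
  · rw [hS, hS, h]

/-- the Eichler transformations of vectors `c • e` with `Q e ≠ 0` are commutators -/
private theorem orc_two {Q : QuadraticForm K V}
    (hB : ∀ u v, Φ.B u v = QuadraticMap.polar Q u v) {x₀ : V} (hx : Q x₀ = 0)
    {e : V} (c : K) (he : QuadraticMap.polar Q e x₀ = 0) (hQe : Q e ≠ 0) {g : V ≃ₗ[K] V}
    (hg : g ∈ OQ Q) (hgv : ∀ v, g v = eich Q x₀ (c • e) v) : g ∈ ⁅OQ Q, OQ Q⁆ := by
  have hee : QuadraticMap.polar Q e e = 2 * Q e := by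
    rw [QuadraticMap.polar_self, nsmul_eq_mul, Nat.cast_ofNat]
  -- the reflection
  let f : V →ₗ[K] V :=
    { toFun := fun v => v - ((Q e)⁻¹ * QuadraticMap.polar Q v e) • e
      map_add' := by
        intro a b
        rw [QuadraticMap.polar_add_left]
        module
      map_smul' := by
        intro a b
        rw [QuadraticMap.polar_smul_left]
        simp only [smul_eq_mul, RingHom.id_apply]
        module }
  have hf : ∀ v, f v = v - ((Q e)⁻¹ * QuadraticMap.polar Q v e) • e := fun _ => rfl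
  have hff : ∀ v, f (f v) = v := by
    intro v
    have h1 : QuadraticMap.polar Q (f v) e = -QuadraticMap.polar Q v e := by
      rw [hf, QuadraticMap.polar_sub_left, QuadraticMap.polar_smul_left, hee, smul_eq_mul]
      field_simp
      ring
    rw [hf (f v), h1, hf v]
    module
  let r : V ≃ₗ[K] V := LinearEquiv.ofInvolutive f hff
  have hr : ∀ v, r v = v - ((Q e)⁻¹ * QuadraticMap.polar Q v e) • e := fun _ => rfl
  have hrO : r ∈ OQ Q := by
    rw [mem_OQ]
    intro v
    rw [hr, sub_eq_add_neg, ← neg_smul, QuadraticMap.map_add (⇑Q), QuadraticMap.map_smul,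
      QuadraticMap.polar_smul_right, smul_eq_mul, smul_eq_mul]
    field_simp
    ring
  have hrx : r x₀ = x₀ := by
    rw [hr, QuadraticMap.polar_comm, he, mul_zero, zero_smul, sub_zero]
  -- the vector `u'`
  obtain ⟨u', hu', hu'e⟩ : ∃ u' : V, QuadraticMap.polar Q u' x₀ = 0 ∧
      QuadraticMap.polar Q u' e = -c * Q e := by
    have h1 : ∃ w : V, QuadraticMap.polar Q w x₀ = 0 ∧ QuadraticMap.polar Q w e ≠ 0 := by
      by_contra hcon
      push Not at hcon
      have h2 : e ∈ Φ.orth (Φ.orth (Submodule.span K {x₀})) := by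
        intro w hw
        apply Φ.refl
        rw [hB]
        apply hcon
        rw [← hB]
        exact (Φ.mem_orth_span).1 hw
      rw [orth_orth] at h2
      obtain ⟨a, rfl⟩ := Submodule.mem_span_singleton.1 h2
      apply hQe
      rw [QuadraticMap.map_smul, hx, smul_zero]
    obtain ⟨w, hw1, hw2⟩ := h1
    refine ⟨(-c * Q e * (QuadraticMap.polar Q w e)⁻¹) • w, ?_, ?_⟩
    · rw [QuadraticMap.polar_smul_left, hw1, smul_zero]
    · rw [QuadraticMap.polar_smul_left, smul_eq_mul]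
      field_simp
  have hce : QuadraticMap.polar Q (c • e) x₀ = 0 := by
    rw [QuadraticMap.polar_smul_left, he, smul_zero]
  obtain ⟨E, hE, hEv⟩ := eich_bij hx hu'
  have key : g * E = r * E * r⁻¹ := by
    ext v
    have h1 : r (r⁻¹ v) = v := r.apply_symm_apply v
    have h2 : r u' = c • e + u' := by
      rw [hr, hu'e]
      have h3 : (Q e)⁻¹ * (-c * Q e) = -c := by
        field_simp
      rw [h3]
      module
    calc (g * E) v = g (E v) := rfl
      _ = eich Q x₀ (c • e + u') v := by rw [hEv, hgv, eich_mul hx hce hu']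
      _ = eich Q x₀ (r u') (r (r⁻¹ v)) := by rw [h2, h1]
      _ = r (eich Q x₀ u' (r⁻¹ v)) := (eich_conj hrO hrx _).symm
      _ = r (E (r⁻¹ v)) := by rw [hEv]
      _ = (r * E * r⁻¹) v := rfl
  have h4 : g = r * E * r⁻¹ * E⁻¹ := eq_mul_inv_of_mul_eq key
  have h5 := Subgroup.commutator_mem_commutator hrO hE
  rw [commutatorElement_def, ← h4] at h5
  exact h5

private theorem orc_three {Q : QuadraticForm K V}
    (hB : ∀ u v, Φ.B u v = QuadraticMap.polar Q u v) (hS : ∀ v, Φ.S v ↔ Q v = 0)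
    (hn : 5 ≤ finrank K V) {x₀ : V} (hx : Q x₀ = 0)
    {u : V} (hu : QuadraticMap.polar Q u x₀ = 0) {g : V ≃ₗ[K] V}
    (hg : g ∈ OQ Q) (hgv : ∀ v, g v = eich Q x₀ u v) : g ∈ ⁅OQ Q, OQ Q⁆ := by
  by_cases hQu : Q u = 0
  · obtain ⟨e, he1, he2, he3⟩ : ∃ e : V, QuadraticMap.polar Q e x₀ = 0 ∧
        QuadraticMap.polar Q e u = 0 ∧ Q e ≠ 0 := by
      by_contra hcon
      push Not at hcon
      have hmem : ∀ v, v ∈ Φ.orth (Submodule.span K {x₀} ⊔ Submodule.span K {u}) →
          QuadraticMap.polar Q v x₀ = 0 ∧ QuadraticMap.polar Q v u = 0 := by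
        intro v hv
        rw [Φ.orth_sup] at hv
        have h1 := (Φ.mem_orth_span).1 hv.1
        have h2 := (Φ.mem_orth_span).1 hv.2
        rw [hB] at h1 h2
        exact ⟨h1, h2⟩
      have hQ : ∀ v, v ∈ Φ.orth (Submodule.span K {x₀} ⊔ Submodule.span K {u}) → Q v = 0 :=
        fun v hv => hcon v (hmem v hv).1 (hmem v hv).2
      have hTS : Φ.TS (Φ.orth (Submodule.span K {x₀} ⊔ Submodule.span K {u})) := by
        refine ⟨fun v hv => (hS v).2 (hQ v hv), fun v hv w hw => ?_⟩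
        rw [hB]
        unfold QuadraticMap.polar
        rw [hQ v hv, hQ w hw, hQ _ (Submodule.add_mem _ hv hw)]
        ring
      have h1 := ts_dim ND_top hTS le_top
      have h2 := Φ.finrank_orth (Submodule.span K {x₀} ⊔ Submodule.span K {u})
      have h3 := Submodule.finrank_add_le_finrank_add_finrank (Submodule.span K {x₀})
        (Submodule.span K {u})
      have h4 : ∀ v : V, finrank K (Submodule.span K {v}) ≤ 1 := by
        intro v
        by_cases hv : v = 0
        · subst hv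
          rw [Submodule.span_zero_singleton, finrank_bot]
          exact Nat.zero_le _
        · rw [finrank_span_singleton hv]
      have h5 := h4 x₀
      have h6 := h4 u
      rw [finrank_top] at h1
      omega
    have hue : QuadraticMap.polar Q (u + e) x₀ = 0 := by
      rw [QuadraticMap.polar_add_left, hu, he1, add_zero]
    have hQue : Q (u + e) ≠ 0 := by
      rw [QuadraticMap.map_add (⇑Q), hQu, QuadraticMap.polar_comm, he2, zero_add, add_zero]
      exact he3
    have hme : QuadraticMap.polar Q ((-1 : K) • e) x₀ = 0 := by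
      rw [QuadraticMap.polar_smul_left, he1, smul_zero]
    obtain ⟨E1, hE1, hE1v⟩ := eich_bij hx hue
    obtain ⟨E2, hE2, hE2v⟩ := eich_bij hx hme
    have h1 := orc_two hB hx 1 hue hQue hE1 (by rw [one_smul]; exact hE1v)
    have h2 := orc_two hB hx (-1) he1 he3 hE2 hE2v
    have h3 : g = E1 * E2 := by
      ext v
      calc g v = eich Q x₀ u v := hgv v
        _ = eich Q x₀ (u + e + (-1 : K) • e) v := by
          congr 2
          module
        _ = eich Q x₀ (u + e) (eich Q x₀ ((-1 : K) • e) v) := (eich_mul hx hue hme v).symm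
        _ = E1 (E2 v) := by rw [hE1v, hE2v]
        _ = (E1 * E2) v := rfl
    rw [h3]
    exact Subgroup.mul_mem _ h1 h2
  · exact orc_two hB hx 1 hu hQu hg (by rw [one_smul]; exact hgv)

theorem UU_le_Om {Q : QuadraticForm K V} (hB : ∀ u v, Φ.B u v = QuadraticMap.polar Q u v)
    (hS : ∀ v, Φ.S v ↔ Q v = 0) (hn : 5 ≤ finrank K V) {x : Submodule K V} (hx : Φ.IsPt x) :
    Φ.UU x ≤ ⁅OQ Q, OQ Q⁆ := by
  intro g hg
  obtain ⟨y, hy, -, hxy⟩ := exists_opp ND_top hx le_top
  obtain ⟨x₀, hx0, hSx, hxe⟩ := hx.imp fun _ h => h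
  have hQx : Q x₀ = 0 := (hS x₀).1 hSx
  obtain ⟨y₁, hy10, hSy, hye⟩ := hy.imp fun _ h => h
  have hb : Φ.B y₁ x₀ ≠ 0 := by
    intro h
    apply hxy
    rw [hye, hxe, span_le_orth]
    exact h
  have hgU := (Φ.mem_UU).1 hg
  obtain ⟨hg1, hg2, hg3⟩ := hg
  have hgx : g x₀ = x₀ := hg2 x₀ (by rw [hxe]; exact Submodule.mem_span_singleton_self x₀)
  set y₀ : V := (Φ.B y₁ x₀)⁻¹ • y₁ with hy0
  have hyx : Φ.B y₀ x₀ = 1 := by
    rw [hy0, Φ.smul_left, inv_mul_cancel₀ hb]
  have hSy0 : Φ.S y₀ := Φ.S_smul _ _ hSy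
  have hQy : Q y₀ = 0 := (hS _).1 hSy0
  have hy00 : y₀ ≠ 0 := by
    intro h
    rw [h, Φ.B_zero_left] at hyx
    exact zero_ne_one hyx
  have hyspan : y = Submodule.span K {y₀} := by
    apply hy.eq_span _ hy00
    rw [hye, hy0]
    exact Submodule.smul_mem _ _ (Submodule.mem_span_singleton_self y₁)
  set u : V := g y₀ - y₀ with hu
  have hux : QuadraticMap.polar Q u x₀ = 0 := by
    rw [← hB, hu, Φ.B_sub_left]
    have h1 := hg1.1 y₀ x₀
    rw [hgx] at h1
    rw [h1, sub_self]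
  obtain ⟨E, hE, hEv⟩ := eich_bij hQx hux
  have hxx : QuadraticMap.polar Q x₀ x₀ = 0 := by
    rw [QuadraticMap.polar_self, hQx, smul_zero]
  have hxu : QuadraticMap.polar Q x₀ u = 0 := by
    rw [QuadraticMap.polar_comm]
    exact hux
  have hEU : Φ.IsU x E := by
    refine ⟨orc_iso hB hS hE, fun v hv => ?_, fun v hv => ?_⟩
    · rw [hxe] at hv
      obtain ⟨a, rfl⟩ := Submodule.mem_span_singleton.1 hv
      rw [map_smul, hEv, eich_apply, hxx, hxu]
      simp
    · rw [hxe] at hv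
      have h1 := (Φ.mem_orth_span).1 hv
      rw [hB] at h1
      rw [hEv, eich_apply, h1, hxe]
      have h2 : v + (0 : K) • u - QuadraticMap.polar Q v u • x₀ - (Q u * 0) • x₀ - v =
          (-QuadraticMap.polar Q v u) • x₀ := by
        module
      rw [h2]
      exact Submodule.smul_mem _ _ (Submodule.mem_span_singleton_self x₀)
  have hgE : g = E := by
    apply IsU.ext hgU hEU hx hy hxy
    intro v hv
    rw [hyspan] at hv
    obtain ⟨a, rfl⟩ := Submodule.mem_span_singleton.1 hv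
    have hga : g (a • y₀) = a • g y₀ := map_smul g a y₀
    have hEa : E (a • y₀) = a • E y₀ := map_smul E a y₀
    have h1 : Q (g y₀) = 0 := (hS _).1 ((hg1.2 y₀).2 hSy0)
    have h2 : g y₀ = y₀ + u := by
      rw [hu]
      abel
    rw [h2, QuadraticMap.map_add (⇑Q), hQy, zero_add] at h1
    have h4 : g y₀ = E y₀ := by
      rw [hEv, eich_apply, ← hB y₀ x₀, hyx, h2]
      have h3 : y₀ + (1 : K) • u - QuadraticMap.polar Q y₀ u • x₀ - (Q u * 1) • x₀ =
          y₀ + u - (Q u + QuadraticMap.polar Q y₀ u) • x₀ := by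
        module
      rw [h3, h1, zero_smul, sub_zero]
    rw [hga, hEa, h4]
  rw [hgE]
  exact orc_three hB hS hn hQx hux hE hEv

end PS

end Pool.Agent.Work.MP_bc729a_al.CG
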