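import Pool.Agent.Work.MP_bc729a_al.CG.Defs

/-! # Module OrA (S-M): quadratic forms in three variables have zeros

PROOF. Write `P` for the polar form. If the characteristic is `2`: let `0 ≠ u ∈ W`; the vectors `v ∈ W` with `P u v = 0` form a space of dimension `≥ 2`, so there is one, `v`, not in `span {u}`. If `Q v = 0` take `v`. Otherwise every element of `K` is a square, so there is `a` with
`a ^ 2 * Q v = - Q u`, and `Q (u + a • v) = Q u + a ^ 2 * Q v + a * P u v = 0`, `u + a • v ≠ 0`.
If the characteristic is odd (`P v v = 2 Q v`): choose `0 ≠ u ∈ W` (if `Q u = 0` take `u`), then `0 ≠ v ∈ W` with `P u v = 0` (if `Q v = 0` take `v`), then `0 ≠ w ∈ W` with `P u w = 0`, `P v w = 0` (dimension `≥ 3 - 2 = 1`; if `Q w = 0` take `w`). There are `a, b` with `Q u + a ^ 2 * Q v + b ^ 2 * Q w = 0`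
(`FiniteField.exists_root_sum_quadratic`), and `Q (u + a • v + b • w)` is this number; `u + a • v + b • w ≠ 0` as `P u (u + ..) = 2 Q u ≠ 0`. (Or use Chevalley-Warning, `char_dvd_card_solutions`.) -/

namespace Pool.Agent.Work.MP_bc729a_al.CG

open Module

universe u v

variable {K : Type u} {V : Type v} [Field K] [AddCommGroup V] [Module K V] [Finite K] [Finite V]

private theorem td_sq {R : Type u} [CommRing R] [Nontrivial R] (a : R) (i : Fin 3) :
    (MvPolynomial.C a * MvPolynomial.X i ^ 2 : MvPolynomial (Fin 3) R).totalDegree ≤ 2 := by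
  refine le_trans (MvPolynomial.totalDegree_mul _ _) ?_
  rw [MvPolynomial.totalDegree_C, zero_add]
  refine le_trans (MvPolynomial.totalDegree_pow _ _) ?_
  rw [MvPolynomial.totalDegree_X]

private theorem td_mul {R : Type u} [CommRing R] [Nontrivial R] (a : R) (i j : Fin 3) :
    (MvPolynomial.C a * (MvPolynomial.X i * MvPolynomial.X j) : MvPolynomial (Fin 3) R).totalDegree ≤ 2 := by
  refine le_trans (MvPolynomial.totalDegree_mul _ _) ?_
  rw [MvPolynomial.totalDegree_C, zero_add]
  refine le_trans (MvPolynomial.totalDegree_mul _ _) ?_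
  rw [MvPolynomial.totalDegree_X, MvPolynomial.totalDegree_X]

private theorem td_add {R : Type u} [CommRing R] {f g : MvPolynomial (Fin 3) R}
    (hf : f.totalDegree ≤ 2) (hg : g.totalDegree ≤ 2) : (f + g).totalDegree ≤ 2 :=
  le_trans (MvPolynomial.totalDegree_add _ _) (max_le hf hg)

private theorem Q_three (Q : QuadraticForm K V) (u v w : V) (x y z : K) :
    Q (x • u + y • v + z • w) = Q u * x ^ 2 + Q v * y ^ 2 + Q w * z ^ 2 +
      QuadraticMap.polar Q u v * (x * y) + QuadraticMap.polar Q u w * (x * z) +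
      QuadraticMap.polar Q v w * (y * z) := by
  rw [QuadraticMap.map_add Q, QuadraticMap.map_add Q, QuadraticMap.polar_add_left,
    QuadraticMap.map_smul, QuadraticMap.map_smul, QuadraticMap.map_smul,
    QuadraticMap.polar_smul_left, QuadraticMap.polar_smul_right,
    QuadraticMap.polar_smul_left, QuadraticMap.polar_smul_right,
    QuadraticMap.polar_smul_left, QuadraticMap.polar_smul_right]
  simp only [smul_eq_mul]
  ring

theorem exists_sing (Q : QuadraticForm K V) (W : Submodule K V) (h : 3 ≤ finrank K W) :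
    ∃ v ∈ W, v ≠ 0 ∧ Q v = 0 := by
  classical
  have := Fintype.ofFinite K
  obtain ⟨f, hf⟩ := exists_linearIndependent_of_le_finrank h
  set F : MvPolynomial (Fin 3) K :=
    MvPolynomial.C (Q (f 0 : V)) * MvPolynomial.X 0 ^ 2 +
    MvPolynomial.C (Q (f 1 : V)) * MvPolynomial.X 1 ^ 2 +
    MvPolynomial.C (Q (f 2 : V)) * MvPolynomial.X 2 ^ 2 +
    MvPolynomial.C (QuadraticMap.polar Q (f 0 : V) (f 1 : V)) * (MvPolynomial.X 0 * MvPolynomial.X 1) +
    MvPolynomial.C (QuadraticMap.polar Q (f 0 : V) (f 2 : V)) * (MvPolynomial.X 0 * MvPolynomial.X 2) +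
    MvPolynomial.C (QuadraticMap.polar Q (f 1 : V) (f 2 : V)) * (MvPolynomial.X 1 * MvPolynomial.X 2)
    with hF
  have hdeg : F.totalDegree < Fintype.card (Fin 3) := by
    rw [Fintype.card_fin]
    exact Nat.lt_succ_of_le (td_add (td_add (td_add (td_add (td_add (td_sq _ _) (td_sq _ _)) (td_sq _ _))
      (td_mul _ _ _)) (td_mul _ _ _)) (td_mul _ _ _))
  have hev : ∀ x : Fin 3 → K, MvPolynomial.eval x F =
      Q (x 0 • (f 0 : V) + x 1 • (f 1 : V) + x 2 • (f 2 : V)) := by
    intro x
    rw [Q_three, hF]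
    simp only [map_add, map_mul, map_pow, MvPolynomial.eval_C, MvPolynomial.eval_X]
  obtain ⟨p, hp⟩ := CharP.exists K
  have hpp : p.Prime := CharP.char_is_prime K p
  have hdvd := char_dvd_card_solutions p hdeg
  have h0 : MvPolynomial.eval (0 : Fin 3 → K) F = 0 := by
    rw [hev]
    simp
  have hne : ∃ x : Fin 3 → K, x ≠ 0 ∧ MvPolynomial.eval x F = 0 := by
    by_contra hcon
    push Not at hcon
    have hcard : Fintype.card {x : Fin 3 → K // MvPolynomial.eval x F = 0} = 1 := by
      rw [Fintype.card_eq_one_iff]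
      refine ⟨⟨0, h0⟩, ?_⟩
      rintro ⟨x, hx⟩
      by_contra hx0
      apply hcon x
      · intro h1
        apply hx0
        exact Subtype.ext h1
      · exact hx
    rw [hcard] at hdvd
    have := Nat.dvd_one.mp hdvd
    exact hpp.one_lt.ne' this
  obtain ⟨x, hx0, hx⟩ := hne
  refine ⟨x 0 • (f 0 : V) + x 1 • (f 1 : V) + x 2 • (f 2 : V), ?_, ?_, ?_⟩
  · exact W.add_mem (W.add_mem (W.smul_mem _ (f 0).2) (W.smul_mem _ (f 1).2)) (W.smul_mem _ (f 2).2)
  · intro h1
    apply hx0
    have h2 : ∑ i, x i • f i = 0 := by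
      rw [Fin.sum_univ_three]
      apply Subtype.ext
      simpa using h1
    have h3 := Fintype.linearIndependent_iff.mp hf x h2
    funext i
    exact h3 i
  · rw [← hev]
    exact hx

end Pool.Agent.Work.MP_bc729a_al.CG
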