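import Pool.Agent.Work.MP_bc729a_al.CG.Fm
import Pool.Agent.Work.MP_bc729a_al.CG.OrA

/-! # Module OrI (M): quadratic forms

PROOF. `Φ.B u v = polar Q u v`, `τ = id`, `S v ↔ Q v = 0`, `c = 3`, `t = 1`. `refl`: `polar_comm`. `S_add`: `Q (u + v) = Q u + Q v + polar Q u v`. `S_B`: `polar Q v v = 2 * Q v` (`polar_self`), `S_odd`: `2 ≠ 0` in `K` for odd `|K|`. `card_t`: `Q (v + a • x) = Q v + a * polar Q v x` (`Q x = 0`),
exactly one `a` for `polar Q v x ≠ 0`. `ex`: `exists_sing`. `typ`: the first case.
`ei`: let `b = B y x ≠ 0`, `w = y' - y`, `B w x = 0`. Put `g v = v + b⁻¹ * B v x • w - b⁻¹ * B v w • x - (b⁻¹ ^ 2 * Q w * B v x) • x`. `Q y' = Q (y + w) = Q w + B y w = 0`, so `g y = y + w - b⁻¹ B y w x - b⁻¹ Q w x = y'`. `g x = x`. `Q (g v) = Q v`: with `f = g v - v`, `Q f = b⁻¹ ^ 2 (B v x) ^ 2 Q w` and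
`B v f = b⁻¹ B v x B v w - b⁻¹ B v w B v x - b⁻¹ ^ 2 Q w (B v x) ^ 2`. So `g` preserves `Q`, hence the polar form and `S`. If `B v x = 0` then `g v - v = - b⁻¹ B v w • x`. `g` is linear and injective (the polar form is nondegenerate), so bijective. -/

namespace Pool.Agent.Work.MP_bc729a_al.CG

open Module

universe u v

variable {K : Type u} {V : Type v} [Field K] [AddCommGroup V] [Module K V] [Finite K] [Finite V]

omit [Finite K] in
private theorem two_ne (h : Odd (Nat.card K)) : (2 : K) ≠ 0 := by
  intro h2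
  have h1 : addOrderOf (1 : K) = 2 := by
    have : Fact (Nat.Prime 2) := ⟨Nat.prime_two⟩
    apply addOrderOf_eq_prime
    · rw [two_nsmul, one_add_one_eq_two]
      exact h2
    · exact one_ne_zero
  have h3 : addOrderOf (1 : K) ∣ Nat.card K := addOrderOf_dvd_natCard 1
  rw [h1] at h3
  exact (Nat.not_even_iff_odd.2 h) (even_iff_two_dvd.2 h3)

omit [Finite K] [Finite V] in
private theorem q_eich (Q : QuadraticForm K V) {x u : V} (hx : Q x = 0)
    (hu : QuadraticMap.polar Q u x = 0) (v : V) : Q (eich Q x u v) = Q v := by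
  have hxx : QuadraticMap.polar Q x x = 0 := by
    rw [QuadraticMap.polar_self, hx, smul_zero]
  have e1 : eich Q x u v = v + (QuadraticMap.polar Q v x • u +
      (-(QuadraticMap.polar Q v u + Q u * QuadraticMap.polar Q v x)) • x) := by
    rw [eich_apply]
    module
  rw [e1, QuadraticMap.map_add Q v, QuadraticMap.map_add Q (QuadraticMap.polar Q v x • u),
    QuadraticMap.map_smul, QuadraticMap.map_smul, QuadraticMap.polar_add_right,
    QuadraticMap.polar_smul_right, QuadraticMap.polar_smul_right, QuadraticMap.polar_smul_left,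
    QuadraticMap.polar_smul_right, hx, hu]
  simp only [smul_eq_mul]
  ring

omit [Finite K] [Finite V] in
private theorem polar_eich (Q : QuadraticForm K V) {x u : V} (hx : Q x = 0)
    (hu : QuadraticMap.polar Q u x = 0) (v w : V) :
    QuadraticMap.polar Q (eich Q x u v) (eich Q x u w) = QuadraticMap.polar Q v w := by
  unfold QuadraticMap.polar
  rw [← map_add, q_eich Q hx hu, q_eich Q hx hu, q_eich Q hx hu]

theorem exists_orth (Q : QuadraticForm K V)
    (hn : ∀ u, (∀ v, QuadraticMap.polar Q u v = 0) → u = 0) :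
    ∃ Φ : PS K V, (∀ u v, Φ.B u v = QuadraticMap.polar Q u v) ∧ (∀ v, Φ.S v ↔ Q v = 0) ∧
      Φ.c = 3 ∧ Φ.t = 1 := by
  refine ⟨{
    τ := RingHom.id K
    B := fun u v => QuadraticMap.polar Q u v
    S := fun v => Q v = 0
    c := 3
    t := 1
    tau_tau := fun a => rfl
    add_left := fun u v w => QuadraticMap.polar_add_left Q u v w
    smul_left := fun a u v => QuadraticMap.polar_smul_left Q a u v
    add_right := fun u v w => QuadraticMap.polar_add_right Q u v w
    smul_right := fun a u v => QuadraticMap.polar_smul_right Q a u v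
    refl := fun u v h => by rw [QuadraticMap.polar_comm]; exact h
    nd := hn
    S_zero := QuadraticMap.map_zero Q
    S_smul := fun a v h => by
      change Q (a • v) = 0
      rw [QuadraticMap.map_smul, h, smul_zero]
    S_add := fun u v h1 h2 h3 => by
      change Q (u + v) = 0
      rw [QuadraticMap.map_add Q, h1, h2, h3, add_zero, add_zero]
    S_B := fun v h => by
      rw [QuadraticMap.polar_self, h, smul_zero]
    S_odd := fun ho v h => by
      rw [QuadraticMap.polar_self] at h
      have h2 := two_ne (K := K) ho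
      have h3 : (2 : K) * Q v = 0 := by
        rw [← h]
        simp [two_mul]
      exact (mul_eq_zero.1 h3).resolve_left h2
    card_t := fun x v hx hv => by
      rw [Nat.card_eq_one_iff_unique]
      have e1 : ∀ a : K, Q (v + a • x) = Q v + a * QuadraticMap.polar Q v x := by
        intro a
        rw [QuadraticMap.map_add Q, QuadraticMap.map_smul, hx, smul_zero, add_zero,
          QuadraticMap.polar_smul_right, smul_eq_mul]
      constructor
      · constructor
        rintro ⟨a, ha⟩ ⟨b, hb⟩
        rw [e1] at ha hb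
        apply Subtype.ext
        change a = b
        have h1 : a * QuadraticMap.polar Q v x = b * QuadraticMap.polar Q v x :=
          add_left_cancel (ha.trans hb.symm)
        exact mul_right_cancel₀ hv h1
      · refine ⟨⟨-(Q v) / QuadraticMap.polar Q v x, ?_⟩⟩
        rw [e1, div_mul_cancel₀ _ hv, add_neg_cancel]
    ex := fun W h => exists_sing Q W h
    typ := Or.inl ⟨rfl, rfl⟩
    ei := ?_ }, fun u v => rfl, fun v => Iff.rfl, rfl, rfl⟩
  intro x y y' hx hy hy' hb hb'
  have hx' : Q x = 0 := hx
  have hxx : QuadraticMap.polar Q x x = 0 := by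
    rw [QuadraticMap.polar_self, hx', smul_zero]
  set b := QuadraticMap.polar Q y x with hbd
  have hwx : QuadraticMap.polar Q (y' - y) x = 0 := by
    rw [sub_eq_add_neg, QuadraticMap.polar_add_left, QuadraticMap.polar_neg_left]
    change QuadraticMap.polar Q y' x + -QuadraticMap.polar Q y x = 0
    rw [show QuadraticMap.polar Q y' x = QuadraticMap.polar Q y x from hb', add_neg_cancel]
  have hux : QuadraticMap.polar Q (b⁻¹ • (y' - y)) x = 0 := by
    rw [QuadraticMap.polar_smul_left, hwx, smul_zero]
  have hyw : QuadraticMap.polar Q y (y' - y) = -Q (y' - y) := by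
    have h1 := QuadraticMap.map_add Q y (y' - y)
    rw [add_sub_cancel, show Q y' = 0 from hy', show Q y = 0 from hy, zero_add] at h1
    exact (neg_eq_of_add_eq_zero_right h1.symm).symm
  have hinj : Function.Injective (eich Q x (b⁻¹ • (y' - y))) := by
    rw [injective_iff_map_eq_zero]
    intro v hv
    apply hn
    intro z
    rw [← polar_eich Q hx' hux v z, hv, QuadraticMap.polar_zero_left]
  have hbij : Function.Bijective (eich Q x (b⁻¹ • (y' - y))) :=
    Finite.injective_iff_bijective.1 hinj
  refine ⟨LinearEquiv.ofBijective _ hbij, ?_, ?_, ?_, ?_, ?_, ?_⟩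
  · intro u v
    exact polar_eich Q hx' hux u v
  · intro v
    change Q (eich Q x (b⁻¹ • (y' - y)) v) = 0 ↔ Q v = 0
    rw [q_eich Q hx' hux]
  · change eich Q x (b⁻¹ • (y' - y)) x = x
    rw [eich_apply, hxx, QuadraticMap.polar_comm Q x, hux]
    simp
  · change eich Q x (b⁻¹ • (y' - y)) y = y'
    rw [eich_apply, QuadraticMap.polar_smul_right, hyw, QuadraticMap.map_smul, ← hbd, smul_smul,
      mul_inv_cancel₀ hb, one_smul]
    simp only [smul_eq_mul]
    have h1 : b⁻¹ * b⁻¹ * Q (y' - y) * b = b⁻¹ * Q (y' - y) := by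
      field_simp
    rw [h1, mul_neg, neg_smul]
    abel
  · intro v hv
    change eich Q x (b⁻¹ • (y' - y)) v - v ∈ Submodule.span K {x}
    rw [eich_apply, show QuadraticMap.polar Q v x = 0 from hv, zero_smul, mul_zero, zero_smul,
      add_zero, sub_zero]
    rw [Submodule.mem_span_singleton]
    exact ⟨-(QuadraticMap.polar Q v (b⁻¹ • (y' - y))), by rw [neg_smul]; abel⟩
  · intro v hv hvw
    change eich Q x (b⁻¹ • (y' - y)) v = v
    rw [eich_apply, show QuadraticMap.polar Q v x = 0 from hv, QuadraticMap.polar_smul_right,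
      show QuadraticMap.polar Q v (y' - y) = 0 from hvw]
    simp

end Pool.Agent.Work.MP_bc729a_al.CG
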