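import Pool.Agent.Work.MP_bc729a_al.CG.Pts
import Pool.Agent.Work.MP_bc729a_al.CG.Hyp

/-! # Module Lns (M): numbers of totally singular lines

PROOF of `card_ln_mod`. Let `U` be a complement of `x` in `W` (`x ⊓ U = ⊥`, `x ⊔ U = W`), `finrank U ≥ c`. `ℓ ↦ ℓ ⊓ U` and `z ↦ x ⊔ z` are inverse
bijections between the lines in question and the points of `U`: `x ⊔ z` is totally singular as `z ≤ U ≤ orth x` (`TS.sup`), of dimension
`2`; `ℓ ⊓ U` has dimension `1` (`ℓ ⊔ U = W` as `x ≤ ℓ`), its vectors are singular. So the number is `pn U ≡ 1` (`pn_mod`).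
`card_lines_mod`: count the pairs `(x, ℓ)`, `x` a point, `x ≤ ℓ`. For each `x` there are `≡ 1` lines (`card_ln_mod` with `W = orth x`,
`finrank = n - 1 ≥ c + 1`), and there are `≡ 1` points, so the number of pairs is `≡ 1`. For each `ℓ` there are `pn ℓ = 1 + Q ≡ 1` points
(`pn_ts`). So the number of lines is `≡ 1`. -/

namespace Pool.Agent.Work.MP_bc729a_al.CG

open Module

universe u v

variable {K : Type u} {V : Type v} [Field K] [AddCommGroup V] [Module K V] [Finite K] [Finite V]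

namespace PS

variable {Φ : PS K V}

theorem card_ln_mod {p : ℕ} [Fact p.Prime] [CharP K p] {x W : Submodule K V}
    (hx : Φ.IsPt x) (hxW : x ≤ W) (hW : W ≤ Φ.orth x) (h : Φ.c + 1 ≤ finrank K W) :
    Nat.card {ℓ : Submodule K V // Φ.IsLn ℓ ∧ x ≤ ℓ ∧ ℓ ≤ W} ≡ 1 [MOD p] := by
  obtain ⟨U0, hU0⟩ := Submodule.exists_isCompl x
  have hmod : ∀ ℓ : Submodule K V, x ≤ ℓ → x ⊔ U0 ⊓ ℓ = ℓ := by
    intro ℓ hℓ
    rw [← sup_inf_assoc_of_le U0 hℓ, hU0.sup_eq_top, top_inf_eq]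
  set U := U0 ⊓ W with hU
  have hxU : x ⊓ U = ⊥ := by
    rw [eq_bot_iff]
    exact (inf_le_inf_left x inf_le_left).trans hU0.inf_eq_bot.le
  have hfU : Φ.c ≤ finrank K U := by
    have h1 := Submodule.finrank_sup_add_finrank_inf_eq x U
    rw [hmod W hxW, hxU, finrank_bot, hx.finrank] at h1
    omega
  have hinf : ∀ ℓ : Submodule K V, ℓ ≤ W → ℓ ⊓ U = U0 ⊓ ℓ := by
    intro ℓ hℓ
    rw [hU, inf_comm ℓ (U0 ⊓ W), inf_assoc, inf_eq_right.2 hℓ]
  have hcard : Nat.card {ℓ : Submodule K V // Φ.IsLn ℓ ∧ x ≤ ℓ ∧ ℓ ≤ W} = Φ.pn U := by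
    apply Nat.card_congr
    refine
      { toFun := fun ℓ => ⟨ℓ.1 ⊓ U, ?_, inf_le_right⟩
        invFun := fun z => ⟨x ⊔ z.1, ?_, le_sup_left, ?_⟩
        left_inv := ?_
        right_inv := ?_ }
    · obtain ⟨ℓ, hℓ, hxℓ, hℓW⟩ := ℓ
      change Φ.IsPt (ℓ ⊓ U)
      have h1 := Submodule.finrank_sup_add_finrank_inf_eq x (ℓ ⊓ U)
      have h2 : x ⊓ (ℓ ⊓ U) = ⊥ := by
        rw [eq_bot_iff]
        exact (inf_le_inf_left x inf_le_right).trans hxU.le
      rw [h2, finrank_bot, hinf ℓ hℓW, hmod ℓ hxℓ, hx.finrank, hℓ.2, ← hinf ℓ hℓW] at h1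
      have h3 : finrank K ↥(ℓ ⊓ U) = 1 := by omega
      obtain ⟨⟨v, hv⟩, hv0, hvs⟩ := finrank_eq_one_iff'.1 h3
      have hv0' : v ≠ 0 := fun h => hv0 (Subtype.ext h)
      refine ⟨v, hv0', hℓ.1.1 v hv.1, ?_⟩
      apply le_antisymm
      · intro w hw
        obtain ⟨c, hc⟩ := hvs ⟨w, hw⟩
        rw [Submodule.mem_span_singleton]
        exact ⟨c, congrArg Subtype.val hc⟩
      · rw [Submodule.span_singleton_le_iff_mem]
        exact hv
    · obtain ⟨z, hz, hzU⟩ := z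
      change Φ.IsLn (x ⊔ z)
      have hzx : z ≤ Φ.orth x := hzU.trans (inf_le_right.trans hW)
      refine ⟨hx.ts.sup hz.ts (Φ.le_orth_comm.1 hzx), ?_⟩
      have h1 := Submodule.finrank_sup_add_finrank_inf_eq x z
      have h2 : x ⊓ z = ⊥ := by
        rw [eq_bot_iff]
        exact (inf_le_inf_left x hzU).trans hxU.le
      rw [h2, finrank_bot, hx.finrank, hz.finrank] at h1
      omega
    · obtain ⟨z, hz, hzU⟩ := z
      change x ⊔ z ≤ W
      exact sup_le hxW (hzU.trans inf_le_right)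
    · rintro ⟨ℓ, hℓ, hxℓ, hℓW⟩
      apply Subtype.ext
      change x ⊔ ℓ ⊓ U = ℓ
      rw [hinf ℓ hℓW, hmod ℓ hxℓ]
    · rintro ⟨z, hz, hzU⟩
      apply Subtype.ext
      change (x ⊔ z) ⊓ U = z
      rw [sup_comm, sup_inf_assoc_of_le x hzU, hxU, sup_bot_eq]
  rw [hcard]
  exact pn_mod hfU

theorem card_lines_mod {p : ℕ} [Fact p.Prime] [CharP K p] (h : Φ.c + 4 ≤ finrank K V) :
    Nat.card {ℓ : Submodule K V // Φ.IsLn ℓ} ≡ 1 [MOD p] := by
  classical
  have hfin : Finite (Submodule K V) :=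
    Finite.of_injective (fun W : Submodule K V => (W : Set V)) SetLike.coe_injective
  have := Fintype.ofFinite {x : Submodule K V // Φ.IsPt x}
  have := Fintype.ofFinite {ℓ : Submodule K V // Φ.IsLn ℓ}
  -- points
  have hP : Nat.card {x : Submodule K V // Φ.IsPt x} ≡ 1 [MOD p] := by
    have h1 : Φ.pn ⊤ ≡ 1 [MOD p] := pn_mod (by rw [finrank_top]; omega)
    have h2 : Nat.card {x : Submodule K V // Φ.IsPt x} = Φ.pn ⊤ :=
      Nat.card_congr (Equiv.subtypeEquivRight fun x => ⟨fun hx => ⟨hx, le_top⟩, fun hx => hx.1⟩)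
    rwa [h2]
  -- lines through a point
  have hL : ∀ x : {x : Submodule K V // Φ.IsPt x},
      Nat.card {ℓ : {ℓ : Submodule K V // Φ.IsLn ℓ} // x.1 ≤ ℓ.1} ≡ 1 [MOD p] := by
    rintro ⟨x, hx⟩
    have h1 : Nat.card {ℓ : {ℓ : Submodule K V // Φ.IsLn ℓ} // x ≤ ℓ.1} =
        Nat.card {ℓ : Submodule K V // Φ.IsLn ℓ ∧ x ≤ ℓ ∧ ℓ ≤ Φ.orth x} := by
      apply Nat.card_congr
      exact
        { toFun := fun ℓ => ⟨ℓ.1.1, ℓ.1.2, ℓ.2, ℓ.1.2.1.2.trans (Φ.orth_anti ℓ.2)⟩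
          invFun := fun ℓ => ⟨⟨ℓ.1, ℓ.2.1⟩, ℓ.2.2.1⟩
          left_inv := fun _ => rfl
          right_inv := fun _ => rfl }
    rw [h1]
    refine card_ln_mod hx hx.self le_rfl ?_
    have h2 := finrank_orth (Φ := Φ) x
    rw [hx.finrank] at h2
    omega
  -- points on a line
  have hQ : Nat.card K ≡ 0 [MOD p] := by
    rw [Nat.modEq_zero_iff_dvd]
    have := Fintype.ofFinite K
    rw [Nat.card_eq_fintype_card]
    obtain ⟨n, hn, hc⟩ := FiniteField.card K p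
    rw [hc]
    exact dvd_pow_self p n.ne_zero
  have hpn : ∀ ℓ : {ℓ : Submodule K V // Φ.IsLn ℓ},
      Nat.card {x : {x : Submodule K V // Φ.IsPt x} // x.1 ≤ ℓ.1} ≡ 1 [MOD p] := by
    rintro ⟨ℓ, hℓ⟩
    have h1 : Nat.card {x : {x : Submodule K V // Φ.IsPt x} // x.1 ≤ ℓ} = Φ.pn ℓ := by
      apply Nat.card_congr
      exact
        { toFun := fun x => ⟨x.1.1, x.1.2, x.2⟩
          invFun := fun x => ⟨⟨x.1, x.2.1⟩, x.2.2⟩
          left_inv := fun _ => rfl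
          right_inv := fun _ => rfl }
    rw [h1, pn_ts hℓ.1, hℓ.2]
    simp only [Finset.sum_range_succ, Finset.sum_range_zero, pow_zero, pow_one, zero_add]
    have h2 := Nat.ModEq.add_left 1 hQ
    simpa using h2
  -- double counting
  have e : (Σ x : {x : Submodule K V // Φ.IsPt x},
      {ℓ : {ℓ : Submodule K V // Φ.IsLn ℓ} // x.1 ≤ ℓ.1}) ≃
      (Σ ℓ : {ℓ : Submodule K V // Φ.IsLn ℓ},
        {x : {x : Submodule K V // Φ.IsPt x} // x.1 ≤ ℓ.1}) :=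
    { toFun := fun s => ⟨s.2.1, s.1, s.2.2⟩
      invFun := fun s => ⟨s.2.1, s.1, s.2.2⟩
      left_inv := fun _ => rfl
      right_inv := fun _ => rfl }
  have h1 := Nat.card_congr e
  rw [Nat.card_sigma, Nat.card_sigma] at h1
  have hsum : ∀ {ι : Type v} [Fintype ι] (f : ι → ℕ), (∀ i, f i ≡ 1 [MOD p]) →
      ∑ i, f i ≡ Nat.card ι [MOD p] := by
    intro ι _ f hf
    have h2 : ∑ i : ι, f i ≡ ∑ _i : ι, 1 [MOD p] := by
      apply Nat.ModEq.sum
      intro i _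
      exact hf i
    rwa [Finset.sum_const, Finset.card_univ, smul_eq_mul, mul_one,
      ← Nat.card_eq_fintype_card] at h2
  have h2 := hsum _ hL
  have h3 := hsum _ hpn
  rw [h1] at h2
  exact h3.symm.trans (h2.trans hP)

end PS

end Pool.Agent.Work.MP_bc729a_al.CG
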