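import Pool.Agent.Work.MP_bc729a_al.CG.Cw

/-! # Module Pts (M): numbers of points

PROOF. `pn_vec`: every nonzero singular vector of `W` lies in exactly one point of `W` (`IsPt.eq_span`), every point has `Q - 1` nonzero vectors
and all of them are singular. `pn_mod`: `cw` and `pn_vec`: `(Q - 1) N + 1 ≡ 0`, `Q ≡ 0`, so `N ≡ 1`. `pn_ts`: `pn_vec`; all `Q ^ k` vectors
of `E` are singular, `(Q - 1) N + 1 = Q ^ k`, and `(Q - 1) ∑ Q ^ i + 1 = Q ^ k` (`Nat.geomSum_eq` or induction), `Q ≥ 2`.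
`pn_bot`: a point is not `⊥`. `pn_mono`: inclusion. `pn_pos`: `exists_pt`. -/

namespace Pool.Agent.Work.MP_bc729a_al.CG

open Module

universe u v

variable {K : Type u} {V : Type v} [Field K] [AddCommGroup V] [Module K V] [Finite K] [Finite V]

namespace PS

variable {Φ : PS K V}

theorem pn_vec (W : Submodule K V) :
    (Nat.card K - 1) * Φ.pn W + 1 = Nat.card {v : V // v ∈ W ∧ Φ.S v} := by
  classical
  have hfin : Finite (Submodule K V) :=
    Finite.of_injective (fun U : Submodule K V => (U : Set V)) SetLike.coe_injective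
  choose w hw hw0 using fun x : {x : Submodule K V // Φ.IsPt x ∧ x ≤ W} => x.2.1.exists
  let f : Option ({x : Submodule K V // Φ.IsPt x ∧ x ≤ W} × Kˣ) →
      {v : V // v ∈ W ∧ Φ.S v} := fun o =>
    match o with
    | none => ⟨0, W.zero_mem, Φ.S_zero⟩
    | some (x, a) => ⟨(a : K) • w x, W.smul_mem _ (x.2.2 (hw x)),
        Φ.S_smul _ _ (x.2.1.S (hw x))⟩
  have hne : ∀ (x : {x : Submodule K V // Φ.IsPt x ∧ x ≤ W}) (a : Kˣ), (a : K) • w x ≠ 0 :=
    fun x a => smul_ne_zero a.ne_zero (hw0 x)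
  have hf : Function.Bijective f := by
    constructor
    · rintro (_ | ⟨x, a⟩) (_ | ⟨y, b⟩) h
      · rfl
      · exact absurd (congrArg Subtype.val h).symm (hne y b)
      · exact absurd (congrArg Subtype.val h) (hne x a)
      · have h1 : (a : K) • w x = (b : K) • w y := congrArg Subtype.val h
        have h2 : x = y := by
          apply Subtype.ext
          have e1 := x.2.1.eq_span (x.1.smul_mem (a : K) (hw x)) (hne x a)
          have e2 := y.2.1.eq_span (y.1.smul_mem (b : K) (hw y)) (hne y b)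
          rw [e1, e2, h1]
        subst h2
        have h3 : a = b := Units.ext (smul_left_injective K (hw0 x) h1)
        rw [h3]
    · rintro ⟨v, hv, hS⟩
      by_cases h0 : v = 0
      · exact ⟨none, Subtype.ext h0.symm⟩
      · let x : {x : Submodule K V // Φ.IsPt x ∧ x ≤ W} :=
          ⟨Submodule.span K {v}, isPt_span h0 hS, (Submodule.span_singleton_le_iff_mem v W).2 hv⟩
        have hx : v ∈ Submodule.span K {w x} := by
          have e1 := x.2.1.eq_span (hw x) (hw0 x)
          rw [← e1]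
          exact Submodule.mem_span_singleton_self v
        obtain ⟨a, ha⟩ := Submodule.mem_span_singleton.1 hx
        have ha0 : a ≠ 0 := by
          rintro rfl
          exact h0 (by rw [← ha, zero_smul])
        exact ⟨some (x, Units.mk0 a ha0), Subtype.ext ha⟩
  have h1 := Nat.card_eq_of_bijective f hf
  rw [← h1, Finite.card_option, Nat.card_prod, Nat.card_units, mul_comm]
  rfl

theorem pn_mod {p : ℕ} [Fact p.Prime] [CharP K p] {W : Submodule K V}
    (h : Φ.c ≤ finrank K W) : Φ.pn W ≡ 1 [MOD p] := by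
  have h1 := cw (p := p) h
  rw [← pn_vec] at h1
  have hp : p ∣ Nat.card K := by
    have := Fintype.ofFinite K
    rw [Nat.card_eq_fintype_card, ← CharP.cast_eq_zero_iff K p]
    exact Nat.cast_card_eq_zero K
  have hQ : 1 < Nat.card K := Finite.one_lt_card
  obtain ⟨q, hq⟩ : ∃ q, Nat.card K = q + 1 := ⟨Nat.card K - 1, by omega⟩
  rw [hq, Nat.add_sub_cancel] at h1
  rw [hq] at hp
  have h2 : q * Φ.pn W + 1 + Φ.pn W = (q + 1) * Φ.pn W + 1 := by ring
  have h3 : q * Φ.pn W + 1 + Φ.pn W ≡ 0 + Φ.pn W [MOD p] :=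
    Nat.ModEq.add_right _ ((Nat.modEq_zero_iff_dvd).2 h1)
  have h4 : (q + 1) * Φ.pn W + 1 ≡ 0 + 1 [MOD p] :=
    Nat.ModEq.add_right _ ((Nat.modEq_zero_iff_dvd).2 (Dvd.dvd.mul_right hp _))
  rw [h2, zero_add] at h3
  rw [zero_add] at h4
  exact h3.symm.trans h4

theorem pn_ts {E : Submodule K V} (hE : Φ.TS E) :
    Φ.pn E = ∑ i ∈ Finset.range (finrank K E), Nat.card K ^ i := by
  have hQ : 1 < Nat.card K := Finite.one_lt_card
  have h1 := pn_vec (Φ := Φ) E
  have h2 : Nat.card {v : V // v ∈ E ∧ Φ.S v} = Nat.card K ^ finrank K E := by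
    rw [← Module.natCard_eq_pow_finrank (K := K) (V := E)]
    exact Nat.card_congr (Equiv.subtypeEquivRight fun v => ⟨fun h => h.1, fun h => ⟨h, hE.1 v h⟩⟩)
  rw [h2] at h1
  rw [Nat.geomSum_eq hQ]
  symm
  apply Nat.div_eq_of_eq_mul_right (by omega)
  omega

theorem pn_bot : Φ.pn ⊥ = 0 := by
  have : IsEmpty {x : Submodule K V // Φ.IsPt x ∧ x ≤ ⊥} :=
    ⟨fun x => x.2.1.ne_bot (le_bot_iff.1 x.2.2)⟩
  exact Nat.card_of_isEmpty

theorem pn_mono {U W : Submodule K V} (h : U ≤ W) : Φ.pn U ≤ Φ.pn W := by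
  have hfin : Finite (Submodule K V) :=
    Finite.of_injective (fun U : Submodule K V => (U : Set V)) SetLike.coe_injective
  refine Nat.card_le_card_of_injective
    (fun x : {x : Submodule K V // Φ.IsPt x ∧ x ≤ U} =>
      (⟨x.1, x.2.1, x.2.2.trans h⟩ : {x : Submodule K V // Φ.IsPt x ∧ x ≤ W})) ?_
  intro x y hxy
  exact Subtype.ext (congrArg (fun z => z.1) hxy)

theorem pn_pos_of {W x : Submodule K V} (hx : Φ.IsPt x) (hxW : x ≤ W) : 0 < Φ.pn W := by
  have hfin : Finite (Submodule K V) :=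
    Finite.of_injective (fun U : Submodule K V => (U : Set V)) SetLike.coe_injective
  have hne : Nonempty {x : Submodule K V // Φ.IsPt x ∧ x ≤ W} := ⟨⟨x, hx, hxW⟩⟩
  exact Nat.card_pos

end PS

end Pool.Agent.Work.MP_bc729a_al.CG
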