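import Pool.Agent.Work.MP_bc729a_al.CG.Hyp
import Pool.Agent.Work.MP_bc729a_al.CG.Pts

/-! # Module Sig (M): totally singular subspaces and bijections of the points

PROOF. `ts_sSup`: the span of a set of pairwise perpendicular points is totally singular: every vector is a finite sum of vectors of the points
(`Submodule.mem_sSup`, induction, or `Submodule.span_induction`), `sSup X ≤ orth (sSup X)` (`x ≤ orth x'` for all `x, x' ∈ X` and
`le_orth_comm`), and sums of perpendicular singular vectors are singular. `le_iff_perp`: `→`: `w ≤ orth E ≤ orth z`. `←`: `sep` with `W = ⊤` (`ND_top`).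
`ts_ext`: if `v ∈ E`, `v ≠ 0`, then `span {v}` is a point of `E`. `exists_image`: `E' = sSup {(σ x).1 | x.1 ≤ E}`, `TS E'` by `ts_sSup` and `hσ`.
If `x.1 ≤ E` then `(σ x).1 ≤ E'`. Let `(σ x).1 ≤ E'`; for a point `w ≤ orth E` we have `w ≤ orth z` for all points `z ≤ E`, so `σ w` is perpendicular
to all `σ z`, so `σ w ≤ orth E' ≤ orth (σ x)`, so `w ≤ orth x` (`hσ`). By `le_iff_perp` `x ≤ E`. So `σ` is a bijection from the points of `E` to the
points of `E'`, `pn E = pn E'` and `pn_ts` gives the dimensions (`∑ i < k, Q ^ i` is strictly increasing in `k`). -/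

namespace Pool.Agent.Work.MP_bc729a_al.CG

open Module

universe u v

variable {K : Type u} {V : Type v} [Field K] [AddCommGroup V] [Module K V] [Finite K] [Finite V]

namespace PS

variable {Φ : PS K V}

theorem ts_sSup {X : Set (Submodule K V)} (h : ∀ x ∈ X, Φ.IsPt x)
    (h2 : ∀ x ∈ X, ∀ y ∈ X, x ≤ Φ.orth y) : Φ.TS (sSup X) := by
  have hperp : sSup X ≤ Φ.orth (sSup X) := by
    apply sSup_le
    intro x hx
    rw [Φ.le_orth_comm]
    apply sSup_le
    intro y hy
    exact h2 y hy x hx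
  refine ⟨?_, hperp⟩
  intro v hv
  rw [sSup_eq_iSup'] at hv
  have hmem : ∀ w, w ∈ (⨆ a : X, (a : Submodule K V)) → w ∈ sSup X := by
    intro w hw
    rw [sSup_eq_iSup']
    exact hw
  refine Submodule.iSup_induction' (fun a : X => (a : Submodule K V))
    (motive := fun w _ => Φ.S w) ?_ ?_ ?_ hv
  · intro i w hw
    exact (h i.1 i.2).S hw
  · exact Φ.S_zero
  · intro a b ha hb hSa hSb
    exact Φ.S_add a b hSa hSb (hperp (hmem a ha) b (hmem b hb))

theorem le_iff_perp {E z : Submodule K V} (hE : Φ.TS E) (hz : Φ.IsPt z) :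
    z ≤ E ↔ ∀ w, Φ.IsPt w → w ≤ Φ.orth E → w ≤ Φ.orth z := by
  constructor
  · intro h w _ hwE
    exact hwE.trans (Φ.orth_anti h)
  · intro h
    by_contra hcon
    obtain ⟨w, hw, -, hwE, hwz⟩ := sep ND_top hE le_top hz le_top hcon
    exact hwz (h w hw hwE)

theorem ts_ext {E E' : Submodule K V} (hE : Φ.TS E) (hE' : Φ.TS E')
    (h : ∀ x : Φ.Pt, x.1 ≤ E ↔ x.1 ≤ E') : E = E' := by
  apply le_antisymm
  · intro v hv
    by_cases h0 : v = 0
    · rw [h0]
      exact E'.zero_mem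
    · have h1 := (h ⟨Submodule.span K {v}, hE.isPt hv h0⟩).1
        ((Submodule.span_singleton_le_iff_mem v E).2 hv)
      exact (Submodule.span_singleton_le_iff_mem v E').1 h1
  · intro v hv
    by_cases h0 : v = 0
    · rw [h0]
      exact E.zero_mem
    · have h1 := (h ⟨Submodule.span K {v}, hE'.isPt hv h0⟩).2
        ((Submodule.span_singleton_le_iff_mem v E').2 hv)
      exact (Submodule.span_singleton_le_iff_mem v E).1 h1

theorem exists_image (σ : Equiv.Perm Φ.Pt)
    (hσ : ∀ x y : Φ.Pt, (σ x).1 ≤ Φ.orth (σ y).1 ↔ x.1 ≤ Φ.orth y.1) {E : Submodule K V}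
    (hE : Φ.TS E) :
    ∃ E', Φ.TS E' ∧ finrank K E' = finrank K E ∧ ∀ x : Φ.Pt, (σ x).1 ≤ E' ↔ x.1 ≤ E := by
  set X : Set (Submodule K V) := {y | ∃ x : Φ.Pt, x.1 ≤ E ∧ y = (σ x).1} with hX
  have hTS : Φ.TS (sSup X) := by
    apply ts_sSup
    · rintro _ ⟨x, -, rfl⟩
      exact (σ x).2
    · rintro _ ⟨x, hx, rfl⟩ _ ⟨y, hy, rfl⟩
      rw [hσ]
      exact hx.trans (hE.2.trans (Φ.orth_anti hy))
  have hiff : ∀ x : Φ.Pt, (σ x).1 ≤ sSup X ↔ x.1 ≤ E := by
    intro x
    constructor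
    · intro h
      rw [le_iff_perp hE x.2]
      intro w hw hwE
      have h1 : (σ ⟨w, hw⟩).1 ≤ Φ.orth (sSup X) := by
        rw [Φ.le_orth_comm]
        apply sSup_le
        rintro _ ⟨z, hz, rfl⟩
        rw [hσ, Φ.le_orth_comm]
        exact hwE.trans (Φ.orth_anti hz)
      exact (hσ ⟨w, hw⟩ x).1 (h1.trans (Φ.orth_anti h))
    · intro h
      exact le_sSup ⟨x, h, rfl⟩
  refine ⟨sSup X, hTS, ?_, hiff⟩
  have hpn : Φ.pn (sSup X) = Φ.pn E := by
    unfold PS.pn
    symm
    apply Nat.card_congr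
    exact (Equiv.subtypeSubtypeEquivSubtypeInter Φ.IsPt (fun x => x ≤ E)).symm.trans
      ((σ.subtypeEquiv (fun x => (hiff x).symm)).trans
        (Equiv.subtypeSubtypeEquivSubtypeInter Φ.IsPt (fun x => x ≤ sSup X)))
  rw [pn_ts hTS, pn_ts hE] at hpn
  have hmono : StrictMono fun k => ∑ i ∈ Finset.range k, Nat.card K ^ i := by
    apply strictMono_nat_of_lt_succ
    intro k
    rw [Finset.sum_range_succ]
    have : 0 < Nat.card K ^ k := pow_pos Nat.card_pos k
    omega
  exact hmono.injective hpn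

end PS

end Pool.Agent.Work.MP_bc729a_al.CG
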