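import Pool.Agent.Work.MP_bc729a_al.CG.Defs

/-! # Module Sub3 (S-M): planes have an odd number of lines

PROOF. `F` is linearly equivalent to `K ^ 3`. The `2`-dimensional subspaces of a `3`-dimensional space correspond to the lines of the dual space (dual
annihilators), so their number is `(Q ^ 3 - 1) / (Q - 1) = Q ^ 2 + Q + 1` (`Projectivization.card'` or similar). Or use the number of subspaces of `Fin 3 → K`
of given dimension from LA (modules Cnt, Gb: `gb Q 3 2 = 1 + Q + Q ^ 2`). -/

namespace Pool.Agent.Work.MP_bc729a_al.CG

open Module

universe u v

variable {K : Type u} {V : Type v} [Field K] [AddCommGroup V] [Module K V] [Finite K] [Finite V]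

/-- the planes of a three-dimensional space correspond to the lines of its dual -/
private noncomputable def planeEquiv (F : Submodule K V) (h : finrank K F = 3) :
    {E : Submodule K V // E ≤ F ∧ finrank K E = 2} ≃
      {H : Submodule K (Dual K F) // finrank K H = 1} where
  toFun E := ⟨(E.1.comap F.subtype).dualAnnihilator, by
    have h1 := Subspace.finrank_add_finrank_dualAnnihilator_eq (E.1.comap F.subtype)
    rw [(Submodule.comapSubtypeEquivOfLe E.2.1).finrank_eq, E.2.2, h] at h1
    omega⟩
  invFun H := ⟨(H.1.dualCoannihilator).map F.subtype, Submodule.map_subtype_le _ _, by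
    have h1 := Subspace.finrank_add_finrank_dualCoannihilator_eq H.1
    rw [H.2, h] at h1
    have h2 := (Submodule.equivMapOfInjective F.subtype F.injective_subtype
      H.1.dualCoannihilator).finrank_eq
    omega⟩
  left_inv E := by
    apply Subtype.ext
    simp only [Subspace.dualAnnihilator_dualCoannihilator_eq]
    exact (Submodule.map_comap_subtype _ _).trans (inf_eq_right.mpr E.2.1)
  right_inv H := by
    apply Subtype.ext
    simp only [Submodule.comap_map_eq_of_injective F.injective_subtype]
    exact Subspace.dualCoannihilator_dualAnnihilator_eq

theorem card_planes {F : Submodule K V} (h : finrank K F = 3) :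
    Nat.card {E : Submodule K V // E ≤ F ∧ finrank K E = 2} =
      Nat.card K ^ 2 + Nat.card K + 1 := by
  rw [Nat.card_congr (planeEquiv F h),
    ← Nat.card_congr (Projectivization.equivSubmodule K (Dual K F)),
    Projectivization.card_of_finrank K (Dual K F) (n := 3)
      (by rw [Subspace.dual_finrank_eq, h])]
  simp only [Finset.sum_range_succ, Finset.sum_range_zero]
  ring

end Pool.Agent.Work.MP_bc729a_al.CG
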