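import Pool.Agent.Work.MP_bc729a_al.CG.Trl
import Pool.Agent.Work.MP_bc729a_al.CG.Sig
import Pool.Agent.Work.MP_bc729a_al.CG.Sub3
import Pool.Agent.Work.MP_bc729a_al.CG.Lns

/-! # Module Fl (M): for odd `|K|` an involution of the points fixes a totally singular line

PROOF. Let `p` be the characteristic (`CharP.exists`, prime since `K` is finite), `n = finrank V`.
(1) `trace_lemma` for the points with `r x y := x.1 ≤ orth y.1`: `{z | r x z ∧ r y z}` are the points of `orth (x ⊔ y)` (`le_orth_comm`, `orth_sup`), of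
dimension `≥ n - 2 ≥ c` (`finrank_orth`; `finrank (x ⊔ y) ≤ 2`), so their number is `≡ 1` (`pn_mod`). So there is a point `x` with `x ≤ orth (σ x)`.
(2) If `σ x ≠ x` then `E = x ⊔ σ x` is a line (`TS.sup`, dimension `2`). By `exists_image` there is `E'`, `finrank E' = 2`, containing `σ x` and
`σ (σ x) = x`, so `E' = E` and `E` is as required.
(3) Let `σ x = x`. Let `P` be the set of the lines `ℓ` with `x ≤ ℓ`. For `ℓ ∈ P` `exists_image` gives `σ' ℓ ∈ P` with `σ z ≤ σ' ℓ ↔ z ≤ ℓ`, unique by `ts_ext`;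
`σ' (σ' ℓ) = ℓ`. `r ℓ m := ℓ ≤ orth m` is preserved (a totally singular subspace is spanned by its points, `ts_ext`-like). For `ℓ, m ∈ P` the `k ∈ P` with
`r ℓ k`, `r m k` are the lines `k` with `x ≤ k ≤ W`, `W = orth (ℓ ⊔ m)`; `x ≤ W ≤ orth x`, `finrank (ℓ ⊔ m) ≤ 3` (`x ≤ ℓ ⊓ m`), so
`finrank W ≥ n - 3 ≥ c + 1`; `card_ln_mod`. `P` is not empty (its size is `≡ 1`, `card_ln_mod` with `W = orth x`). `trace_lemma`: there is `ℓ ∈ P` with `ℓ ≤ orth (σ' ℓ)`.
(4) If `σ' ℓ = ℓ`, `E = ℓ`. Otherwise `F = ℓ ⊔ σ' ℓ` is totally singular of dimension `3` (`x` is in both). `σ'` (defined for all totally singular subspaces by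
`exists_image`) fixes `F` (it contains `σ' ℓ`, `σ' (σ' ℓ) = ℓ`) and permutes the `2`-dimensional subspaces of `F`, an involution of a set of
`Q ^ 2 + Q + 1` elements, an odd number (`card_planes`), so it fixes one (`Function.Involutive.card_fixedPoints...`, or
`Equiv.Perm.card_fixedPoints_modEq`). All `2`-dimensional subspaces of `F` are lines (`TS.mono`). -/

namespace Pool.Agent.Work.MP_bc729a_al.CG

open Module

universe u v

variable {K : Type u} {V : Type v} [Field K] [AddCommGroup V] [Module K V] [Finite K] [Finite V]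

namespace PS

variable {Φ : PS K V}

private theorem exists_im (σ : Equiv.Perm Φ.Pt)
    (hσ : ∀ x y : Φ.Pt, (σ x).1 ≤ Φ.orth (σ y).1 ↔ x.1 ≤ Φ.orth y.1) :
    ∃ im : Submodule K V → Submodule K V, (∀ E, Φ.TS E → Φ.TS (im E)) ∧
      (∀ E, Φ.TS E → finrank K (im E) = finrank K E) ∧
      ∀ E, Φ.TS E → ∀ x : Φ.Pt, (σ x).1 ≤ im E ↔ x.1 ≤ E := by
  classical
  choose g h1 h2 h3 using fun (E : Submodule K V) (hE : Φ.TS E) =>
    exists_image (Φ := Φ) σ hσ hE
  refine ⟨fun E => if h : Φ.TS E then g E h else E, ?_, ?_, ?_⟩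
  · intro E hE
    simp only [dif_pos hE]
    exact h1 E hE
  · intro E hE
    have h4 : (if h : Φ.TS E then g E h else E) = g E hE := dif_pos hE
    change finrank K ↥(if h : Φ.TS E then g E h else E) = finrank K ↥E
    rw [h4]
    exact h2 E hE
  · intro E hE x
    simp only [dif_pos hE]
    exact h3 E hE x

/-- a totally singular space is below `F` if its points are -/
private theorem ts_le {E F : Submodule K V} (hE : Φ.TS E) (h : ∀ x : Φ.Pt, x.1 ≤ E → x.1 ≤ F) :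
    E ≤ F := by
  intro v hv
  by_cases h0 : v = 0
  · rw [h0]
    exact F.zero_mem
  · have h1 := h ⟨Submodule.span K {v}, hE.isPt hv h0⟩
      ((Submodule.span_singleton_le_iff_mem v E).2 hv)
    exact (Submodule.span_singleton_le_iff_mem v F).1 h1

/-- two different points span a space of dimension two -/
private theorem finrank_two {x y : Submodule K V} (hx : Φ.IsPt x) (hy : Φ.IsPt y) (h : x ≠ y) :
    finrank K ↥(x ⊔ y) = 2 := by
  have h1 := Submodule.finrank_sup_add_finrank_inf_eq x y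
  have h2 : x ⊓ y = ⊥ := hx.inf_eq_bot (fun h' => h (hx.eq_of_le hy h'))
  rw [h2, finrank_bot, hx.finrank, hy.finrank] at h1
  omega

private theorem finrank_sup_lines {x ℓ m : Submodule K V} (hx : Φ.IsPt x) (hℓ : Φ.IsLn ℓ)
    (hm : Φ.IsLn m) (h1 : x ≤ ℓ) (h2 : x ≤ m) : finrank K ↥(ℓ ⊔ m) ≤ 3 := by
  have h3 := Submodule.finrank_sup_add_finrank_inf_eq ℓ m
  have h4 : finrank K x ≤ finrank K ↥(ℓ ⊓ m) := Submodule.finrank_mono (le_inf h1 h2)
  rw [hx.finrank] at h4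
  rw [hℓ.2, hm.2] at h3
  omega

private theorem finrank_three {x ℓ m : Submodule K V} (hx : Φ.IsPt x) (hℓ : Φ.IsLn ℓ)
    (hm : Φ.IsLn m) (h1 : x ≤ ℓ) (h2 : x ≤ m) (h : ℓ ≠ m) : finrank K ↥(ℓ ⊔ m) = 3 := by
  have h3 := Submodule.finrank_sup_add_finrank_inf_eq ℓ m
  have h5 := finrank_sup_lines hx hℓ hm h1 h2
  rw [hℓ.2, hm.2] at h3
  have h6 : finrank K ↥(ℓ ⊓ m) ≠ 2 := by
    intro h7
    apply h
    have h8 : ℓ ⊓ m = ℓ := Submodule.eq_of_le_of_finrank_eq inf_le_left (by rw [h7, hℓ.2])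
    have h9 : ℓ ⊓ m = m := Submodule.eq_of_le_of_finrank_eq inf_le_right (by rw [h7, hm.2])
    rw [← h8, h9]
  have h7 : finrank K ↥(ℓ ⊓ m) ≤ 2 := by
    rw [← hℓ.2]
    exact Submodule.finrank_mono inf_le_left
  omega

theorem fixed_line (hc : Φ.c + 4 ≤ finrank K V) (hodd : Odd (Nat.card K))
    (σ : Equiv.Perm Φ.Pt)
    (hσ : ∀ x y : Φ.Pt, (σ x).1 ≤ Φ.orth (σ y).1 ↔ x.1 ≤ Φ.orth y.1)
    (h2 : ∀ x, σ (σ x) = x) :
    ∃ E, Φ.IsLn E ∧ ∀ x : Φ.Pt, x.1 ≤ E → (σ x).1 ≤ E := by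
  classical
  have hfin : Finite (Submodule K V) :=
    Finite.of_injective (fun U : Submodule K V => (U : Set V)) SetLike.coe_injective
  obtain ⟨p, hp⟩ := CharP.exists K
  have hpp : Fact p.Prime := ⟨CharP.char_is_prime K p⟩
  obtain ⟨im, him1, him2, him3⟩ := exists_im (Φ := Φ) σ hσ
  -- monotone
  have hmono : ∀ E F : Submodule K V, Φ.TS E → Φ.TS F → E ≤ F → im E ≤ im F := by
    intro E F hE hF hEF
    apply ts_le (him1 E hE)
    intro z hz
    rw [← h2 z] at hz ⊢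
    rw [him3 E hE] at hz
    rw [him3 F hF]
    exact hz.trans hEF
  have hinv : ∀ E : Submodule K V, Φ.TS E → im (im E) = E := by
    intro E hE
    apply ts_ext (him1 _ (him1 E hE)) hE
    intro z
    conv_lhs => rw [← h2 z]
    rw [him3 _ (him1 E hE), him3 E hE]
  have hperp : ∀ E F : Submodule K V, Φ.TS E → Φ.TS F → E ≤ Φ.orth F → im E ≤ Φ.orth (im F) := by
    intro E F hE hF hEF
    apply ts_le (him1 E hE)
    intro z hz
    rw [Φ.le_orth_comm]
    apply ts_le (him1 F hF)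
    intro w hw
    rw [← h2 z] at hz
    rw [← h2 w] at hw
    rw [him3 E hE] at hz
    rw [him3 F hF] at hw
    have h3 : (σ w).1 ≤ Φ.orth (σ z).1 := by
      rw [Φ.le_orth_comm]
      exact hz.trans (hEF.trans (Φ.orth_anti hw))
    exact (hσ w z).1 h3
  have hln : ∀ E : Submodule K V, Φ.IsLn E → Φ.IsLn (im E) := fun E hE =>
    ⟨him1 E hE.1, by rw [him2 E hE.1, hE.2]⟩
  -- a point perpendicular to its image
  have hne : Nonempty Φ.Pt := by
    have h3 : Φ.pn ⊤ ≡ 1 [MOD p] := pn_mod (by rw [finrank_top]; omega)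
    have h4 : Φ.pn ⊤ ≠ 0 := by
      intro h5
      rw [h5] at h3
      have h6 := (Nat.modEq_iff_dvd' (Nat.zero_le 1)).1 h3
      exact hpp.out.one_lt.ne' (Nat.dvd_one.1 h6)
    obtain ⟨⟨z, hz, -⟩⟩ := (Nat.card_ne_zero.1 h4).1
    exact ⟨⟨z, hz⟩⟩
  obtain ⟨x, hx⟩ := trace_lemma (P := Φ.Pt) (p := p) (fun x y => x.1 ≤ Φ.orth y.1)
    (fun x y h => Φ.le_orth_comm.1 h) (by
      intro x y
      have h3 : Φ.pn (Φ.orth (x.1 ⊔ y.1)) ≡ 1 [MOD p] := by
        apply pn_mod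
        have h4 := finrank_orth (Φ := Φ) (x.1 ⊔ y.1)
        have h5 := Submodule.finrank_sup_add_finrank_inf_eq x.1 y.1
        rw [x.2.finrank, y.2.finrank] at h5
        omega
      have h4 : Nat.card {z : Φ.Pt // x.1 ≤ Φ.orth z.1 ∧ y.1 ≤ Φ.orth z.1} =
          Φ.pn (Φ.orth (x.1 ⊔ y.1)) := by
        apply Nat.card_congr
        have h5 : ∀ z : Submodule K V, (x.1 ≤ Φ.orth z ∧ y.1 ≤ Φ.orth z) ↔
            z ≤ Φ.orth (x.1 ⊔ y.1) := by
          intro z
          rw [Φ.orth_sup, le_inf_iff, Φ.le_orth_comm, Φ.le_orth_comm (U := y.1)]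
        exact
          { toFun := fun z => ⟨z.1.1, z.1.2, (h5 z.1.1).1 z.2⟩
            invFun := fun z => ⟨⟨z.1, z.2.1⟩, (h5 z.1).2 z.2.2⟩
            left_inv := fun _ => rfl
            right_inv := fun _ => rfl }
      rw [h4]
      exact h3) σ h2 (fun x y h => (hσ x y).2 h)
  by_cases hxx : σ x = x
  · -- the fixed point case
    let P : Type v := {ℓ : Submodule K V // Φ.IsLn ℓ ∧ x.1 ≤ ℓ}
    have hPmem : ∀ ℓ : P, Φ.IsLn (im ℓ.1) ∧ x.1 ≤ im ℓ.1 := by
      intro ℓ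
      refine ⟨hln _ ℓ.2.1, ?_⟩
      have h3 := (him3 ℓ.1 ℓ.2.1.1 x).2 ℓ.2.2
      rwa [hxx] at h3
    have hneP : Nonempty P := by
      have h3 := card_ln_mod (p := p) x.2 x.2.self le_rfl (by
        have h4 := finrank_orth (Φ := Φ) x.1
        rw [x.2.finrank] at h4
        omega)
      have h4 : Nat.card {ℓ : Submodule K V // Φ.IsLn ℓ ∧ x.1 ≤ ℓ ∧ ℓ ≤ Φ.orth x.1} ≠ 0 := by
        intro h5
        rw [h5] at h3
        have h6 := (Nat.modEq_iff_dvd' (Nat.zero_le 1)).1 h3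
        exact hpp.out.one_lt.ne' (Nat.dvd_one.1 h6)
      obtain ⟨⟨z, hz, hz1, -⟩⟩ := (Nat.card_ne_zero.1 h4).1
      exact ⟨⟨z, hz, hz1⟩⟩
    obtain ⟨ℓ, hℓ⟩ := trace_lemma (P := P) (p := p) (fun ℓ m => ℓ.1 ≤ Φ.orth m.1)
      (fun ℓ m h => Φ.le_orth_comm.1 h) (by
        intro ℓ m
        have h3 : Nat.card {k : P // ℓ.1 ≤ Φ.orth k.1 ∧ m.1 ≤ Φ.orth k.1} =
            Nat.card {k : Submodule K V // Φ.IsLn k ∧ x.1 ≤ k ∧ k ≤ Φ.orth (ℓ.1 ⊔ m.1)} := by
          apply Nat.card_congr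
          have h5 : ∀ z : Submodule K V, (ℓ.1 ≤ Φ.orth z ∧ m.1 ≤ Φ.orth z) ↔
              z ≤ Φ.orth (ℓ.1 ⊔ m.1) := by
            intro z
            rw [Φ.orth_sup, le_inf_iff, Φ.le_orth_comm, Φ.le_orth_comm (U := m.1)]
          exact
            { toFun := fun z => ⟨z.1.1, z.1.2.1, z.1.2.2, (h5 z.1.1).1 z.2⟩
              invFun := fun z => ⟨⟨z.1, z.2.1, z.2.2.1⟩, (h5 z.1).2 z.2.2.2⟩
              left_inv := fun _ => rfl
              right_inv := fun _ => rfl }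
        rw [h3]
        apply card_ln_mod x.2
        · rw [Φ.orth_sup]
          exact le_inf (ℓ.2.2.trans (ℓ.2.1.1.2.trans (Φ.orth_anti le_rfl)))
            (m.2.2.trans (m.2.1.1.2.trans (Φ.orth_anti le_rfl)))
        · exact Φ.orth_anti (ℓ.2.2.trans le_sup_left)
        · have h4 := finrank_orth (Φ := Φ) (ℓ.1 ⊔ m.1)
          have h5 := finrank_sup_lines x.2 ℓ.2.1 m.2.1 ℓ.2.2 m.2.2
          omega)
      (fun ℓ => ⟨im ℓ.1, hPmem ℓ⟩) (fun ℓ => Subtype.ext (hinv ℓ.1 ℓ.2.1.1))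
      (fun ℓ m h => hperp ℓ.1 m.1 ℓ.2.1.1 m.2.1.1 h)
    replace hℓ : ℓ.1 ≤ Φ.orth (im ℓ.1) := hℓ
    obtain ⟨ℓ, hℓ1, hℓ2⟩ := ℓ
    replace hℓ : ℓ ≤ Φ.orth (im ℓ) := hℓ
    by_cases hfix : im ℓ = ℓ
    · refine ⟨ℓ, hℓ1, fun y hy => ?_⟩
      have h3 := (him3 ℓ hℓ1.1 y).2 hy
      rwa [hfix] at h3
    · have hF : Φ.TS (ℓ ⊔ im ℓ) := hℓ1.1.sup (him1 ℓ hℓ1.1) hℓ
      have hxi : x.1 ≤ im ℓ := (hPmem ⟨ℓ, hℓ1, hℓ2⟩).2
      have hF3 : finrank K ↥(ℓ ⊔ im ℓ) = 3 :=
        finrank_three x.2 hℓ1 (hln ℓ hℓ1) hℓ2 hxi (fun h => hfix h.symm)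
      have hFim : im (ℓ ⊔ im ℓ) = ℓ ⊔ im ℓ := by
        symm
        apply Submodule.eq_of_le_of_finrank_eq
        · apply sup_le
          · have h3 := hmono _ _ (him1 ℓ hℓ1.1) hF le_sup_right
            rwa [hinv ℓ hℓ1.1] at h3
          · exact hmono _ _ hℓ1.1 hF le_sup_left
        · rw [him2 _ hF]
      let S : Type v := {E : Submodule K V // E ≤ ℓ ⊔ im ℓ ∧ finrank K E = 2}
      have : Fintype S := Fintype.ofFinite S
      have hTS : ∀ E : S, Φ.TS E.1 := fun E => hF.mono E.2.1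
      let f : S → S := fun E => ⟨im E.1, by
        refine ⟨?_, ?_⟩
        · have h3 := hmono _ _ (hTS E) hF E.2.1
          rwa [hFim] at h3
        · rw [him2 _ (hTS E), E.2.2]⟩
      have hf : Function.Involutive f := fun E => Subtype.ext (hinv E.1 (hTS E))
      have hcard : ¬ 2 ∣ Fintype.card S := by
        rw [← Nat.card_eq_fintype_card]
        have h3 : Nat.card S = Nat.card K ^ 2 + Nat.card K + 1 := card_planes hF3
        rw [h3]
        have h4 : Nat.card K ^ 2 + Nat.card K = Nat.card K * (Nat.card K + 1) := by ring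
        have h5 : Even (Nat.card K ^ 2 + Nat.card K) := by
          rw [h4]
          exact Nat.even_mul_succ_self (Nat.card K)
        obtain ⟨m, hm⟩ := h5
        omega
      obtain ⟨E, hE⟩ := Equiv.Perm.exists_fixed_point_of_prime (p := 2) (n := 1) hcard
        (σ := hf.toPerm) (by
          ext E
          simp [sq, hf E])
      have hE' : im E.1 = E.1 := congrArg Subtype.val hE
      refine ⟨E.1, ⟨hTS E, E.2.2⟩, fun y hy => ?_⟩
      have h3 := (him3 E.1 (hTS E) y).2 hy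
      rwa [hE'] at h3
  · -- the line through x and its image
    have hE : Φ.TS (x.1 ⊔ (σ x).1) := x.2.ts.sup (σ x).2.ts hx
    have hE2 : finrank K ↥(x.1 ⊔ (σ x).1) = 2 :=
      finrank_two x.2 (σ x).2 (fun h => hxx (Subtype.ext h.symm))
    have hfix : im (x.1 ⊔ (σ x).1) = x.1 ⊔ (σ x).1 := by
      symm
      apply Submodule.eq_of_le_of_finrank_eq
      · apply sup_le
        · have h3 := (him3 _ hE (σ x)).2 le_sup_right
          rwa [h2 x] at h3
        · exact (him3 _ hE x).2 le_sup_left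
      · rw [him2 _ hE]
    refine ⟨_, ⟨hE, hE2⟩, fun y hy => ?_⟩
    have h3 := (him3 _ hE y).2 hy
    rwa [hfix] at h3

end PS

end Pool.Agent.Work.MP_bc729a_al.CG
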