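import Pool.Agent.Work.MP_bc729a_al.CG.Hyp

/-! # Module Exq (S-M): two perpendicular hyperbolic pairs

PROOF. `bk_nd`: `x ⊔ y` and `x' ⊔ y'` are nondegenerate of dimension `2` (`hyp_nd`) and perpendicular (`orth_sup`, `le_orth_comm`), so their
intersection is `≤ (x ⊔ y) ⊓ orth (x ⊔ y) = ⊥`, the dimension of the sum is `4`; if `v = a + b` (`a ∈ x ⊔ y`, `b ∈ x' ⊔ y'`) is perpendicular to
the sum, then `a = v - b ∈ orth (x ⊔ y)`, so `a = 0`, in the same way `b = 0`.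
`exists_quad`: `exists_pt`, `exists_opp` in `W`, then in `W' = W ⊓ orth (x ⊔ y)` (nondegenerate, of dimension `finrank W - 2 ≥ c`).
`ext_line`: `ℓ = span {a, b}` for linearly independent `a, b`; `x = span {a}`, `x' = span {b}` are points (`TS.isPt`), `x ≤ orth x'`,
`¬ x ≤ x'`. `sep` with `E = x'`, `z = x` gives `y ≤ W`, `y ≤ orth x'`, `¬ y ≤ orth x`. `x' ≤ W ⊓ orth (x ⊔ y)`, which is nondegenerate;
`exists_opp` there gives `y'`. -/

namespace Pool.Agent.Work.MP_bc729a_al.CG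

open Module

universe u v

variable {K : Type u} {V : Type v} [Field K] [AddCommGroup V] [Module K V] [Finite K] [Finite V]

namespace PS

variable {Φ : PS K V}

/-- the sum of the four points -/
abbrev bk (x y x' y' : Submodule K V) : Submodule K V := (x ⊔ y) ⊔ (x' ⊔ y')

theorem bk_nd {x y x' y' : Submodule K V} (h : Φ.Quad x y x' y') :
    Φ.ND (bk x y x' y') ∧ finrank K ↥(bk x y x' y') = 4 := by
  obtain ⟨hA, hA2⟩ := hyp_nd h.px h.py h.xy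
  obtain ⟨hA', hA2'⟩ := hyp_nd h.px' h.py' h.xy'
  have hperp : x' ⊔ y' ≤ Φ.orth (x ⊔ y) := by
    rw [Φ.orth_sup]
    exact sup_le (le_inf h.xx h.yx) (le_inf h.xy1 h.yy)
  have hinf : (x ⊔ y) ⊓ (x' ⊔ y') = ⊥ := by
    rw [eq_bot_iff, ← show (x ⊔ y) ⊓ Φ.orth (x ⊔ y) = ⊥ from hA]
    exact inf_le_inf_left _ hperp
  refine ⟨?_, ?_⟩
  · change bk x y x' y' ⊓ Φ.orth (bk x y x' y') = ⊥
    rw [eq_bot_iff]
    rintro v ⟨hv, hvo⟩
    obtain ⟨a, ha, b, hb, rfl⟩ := Submodule.mem_sup.1 hv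
    have h1 : a + b ∈ Φ.orth (x ⊔ y) := Φ.orth_anti le_sup_left hvo
    have h2 : a + b ∈ Φ.orth (x' ⊔ y') := Φ.orth_anti le_sup_right hvo
    have ha' : a ∈ Φ.orth (x ⊔ y) := by
      have h3 := Submodule.sub_mem _ h1 (hperp hb)
      rwa [add_sub_cancel_right] at h3
    have ha0 : a = 0 := by
      have h3 : a ∈ (x ⊔ y) ⊓ Φ.orth (x ⊔ y) := ⟨ha, ha'⟩
      rw [show (x ⊔ y) ⊓ Φ.orth (x ⊔ y) = ⊥ from hA] at h3
      exact (Submodule.mem_bot K).1 h3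
    rw [ha0, zero_add] at h2 ⊢
    have h3 : b ∈ (x' ⊔ y') ⊓ Φ.orth (x' ⊔ y') := ⟨hb, h2⟩
    rw [show (x' ⊔ y') ⊓ Φ.orth (x' ⊔ y') = ⊥ from hA'] at h3
    exact h3
  · have h3 := Submodule.finrank_sup_add_finrank_inf_eq (x ⊔ y) (x' ⊔ y')
    rw [hinf, finrank_bot, hA2, hA2'] at h3
    omega

theorem exists_quad {W : Submodule K V} (hW : Φ.ND W) (h : Φ.c + 2 ≤ finrank K W) :
    ∃ x y x' y', Φ.Quad x y x' y' ∧ bk x y x' y' ≤ W := by
  obtain ⟨x, hx, hxW⟩ := exists_pt (Φ := Φ) (W := W) (by omega)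
  obtain ⟨y, hy, hyW, hxy⟩ := exists_opp hW hx hxW
  obtain ⟨hL, hL2⟩ := hyp_nd hx hy hxy
  have hLW : x ⊔ y ≤ W := sup_le hxW hyW
  have hW' := hW.inf_orth hL hLW
  have hd := hW.finrank_inf_orth hLW
  obtain ⟨x', hx', hxW'⟩ := exists_pt (Φ := Φ) (W := W ⊓ Φ.orth (x ⊔ y)) (by omega)
  obtain ⟨y', hy', hyW', hxy'⟩ := exists_opp hW' hx' hxW'
  have h1 : x' ≤ Φ.orth (x ⊔ y) := hxW'.trans inf_le_right
  have h2 : y' ≤ Φ.orth (x ⊔ y) := hyW'.trans inf_le_right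
  refine ⟨x, y, x', y', ⟨hx, hy, hx', hy', hxy, hxy', h1.trans (Φ.orth_anti le_sup_left),
    h1.trans (Φ.orth_anti le_sup_right), h2.trans (Φ.orth_anti le_sup_left),
    h2.trans (Φ.orth_anti le_sup_right)⟩, sup_le hLW ?_⟩
  exact sup_le (hxW'.trans inf_le_left) (hyW'.trans inf_le_left)

theorem ext_line {W ℓ : Submodule K V} (hW : Φ.ND W) (hℓ : Φ.IsLn ℓ) (hℓW : ℓ ≤ W) :
    ∃ x y x' y', Φ.Quad x y x' y' ∧ ℓ = x ⊔ x' ∧ bk x y x' y' ≤ W := by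
  obtain ⟨hTS, hdim⟩ := hℓ
  have hne : ℓ ≠ ⊥ := by
    rintro rfl
    rw [finrank_bot] at hdim
    omega
  obtain ⟨a, ha, ha0⟩ := Submodule.exists_mem_ne_zero_of_ne_bot hne
  have hx : Φ.IsPt (Submodule.span K {a}) := hTS.isPt ha ha0
  have hxℓ : Submodule.span K {a} ≤ ℓ := (Submodule.span_singleton_le_iff_mem a ℓ).2 ha
  obtain ⟨b, hb, hba⟩ : ∃ b ∈ ℓ, b ∉ Submodule.span K {a} := by
    by_contra hcon
    push Not at hcon
    have h1 : ℓ ≤ Submodule.span K {a} := hcon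
    have h2 := Submodule.finrank_mono h1
    rw [hdim, finrank_span_singleton ha0] at h2
    omega
  have hb0 : b ≠ 0 := by
    rintro rfl
    exact hba (Submodule.zero_mem _)
  have hx' : Φ.IsPt (Submodule.span K {b}) := hTS.isPt hb hb0
  have hxℓ' : Submodule.span K {b} ≤ ℓ := (Submodule.span_singleton_le_iff_mem b ℓ).2 hb
  generalize hX : Submodule.span K {a} = x at hx hxℓ hba
  generalize hX' : Submodule.span K {b} = x' at hx' hxℓ'
  have hne' : ¬ x' ≤ x := by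
    intro h
    apply hba
    apply h
    rw [← hX']
    exact Submodule.mem_span_singleton_self b
  have hne2 : ¬ x ≤ x' := by
    intro h
    exact hne' (hx.eq_of_le hx' h).ge
  have hsup : ℓ = x ⊔ x' := by
    symm
    apply Submodule.eq_of_le_of_finrank_le (sup_le hxℓ hxℓ')
    have h1 := Submodule.finrank_sup_add_finrank_inf_eq x x'
    rw [hx.inf_eq_bot hne2, finrank_bot, hx.finrank, hx'.finrank] at h1
    omega
  have hxW : x ≤ W := hxℓ.trans hℓW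
  have hxW' : x' ≤ W := hxℓ'.trans hℓW
  have hxx : x' ≤ Φ.orth x := hxℓ'.trans (hTS.2.trans (Φ.orth_anti hxℓ))
  obtain ⟨y, hy, hyW, hyo, hxy⟩ := sep hW hx'.ts hxW' hx hxW hne2
  obtain ⟨hL, hL2⟩ := hyp_nd hx hy hxy
  have hLW : x ⊔ y ≤ W := sup_le hxW hyW
  have hW' := hW.inf_orth hL hLW
  have hyx : x' ≤ Φ.orth y := Φ.le_orth_comm.1 hyo
  have hx'W : x' ≤ W ⊓ Φ.orth (x ⊔ y) := by
    rw [Φ.orth_sup]
    exact le_inf hxW' (le_inf hxx hyx)
  obtain ⟨y', hy', hyW', hxy'⟩ := exists_opp hW' hx' hx'W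
  have h2 : y' ≤ Φ.orth (x ⊔ y) := hyW'.trans inf_le_right
  refine ⟨x, y, x', y', ⟨hx, hy, hx', hy', hxy, hxy', hxx, hyx,
    h2.trans (Φ.orth_anti le_sup_left), h2.trans (Φ.orth_anti le_sup_right)⟩, hsup,
    sup_le hLW (sup_le hxW' (hyW'.trans inf_le_left))⟩

end PS

end Pool.Agent.Work.MP_bc729a_al.CG
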