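import Pool.Agent.Work.MP_bc729a_al.CG.TrnA

/-! # Module Idxp (S-M): indices are lengths of orbits

PROOF. `relIndex_stE`: `PG D` (and its subgroup `H`) acts on `Submodule K V` by `s • F = s.1 F` (`RelIso.applyMulAction` or a local `MulAction`); the stabiliser of `E` in `H` is `(stE D E).subgroupOf H`; orbit-stabiliser
(`MulAction.index_stabilizer` or `MulAction.orbitEquivQuotientStabilizer`). `index_stE`: `H = ⊤` (`relIndex_top_right`), `exists_toPG`, `orth ⊤ = ⊥` (`orth_top`) so the condition on `orth ⊤` in `bn` is void.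
`index_pt`: `trans_pt` with `W = ⊤`; images of points are points (`IsPt.map`). `stE_conj`: `(s t s⁻¹).1 (s.1 E) = s.1 (t.1 E)`. -/

namespace Pool.Agent.Work.MP_bc729a_al.CG

open Module

universe u v

variable {K : Type u} {V : Type v} [Field K] [AddCommGroup V] [Module K V] [Finite K] [Finite V]

namespace PS

variable {Φ : PS K V}

theorem relIndex_stE (D : Subgroup (V ≃ₗ[K] V)) (H : Subgroup ↥(PG D)) (E : Submodule K V) :
    (stE D E).relIndex H = Nat.card {F : Submodule K V // ∃ s ∈ H, s.1 E = F} := by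
  have h1 : (stE D E).subgroupOf H = MulAction.stabilizer ↥H E := by
    ext s
    exact Iff.rfl
  have h2 : MulAction.orbit ↥H E = {F : Submodule K V | ∃ s ∈ H, s.1 E = F} := by
    ext F
    constructor
    · rintro ⟨s, rfl⟩
      exact ⟨s.1, s.2, rfl⟩
    · rintro ⟨s, hs, rfl⟩
      exact ⟨⟨s, hs⟩, rfl⟩
  unfold Subgroup.relIndex
  rw [h1, MulAction.index_stabilizer, h2]
  exact (Nat.card_coe_set_eq _).symm

theorem index_stE (D : Subgroup (V ≃ₗ[K] V)) (E : Submodule K V) :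
    (stE D E).index = Φ.bn D ⊤ E := by
  rw [← Subgroup.relIndex_top_right, relIndex_stE]
  unfold bn
  have h : ∀ F : Submodule K V, (∃ s ∈ (⊤ : Subgroup ↥(PG D)), s.1 E = F) ↔
      ∃ g ∈ D, (∀ v ∈ Φ.orth ⊤, g v = v) ∧ E.map (g : V →ₗ[K] V) = F := by
    intro F
    constructor
    · rintro ⟨s, -, rfl⟩
      obtain ⟨g, hg, rfl⟩ := exists_toPG s
      refine ⟨g, hg, ?_, rfl⟩
      intro v hv
      rw [Φ.orth_top, Submodule.mem_bot] at hv
      rw [hv, map_zero]
    · rintro ⟨g, hg, -, rfl⟩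
      exact ⟨toPG hg, Subgroup.mem_top _, rfl⟩
  exact Nat.card_congr (Equiv.subtypeEquivRight h)

theorem index_pt {D : Subgroup (V ≃ₗ[K] V)} (hD : Φ.Grp D) (hn : 3 ≤ finrank K V)
    {x : Submodule K V} (hx : Φ.IsPt x) : (stE D x).index = Φ.pn ⊤ := by
  rw [index_stE (Φ := Φ)]
  unfold bn pn
  have h : ∀ F : Submodule K V, (∃ g ∈ D, (∀ v ∈ Φ.orth ⊤, g v = v) ∧
      x.map (g : V →ₗ[K] V) = F) ↔ (Φ.IsPt F ∧ F ≤ ⊤) := by
    intro F
    constructor
    · rintro ⟨g, hg, -, rfl⟩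
      exact ⟨hx.map (hD.le hg), le_top⟩
    · rintro ⟨hF, -⟩
      exact trans_pt hD ND_top (Or.inl (by rw [finrank_top]; exact hn)) hx le_top hF le_top
  exact Nat.card_congr (Equiv.subtypeEquivRight h)

omit [Finite K] [Finite V] in
theorem stE_conj (D : Subgroup (V ≃ₗ[K] V)) (s : ↥(PG D)) (E : Submodule K V) :
    (stE D E).map (MulAut.conj s).toMonoidHom = stE D (s.1 E) := by
  ext r
  rw [Subgroup.mem_map, mem_stE]
  constructor
  · rintro ⟨q, hq, rfl⟩
    rw [mem_stE] at hq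
    change s.1 (q.1 (s.1.symm (s.1 E))) = s.1 E
    rw [OrderIso.symm_apply_apply, hq]
  · intro h
    refine ⟨s⁻¹ * r * s, ?_, ?_⟩
    · rw [mem_stE]
      change s.1.symm (r.1 (s.1 E)) = E
      rw [h, OrderIso.symm_apply_apply]
    · change s * (s⁻¹ * r * s) * s⁻¹ = r
      group

end PS

end Pool.Agent.Work.MP_bc729a_al.CG
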