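import Pool.Agent.Work.MP_bc729a_al.CG.Sig

/-! # Module Mst (S-M): stabilisers of subspaces spanned by points

PROOF of `ts_pts`: every nonzero vector of `E` spans a point of `E` (`TS.isPt`). `map_stE`. Claim: if `E = sSup {z | IsPt z ∧ z ≤ E}` then `s ∈ stE D E ↔ ∀ x : Φ.Pt, x.1 ≤ E → s.1 x.1 ≤ E`: `→` `s.1` is monotone; `←` `s.1 E = sSup (s.1 '' ..) ≤ E`
(`OrderIso.map_sSup`) and the dimensions agree (`exists_toPG`, `finrank_map_eq`). Elements of `PG D` map points to points (`exists_toPG`, `hD.le`, `IsPt.map`).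
`α s ∈ stE D E' ↔ s ∈ stE D E`: `←`: a point `x' ≤ E'` is `β x`, `x.1 ≤ E` by `h`, `s.1 x.1` is a point `y ≤ E`, and `(α s).1 (β x).1 = (β y).1 ≤ E'` by `hβ` and `h`. `→`: for `x.1 ≤ E` let `y` be the point `s.1 x.1`;
`(β x).1 ≤ E'`, `(β y).1 = (α s).1 (β x).1 ≤ E'`, so `y.1 ≤ E`. As `α` is bijective the two subgroups agree. -/

namespace Pool.Agent.Work.MP_bc729a_al.CG

open Module

universe u v

variable {K : Type u} {V : Type v} [Field K] [AddCommGroup V] [Module K V] [Finite K] [Finite V]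

namespace PS

variable {Φ : PS K V}

theorem ts_pts {E : Submodule K V} (hE : Φ.TS E) : E = sSup {z | Φ.IsPt z ∧ z ≤ E} := by
  apply le_antisymm
  · intro v hv
    by_cases h0 : v = 0
    · rw [h0]
      exact Submodule.zero_mem _
    · have h1 : Submodule.span K {v} ∈ {z | Φ.IsPt z ∧ z ≤ E} :=
        ⟨hE.isPt hv h0, by rw [Submodule.span_singleton_le_iff_mem]; exact hv⟩
      exact le_sSup h1 (Submodule.mem_span_singleton_self v)
  · exact sSup_le fun z hz => hz.2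

omit [Finite K] [Finite V] in
private theorem PG_isPt {D : Subgroup (V ≃ₗ[K] V)} (hD : Φ.Grp D) (s : ↥(PG D)) {z : Submodule K V}
    (hz : Φ.IsPt z) : Φ.IsPt (s.1 z) := by
  obtain ⟨g, hg, rfl⟩ := exists_toPG s
  rw [toPG_apply]
  exact hz.map (hD.le hg)

omit [Finite K] in
private theorem stE_iff {D : Subgroup (V ≃ₗ[K] V)} (hD : Φ.Grp D) {E : Submodule K V}
    (hE : E = sSup {z | Φ.IsPt z ∧ z ≤ E}) (s : ↥(PG D)) :
    s ∈ stE D E ↔ ∀ x : Φ.Pt, x.1 ≤ E → s.1 x.1 ≤ E := by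
  rw [mem_stE]
  constructor
  · intro h x hx
    calc s.1 x.1 ≤ s.1 E := s.1.monotone hx
      _ = E := h
  · intro h
    have h1 : s.1 E ≤ E := by
      have h2 : s.1 E = s.1 (sSup {z | Φ.IsPt z ∧ z ≤ E}) := by rw [← hE]
      rw [h2, OrderIso.map_sSup]
      refine iSup₂_le ?_
      rintro z ⟨hz, hzE⟩
      exact h ⟨z, hz⟩ hzE
    obtain ⟨g, hg, rfl⟩ := exists_toPG s
    rw [toPG_apply] at h1 ⊢
    have hfin : Module.Finite K V := inferInstance
    exact Submodule.eq_of_le_of_finrank_eq h1 finrank_map_eq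

theorem map_stE {D : Subgroup (V ≃ₗ[K] V)} (hD : Φ.Grp D) (α : MulAut ↥(PG D))
    (β : Equiv.Perm Φ.Pt)
    (hβ : ∀ (s : ↥(PG D)) (x y : Φ.Pt), s.1 x.1 = y.1 → (α s).1 (β x).1 = (β y).1)
    {E E' : Submodule K V} (hE : E = sSup {z | Φ.IsPt z ∧ z ≤ E})
    (hE' : E' = sSup {z | Φ.IsPt z ∧ z ≤ E'})
    (h : ∀ x : Φ.Pt, (β x).1 ≤ E' ↔ x.1 ≤ E) :
    (stE D E).map α.toMonoidHom = stE D E' := by
  have key : ∀ s : ↥(PG D), α s ∈ stE D E' ↔ s ∈ stE D E := by
    intro s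
    rw [stE_iff hD hE', stE_iff hD hE]
    constructor
    · intro h1 x hx
      have h2 := h1 (β x) ((h x).2 hx)
      have h3 := hβ s x ⟨s.1 x.1, PG_isPt hD s x.2⟩ rfl
      rw [h3] at h2
      exact (h _).1 h2
    · intro h1 x' hx'
      obtain ⟨x, rfl⟩ := β.surjective x'
      have hx : x.1 ≤ E := (h x).1 hx'
      have h3 := hβ s x ⟨s.1 x.1, PG_isPt hD s x.2⟩ rfl
      rw [h3]
      exact (h _).2 (h1 x hx)
  ext u
  constructor
  · rintro ⟨s, hs, rfl⟩
    exact (key s).2 hs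
  · intro hu
    refine ⟨α.symm u, (key _).1 ?_, ?_⟩
    · rw [MulEquiv.apply_symm_apply]
      exact hu
    · change α (α.symm u) = u
      rw [MulEquiv.apply_symm_apply]

end PS

end Pool.Agent.Work.MP_bc729a_al.CG
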