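import Pool.Agent.Work.MP_bc729a_al.CG.Tst

/-! # Module Nn (M): moving a point to an opposite point

PROOF of `exists_ns`: `A` has dimension `≥ 1` and is nondegenerate, so there are `u₀ ∈ A`, `u₁ ∈ A` with `B u₁ u₀ ≠ 0` (`ND.exists_ne`). If all vectors of `A` were singular, `card_t` (with `x = u₀`, `v = u₁`) would give `t = |K| ≥ 2`.
PROOF of `nn`. `v = span {v₀}`, `w = span {w₀}`, `B v₀ w₀ ≠ 0`. It is enough to find `u ∈ A` with `S (v₀ + u)`, `B u w₀ = 0`, `B (v₀ + u) v₀ ≠ 0`: take `g` from `Φ.ei w₀ v₀ (v₀ + u)`: `g w₀ = w₀`, `g v₀ = v₀ + u`, `g a - a ∈ span {w₀}` for `a ∈ orth w`, and `g a = a` for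
`a ∈ orth A` (`B a w₀ = 0`, `B a u = 0` as `w₀, u ∈ A`); `v.map g = span {v₀ + u}` is not perpendicular to `v`.
`t ≥ 2`: as `card_t` for `x = w₀` says that there are `t ≥ 2` scalars `a` with `S (v₀ + a • w₀)`, one of them is `≠ 0`; `u = a • w₀`, `B (v₀ + u) v₀ = a * B w₀ v₀ ≠ 0` (`S_B`, `refl`).
`t = 1`: `c = 3` (`typ`; in the other cases `t ≥ 2`). Let `y ≤ A` be opposite to `w` (`exists_opp`); `A' = A ⊓ orth (w ⊔ y)` is nondegenerate of dimension `≥ 1` (`ND.inf_orth`, `hyp_nd`, `ND.finrank_inf_orth`); `u₀ ∈ A'` not singular (`exists_ns`). By `exists_S` (`B (v₀ + u₀) w₀ = B v₀ w₀ ≠ 0`)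
there is `a` with `S (v₀ + u₀ + a • w₀)`; `u = u₀ + a • w₀ ∈ A`, `B u w₀ = 0`. `u` is not singular: otherwise `u₀ = u - a • w₀` is singular (`S_sub`, `B u w₀ = 0`). If `B (v₀ + u) v₀ = 0` then `u = (v₀ + u) - v₀` is singular (`S_sub`), contradiction. -/

namespace Pool.Agent.Work.MP_bc729a_al.CG

open Module

universe u v

variable {K : Type u} {V : Type v} [Field K] [AddCommGroup V] [Module K V] [Finite K] [Finite V]

namespace PS

variable {Φ : PS K V}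

theorem exists_ns (ht : Φ.t = 1) {A : Submodule K V} (hA : Φ.ND A) (h : 1 ≤ finrank K A) :
    ∃ u ∈ A, ¬ Φ.S u := by
  by_contra hcon
  push Not at hcon
  have hb : A ≠ ⊥ := by
    rintro rfl
    rw [finrank_bot] at h
    omega
  obtain ⟨u₀, hu₀, h0⟩ := Submodule.exists_mem_ne_zero_of_ne_bot hb
  obtain ⟨u₁, hu₁, h1⟩ := hA.exists_ne hu₀ h0
  have h2 := Φ.card_t u₀ u₁ (hcon u₀ hu₀) h1
  have h3 : Nat.card {a : K // Φ.S (u₁ + a • u₀)} = Nat.card K :=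
    Nat.card_congr (Equiv.subtypeUnivEquiv fun a =>
      hcon _ (A.add_mem hu₁ (A.smul_mem a hu₀)))
  have h4 : 1 < Nat.card K := Finite.one_lt_card
  omega

private theorem nn_key {v₀ w₀ u : V} {A : Submodule K V} (hvS : Φ.S v₀) (hwS : Φ.S w₀)
    (hwA : w₀ ∈ A) (hB : Φ.B v₀ w₀ ≠ 0) (huA : u ∈ A) (hS : Φ.S (v₀ + u))
    (hu : Φ.B u w₀ = 0) (hne : Φ.B (v₀ + u) v₀ ≠ 0) :
    ∃ g : V ≃ₗ[K] V, Φ.IsU (Submodule.span K {w₀}) g ∧ (∀ a ∈ Φ.orth A, g a = a) ∧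
      ¬ (Submodule.span K {v₀}).map (g : V →ₗ[K] V) ≤ Φ.orth (Submodule.span K {v₀}) := by
  obtain ⟨g, g1, g2, g3, g4, g5, g6⟩ := Φ.ei w₀ v₀ (v₀ + u) hwS hvS hS hB
    (by rw [Φ.add_left, hu, add_zero])
  refine ⟨g, ⟨⟨g1, g2⟩, ?_, ?_⟩, ?_, ?_⟩
  · intro a ha
    obtain ⟨c, rfl⟩ := Submodule.mem_span_singleton.1 ha
    rw [map_smul, g3]
  · intro a ha
    exact g5 a ((Φ.mem_orth_span).1 ha)
  · intro a ha
    refine g6 a (ha w₀ hwA) ?_
    rw [add_sub_cancel_left]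
    exact ha u huA
  · have hm : (Submodule.span K {v₀}).map (g : V →ₗ[K] V) = Submodule.span K {v₀ + u} := by
      rw [Submodule.map_span, Set.image_singleton, ← g4]
      rfl
    rw [hm, Φ.span_le_orth]
    exact hne

theorem nn {v w A : Submodule K V} (hv : Φ.IsPt v) (hw : Φ.IsPt w) (hA : Φ.ND A)
    (hwA : w ≤ A) (h : ¬ v ≤ Φ.orth w) (hc : Φ.c ≤ finrank K A) :
    ∃ g : V ≃ₗ[K] V, Φ.IsU w g ∧ (∀ u ∈ Φ.orth A, g u = u) ∧
      ¬ v.map (g : V →ₗ[K] V) ≤ Φ.orth v := by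
  obtain ⟨v₀, hv0, hvS, rfl⟩ := hv
  have hw' := hw
  obtain ⟨w₀, hw0, hwS, rfl⟩ := hw
  have hwA0 : w₀ ∈ A := hwA (Submodule.mem_span_singleton_self w₀)
  have hB : Φ.B v₀ w₀ ≠ 0 := fun hb => h (Φ.span_le_orth.2 hb)
  have hww : Φ.B w₀ w₀ = 0 := Φ.S_B w₀ hwS
  have hcard : 1 < Nat.card K := Finite.one_lt_card
  by_cases ht : Φ.t = 1
  · have hc3 : Φ.c = 3 := by
      rcases Φ.typ with ⟨h1, -⟩ | ⟨-, h1⟩ | ⟨-, h1⟩
      · exact h1
      · rw [ht] at h1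
        omega
      · omega
    obtain ⟨y, hy, hyA, hyw⟩ := exists_opp hA hw' hwA
    obtain ⟨hnd, hfr⟩ := hyp_nd hw' hy hyw
    have hle : Submodule.span K {w₀} ⊔ y ≤ A := sup_le hwA hyA
    have hfr2 := hA.finrank_inf_orth hle
    obtain ⟨u₀, hu₀, hns⟩ := exists_ns ht (hA.inf_orth hnd hle) (by omega)
    have hu0w : Φ.B u₀ w₀ = 0 :=
      hu₀.2 w₀ ((le_sup_left : Submodule.span K {w₀} ≤ _) (Submodule.mem_span_singleton_self w₀))
    have hB2 : Φ.B (v₀ + u₀) w₀ ≠ 0 := by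
      rw [Φ.add_left, hu0w, add_zero]
      exact hB
    obtain ⟨a, ha⟩ := Φ.exists_S hwS hB2
    rw [add_assoc] at ha
    have hBu : Φ.B (u₀ + a • w₀) w₀ = 0 := by
      rw [Φ.add_left, hu0w, Φ.smul_left, hww, mul_zero, add_zero]
    have hnu : ¬ Φ.S (u₀ + a • w₀) := by
      intro hs
      apply hns
      have h1 := Φ.S_sub hs (Φ.S_smul a w₀ hwS) (by rw [Φ.smul_right, hBu, mul_zero])
      rwa [add_sub_cancel_right] at h1
    refine nn_key hvS hwS hwA0 hB (A.add_mem hu₀.1 (A.smul_mem a hwA0)) ha hBu ?_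
    intro h0
    apply hnu
    have h1 := Φ.S_sub ha hvS h0
    rwa [add_sub_cancel_left] at h1
  · have ht2 : 2 ≤ Φ.t := by
      have := Φ.t_pos
      omega
    have h1 := Φ.card_t w₀ v₀ hwS hB
    have h2 : ∃ a : K, Φ.S (v₀ + a • w₀) ∧ a ≠ 0 := by
      by_contra hcon
      push Not at hcon
      have h3 : Subsingleton {a : K // Φ.S (v₀ + a • w₀)} :=
        ⟨fun a b => Subtype.ext ((hcon a.1 a.2).trans (hcon b.1 b.2).symm)⟩
      have h4 : Nat.card {a : K // Φ.S (v₀ + a • w₀)} ≤ 1 := Finite.card_le_one_iff_subsingleton.2 h3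
      omega
    obtain ⟨a, ha, ha0⟩ := h2
    refine nn_key hvS hwS hwA0 hB (A.smul_mem a hwA0) ha ?_ ?_
    · rw [Φ.smul_left, hww, mul_zero]
    · rw [Φ.add_left, Φ.smul_left, Φ.S_B v₀ hvS, zero_add]
      exact mul_ne_zero ha0 fun h0 => hB (Φ.refl _ _ h0)

end PS

end Pool.Agent.Work.MP_bc729a_al.CG
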