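import Pool.Agent.Work.MP_bc729a_al.CG.Bt
import Pool.Agent.Work.MP_bc729a_al.CG.Nn
import Pool.Agent.Work.MP_bc729a_al.CG.Idxp
import Pool.Agent.Work.MP_bc729a_al.CG.TrnB
import Pool.Agent.Work.MP_bc729a_al.CG.Lns
import Pool.Agent.Work.MP_bc729a_al.CG.Exq
import Pool.Agent.Work.MP_bc729a_al.CG.Mst

/-! # Module Maxl (M): the stabiliser of a line is a maximal subgroup

PROOF. `index_ln`: `relIndex_stE`/`index_stE` and `trans_ln`: the images of `ℓ` are all lines (`TS.map`, `finrank_map_eq`).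
`eq_stE_line`. `(stE D ℓ).index ≡ 1 mod p` (`index_ln`, `card_lines_mod`), so it is not divisible by `p`. `bt` with `R₀ = stE D ℓ`, `Z` the set of the points of `ℓ` (`Nat.card Z = pn ℓ = 1 + Q`, `pn_ts`, prime to `p`): there are a point `x ≤ ℓ` and `E` with `TS E`, `x ≤ E`, `R ≤ stE D E`.
`ℓ ≤ E`: by `ts_pts` it is enough that every point `x' ≤ ℓ` is `≤ E`; `trans_ln_pt` gives `g ∈ D`, `x.map g = x'`, `ℓ.map g = ℓ`, so `toPG g ∈ stE D ℓ ≤ R ≤ stE D E` and `x' = x.map g ≤ E.map g = E`.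
If `E ≤ ℓ` then `E = ℓ` and `R ≤ stE D ℓ`. Otherwise there is a point `z ≤ E`, `¬ z ≤ ℓ` (`TS.isPt`). `sep` (`W = ⊤`, `E = ℓ`) gives a point `w ≤ orth ℓ`, `¬ w ≤ orth z`. `z ≤ E ≤ orth E ≤ orth ℓ`. So `ℓ ≤ U = orth (z ⊔ w)`, nondegenerate (`hyp_nd`, `ND.orth`). `ext_line` in `U` gives a
quadruple `x₁, y₁, x₁', y₁'` with `ℓ = x₁ ⊔ x₁'`, `bk ≤ U`. `A = orth bk` is nondegenerate of dimension `n - 4 ≥ c` (`bk_nd`), `w ≤ A` (`bk ≤ orth w`), `orth A = bk`. `nn` with `v = z`, `w`, `A` gives `g`, `IsU w g` (so `g ∈ D`), fixing the vectors of `bk ≥ ℓ`, `¬ z.map g ≤ orth z`. So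
`toPG g ∈ stE D ℓ ≤ R ≤ stE D E`, `z.map g ≤ E.map g = E ≤ orth E ≤ orth z`, contradiction. -/

namespace Pool.Agent.Work.MP_bc729a_al.CG

open Module

universe u v

variable {K : Type u} {V : Type v} [Field K] [AddCommGroup V] [Module K V] [Finite K] [Finite V]

namespace PS

variable {Φ : PS K V}

theorem index_ln {D : Subgroup (V ≃ₗ[K] V)} (hD : Φ.Grp D) (hn : 5 ≤ finrank K V)
    {ℓ : Submodule K V} (hℓ : Φ.IsLn ℓ) :
    (stE D ℓ).index = Nat.card {ℓ : Submodule K V // Φ.IsLn ℓ} := by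
  rw [index_stE (Φ := Φ), bn]
  apply Nat.card_congr
  apply Equiv.subtypeEquivRight
  intro F
  constructor
  · rintro ⟨g, hg, -, rfl⟩
    exact ⟨hℓ.1.map (hD.le hg), finrank_map_eq.trans hℓ.2⟩
  · intro hF
    obtain ⟨g, hg, hgF⟩ := trans_ln hD hn hℓ hF
    refine ⟨g, hg, ?_, hgF⟩
    intro v hv
    rw [Φ.orth_top, Submodule.mem_bot] at hv
    rw [hv, map_zero]

omit [Finite K] [Finite V] in
private theorem maxl_fix {W : Submodule K V} {g : V ≃ₗ[K] V} (h : ∀ u ∈ W, g u = u) :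
    W.map (g : V →ₗ[K] V) = W := by
  ext v
  constructor
  · rintro ⟨w, hw, rfl⟩
    have h1 : (g : V →ₗ[K] V) w = w := h w hw
    rw [h1]
    exact hw
  · intro hv
    exact ⟨v, hv, h v hv⟩

private theorem maxl_prime {p : ℕ} [hp : Fact p.Prime] [CharP K p] {ℓ : Submodule K V}
    (hℓ : Φ.IsLn ℓ) : ¬ p ∣ Φ.pn ℓ := by
  rw [pn_ts hℓ.1, hℓ.2, Finset.sum_range_succ, Finset.sum_range_one, pow_zero, pow_one]
  intro h
  have h1 : p ∣ Nat.card K := by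
    have := Fintype.ofFinite K
    rw [← CharP.cast_eq_zero_iff K p, Nat.card_eq_fintype_card]
    exact Nat.cast_card_eq_zero K
  have h2 : p ∣ 1 := (Nat.dvd_add_left h1).1 h
  exact hp.out.one_lt.ne' (Nat.dvd_one.1 h2)

theorem eq_stE_line {D : Subgroup (V ≃ₗ[K] V)} (hD : Φ.Grp D) [IsSimpleGroup ↥(PG D)] {p : ℕ}
    [Fact p.Prime] [CharP K p] (hc : Φ.c + 4 ≤ finrank K V) {ℓ : Submodule K V}
    (hℓ : Φ.IsLn ℓ) {R : Subgroup ↥(PG D)} (h : stE D ℓ ≤ R) (hR : R ≠ ⊤) :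
    R = stE D ℓ := by
  have hc1 := Φ.one_le_c
  have hn5 : 5 ≤ finrank K V := by omega
  have hidx : ¬ p ∣ (stE D ℓ).index := by
    rw [index_ln hD hn5 hℓ]
    intro hd
    have h1 := card_lines_mod (Φ := Φ) (p := p) hc
    have h2 := (Nat.modEq_zero_iff_dvd.2 hd).symm.trans h1
    have h3 : p ∣ 1 := Nat.modEq_zero_iff_dvd.1 h2.symm
    exact (Fact.out : p.Prime).one_lt.ne' (Nat.dvd_one.1 h3)
  have hstab : ∀ (g : V ≃ₗ[K] V) (hg : g ∈ D), ℓ.map (g : V →ₗ[K] V) = ℓ →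
      toPG hg ∈ stE D ℓ := by
    intro g hg hgl
    rw [mem_stE, toPG_apply]
    exact hgl
  obtain ⟨x, ⟨hx, hxl⟩, E, hE, hxE, hRE⟩ := bt hD (by omega) h hidx hR
    (Z := {z | Φ.IsPt z ∧ z ≤ ℓ}) (fun z hz => hz.1) (maxl_prime hℓ) (by
      rintro s hs z ⟨hz, hzl⟩
      obtain ⟨g, hg, rfl⟩ := exists_toPG s
      rw [mem_stE, toPG_apply] at hs
      rw [toPG_apply]
      refine ⟨hz.map (hD.le hg), ?_⟩
      calc z.map (g : V →ₗ[K] V) ≤ ℓ.map (g : V →ₗ[K] V) := Submodule.map_mono hzl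
        _ = ℓ := hs)
  have hEst : ∀ (g : V ≃ₗ[K] V) (hg : g ∈ D), ℓ.map (g : V →ₗ[K] V) = ℓ →
      E.map (g : V →ₗ[K] V) = E := by
    intro g hg hgl
    have h1 := hRE (h (hstab g hg hgl))
    rw [mem_stE, toPG_apply] at h1
    exact h1
  have hlE : ℓ ≤ E := by
    rw [ts_pts hℓ.1]
    apply sSup_le
    rintro x' ⟨hx', hxl'⟩
    obtain ⟨g, hg, hgx, hgl⟩ := trans_ln_pt hD hn5 hx hℓ hxl hx' hℓ hxl'
    calc x' = x.map (g : V →ₗ[K] V) := hgx.symm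
      _ ≤ E.map (g : V →ₗ[K] V) := Submodule.map_mono hxE
      _ = E := hEst g hg hgl
  by_cases hEl : E ≤ ℓ
  · have hEq : E = ℓ := le_antisymm hEl hlE
    rw [hEq] at hRE
    exact le_antisymm hRE h
  · exfalso
    obtain ⟨v, hv, hvl⟩ := SetLike.not_le_iff_exists.1 hEl
    have hv0 : v ≠ 0 := by
      rintro rfl
      exact hvl ℓ.zero_mem
    have hz := hE.isPt hv hv0
    set z := Submodule.span K {v} with hzdef
    have hzE : z ≤ E := by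
      rw [hzdef, Submodule.span_singleton_le_iff_mem]
      exact hv
    have hzl : ¬ z ≤ ℓ := by
      rw [hzdef, Submodule.span_singleton_le_iff_mem]
      exact hvl
    obtain ⟨w, hw, -, hwl, hwz⟩ := sep ND_top hℓ.1 le_top hz le_top hzl
    obtain ⟨hL, -⟩ := hyp_nd hz hw hwz
    have hEz : E ≤ Φ.orth z := hE.2.trans (Φ.orth_anti hzE)
    have hlU : ℓ ≤ Φ.orth (z ⊔ w) := by
      rw [Φ.orth_sup]
      exact le_inf (hlE.trans hEz) (Φ.le_orth_comm.1 hwl)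
    obtain ⟨x₁, y₁, x₁', y₁', hq, hlq, hbk⟩ := ext_line hL.orth hℓ hlU
    obtain ⟨hB, hB4⟩ := bk_nd hq
    have hA := hB.orth
    have hAd := finrank_orth (Φ := Φ) (bk x₁ y₁ x₁' y₁')
    have hwA : w ≤ Φ.orth (bk x₁ y₁ x₁' y₁') :=
      Φ.le_orth_comm.1 (hbk.trans (Φ.orth_anti le_sup_right))
    have hzw : ¬ z ≤ Φ.orth w := fun hh => hwz (Φ.le_orth_comm.1 hh)
    obtain ⟨g, hg, hgf, hgz⟩ := nn hz hw hA hwA hzw (by omega)
    rw [orth_orth] at hgf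
    have hlb : ℓ ≤ bk x₁ y₁ x₁' y₁' := by
      rw [hlq]
      exact sup_le_sup le_sup_left le_sup_left
    have hgl : ℓ.map (g : V →ₗ[K] V) = ℓ := maxl_fix fun u hu => hgf u (hlb hu)
    apply hgz
    calc z.map (g : V →ₗ[K] V) ≤ E.map (g : V →ₗ[K] V) := Submodule.map_mono hzE
      _ = E := hEst g (hD.u w hw hg) hgl
      _ ≤ Φ.orth z := hEz

end PS

end Pool.Agent.Work.MP_bc729a_al.CG
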