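import Pool.Agent.Work.MP_bc729a_al.CG.Rec

/-! # Module Par (M): for odd `|K|` the number of totally singular lines is even

PROOF. Strong induction on `finrank W`. If `W` has no point then it has no line (`TS.isPt`): the number is `0`. Otherwise let `x` be a point of `W`, `y`
opposite (`exists_opp`), `L = x ⊔ y`, `W' = W ⊓ orth L` (nondegenerate, smaller dimension). Let `ρ : V ≃ₗ V` be `-1` on `L` and `1` on `orth L`
(`V = L ⊕ orth L`: `ND.sup`, `hyp_nd`). `B (ρ u) (ρ v) = B u v` (`L` and `orth L` are perpendicular). As `|K|` is odd, `S v ↔ B v v = 0` (`S_B`, `S_odd`), so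
`S (ρ v) ↔ S v`: `ρ ∈ Iso`, `ρ² = 1`, `ρ W = W` (if `w = l + m`, `l ∈ L ≤ W`, then `m ∈ W`). `ρ` permutes the lines of `W`; the number of lines of `W` is congruent
mod `2` to the number of lines fixed by `ρ` (`Equiv.Perm.card_fixedPoints_modEq`).
A fixed line `ℓ`: for `v = l + m ∈ ℓ` also `ρ v = -l + m ∈ ℓ`, so `2 l, 2 m ∈ ℓ`, `l, m ∈ ℓ` (`2 ≠ 0`): `ℓ = (ℓ ⊓ L) ⊕ (ℓ ⊓ orth L)`. `ℓ ⊓ L ≠ L` (`L` is
nondegenerate, not `⊥`, so not totally singular), so `ℓ ⊓ L = ⊥` and `ℓ ≤ W'`, or `ℓ ⊓ L` and `ℓ ⊓ orth L = ℓ ⊓ W'` are points. Conversely lines of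
`W'` and the lines `a ⊔ b`, `a` a point of `L`, `b` a point of `W'`, are fixed. So the number of fixed lines is `N(W') + pn L * pn W'`.
`pn L = 1 + t` (`pn_rec` for `W = L`: `L ⊓ orth L = ⊥`, `pn_bot`, `finrank L = 2`), even, as `t` is odd (`typ`: `1`, or `t * t` odd, or `|K|`).
`N(W')` is even by induction. -/

namespace Pool.Agent.Work.MP_bc729a_al.CG

open Module

universe u v

variable {K : Type u} {V : Type v} [Field K] [AddCommGroup V] [Module K V] [Finite K] [Finite V]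

namespace PS

variable {Φ : PS K V}

private theorem inv_parity {α : Type*} [Finite α] (σ : α → α) (hσ : ∀ a, σ (σ a) = a) :
    Nat.card α ≡ Nat.card {a // σ a = a} [MOD 2] := by
  classical
  have := Fintype.ofFinite α
  have h := Equiv.Perm.card_fixedPoints_modEq (f := (σ : Function.End α)) (p := 2) (n := 1) (by
    funext a
    exact hσ a)
  rw [← Nat.card_eq_fintype_card, ← Nat.card_eq_fintype_card] at h
  exact h

private theorem card_split' {α : Type*} [Finite α] (P : α → Prop) :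
    Nat.card α = Nat.card {a // P a} + Nat.card {a // ¬ P a} := by
  classical
  rw [← Nat.card_sum]
  exact (Nat.card_congr (Equiv.sumCompl P)).symm

/-- the reflection with `-1` on `L` and `1` on `orth L` -/
private theorem exists_refl (hodd : Odd (Nat.card K)) {L : Submodule K V} (hL : Φ.ND L) :
    ∃ ρ : V ≃ₗ[K] V, ρ ∈ Φ.Iso ∧ (∀ v ∈ L, ρ v = -v) ∧ (∀ v ∈ Φ.orth L, ρ v = v) ∧
      ∀ v, ρ (ρ v) = v := by
  have hc : IsCompl L (Φ.orth L) :=
    ⟨disjoint_iff.2 hL, codisjoint_iff.2 hL.sup⟩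
  let f : V →ₗ[K] V := LinearMap.id - (2 : K) • L.projection (Φ.orth L) hc
  have hfL : ∀ v ∈ L, f v = -v := by
    intro v hv
    change v - (2 : K) • L.projection (Φ.orth L) hc v = -v
    rw [Submodule.projection_apply_of_mem_left hc hv, two_smul]
    abel
  have hfO : ∀ v ∈ Φ.orth L, f v = v := by
    intro v hv
    change v - (2 : K) • L.projection (Φ.orth L) hc v = v
    rw [(Submodule.projection_apply_eq_zero_iff hc).2 hv, smul_zero, sub_zero]
  have hdec : ∀ v : V, ∃ l ∈ L, ∃ m ∈ Φ.orth L, v = l + m := by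
    intro v
    have hv : v ∈ L ⊔ Φ.orth L := by
      rw [hL.sup]
      exact Submodule.mem_top
    obtain ⟨l, hl, m, hm, h⟩ := Submodule.mem_sup.1 hv
    exact ⟨l, hl, m, hm, h.symm⟩
  have hff : ∀ v, f (f v) = v := by
    intro v
    obtain ⟨l, hl, m, hm, rfl⟩ := hdec v
    rw [map_add, hfL l hl, hfO m hm, map_add, map_neg, hfL l hl, hfO m hm, neg_neg]
  have hB : ∀ u v, Φ.B (f u) (f v) = Φ.B u v := by
    intro u v
    obtain ⟨l, hl, m, hm, rfl⟩ := hdec u
    obtain ⟨l', hl', m', hm', rfl⟩ := hdec v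
    rw [map_add, map_add, hfL l hl, hfO m hm, hfL l' hl', hfO m' hm']
    have h1 : Φ.B m l' = 0 := hm l' hl'
    have h2 : Φ.B l m' = 0 := Φ.refl _ _ (hm' l hl)
    rw [Φ.add_left, Φ.add_right, Φ.add_right, Φ.add_left, Φ.add_right, Φ.add_right,
      Φ.B_neg_left, Φ.B_neg_right, Φ.B_neg_left, Φ.B_neg_right, h1, h2, neg_neg]
    ring
  have hS : ∀ v, Φ.S v ↔ Φ.B v v = 0 := fun v => ⟨Φ.S_B v, Φ.S_odd hodd v⟩
  refine ⟨LinearEquiv.ofInvolutive f hff, ⟨hB, ?_⟩, hfL, hfO, hff⟩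
  intro v
  rw [hS, hS]
  change Φ.B (f v) (f v) = 0 ↔ _
  rw [hB]

private theorem two_ne (hodd : Odd (Nat.card K)) : (2 : K) ≠ 0 := by
  intro h2
  have h : CharP K 2 := by
    have h1 : ringChar K ∣ 2 := by
      rw [← CharP.cast_eq_zero_iff K (ringChar K)]
      exact_mod_cast h2
    rcases (Nat.dvd_prime Nat.prime_two).1 h1 with h3 | h3
    · exact absurd h3 CharP.ringChar_ne_one
    · rw [← h3]
      exact ringChar.charP K
  have := Fintype.ofFinite K
  have h3 : 2 ∣ Nat.card K := by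
    rw [Nat.card_eq_fintype_card, ← CharP.cast_eq_zero_iff K 2]
    exact Nat.cast_card_eq_zero K
  obtain ⟨k, hk⟩ := hodd
  omega

private theorem fin_sub : Finite (Submodule K V) :=
  Finite.of_injective (fun U : Submodule K V => (U : Set V)) SetLike.coe_injective

theorem even_lines (hodd : Odd (Nat.card K)) {W : Submodule K V} (hW : Φ.ND W) :
    Even (Nat.card {ℓ : Submodule K V // Φ.IsLn ℓ ∧ ℓ ≤ W}) := by
  have hfin : Finite (Submodule K V) := fin_sub
  generalize hn : finrank K W = n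
  induction n using Nat.strong_induction_on generalizing W with
  | _ n ih =>
  by_cases hpt : ∃ x, Φ.IsPt x ∧ x ≤ W
  · obtain ⟨x, hx, hxW⟩ := hpt
    obtain ⟨y, hy, hyW, hxy⟩ := exists_opp hW hx hxW
    obtain ⟨hL, hL2⟩ := hyp_nd hx hy hxy
    have hLW : x ⊔ y ≤ W := sup_le hxW hyW
    have hW' : Φ.ND (W ⊓ Φ.orth (x ⊔ y)) := hW.inf_orth hL hLW
    have hdim := hW.finrank_inf_orth hLW
    have hev' : Even (Nat.card {ℓ : Submodule K V // Φ.IsLn ℓ ∧ ℓ ≤ W ⊓ Φ.orth (x ⊔ y)}) :=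
      ih _ (by omega) hW' rfl
    -- number of points of `L`
    have hpnL : Even (Φ.pn (x ⊔ y)) := by
      have h1 := pn_rec hL hx le_sup_left hy le_sup_right hxy
      have h2 : (x ⊔ y) ⊓ Φ.orth (x ⊔ y) = ⊥ := hL
      rw [h2, pn_bot, hL2, Nat.sub_self, pow_zero, mul_one, mul_zero, add_zero] at h1
      have ht : Odd Φ.t := by
        rcases Φ.typ with ⟨-, h3⟩ | ⟨-, h3⟩ | ⟨-, h3⟩
        · rw [h3]
          exact odd_one
        · rw [← h3] at hodd
          exact (Nat.odd_mul.1 hodd).1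
        · rw [h3]
          exact hodd
      rw [h1]
      obtain ⟨k, hk⟩ := ht
      exact ⟨k + 1, by omega⟩
    set L := x ⊔ y with hLdef
    obtain ⟨ρ, hρI, hρL, hρO, hρρ⟩ := exists_refl hodd hL
    have hLbot : L ⊓ Φ.orth L = ⊥ := hL
    have hsup : L ⊔ Φ.orth L = ⊤ := hL.sup
    have hdec : ∀ v : V, ∃ l ∈ L, ∃ m ∈ Φ.orth L, v = l + m := by
      intro v
      have hv : v ∈ L ⊔ Φ.orth L := by
        rw [hsup]
        exact Submodule.mem_top
      obtain ⟨l, hl, m, hm, h⟩ := Submodule.mem_sup.1 hv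
      exact ⟨l, hl, m, hm, h.symm⟩
    have hρW : ∀ v ∈ W, ρ v ∈ W := by
      intro v hv
      obtain ⟨l, hl, m, hm, rfl⟩ := hdec v
      rw [map_add, hρL l hl, hρO m hm]
      have h1 : -l + m = (l + m) - (l + l) := by abel
      rw [h1]
      exact W.sub_mem hv (W.add_mem (hLW hl) (hLW hl))
    have hmapW : ∀ ℓ : Submodule K V, ℓ ≤ W → ℓ.map (ρ : V →ₗ[K] V) ≤ W := by
      rintro ℓ hℓ _ ⟨v, hv, rfl⟩
      exact hρW v (hℓ hv)
    have hmm : ∀ ℓ : Submodule K V,
        (ℓ.map (ρ : V →ₗ[K] V)).map (ρ : V →ₗ[K] V) = ℓ := by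
      intro ℓ
      ext v
      constructor
      · rintro ⟨_, ⟨u, hu, rfl⟩, rfl⟩
        change ρ (ρ u) ∈ ℓ
        rw [hρρ]
        exact hu
      · intro hv
        exact ⟨ρ v, ⟨v, hv, rfl⟩, hρρ v⟩
    let σ : {ℓ : Submodule K V // Φ.IsLn ℓ ∧ ℓ ≤ W} → {ℓ : Submodule K V // Φ.IsLn ℓ ∧ ℓ ≤ W} :=
      fun ℓ => ⟨ℓ.1.map (ρ : V →ₗ[K] V),
        ⟨ℓ.2.1.1.map hρI, finrank_map_eq.trans ℓ.2.1.2⟩, hmapW _ ℓ.2.2⟩
    have hσ : ∀ ℓ, σ (σ ℓ) = ℓ := fun ℓ => Subtype.ext (hmm ℓ.1)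
    have hpar := inv_parity σ hσ
    -- a fixed line contains the components of its vectors
    have hcomp : ∀ ℓ : Submodule K V, ℓ.map (ρ : V →ₗ[K] V) = ℓ → ∀ l ∈ L, ∀ m ∈ Φ.orth L,
        l + m ∈ ℓ → l ∈ ℓ ∧ m ∈ ℓ := by
      intro ℓ hℓ l hl m hm hlm
      have h1 : ρ (l + m) ∈ ℓ := by
        rw [← hℓ]
        exact ⟨l + m, hlm, rfl⟩
      rw [map_add, hρL l hl, hρO m hm] at h1
      have h2 : (2 : K) • l ∈ ℓ := by
        have h3 := ℓ.sub_mem hlm h1
        have h4 : l + m - (-l + m) = (2 : K) • l := by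
          rw [two_smul]
          abel
        rwa [h4] at h3
      have h3 : l ∈ ℓ := by
        have h4 := ℓ.smul_mem (2 : K)⁻¹ h2
        rwa [smul_smul, inv_mul_cancel₀ (two_ne hodd), one_smul] at h4
      refine ⟨h3, ?_⟩
      have h4 := ℓ.sub_mem hlm h3
      rwa [add_sub_cancel_left] at h4
    -- split the fixed lines
    have hsplit := card_split' (fun ℓ : {ℓ : {ℓ : Submodule K V // Φ.IsLn ℓ ∧ ℓ ≤ W} // σ ℓ = ℓ} =>
      ℓ.1.1 ≤ Φ.orth L)
    have hc1 : Nat.card {ℓ : {ℓ : {ℓ : Submodule K V // Φ.IsLn ℓ ∧ ℓ ≤ W} // σ ℓ = ℓ} //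
        ℓ.1.1 ≤ Φ.orth L} =
        Nat.card {ℓ : Submodule K V // Φ.IsLn ℓ ∧ ℓ ≤ W ⊓ Φ.orth L} := by
      refine Nat.card_congr
        { toFun := fun ℓ => ⟨ℓ.1.1.1, ℓ.1.1.2.1, le_inf ℓ.1.1.2.2 ℓ.2⟩
          invFun := fun ℓ => ⟨⟨⟨ℓ.1, ℓ.2.1, ℓ.2.2.trans inf_le_left⟩, ?_⟩,
            ℓ.2.2.trans inf_le_right⟩
          left_inv := fun ℓ => rfl
          right_inv := fun ℓ => rfl }
      apply Subtype.ext
      ext v
      constructor
      · rintro ⟨u, hu, rfl⟩
        have e : (ρ : V →ₗ[K] V) u = u := hρO u (ℓ.2.2.trans inf_le_right hu)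
        rw [e]
        exact hu
      · intro hv
        exact ⟨v, hv, hρO v (ℓ.2.2.trans inf_le_right hv)⟩
    have hc2 : Nat.card {ℓ : {ℓ : {ℓ : Submodule K V // Φ.IsLn ℓ ∧ ℓ ≤ W} // σ ℓ = ℓ} //
        ¬ ℓ.1.1 ≤ Φ.orth L} = Φ.pn L * Φ.pn (W ⊓ Φ.orth L) := by
      unfold PS.pn
      rw [← Nat.card_prod]
      symm
      have hbot : ∀ a b : Submodule K V, a ≤ L → b ≤ Φ.orth L → a ⊓ b = ⊥ := by
        intro a b ha hb
        rw [eq_bot_iff, ← hLbot]
        exact inf_le_inf ha hb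
      let F : ({a : Submodule K V // Φ.IsPt a ∧ a ≤ L} ×
          {b : Submodule K V // Φ.IsPt b ∧ b ≤ W ⊓ Φ.orth L}) →
          {ℓ : {ℓ : {ℓ : Submodule K V // Φ.IsLn ℓ ∧ ℓ ≤ W} // σ ℓ = ℓ} //
            ¬ ℓ.1.1 ≤ Φ.orth L} := fun q =>
        ⟨⟨⟨q.1.1 ⊔ q.2.1, ⟨TS.sup q.1.2.1.ts q.2.2.1.ts
            ((Φ.le_orth_comm.1 ((q.2.2.2.trans inf_le_right).trans (Φ.orth_anti q.1.2.2)))), by
            have h1 := Submodule.finrank_sup_add_finrank_inf_eq q.1.1 q.2.1
            rw [hbot _ _ q.1.2.2 (q.2.2.2.trans inf_le_right), finrank_bot, add_zero,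
              q.1.2.1.finrank, q.2.2.1.finrank] at h1
            exact h1⟩, sup_le (q.1.2.2.trans hLW) (q.2.2.2.trans inf_le_left)⟩, by
          apply Subtype.ext
          change (q.1.1 ⊔ q.2.1).map (ρ : V →ₗ[K] V) = q.1.1 ⊔ q.2.1
          rw [Submodule.map_sup]
          congr 1
          · ext v
            constructor
            · rintro ⟨u, hu, rfl⟩
              have e : (ρ : V →ₗ[K] V) u = -u := hρL u (q.1.2.2 hu)
              rw [e]
              exact q.1.1.neg_mem hu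
            · intro hv
              refine ⟨-v, q.1.1.neg_mem hv, ?_⟩
              change ρ (-v) = v
              rw [map_neg, hρL v (q.1.2.2 hv), neg_neg]
          · ext v
            constructor
            · rintro ⟨u, hu, rfl⟩
              have e : (ρ : V →ₗ[K] V) u = u := hρO u (q.2.2.2.trans inf_le_right hu)
              rw [e]
              exact hu
            · intro hv
              exact ⟨v, hv, hρO v (q.2.2.2.trans inf_le_right hv)⟩⟩, by
        intro h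
        have h1 : q.1.1 ≤ Φ.orth L := le_sup_left.trans h
        have h2 : q.1.1 ⊓ q.1.1 = ⊥ := hbot _ _ q.1.2.2 h1
        rw [inf_idem] at h2
        exact q.1.2.1.ne_bot h2⟩
      refine Nat.card_eq_of_bijective F ⟨?_, ?_⟩
      · rintro ⟨a, b⟩ ⟨a', b'⟩ h
        have h0 : a.1 ⊔ b.1 = a'.1 ⊔ b'.1 := congrArg (fun z => z.1.1.1) h
        have hA : ∀ (a : {a : Submodule K V // Φ.IsPt a ∧ a ≤ L})
            (b : {b : Submodule K V // Φ.IsPt b ∧ b ≤ W ⊓ Φ.orth L}),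
            (a.1 ⊔ b.1) ⊓ L = a.1 ∧ (a.1 ⊔ b.1) ⊓ Φ.orth L = b.1 := by
          intro a b
          have hb : b.1 ≤ Φ.orth L := b.2.2.trans inf_le_right
          constructor
          · rw [sup_inf_assoc_of_le _ a.2.2, inf_comm, hbot _ _ le_rfl hb, sup_bot_eq]
          · rw [sup_comm, sup_inf_assoc_of_le _ hb, hbot _ _ a.2.2 le_rfl, sup_bot_eq]
        have e1 : a.1 = a'.1 := by
          rw [← (hA a b).1, h0, (hA a' b').1]
        have e2 : b.1 = b'.1 := by
          rw [← (hA a b).2, h0, (hA a' b').2]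
        exact Prod.ext (Subtype.ext e1) (Subtype.ext e2)
      · rintro ⟨⟨⟨ℓ, hln, hℓW⟩, hfix⟩, hno⟩
        have hfix' : ℓ.map (ρ : V →ₗ[K] V) = ℓ := congrArg Subtype.val hfix
        change ¬ ℓ ≤ Φ.orth L at hno
        -- a vector of `ℓ ⊓ L`
        obtain ⟨v, hv, hvn⟩ := SetLike.not_le_iff_exists.1 hno
        obtain ⟨l, hl, m, hm, rfl⟩ := hdec v
        have hl0 : l ≠ 0 := by
          rintro rfl
          rw [zero_add] at hvn
          exact hvn hm
        have hlℓ := (hcomp ℓ hfix' l hl m hm hv).1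
        -- a vector of `ℓ` outside `L`
        have hnL : ¬ ℓ ≤ L := by
          intro h
          have h1 : ℓ = L := Submodule.eq_of_le_of_finrank_eq h (hln.2.trans hL2.symm)
          have h2 : L ≤ Φ.orth L := by
            rw [← h1]
            exact hln.1.2
          have h3 : L = ⊥ := by
            rw [← hLbot]
            exact (inf_eq_left.2 h2).symm
          rw [h3, finrank_bot] at hL2
          omega
        obtain ⟨v2, hv2, hv2n⟩ := SetLike.not_le_iff_exists.1 hnL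
        obtain ⟨l2, hl2, m2, hm2, rfl⟩ := hdec v2
        have hm0 : m2 ≠ 0 := by
          rintro rfl
          rw [add_zero] at hv2n
          exact hv2n hl2
        have hm2ℓ := (hcomp ℓ hfix' l2 hl2 m2 hm2 hv2).2
        have ha : Φ.IsPt (Submodule.span K {l}) := hln.1.isPt hlℓ hl0
        have hb : Φ.IsPt (Submodule.span K {m2}) := hln.1.isPt hm2ℓ hm0
        have haL : Submodule.span K {l} ≤ L := (Submodule.span_singleton_le_iff_mem l L).2 hl
        have hbL : Submodule.span K {m2} ≤ Φ.orth L :=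
          (Submodule.span_singleton_le_iff_mem m2 _).2 hm2
        have haℓ : Submodule.span K {l} ≤ ℓ := (Submodule.span_singleton_le_iff_mem l ℓ).2 hlℓ
        have hbℓ : Submodule.span K {m2} ≤ ℓ := (Submodule.span_singleton_le_iff_mem m2 ℓ).2 hm2ℓ
        refine ⟨⟨⟨_, ha, haL⟩, ⟨_, hb, le_inf (hbℓ.trans hℓW) hbL⟩⟩, ?_⟩
        apply Subtype.ext
        apply Subtype.ext
        apply Subtype.ext
        change Submodule.span K {l} ⊔ Submodule.span K {m2} = ℓ
        apply Submodule.eq_of_le_of_finrank_eq (sup_le haℓ hbℓ)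
        have h1 := Submodule.finrank_sup_add_finrank_inf_eq (Submodule.span K {l})
          (Submodule.span K {m2})
        rw [hbot _ _ haL hbL, finrank_bot, add_zero, ha.finrank, hb.finrank] at h1
        rw [h1, hln.2]
    rw [hsplit, hc1, hc2] at hpar
    have hR : Even (Nat.card {ℓ : Submodule K V // Φ.IsLn ℓ ∧ ℓ ≤ W ⊓ Φ.orth L} +
        Φ.pn L * Φ.pn (W ⊓ Φ.orth L)) := hev'.add (hpnL.mul_right _)
    rw [Nat.even_iff] at hR ⊢
    have h3 : Nat.card {ℓ : Submodule K V // Φ.IsLn ℓ ∧ ℓ ≤ W} % 2 =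
        (Nat.card {ℓ : Submodule K V // Φ.IsLn ℓ ∧ ℓ ≤ W ⊓ Φ.orth L} +
          Φ.pn L * Φ.pn (W ⊓ Φ.orth L)) % 2 := hpar
    rw [h3, hR]
  · have hempty : IsEmpty {ℓ : Submodule K V // Φ.IsLn ℓ ∧ ℓ ≤ W} := by
      refine ⟨fun ℓ => ?_⟩
      have hne : ℓ.1 ≠ ⊥ := by
        intro h
        have h1 := ℓ.2.1.2
        rw [h, finrank_bot] at h1
        omega
      obtain ⟨v, hv, hv0⟩ := Submodule.exists_mem_ne_zero_of_ne_bot hne
      exact hpt ⟨Submodule.span K {v}, ℓ.2.1.1.isPt hv hv0,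
        ((Submodule.span_singleton_le_iff_mem v _).2 hv).trans ℓ.2.2⟩
    rw [Nat.card_of_isEmpty]
    exact Even.zero

end PS

end Pool.Agent.Work.MP_bc729a_al.CG
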