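import Pool.Agent.Work.MP_bc729a_al.CG.Bet
import Pool.Agent.Work.MP_bc729a_al.CG.Mst
import Pool.Agent.Work.MP_bc729a_al.CG.Maxl
import Pool.Agent.Work.MP_bc729a_al.CG.Fl
import Pool.Agent.Work.MP_bc729a_al.CG.Par
import Pool.Agent.Work.MP_bc729a_al.CG.Bnd

/-! # Module PMainA (M): the main theorem for odd fields

PROOF. Let `ℓ` be a line (`exists_line`), `H = stE D ℓ`. `H.index` is the number of all lines (`index_ln`), even by `even_lines` with `W = ⊤`; so `H ≠ ⊤`. `H ≠ ⊥`: let `x ≤ ℓ` be a point (`TS.isPt`), `y` opposite to `x` (`exists_opp`), `g` from `exists_move`; `toPG g ≠ 1` and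
`toPG g ∈ H` (`IsU.map_line`: `ℓ ≤ orth ℓ ≤ orth x`). For `α : MulAut (PG D)` let `β` be from `exists_beta`; by `exists_image` there is `E'`, `TS E'`, `finrank E' = 2` with `(β x).1 ≤ E' ↔ x.1 ≤ ℓ`, so `H.map α = stE D E'` (`map_stE`, `ts_pts`); by `trans_ln` `E' = ℓ.map g`, `g ∈ D`, so
`stE D E' = MulAut.conj (toPG g) • H` (`stE_conj`; `MulAut.conj a • H = H.map (MulAut.conj a).toMonoidHom`, as in LA). So `hX.main` applies to `H`: it gives `R ≥ H`, `R ≠ ⊤`, so `R = H` (`eq_stE_line`), and for the prime `2`, which divides `R.index`, an `α ∈ X` with `α ^ 2 = 1` and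
`(MulAut.conj a • H).map α ≠ MulAut.conj a • H` for all `a`. The `β` of this `α` satisfies `β (β x) = x`: `stE D (β (β x)) = ((stE D x).map α).map α = stE D x`, `stE_inj`. `fixed_line` gives a line `E` with `x.1 ≤ E → (β x).1 ≤ E`, so `(β x).1 ≤ E ↔ x.1 ≤ E`, `map_stE`: `(stE D E).map α = stE D E`; but
`E = ℓ.map g` (`trans_ln`), `stE D E = MulAut.conj (toPG g) • H`. Contradiction. -/

namespace Pool.Agent.Work.MP_bc729a_al.CG

open Module
open scoped Pointwise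

universe u v

variable {K : Type u} {V : Type v} [Field K] [AddCommGroup V] [Module K V] [Finite K] [Finite V]

namespace PS

variable {Φ : PS K V}

private theorem conj_smul_eq {G : Type*} [Group G] (a : G) (H : Subgroup G) :
    MulAut.conj a • H = H.map (MulAut.conj a).toMonoidHom := rfl

private theorem line_conj {D : Subgroup (V ≃ₗ[K] V)} (hD : Φ.Grp D) (hn : 5 ≤ finrank K V)
    {ℓ ℓ' : Submodule K V} (hℓ : Φ.IsLn ℓ) (hℓ' : Φ.IsLn ℓ') :
    ∃ a : ↥(PG D), stE D ℓ' = MulAut.conj a • stE D ℓ := by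
  obtain ⟨g, hg, h⟩ := trans_ln hD hn hℓ hℓ'
  refine ⟨toPG hg, ?_⟩
  rw [conj_smul_eq, stE_conj, toPG_apply, h]

theorem main_odd {D : Subgroup (V ≃ₗ[K] V)} (hD : Φ.Grp D) [IsSimpleGroup ↥(PG D)]
    (hc : Φ.c + 4 ≤ finrank K V) (hodd : Odd (Nat.card K))
    (hI : ∀ E, Φ.TS E → 2 ≤ finrank K E → Φ.pn ⊤ < Φ.bn D ⊤ E)
    {X : Subgroup (MulAut ↥(PG D))} (hX : LA.Red ↥(PG D) X) : False := by
  classical
  have hfK := Fintype.ofFinite K
  obtain ⟨p, hp⟩ := CharP.exists K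
  obtain ⟨k, hpp, -⟩ := FiniteField.card K p
  have : Fact p.Prime := ⟨hpp⟩
  have hc1 := Φ.one_le_c
  have hn5 : 5 ≤ finrank K V := by omega
  have hn3 : 3 ≤ finrank K V := by omega
  obtain ⟨ℓ, hℓ⟩ := exists_line (Φ := Φ) (by omega : Φ.c + 2 ≤ finrank K V)
  have hidx : (stE D ℓ).index = Nat.card {ℓ : Submodule K V // Φ.IsLn ℓ} :=
    index_ln hD hn5 hℓ
  have heven : Even (stE D ℓ).index := by
    have h1 := even_lines (Φ := Φ) hodd ND_top
    have h2 : Nat.card {ℓ : Submodule K V // Φ.IsLn ℓ ∧ ℓ ≤ ⊤} =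
        Nat.card {ℓ : Submodule K V // Φ.IsLn ℓ} :=
      Nat.card_congr (Equiv.subtypeEquivRight fun E => and_iff_left le_top)
    rw [hidx, ← h2]
    exact h1
  have hT : stE D ℓ ≠ ⊤ := by
    intro h
    rw [h, Subgroup.index_top] at heven
    exact absurd heven (by decide)
  have hB : stE D ℓ ≠ ⊥ := by
    intro h
    have hne : ℓ ≠ ⊥ := by
      intro h0
      have h1 := hℓ.2
      rw [h0, finrank_bot] at h1
      omega
    obtain ⟨v, hv, hv0⟩ := Submodule.exists_mem_ne_zero_of_ne_bot hne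
    have hx := hℓ.1.isPt hv hv0
    have hxℓ : Submodule.span K {v} ≤ ℓ := (Submodule.span_singleton_le_iff_mem v ℓ).2 hv
    obtain ⟨y, hy, -, hxy⟩ := exists_opp (Φ := Φ) ND_top hx le_top
    have hne' : Submodule.span K {v} ≠ y := by
      intro e
      apply hxy
      rw [← e]
      exact hx.self
    obtain ⟨g, hg, hgy⟩ := exists_move hn3 hx hy hne'
    have hgD : g ∈ D := hD.u _ hx (Φ.mem_UU.2 hg)
    have h1 : toPG hgD ∈ stE D ℓ := by
      rw [mem_stE, toPG_apply]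
      exact hg.map_line hxℓ (hℓ.1.2.trans (Φ.orth_anti hxℓ))
    rw [h, Subgroup.mem_bot] at h1
    apply hgy
    have h2 := toPG_apply hgD y
    rw [h1] at h2
    exact h2.symm
  have hinv : ∀ α ∈ X, ∃ a : ↥(PG D),
      (stE D ℓ).map α.toMonoidHom = MulAut.conj a • stE D ℓ := by
    intro α _
    obtain ⟨β, hβ1, -, hβ3⟩ := exists_beta (p := p) hD hc hI α
    obtain ⟨E', hE', hd, hE''⟩ := exists_image β hβ1 hℓ.1
    have h1 := map_stE hD α β hβ3 (ts_pts hℓ.1) (ts_pts hE') hE''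
    rw [h1]
    exact line_conj hD hn5 hℓ ⟨hE', hd.trans hℓ.2⟩
  obtain ⟨R, T, -, hHR, hRT, -, -, -, -, hlast⟩ := hX.main _ hT hB hinv
  have hRH : R = stE D ℓ := eq_stE_line (p := p) hD hc hℓ hHR hRT
  subst hRH
  obtain ⟨α, -, hα2, hαne⟩ := hlast 2 Nat.prime_two (even_iff_two_dvd.1 heven)
  obtain ⟨β, hβ1, hβ2, hβ3⟩ := exists_beta (p := p) hD hc hI α
  have hββ : ∀ x, β (β x) = x := by
    intro x
    have h1 : stE D (β (β x)).1 = stE D x.1 := by
      rw [← hβ2, ← hβ2, Subgroup.map_map]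
      have h2 : α.toMonoidHom.comp α.toMonoidHom = MonoidHom.id _ := by
        refine MonoidHom.ext fun s => ?_
        have h3 : (α ^ 2) s = s := by rw [hα2]; rfl
        rw [pow_two] at h3
        exact h3
      rw [h2, Subgroup.map_id]
    exact Subtype.ext (stE_inj hD hn3 (β (β x)).2 x.2 (le_of_eq h1))
  obtain ⟨E, hE, hEβ⟩ := fixed_line hc hodd β hβ1 hββ
  have hE' : ∀ x : Φ.Pt, (β x).1 ≤ E ↔ x.1 ≤ E := by
    intro x
    refine ⟨fun h => ?_, hEβ x⟩
    have h1 := hEβ _ h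
    rwa [hββ] at h1
  have h5 := map_stE hD α β hβ3 (ts_pts hE.1) (ts_pts hE.1) hE'
  obtain ⟨a, ha⟩ := line_conj hD hn5 hℓ hE
  rw [ha] at h5
  exact hαne a h5

end PS

end Pool.Agent.Work.MP_bc729a_al.CG
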