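import Pool.Agent.Work.MP_bc729a_al.CG.Exq

/-! # Module Bkb (S-M): images of a pair of perpendicular hyperbolic pairs

PROOF. `Quad` for the images: the fields are perpendicularities of points, preserved by `β` in both directions. For a quadruple `x, y, x', y'` with `Quad` put `U = bk x y x' y'` (`bk_nd`: nondegenerate of dimension `4`), `A = orth U`, nondegenerate of dimension `n - 4 ≥ c`
(`ND.orth`, `finrank_orth`), so it has a point (`exists_pt`) and is the span of its points (`span_pts`); `orth A = U`. So a point `z` is `≤ U` iff `z` is perpendicular to all points `w ≤ A`, and a point `w` is `≤ A` iff `w` is perpendicular to the four points (`orth_sup`). So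
`z ≤ U ↔ ∀ w : Φ.Pt, (w ⊥ x, y, x', y') → z ⊥ w`. The same holds for the images, and `β` is a bijection preserving perpendicularity in both directions. -/

namespace Pool.Agent.Work.MP_bc729a_al.CG

open Module

universe u v

variable {K : Type u} {V : Type v} [Field K] [AddCommGroup V] [Module K V] [Finite K] [Finite V]

namespace PS

variable {Φ : PS K V}

private theorem le_bk {x y x' y' : Submodule K V} (hc : Φ.c + 4 ≤ finrank K V)
    (h : Φ.Quad x y x' y') (z : Submodule K V) :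
    z ≤ bk x y x' y' ↔ ∀ w : Φ.Pt, (w.1 ≤ Φ.orth x ∧ w.1 ≤ Φ.orth y ∧ w.1 ≤ Φ.orth x' ∧
      w.1 ≤ Φ.orth y') → z ≤ Φ.orth w.1 := by
  obtain ⟨hnd, hfr⟩ := bk_nd h
  have hmem : ∀ w : Submodule K V, w ≤ Φ.orth (bk x y x' y') ↔
      (w ≤ Φ.orth x ∧ w ≤ Φ.orth y ∧ w ≤ Φ.orth x' ∧ w ≤ Φ.orth y') := by
    intro w
    unfold bk
    simp only [Φ.orth_sup, le_inf_iff]
    tauto
  constructor
  · intro hz w hw
    exact hz.trans (Φ.le_orth_comm.1 ((hmem w.1).2 hw))
  · intro hz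
    have hA := hnd.orth
    have hfA : Φ.c ≤ finrank K (Φ.orth (bk x y x' y')) := by
      have h1 := Φ.finrank_orth (bk x y x' y')
      rw [hfr] at h1
      omega
    obtain ⟨p, hp, hpA⟩ := exists_pt hfA
    have hsp := span_pts hA hp hpA
    have hle : Φ.orth (bk x y x' y') ≤ Φ.orth z := by
      rw [hsp]
      apply sSup_le
      rintro w ⟨hw, hwA⟩
      exact Φ.le_orth_comm.1 (hz ⟨w, hw⟩ ((hmem w).1 hwA))
    have h2 := Φ.le_orth_comm.1 hle
    rwa [Φ.orth_orth] at h2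

theorem bk_beta (hc : Φ.c + 4 ≤ finrank K V) (β : Equiv.Perm Φ.Pt)
    (hβ : ∀ x y : Φ.Pt, (β x).1 ≤ Φ.orth (β y).1 ↔ x.1 ≤ Φ.orth y.1) {x y x' y' : Φ.Pt}
    (h : Φ.Quad x.1 y.1 x'.1 y'.1) :
    Φ.Quad (β x).1 (β y).1 (β x').1 (β y').1 ∧
      ∀ z : Φ.Pt, (β z).1 ≤ bk (β x).1 (β y).1 (β x').1 (β y').1 ↔
        z.1 ≤ bk x.1 y.1 x'.1 y'.1 := by
  have hq : Φ.Quad (β x).1 (β y).1 (β x').1 (β y').1 :=
    { px := (β x).2
      py := (β y).2
      px' := (β x').2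
      py' := (β y').2
      xy := fun h1 => h.xy ((hβ _ _).1 h1)
      xy' := fun h1 => h.xy' ((hβ _ _).1 h1)
      xx := (hβ _ _).2 h.xx
      yx := (hβ _ _).2 h.yx
      xy1 := (hβ _ _).2 h.xy1
      yy := (hβ _ _).2 h.yy }
  refine ⟨hq, fun z => ?_⟩
  rw [le_bk hc hq, le_bk hc h]
  constructor
  · intro h1 w hw
    exact (hβ _ _).1 (h1 (β w) ⟨(hβ _ _).2 hw.1, (hβ _ _).2 hw.2.1, (hβ _ _).2 hw.2.2.1,
      (hβ _ _).2 hw.2.2.2⟩)
  · intro h1 w hw
    obtain ⟨w, rfl⟩ := β.surjective w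
    exact (hβ _ _).2 (h1 w ⟨(hβ _ _).1 hw.1, (hβ _ _).1 hw.2.1, (hβ _ _).1 hw.2.2.1,
      (hβ _ _).1 hw.2.2.2⟩)

end PS

end Pool.Agent.Work.MP_bc729a_al.CG
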