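import Pool.Agent.Work.MP_bc729a_al.CG.Gen
import Pool.Agent.Work.MP_bc729a_al.CG.Sig

/-! # Module Bt (M): overgroups of subgroups of index prime to the characteristic

PROOF. `PG D` is finite (`finite_PG`). Since `p` does not divide `R₀.index`, `R₀` contains a Sylow `p`-subgroup `P` of `PG D` (a Sylow subgroup of `R₀` has order the full `p`-part of
`|PG D| = |R₀| * R₀.index`). `P` acts on the finite set `Z` (`hZR`), `p ∤ |Z|`, so `P` fixes some `x ∈ Z` (`IsPGroup.nonempty_fixed_point_of_prime_not_dvd_card` or similar).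
Let `U` be the image of `UU x` in `PG D`: the subgroup of the elements `toPG g` with `IsU x g` (`hD.u`). `U` is a `p`-group (`IsU.pow`). `P` normalises `U`: if `s ∈ P`, `s = toPG h`, `x.map h = x`,
then `h (UU x) h⁻¹ ≤ UU (x.map h) = UU x` (`IsU.conj`). So `P ⊔ U` is a `p`-group (`IsPGroup.to_sup_of_normal_right'` or similar) containing the Sylow subgroup `P`, so `U ≤ P ≤ R₀ ≤ R`,
i.e. `UU x ≤ pull D R`.
For `s = toPG g ∈ R` the point `s.1 x = x.map g` has `UU (s.1 x) ≤ pull D R` (`UU_conj`, `g ∈ pull D R`). If for `s, s' ∈ R` the points `s.1 x`, `s'.1 x` are not perpendicular then `R = ⊤` by `gen_top`,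
excluded. So `X = {s.1 x | s ∈ R}` is a set of pairwise perpendicular points, `E = sSup X` is totally singular (`ts_sSup`), `x ≤ E` (`s = 1`), and for `s ∈ R` `s.1 E = sSup (s.1 '' X) = E`
(`OrderIso.map_sSup`, `s.1 '' X = X`). -/

namespace Pool.Agent.Work.MP_bc729a_al.CG

open Module

universe u v

variable {K : Type u} {V : Type v} [Field K] [AddCommGroup V] [Module K V] [Finite K] [Finite V]

namespace PS

variable {Φ : PS K V}

theorem bt {D : Subgroup (V ≃ₗ[K] V)} (hD : Φ.Grp D) [IsSimpleGroup ↥(PG D)]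
    (hn : 3 ≤ finrank K V) {p : ℕ} [Fact p.Prime] [CharP K p] {R₀ R : Subgroup ↥(PG D)}
    (hR : R₀ ≤ R) (hp : ¬ p ∣ R₀.index) (hRt : R ≠ ⊤) {Z : Set (Submodule K V)}
    (hZ : ∀ z ∈ Z, Φ.IsPt z) (hZc : ¬ p ∣ Nat.card Z) (hZR : ∀ s ∈ R₀, ∀ z ∈ Z, s.1 z ∈ Z) :
    ∃ x ∈ Z, ∃ E, Φ.TS E ∧ x ≤ E ∧ R ≤ stE D E := by
  have hfin : Finite ↥(PG D) := finite_PG D
  have hpp : p.Prime := Fact.out
  obtain ⟨Q⟩ : Nonempty (Sylow p ↥R₀) := inferInstance
  obtain ⟨P0, hP0e⟩ : ∃ P0 : Subgroup ↥(PG D), P0 = (Q : Subgroup ↥R₀).map R₀.subtype :=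
    ⟨_, rfl⟩
  have hP0 : IsPGroup p P0 := by
    rw [hP0e]
    exact Q.2.map _
  have hP0R : P0 ≤ R₀ := by
    rw [hP0e]
    exact Subgroup.map_subtype_le _
  have hind : ¬ p ∣ P0.index := by
    rw [hP0e, Subgroup.index_map_subtype]
    intro h
    rcases hpp.dvd_mul.1 h with h | h
    · exact Q.not_dvd_index h
    · exact hp h
  have hmax : ∀ U : Subgroup ↥(PG D), IsPGroup p U → P0 ≤ U → U = P0 := by
    intro U hU hPU
    exact (hP0.toSylow hind).is_maximal' hU hPU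
  let act : MulAction ↥P0 ↥Z :=
    { smul := fun s z => ⟨s.1.1 z.1, hZR s.1 (hP0R s.2) z.1 z.2⟩
      one_smul := fun z => rfl
      mul_smul := fun s t z => rfl }
  obtain ⟨x, hxfix⟩ := hP0.nonempty_fixed_point_of_prime_not_dvd_card ↥Z hZc
  have hfix : ∀ s ∈ P0, s.1 x.1 = x.1 := fun s hs => congrArg Subtype.val (hxfix ⟨s, hs⟩)
  have hx : Φ.IsPt x.1 := hZ x.1 x.2
  obtain ⟨U, hUe⟩ : ∃ U : Subgroup ↥(PG D),
      U = ((Φ.UU x.1).map (lat K V)).subgroupOf (PG D) := ⟨_, rfl⟩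
  have hmemU : ∀ s : ↥(PG D), s ∈ U ↔ ∃ g ∈ Φ.UU x.1, lat K V g = s.1 := by
    intro s
    rw [hUe, Subgroup.mem_subgroupOf, Subgroup.mem_map]
  have hUp : IsPGroup p U := by
    rintro ⟨s, hs⟩
    obtain ⟨g, hg, e⟩ := (hmemU s).1 hs
    refine ⟨2, Subtype.ext (Subtype.ext ?_)⟩
    show s.1 ^ (p ^ 2) = 1
    rw [← e, ← map_pow, (Φ.mem_UU.1 hg).pow, map_one]
  have hconj : ∀ s ∈ P0, ∀ t ∈ U, s * t * s⁻¹ ∈ U := by
    intro s hs t ht
    obtain ⟨g, hg, e⟩ := (hmemU t).1 ht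
    obtain ⟨h, hh, rfl⟩ := exists_toPG s
    have hhx : x.1.map (h : V →ₗ[K] V) = x.1 := by
      rw [← toPG_apply hh]
      exact hfix _ hs
    have h1 := (Φ.mem_UU.1 hg).conj (hD.le hh)
    rw [hhx] at h1
    refine (hmemU _).2 ⟨h * g * h⁻¹, h1, ?_⟩
    rw [map_mul, map_mul, map_inv, e]
    rfl
  have hnorm : P0 ≤ Subgroup.normalizer U := by
    intro s hs
    rw [Subgroup.mem_normalizer_iff]
    intro t
    refine ⟨fun ht => hconj s hs t ht, fun ht => ?_⟩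
    have h1 := hconj s⁻¹ (P0.inv_mem hs) _ ht
    have h2 : s⁻¹ * (s * t * s⁻¹) * s⁻¹⁻¹ = t := by group
    rwa [h2] at h1
  have hsup := hmax _ (hP0.to_sup_of_normal_right' hUp hnorm) le_sup_left
  have hUP : U ≤ P0 := by
    rw [← hsup]
    exact le_sup_right
  have hUx : Φ.UU x.1 ≤ pull D R := by
    intro g hg
    have hgD : g ∈ D := hD.u _ hx hg
    refine mem_pull.2 ⟨hgD, hR (hP0R (hUP ((hmemU _).2 ⟨g, hg, rfl⟩)))⟩
  have hUs : ∀ s ∈ R, Φ.UU (s.1 x.1) ≤ pull D R := by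
    intro s hs
    obtain ⟨g, hg, rfl⟩ := exists_toPG s
    rw [toPG_apply hg]
    exact UU_conj (hD.le hg) (mem_pull.2 ⟨hg, hs⟩) hUx
  have hPs : ∀ s ∈ R, Φ.IsPt (s.1 x.1) := by
    intro s hs
    obtain ⟨g, hg, rfl⟩ := exists_toPG s
    rw [toPG_apply hg]
    exact hx.map (hD.le hg)
  obtain ⟨X, hXe⟩ : ∃ X : Set (Submodule K V), X = {y | ∃ s ∈ R, y = s.1 x.1} := ⟨_, rfl⟩
  have hle : ∀ s ∈ R, s.1 (sSup X) ≤ sSup X := by
    intro s hs
    rw [OrderIso.map_sSup]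
    refine iSup₂_le fun y hy => ?_
    rw [hXe] at hy
    obtain ⟨t, ht, rfl⟩ := hy
    refine le_sSup ?_
    rw [hXe]
    exact ⟨s * t, R.mul_mem hs ht, rfl⟩
  refine ⟨x.1, x.2, sSup X, ts_sSup ?_ ?_, ?_, ?_⟩
  · intro y hy
    rw [hXe] at hy
    obtain ⟨s, hs, rfl⟩ := hy
    exact hPs s hs
  · intro y hy z hz
    rw [hXe] at hy hz
    obtain ⟨s, hs, rfl⟩ := hy
    obtain ⟨s', hs', rfl⟩ := hz
    by_contra hcon
    exact hRt (gen_top hD hn (hPs s' hs') (hPs s hs) hcon (hUs s' hs') (hUs s hs))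
  · refine le_sSup ?_
    rw [hXe]
    exact ⟨1, R.one_mem, rfl⟩
  · intro s hs
    rw [mem_stE]
    refine le_antisymm (hle s hs) ?_
    have h1 := hle s⁻¹ (R.inv_mem hs)
    have h2 : s.1.symm (sSup X) ≤ sSup X := h1
    exact (OrderIso.symm_apply_le s.1).1 h2

end PS

end Pool.Agent.Work.MP_bc729a_al.CG
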