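import Pool.Agent.Work.MP_bc729a_al.CG.Exq

/-! # Module Fr (M): an involution of the points fixes a pair of perpendicular hyperbolic pairs

Write `x ⊥ y` for `x.1 ≤ orth y.1` (symmetric, preserved by `σ` in both directions).
PROOF. (A) Claim: let `W` be nondegenerate, `σ x ≤ W ↔ x ≤ W` for all points `x`, and `x ⊥ σ x` for all points `x ≤ W`. If there is a point `x' ≤ W` with
`σ x' ≠ x'`, then the conclusion holds. Proof: `sep` with `E = σ x'`, `z = x'` gives `y' ≤ W`, `y' ⊥ σ x'`, `¬ y' ⊥ x'`. `Quad x' y' (σ x') (σ y')`: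
`¬ σ y' ⊥ σ x'`; `σ x' ⊥ x'`; `σ x' ⊥ y'`; `σ y' ⊥ x'` (apply `σ` to `y' ⊥ σ x'`); `σ y' ⊥ y'`. The four points are permuted by `σ`.
(B) If `x ⊥ σ x` for all points: if `σ x ≠ x` for some `x` use (A) with `W = ⊤` (`ND_top`), otherwise any quadruple (`exists_quad`, `W = ⊤`).
(C) Let `x` be a point with `¬ σ x ⊥ x`, `y = σ x`, `W = orth (x ⊔ y)`, nondegenerate (`hyp_nd`, `ND.orth`), `σ`-invariant (`z ≤ W` iff `z ⊥ x`, `z ⊥ y`), of dimension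
`≥ c + 2`. If there is a point `x' ≤ W` with `¬ σ x' ⊥ x'`, then `x, σ x, x', σ x'` works. Otherwise, if some point `x' ≤ W` is not fixed use (A);
if all points of `W` are fixed take a point `x' ≤ W` (`exists_pt`) and an opposite point `y' ≤ W` (`exists_opp`): `x, σ x, x', y'`. -/

namespace Pool.Agent.Work.MP_bc729a_al.CG

open Module

universe u v

variable {K : Type u} {V : Type v} [Field K] [AddCommGroup V] [Module K V] [Finite K] [Finite V]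

namespace PS

variable {Φ : PS K V}

private theorem fr_A (σ : Equiv.Perm Φ.Pt)
    (hσ : ∀ x y : Φ.Pt, (σ x).1 ≤ Φ.orth (σ y).1 ↔ x.1 ≤ Φ.orth y.1)
    (h2 : ∀ x, σ (σ x) = x) {W : Submodule K V} (hW : Φ.ND W)
    (hWσ : ∀ x : Φ.Pt, (σ x).1 ≤ W ↔ x.1 ≤ W)
    (hp : ∀ x : Φ.Pt, x.1 ≤ W → (σ x).1 ≤ Φ.orth x.1) (x' : Φ.Pt) (hx' : x'.1 ≤ W)
    (hne : σ x' ≠ x') :
    ∃ x y x' y' : Φ.Pt, Φ.Quad x.1 y.1 x'.1 y'.1 ∧
      ∀ z ∈ ({x, y, x', y'} : Set Φ.Pt), σ z ∈ ({x, y, x', y'} : Set Φ.Pt) := by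
  obtain ⟨w, hw, hwW, hwE, hwx⟩ := sep hW (σ x').2.ts ((hWσ x').2 hx') x'.2 hx' (fun h =>
    hne (Subtype.ext (x'.2.eq_of_le (σ x').2 h).symm))
  obtain ⟨y', hy'⟩ : ∃ y' : Φ.Pt, y'.1 = w := ⟨⟨w, hw⟩, rfl⟩
  rw [← hy'] at hwW hwE hwx
  refine ⟨x', y', σ x', σ y', ⟨x'.2, y'.2, (σ x').2, (σ y').2, hwx, ?_, hp x' hx', ?_, ?_,
    hp y' hwW⟩, ?_⟩
  · exact fun h => hwx ((hσ y' x').1 h)
  · exact Φ.le_orth_comm.1 hwE
  · have h := (hσ y' (σ x')).2 hwE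
    rwa [h2] at h
  · rintro z (rfl | rfl | rfl | rfl)
    · simp
    · simp
    · rw [h2]; simp
    · rw [h2]; simp

theorem fixed_quad (hc : Φ.c + 4 ≤ finrank K V) (σ : Equiv.Perm Φ.Pt)
    (hσ : ∀ x y : Φ.Pt, (σ x).1 ≤ Φ.orth (σ y).1 ↔ x.1 ≤ Φ.orth y.1)
    (h2 : ∀ x, σ (σ x) = x) :
    ∃ x y x' y' : Φ.Pt, Φ.Quad x.1 y.1 x'.1 y'.1 ∧
      ∀ z ∈ ({x, y, x', y'} : Set Φ.Pt), σ z ∈ ({x, y, x', y'} : Set Φ.Pt) := by
  by_cases hB : ∀ x : Φ.Pt, (σ x).1 ≤ Φ.orth x.1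
  · by_cases hid : ∀ x : Φ.Pt, σ x = x
    · obtain ⟨x, y, x', y', hq, -⟩ := exists_quad (Φ := Φ) ND_top (by
        rw [finrank_top]
        omega)
      refine ⟨⟨x, hq.px⟩, ⟨y, hq.py⟩, ⟨x', hq.px'⟩, ⟨y', hq.py'⟩, hq, fun z hz => ?_⟩
      rw [hid]
      exact hz
    · push Not at hid
      obtain ⟨x, hx⟩ := hid
      exact fr_A σ hσ h2 ND_top (fun x => ⟨fun _ => le_top, fun _ => le_top⟩)
        (fun x _ => hB x) x le_top hx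
  · push Not at hB
    obtain ⟨x, hx⟩ := hB
    obtain ⟨hnd, hfr⟩ := hyp_nd x.2 (σ x).2 hx
    obtain ⟨W, hWd⟩ : ∃ W, W = Φ.orth (x.1 ⊔ (σ x).1) := ⟨_, rfl⟩
    have hW : Φ.ND W := by
      rw [hWd]
      exact hnd.orth
    have hmem : ∀ z : Submodule K V, z ≤ W ↔ z ≤ Φ.orth x.1 ∧ z ≤ Φ.orth (σ x).1 := by
      intro z
      rw [hWd, Φ.orth_sup, le_inf_iff]
    have hWσ : ∀ z : Φ.Pt, (σ z).1 ≤ W ↔ z.1 ≤ W := by
      intro z
      rw [hmem, hmem, hσ z x]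
      have h := hσ z (σ x)
      rw [h2] at h
      rw [h, and_comm]
    have hdim : Φ.c + 2 ≤ finrank K W := by
      have h := finrank_orth (Φ := Φ) (x.1 ⊔ (σ x).1)
      rw [← hWd, hfr] at h
      omega
    by_cases h3 : ∀ x' : Φ.Pt, x'.1 ≤ W → (σ x').1 ≤ Φ.orth x'.1
    · by_cases h4 : ∀ x' : Φ.Pt, x'.1 ≤ W → σ x' = x'
      · obtain ⟨x', hx', hx'W⟩ := exists_pt (Φ := Φ) (W := W) (by omega)
        obtain ⟨y', hy', hy'W, hy'x⟩ := exists_opp hW hx' hx'W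
        refine ⟨x, σ x, ⟨x', hx'⟩, ⟨y', hy'⟩, ⟨x.2, (σ x).2, hx', hy', hx, hy'x,
          ((hmem _).1 hx'W).1, ((hmem _).1 hx'W).2, ((hmem _).1 hy'W).1, ((hmem _).1 hy'W).2⟩, ?_⟩
        rintro z (rfl | rfl | rfl | rfl)
        · simp
        · rw [h2]; simp
        · rw [h4 ⟨x', hx'⟩ hx'W]; simp
        · rw [h4 ⟨y', hy'⟩ hy'W]; simp
      · push Not at h4
        obtain ⟨x', hx', hne⟩ := h4
        exact fr_A σ hσ h2 hW hWσ h3 x' hx' hne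
    · push Not at h3
      obtain ⟨x', hx', h4⟩ := h3
      have h5 := (hmem _).1 hx'
      have h6 := (hmem _).1 ((hWσ x').2 hx')
      refine ⟨x, σ x, x', σ x', ⟨x.2, (σ x).2, x'.2, (σ x').2, hx, h4, h5.1, h5.2, h6.1, h6.2⟩, ?_⟩
      rintro z (rfl | rfl | rfl | rfl)
      · simp
      · rw [h2]; simp
      · simp
      · rw [h2]; simp

end PS

end Pool.Agent.Work.MP_bc729a_al.CG
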