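import Pool.Agent.Work.MP_bc729a_al.CG.Nn
import Pool.Agent.Work.MP_bc729a_al.CG.Exq

/-! # Module Irq (S-M): the stabiliser of two perpendicular hyperbolic pairs fixes no totally singular subspace

PROOF. Let `U = bk x y x' y'`, nondegenerate of dimension `4`, `A = orth U`, nondegenerate of dimension `n - 4 ≥ c ≥ 1`, `U ⊔ A = ⊤`, `orth A = U` (`bk_nd`, `ND.orth`, `ND.sup`, `orth_orth`). Let `z ≤ E` be a point (`TS.isPt`), `z = span {z₀}`, `z₀ = b + a`, `b ∈ U`, `a ∈ A`.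
If `b ≠ 0`: `U` is the span of its points (`span_pts`) and `b ∉ orth U`, so there is a point `w ≤ U` with `B b w₀ ≠ 0`, so `B z₀ w₀ ≠ 0`; `nn` with `v = z`, `w`, the space `U` (`c ≤ 3 ≤ 4`, `c_le`) gives `g`, `IsU w g`, fixing the vectors of `orth U`, `¬ z.map g ≤ orth z`. Then `U.map g = U` (`U = orth (orth U)`, `orth_map`).
If `b = 0`: `z ≤ A`; `exists_opp` in `A` gives a point `w ≤ A`, `¬ w ≤ orth z`; `nn` with `v = z`, `w`, the space `A` gives `g` fixing the vectors of `orth A = U`, so `U.map g = U`.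
In both cases `g ∈ D`, `toPG g ∈ stE D U`, but not in `stE D E`: otherwise `z.map g ≤ E ≤ orth E ≤ orth z`. -/

namespace Pool.Agent.Work.MP_bc729a_al.CG

open Module

universe u v

variable {K : Type u} {V : Type v} [Field K] [AddCommGroup V] [Module K V] [Finite K] [Finite V]

namespace PS

variable {Φ : PS K V}

omit [Finite K] [Finite V] in
private theorem irq_fix {W : Submodule K V} {g : V ≃ₗ[K] V} (h : ∀ u ∈ W, g u = u) :
    W.map (g : V →ₗ[K] V) = W := by
  ext v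
  constructor
  · rintro ⟨w, hw, rfl⟩
    have h1 : (g : V →ₗ[K] V) w = w := h w hw
    rw [h1]
    exact hw
  · intro hv
    exact ⟨v, hv, h v hv⟩

theorem irq {D : Subgroup (V ≃ₗ[K] V)} (hD : Φ.Grp D) (hc : Φ.c + 4 ≤ finrank K V)
    {x y x' y' E : Submodule K V} (hq : Φ.Quad x y x' y') (hE : Φ.TS E) (h0 : E ≠ ⊥) :
    ¬ stE D (bk x y x' y') ≤ stE D E := by
  intro hle
  obtain ⟨hU, hU4⟩ := bk_nd hq
  set U := bk x y x' y' with hUdef
  have hA : Φ.ND (Φ.orth U) := hU.orth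
  have hAd := finrank_orth (Φ := Φ) U
  have hoo : Φ.orth (Φ.orth U) = U := orth_orth U
  obtain ⟨z₀, hz₀, hz0⟩ := (Submodule.ne_bot_iff E).1 h0
  set z := Submodule.span K {z₀} with hzdef
  have hz : Φ.IsPt z := hE.isPt hz₀ hz0
  have hzE : z ≤ E := by
    rw [hzdef, Submodule.span_singleton_le_iff_mem]
    exact hz₀
  have key : ∃ g : V ≃ₗ[K] V, g ∈ D ∧ U.map (g : V →ₗ[K] V) = U ∧
      ¬ z.map (g : V →ₗ[K] V) ≤ Φ.orth z := by
    have htop : z₀ ∈ U ⊔ Φ.orth U := by
      rw [hU.sup]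
      trivial
    obtain ⟨b, hb, a, ha, hab⟩ := Submodule.mem_sup.1 htop
    by_cases hb0 : b = 0
    · rw [hb0, zero_add] at hab
      have hzA : z ≤ Φ.orth U := by
        rw [hzdef, Submodule.span_singleton_le_iff_mem, ← hab]
        exact ha
      obtain ⟨w, hw, hwA, hwz⟩ := exists_opp hA hz hzA
      have hzw : ¬ z ≤ Φ.orth w := fun h => hwz (Φ.le_orth_comm.1 h)
      obtain ⟨g, hg, hgf, hgz⟩ := nn hz hw hA hwA hzw (by omega)
      rw [hoo] at hgf
      exact ⟨g, hD.u w hw hg, irq_fix hgf, hgz⟩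
    · obtain ⟨u, huU, hub⟩ := hU.exists_ne hb hb0
      have hex : ∃ w, Φ.IsPt w ∧ w ≤ U ∧ ¬ z ≤ Φ.orth w := by
        by_contra hcon
        push Not at hcon
        have hxU : x ≤ U := le_sup_left.trans le_sup_left
        have h1 : U ≤ Φ.orth z := by
          rw [span_pts hU hq.px hxU]
          apply sSup_le
          rintro w ⟨hw, hwU⟩
          exact Φ.le_orth_comm.1 (hcon w hw hwU)
        have h2 : Φ.B u z₀ = 0 := h1 huU z₀ (Submodule.mem_span_singleton_self z₀)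
        have h3 : Φ.B u a = 0 := Φ.refl _ _ (ha u huU)
        rw [← hab, Φ.add_right, h3, add_zero] at h2
        exact hub h2
      obtain ⟨w, hw, hwU, hzw⟩ := hex
      have hc3 := Φ.c_le
      obtain ⟨g, hg, hgf, hgz⟩ := nn hz hw hU hwU hzw (by omega)
      refine ⟨g, hD.u w hw hg, ?_, hgz⟩
      have h4 := orth_map (W := Φ.orth U) hg.1
      rw [irq_fix hgf, hoo] at h4
      exact h4.symm
  obtain ⟨g, hg, hgU, hgz⟩ := key
  have h1 : toPG hg ∈ stE D U := by
    rw [mem_stE, toPG_apply]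
    exact hgU
  have h2 := hle h1
  rw [mem_stE, toPG_apply] at h2
  apply hgz
  calc z.map (g : V →ₗ[K] V) ≤ E.map (g : V →ₗ[K] V) := Submodule.map_mono hzE
    _ = E := h2
    _ ≤ Φ.orth E := hE.2
    _ ≤ Φ.orth z := Φ.orth_anti hzE

end PS

end Pool.Agent.Work.MP_bc729a_al.CG
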