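import Pool.Agent.Work.MP_bc729a_al.CG.TrnA
import Pool.Agent.Work.MP_bc729a_al.CG.Exq

/-! # Module TrnC (S-M): transitivity on pairs of perpendicular hyperbolic pairs

PROOF. Compose four elements. (1) `trans_pt` with `W = ⊤`: `x ↦ x₁`. So we may assume `x = x₁` (replace the other points by their images; `Quad` is preserved by elements of `D ≤ Iso`:
`IsPt.map`, `map_le_orth_map`). (2) `u_trans` with `W = ⊤`: `y ↦ y₁`, fixing `x`. Now `x = x₁`, `y = y₁`, and `x', y', x₁', y₁'` are points of `W = orth (x ⊔ y)` (`orth_sup`), nondegenerate of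
dimension `n - 2 ≥ 3` with `orth W = x ⊔ y`. (3) `trans_pt` in `W`: `x' ↦ x₁'`, fixing all vectors of `x ⊔ y`. (4) `u_trans` in `W`: `y' ↦ y₁'`, fixing `x₁'` (`IsU.map_eq`) and all vectors of `x ⊔ y`. -/

namespace Pool.Agent.Work.MP_bc729a_al.CG

open Module

universe u v

variable {K : Type u} {V : Type v} [Field K] [AddCommGroup V] [Module K V] [Finite K] [Finite V]

namespace PS

variable {Φ : PS K V}

private theorem mm (g h : V ≃ₗ[K] V) (x : Submodule K V) :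
    x.map ((h * g : V ≃ₗ[K] V) : V →ₗ[K] V) =
      (x.map (g : V →ₗ[K] V)).map (h : V →ₗ[K] V) := Submodule.map_comp _ _ _

private theorem fixm {U : Submodule K V} {g : V ≃ₗ[K] V} (h : ∀ v ∈ U, g v = v) :
    U.map (g : V →ₗ[K] V) = U := by
  ext v
  constructor
  · rintro ⟨u, hu, rfl⟩
    have h1 : (g : V →ₗ[K] V) u = u := h u hu
    rw [h1]
    exact hu
  · intro hv
    exact ⟨v, hv, h v hv⟩

private theorem qm {x y x' y' : Submodule K V} (h : Φ.Quad x y x' y') {g : V ≃ₗ[K] V}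
    (hg : g ∈ Φ.Iso) : Φ.Quad (x.map (g : V →ₗ[K] V)) (y.map (g : V →ₗ[K] V))
      (x'.map (g : V →ₗ[K] V)) (y'.map (g : V →ₗ[K] V)) where
  px := h.px.map hg
  py := h.py.map hg
  px' := h.px'.map hg
  py' := h.py'.map hg
  xy := fun hh => h.xy ((map_le_orth_map hg).1 hh)
  xy' := fun hh => h.xy' ((map_le_orth_map hg).1 hh)
  xx := (map_le_orth_map hg).2 h.xx
  yx := (map_le_orth_map hg).2 h.yx
  xy1 := (map_le_orth_map hg).2 h.xy1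
  yy := (map_le_orth_map hg).2 h.yy

theorem trans_quad {D : Subgroup (V ≃ₗ[K] V)} (hD : Φ.Grp D) (hn : 5 ≤ finrank K V)
    {x y x' y' x₁ y₁ x₁' y₁' : Submodule K V} (h : Φ.Quad x y x' y')
    (h₁ : Φ.Quad x₁ y₁ x₁' y₁') :
    ∃ g ∈ D, x.map (g : V →ₗ[K] V) = x₁ ∧ y.map (g : V →ₗ[K] V) = y₁ ∧
      x'.map (g : V →ₗ[K] V) = x₁' ∧ y'.map (g : V →ₗ[K] V) = y₁' := by
  have hVt : finrank K (⊤ : Submodule K V) = finrank K V := finrank_top K V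
  obtain ⟨g1, hg1, -, e1⟩ := trans_pt hD ND_top (Or.inl (by omega)) h.px le_top h₁.px le_top
  have q1 := qm h (hD.le hg1)
  rw [e1] at q1
  obtain ⟨g2, hu2, -, e2⟩ := u_trans h₁.px le_top q1.py le_top h₁.py le_top q1.xy h₁.xy
  have hg2 : g2 ∈ D := hD.u _ h₁.px hu2
  have q2 := qm q1 (hD.le hg2)
  have f2 := hu2.map_eq
  rw [e2, f2] at q2
  obtain ⟨hnd, hfr⟩ := hyp_nd h₁.px h₁.py h₁.xy
  have hW := hnd.orth
  have hd : finrank K ↥(Φ.orth (x₁ ⊔ y₁)) + finrank K ↥(x₁ ⊔ y₁) = finrank K V :=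
    Φ.finrank_orth (x₁ ⊔ y₁)
  have hoo : Φ.orth (Φ.orth (x₁ ⊔ y₁)) = x₁ ⊔ y₁ := Φ.orth_orth _
  have i1 : (x'.map (g1 : V →ₗ[K] V)).map (g2 : V →ₗ[K] V) ≤ Φ.orth (x₁ ⊔ y₁) := by
    rw [Φ.orth_sup]
    exact le_inf q2.xx q2.yx
  have i2 : x₁' ≤ Φ.orth (x₁ ⊔ y₁) := by
    rw [Φ.orth_sup]
    exact le_inf h₁.xx h₁.yx
  obtain ⟨g3, hg3, f3, e3⟩ := trans_pt hD hW (Or.inl (by omega)) q2.px' i1 h₁.px' i2
  rw [hoo] at f3
  have q3 := qm q2 (hD.le hg3)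
  have f3x : x₁.map (g3 : V →ₗ[K] V) = x₁ := fixm fun v hv => f3 v ((le_sup_left : x₁ ≤ _) hv)
  have f3y : y₁.map (g3 : V →ₗ[K] V) = y₁ := fixm fun v hv => f3 v ((le_sup_right : y₁ ≤ _) hv)
  rw [e3, f3x, f3y] at q3
  have i3 : ((y'.map (g1 : V →ₗ[K] V)).map (g2 : V →ₗ[K] V)).map (g3 : V →ₗ[K] V) ≤
      Φ.orth (x₁ ⊔ y₁) := by
    rw [Φ.orth_sup]
    exact le_inf q3.xy1 q3.yy
  have i4 : y₁' ≤ Φ.orth (x₁ ⊔ y₁) := by
    rw [Φ.orth_sup]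
    exact le_inf h₁.xy1 h₁.yy
  obtain ⟨g4, hu4, f4, e4⟩ := u_trans h₁.px' i2 q3.py' i3 h₁.py' i4 q3.xy' h₁.xy'
  rw [hoo] at f4
  have hg4 : g4 ∈ D := hD.u _ h₁.px' hu4
  have f4x : x₁.map (g4 : V →ₗ[K] V) = x₁ := fixm fun v hv => f4 v ((le_sup_left : x₁ ≤ _) hv)
  have f4y : y₁.map (g4 : V →ₗ[K] V) = y₁ := fixm fun v hv => f4 v ((le_sup_right : y₁ ≤ _) hv)
  refine ⟨g4 * (g3 * (g2 * g1)), D.mul_mem hg4 (D.mul_mem hg3 (D.mul_mem hg2 hg1)),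
    ?_, ?_, ?_, ?_⟩
  · rw [mm, mm, mm, e1, f2, f3x, f4x]
  · rw [mm, mm, mm, e2, f3y, f4y]
  · rw [mm, mm, mm, e3, hu4.map_eq]
  · rw [mm, mm, mm, e4]

end PS

end Pool.Agent.Work.MP_bc729a_al.CG
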