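import Pool.Agent.Work.MP_bc729a_al.CG.Bet
import Pool.Agent.Work.MP_bc729a_al.CG.Mst
import Pool.Agent.Work.MP_bc729a_al.CG.Bkb
import Pool.Agent.Work.MP_bc729a_al.CG.Fr
import Pool.Agent.Work.MP_bc729a_al.CG.TrnC
import Pool.Agent.Work.MP_bc729a_al.CG.Irq
import Pool.Agent.Work.MP_bc729a_al.CG.Bt

/-! # Module PMainB (M): the main theorem for even fields

PROOF. `CharP K 2` (`FiniteField.even_card_iff_char_two` or from `CharP.exists` and `Nat.card K = p ^ k`). Let `x, y, x', y'` be from `exists_quad` (`W = ⊤`), `U = bk x y x' y'`, `H = stE D U`. `H ≠ ⊥` by `irq` (with `E = x`, `IsPt.ts`, as `⊥ ≤ stE D x`). `H ≠ ⊤`: otherwise every point is `x.map g` for some `g ∈ D` (`trans_pt`,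
`W = ⊤`), `≤ U.map g = U`, so `⊤ = U` (`span_pts`), but `finrank U = 4 < n` (`bk_nd`). For `α : MulAut (PG D)` let `β` be from `exists_beta`; `bk_beta`, `map_stE` with `span_pts` (`bk_nd`) give `H.map α = stE D (bk (β x) (β y) (β x') (β y'))`, and `trans_quad` gives `g ∈ D` with
`bk (β x) .. = U.map g` (`Submodule.map_sup`), so this is `MulAut.conj (toPG g) • H` (`stE_conj`). So `hX.main` applies: `R ≥ H`, `R ≠ ⊤`.
If `2 ∣ R.index` there is `α ∈ X`, `α ^ 2 = 1`, fixing no `MulAut.conj a • H`. Its `β` satisfies `β (β z) = z` (`stE_inj`). `fixed_quad` gives `x₁, y₁, x₁', y₁'` with `Quad`, permuted by `β`. So `bk (β x₁) .. ≤ bk x₁ ..`, and both have dimension `4` (`bk_beta`, `bk_nd`), so they are equal, and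
`(stE D (bk x₁ ..)).map α = stE D (bk x₁ ..)`; but `bk x₁ .. = U.map g`, `g ∈ D` (`trans_quad`), contradiction.
If `¬ 2 ∣ R.index`: `bt` with `R₀ = R` and `Z` the set of all points (`Nat.card Z = pn ⊤` is odd by `pn_mod`) gives `E`, `TS E`, `E ≠ ⊥` and `H ≤ R ≤ stE D E`, contradiction to `irq`. -/

namespace Pool.Agent.Work.MP_bc729a_al.CG

open Module

universe u v

variable {K : Type u} {V : Type v} [Field K] [AddCommGroup V] [Module K V] [Finite K] [Finite V]

namespace PS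

variable {Φ : PS K V}

omit [Finite K] [Finite V] in
private theorem bk_map_aux (x y x' y' : Submodule K V) (g : V ≃ₗ[K] V) :
    (bk x y x' y').map (g : V →ₗ[K] V) =
      bk (x.map (g : V →ₗ[K] V)) (y.map (g : V →ₗ[K] V)) (x'.map (g : V →ₗ[K] V))
        (y'.map (g : V →ₗ[K] V)) := by
  simp only [bk, Submodule.map_sup]

private theorem map_bk_aux {D : Subgroup (V ≃ₗ[K] V)} (hD : Φ.Grp D)
    (hc : Φ.c + 4 ≤ finrank K V) (α : MulAut ↥(PG D)) (β : Equiv.Perm Φ.Pt)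
    (h1 : ∀ x y : Φ.Pt, (β x).1 ≤ Φ.orth (β y).1 ↔ x.1 ≤ Φ.orth y.1)
    (h3 : ∀ (s : ↥(PG D)) (x y : Φ.Pt), s.1 x.1 = y.1 → (α s).1 (β x).1 = (β y).1)
    {x y x' y' : Φ.Pt} (h : Φ.Quad x.1 y.1 x'.1 y'.1) :
    (stE D (bk x.1 y.1 x'.1 y'.1)).map α.toMonoidHom =
      stE D (bk (β x).1 (β y).1 (β x').1 (β y').1) := by
  obtain ⟨hq', hb⟩ := bk_beta hc β h1 h
  have e1 := span_pts (bk_nd h).1 x.2 (le_sup_of_le_left le_sup_left)
  have e2 := span_pts (bk_nd hq').1 (β x).2 (le_sup_of_le_left le_sup_left)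
  exact map_stE hD α β h3 e1 e2 hb

omit [Finite K] [Finite V] in
private theorem conj_bk_aux (D : Subgroup (V ≃ₗ[K] V)) {g : V ≃ₗ[K] V} (hg : g ∈ D)
    {x y x' y' x₁ y₁ x₁' y₁' : Submodule K V} (e1 : x.map (g : V →ₗ[K] V) = x₁)
    (e2 : y.map (g : V →ₗ[K] V) = y₁) (e3 : x'.map (g : V →ₗ[K] V) = x₁')
    (e4 : y'.map (g : V →ₗ[K] V) = y₁') :
    stE D (bk x₁ y₁ x₁' y₁') =
      (stE D (bk x y x' y')).map (MulAut.conj (toPG hg)).toMonoidHom := by
  rw [stE_conj, toPG_apply, bk_map_aux, e1, e2, e3, e4]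

open scoped Pointwise in
private theorem smul_eq_map_aux {G : Type v} [Group G] (a : G) (H : Subgroup G) :
    MulAut.conj a • H = H.map (MulAut.conj a).toMonoidHom := rfl

open scoped Pointwise in
private theorem exists_conj_aux {D : Subgroup (V ≃ₗ[K] V)} (hD : Φ.Grp D)
    [IsSimpleGroup ↥(PG D)] [Fact (Nat.Prime 2)] [CharP K 2]
    (hc : Φ.c + 4 ≤ finrank K V)
    (hI : ∀ E, Φ.TS E → 2 ≤ finrank K E → Φ.pn ⊤ < Φ.bn D ⊤ E)
    {x y x' y' : Submodule K V} (hq : Φ.Quad x y x' y') (α : MulAut ↥(PG D)) :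
    ∃ a : ↥(PG D), (stE D (bk x y x' y')).map α.toMonoidHom =
      MulAut.conj a • stE D (bk x y x' y') := by
  have hc1 := Φ.one_le_c
  obtain ⟨β, h1, h2, h3⟩ := exists_beta hD (p := 2) hc hI α
  have hq0 : Φ.Quad (Subtype.mk x hq.px : Φ.Pt).1 (Subtype.mk y hq.py : Φ.Pt).1
      (Subtype.mk x' hq.px' : Φ.Pt).1 (Subtype.mk y' hq.py' : Φ.Pt).1 := hq
  have hb := bk_beta hc β h1 hq0
  obtain ⟨g, hg, e1, e2, e3, e4⟩ := trans_quad hD (by omega) hq hb.1
  refine ⟨toPG hg, ?_⟩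
  rw [smul_eq_map_aux, ← conj_bk_aux D hg e1 e2 e3 e4]
  have e := map_bk_aux hD hc α β h1 h3 (x := ⟨x, hq.px⟩) (y := ⟨y, hq.py⟩)
    (x' := ⟨x', hq.px'⟩) (y' := ⟨y', hq.py'⟩) hq0
  exact e

theorem main_even {D : Subgroup (V ≃ₗ[K] V)} (hD : Φ.Grp D) [IsSimpleGroup ↥(PG D)]
    (hc : Φ.c + 4 ≤ finrank K V) (heven : Even (Nat.card K))
    (hI : ∀ E, Φ.TS E → 2 ≤ finrank K E → Φ.pn ⊤ < Φ.bn D ⊤ E)
    {X : Subgroup (MulAut ↥(PG D))} (hX : LA.Red ↥(PG D) X) : False := by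
  have hc1 := Φ.one_le_c
  have hn5 : 5 ≤ finrank K V := by omega
  have hF2 : Fact (Nat.Prime 2) := ⟨Nat.prime_two⟩
  have hch : CharP K 2 := by
    have := Fintype.ofFinite K
    rw [Nat.card_eq_fintype_card] at heven
    have h : ringChar K = 2 := FiniteField.even_card_iff_char_two.2 (Nat.even_iff.1 heven)
    rw [← h]
    exact ringChar.charP K
  obtain ⟨x, y, x', y', hq, -⟩ := exists_quad (Φ := Φ) (W := ⊤) ND_top
    (by rw [finrank_top]; omega)
  have hbot : stE D (bk x y x' y') ≠ ⊥ := by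
    intro h
    apply irq hD hc hq hq.px.ts hq.px.ne_bot
    rw [h]
    exact bot_le
  have htop : stE D (bk x y x' y') ≠ ⊤ := by
    intro h
    have h1 : ∀ z, Φ.IsPt z → z ≤ bk x y x' y' := by
      intro z hz
      obtain ⟨g, hg, -, e⟩ := trans_pt hD (W := ⊤) ND_top
        (Or.inl (by rw [finrank_top]; omega)) hq.px le_top hz le_top
      have h2 : toPG hg ∈ stE D (bk x y x' y') := by
        rw [h]
        exact Subgroup.mem_top _
      rw [mem_stE, toPG_apply] at h2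
      rw [← e, ← h2]
      exact Submodule.map_mono (le_sup_of_le_left le_sup_left)
    have h2 := span_pts (W := ⊤) ND_top hq.px le_top
    have h3 : (⊤ : Submodule K V) ≤ bk x y x' y' := by
      rw [h2]
      exact sSup_le fun z hz => h1 z hz.1
    have h4 := (bk_nd hq).2
    rw [top_le_iff.1 h3, finrank_top] at h4
    omega
  obtain ⟨R, T, -, hHR, hRt, -, -, -, -, hp⟩ := hX.main _ htop hbot
    (fun α _ => exists_conj_aux hD hc hI hq α)
  by_cases h2 : 2 ∣ R.index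
  · obtain ⟨α, -, hα2, hno⟩ := hp 2 Nat.prime_two h2
    obtain ⟨β, h1, h2', h3⟩ := exists_beta hD (p := 2) hc hI α
    have hββ : ∀ z, β (β z) = z := by
      intro z
      apply Subtype.ext
      apply stE_inj hD (by omega) (β (β z)).2 z.2
      rw [← h2', ← h2', Subgroup.map_map]
      rintro _ ⟨s, hs, rfl⟩
      have h4 : (α.toMonoidHom.comp α.toMonoidHom) s = s := by
        have h5 : (α ^ 2) s = s := by
          rw [hα2]
          rfl
        rw [pow_two] at h5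
        exact h5
      rw [h4]
      exact hs
    obtain ⟨x₁, y₁, x₁', y₁', hq₁, hperm⟩ := fixed_quad hc β h1 hββ
    obtain ⟨hq₂, -⟩ := bk_beta hc β h1 hq₁
    have hmem : ∀ z ∈ ({x₁, y₁, x₁', y₁'} : Set Φ.Pt),
        z.1 ≤ bk x₁.1 y₁.1 x₁'.1 y₁'.1 := by
      intro z hz
      simp only [Set.mem_insert_iff, Set.mem_singleton_iff] at hz
      rcases hz with rfl | rfl | rfl | rfl
      · exact le_sup_of_le_left le_sup_left
      · exact le_sup_of_le_left le_sup_right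
      · exact le_sup_of_le_right le_sup_left
      · exact le_sup_of_le_right le_sup_right
    have hle : bk (β x₁).1 (β y₁).1 (β x₁').1 (β y₁').1 ≤ bk x₁.1 y₁.1 x₁'.1 y₁'.1 := by
      refine sup_le (sup_le (hmem _ (hperm _ ?_)) (hmem _ (hperm _ ?_)))
        (sup_le (hmem _ (hperm _ ?_)) (hmem _ (hperm _ ?_))) <;>
      simp
    have heq := Submodule.eq_of_le_of_finrank_eq hle (by rw [(bk_nd hq₂).2, (bk_nd hq₁).2])
    have e := map_bk_aux hD hc α β h1 h3 hq₁
    rw [heq] at e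
    obtain ⟨g, hg, e1, e2, e3, e4⟩ := trans_quad hD hn5 hq hq₁
    apply hno (toPG hg)
    rw [smul_eq_map_aux, ← conj_bk_aux D hg e1 e2 e3 e4]
    exact e
  · have hcard : Nat.card {z : Submodule K V | Φ.IsPt z} = Φ.pn ⊤ := by
      apply Nat.card_congr
      exact Equiv.subtypeEquivRight fun z => ⟨fun h => ⟨h, le_top⟩, fun h => h.1⟩
    obtain ⟨z, hz, E, hE, hzE, hRE⟩ := bt hD (by omega : 3 ≤ finrank K V) (p := 2)
      (le_refl R) h2 hRt (Z := {z | Φ.IsPt z}) (fun z hz => hz) (by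
        rw [hcard]
        have h3 := pn_mod (Φ := Φ) (p := 2) (W := ⊤) (by rw [finrank_top]; omega)
        intro h4
        have h5 := (Nat.modEq_zero_iff_dvd.2 h4).symm.trans h3
        exact absurd h5 (by decide)) (by
        intro s _ z hz
        obtain ⟨g, hg, rfl⟩ := exists_toPG s
        exact IsPt.map hz (hD.le hg))
    apply irq hD hc hq hE _ (hHR.trans hRE)
    rintro rfl
    exact (IsPt.ne_bot hz) (le_bot_iff.1 hzE)

end PS

end Pool.Agent.Work.MP_bc729a_al.CG
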