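import Pool.Agent.Work.MP_bc729a_al.CG.TrnA

/-! # Module StbA (S-M): a point stabiliser fixes only one point

PROOF of `exists_move`. If `¬ y ≤ orth x`: `two_opp` (`W = ⊤`) gives `y' ≠ y` opposite to `x`, `u_trans`. If `y ≤ orth x`: `sep` with `W = ⊤`, `E = y` (`IsPt.ts`), `z = x` (`¬ x ≤ y` by `IsPt.eq_of_le`) gives a
point `w ≤ orth y`, `¬ w ≤ orth x`; `exists_opp2` (`W = ⊤`) gives a point `w'` with `¬ w' ≤ orth x`, `¬ w' ≤ orth y`; `u_trans` gives `g`, `IsU x g`, `w.map g = w'`. If `y.map g = y` then `w ≤ orth y`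
gives `w' = w.map g ≤ orth y` (`map_le_orth_map`), contradiction.
`stE_inj`: otherwise take `g` from `exists_move`; `g ∈ D` (`hD.u`), `x.map g = x` (`IsU.map_eq`), so `toPG g ∈ stE D x ≤ stE D y`.
`PG_nonab`: `exists_pt`, `exists_opp` (`W = ⊤`): opposite points `x`, `y`; `trans_pt`: `h ∈ D`, `x.map h = y`; `exists_move`: `g`. If `toPG g` and `toPG h` commute, then
`y.map g = (x.map h).map g = (x.map g).map h = x.map h = y`. -/

namespace Pool.Agent.Work.MP_bc729a_al.CG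

open Module

universe u v

variable {K : Type u} {V : Type v} [Field K] [AddCommGroup V] [Module K V] [Finite K] [Finite V]

namespace PS

variable {Φ : PS K V}

theorem exists_move (hn : 3 ≤ finrank K V) {x y : Submodule K V} (hx : Φ.IsPt x)
    (hy : Φ.IsPt y) (h : x ≠ y) : ∃ g : V ≃ₗ[K] V, Φ.IsU x g ∧ y.map (g : V →ₗ[K] V) ≠ y := by
  by_cases hxy : y ≤ Φ.orth x
  · have hnle : ¬ x ≤ y := fun hle => h (hx.eq_of_le hy hle)
    obtain ⟨w, hw, -, hw1, hw2⟩ := sep (Φ := Φ) (W := ⊤) ND_top hy.ts le_top hx le_top hnle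
    obtain ⟨w', hw', -, hw1', hw2'⟩ :=
      exists_opp2 (Φ := Φ) (W := ⊤) ND_top hx le_top hy le_top (Φ.le_orth_comm.1 hxy)
    obtain ⟨g, hg, -, hgm⟩ := u_trans (Φ := Φ) (W := ⊤) hx le_top hw le_top hw' le_top hw2 hw1'
    refine ⟨g, hg, fun he => hw2' ?_⟩
    have h1 := (map_le_orth_map (Φ := Φ) hg.1).2 hw1
    rw [hgm, he] at h1
    exact h1
  · have hn' : 3 ≤ finrank K ↥(⊤ : Submodule K V) := by rwa [finrank_top]
    obtain ⟨y', hy', -, h1, h2⟩ :=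
      two_opp (Φ := Φ) (W := ⊤) (z := y) ND_top (Or.inl hn') hx le_top
    obtain ⟨g, hg, -, hgm⟩ := u_trans (Φ := Φ) (W := ⊤) hx le_top hy le_top hy' le_top hxy h1
    exact ⟨g, hg, by rw [hgm]; exact h2⟩

theorem stE_inj {D : Subgroup (V ≃ₗ[K] V)} (hD : Φ.Grp D) (hn : 3 ≤ finrank K V)
    {x y : Submodule K V} (hx : Φ.IsPt x) (hy : Φ.IsPt y) (h : stE D x ≤ stE D y) : x = y := by
  by_contra hne
  obtain ⟨g, hg, hgm⟩ := exists_move hn hx hy hne
  have hgD : g ∈ D := hD.u x hx hg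
  have h1 : toPG hgD ∈ stE D x := by
    rw [mem_stE, toPG_apply]
    exact hg.map_eq
  have h2 := h h1
  rw [mem_stE, toPG_apply] at h2
  exact hgm h2

theorem PG_nonab {D : Subgroup (V ≃ₗ[K] V)} (hD : Φ.Grp D) (hn : 3 ≤ finrank K V)
    (hc : Φ.c ≤ finrank K V) : ∃ a b : ↥(PG D), a * b ≠ b * a := by
  have hn' : 3 ≤ finrank K ↥(⊤ : Submodule K V) := by rwa [finrank_top]
  have hc' : Φ.c ≤ finrank K ↥(⊤ : Submodule K V) := by rwa [finrank_top]
  obtain ⟨x, hx, -⟩ := exists_pt (Φ := Φ) hc'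
  obtain ⟨y, hy, -, hxy⟩ := exists_opp (Φ := Φ) (W := ⊤) ND_top hx le_top
  have hne : x ≠ y := by
    rintro rfl
    exact hxy hx.self
  obtain ⟨h, hh, -, hhm⟩ := trans_pt hD (W := ⊤) ND_top (Or.inl hn') hx le_top hy le_top
  obtain ⟨g, hg, hgm⟩ := exists_move hn hx hy hne
  have hgD : g ∈ D := hD.u x hx hg
  refine ⟨toPG hgD, toPG hh, fun he => hgm ?_⟩
  have h1 : (toPG hgD * toPG hh).1 x = (toPG hh * toPG hgD).1 x := by rw [he]
  change (toPG hgD).1 ((toPG hh).1 x) = (toPG hh).1 ((toPG hgD).1 x) at h1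
  simp only [toPG_apply] at h1
  rw [hhm, hg.map_eq, hhm] at h1
  exact h1

end PS

end Pool.Agent.Work.MP_bc729a_al.CG
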