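import Pool.Agent.Work.MP_bc729a_al.CG.Tst
import Pool.Agent.Work.MP_bc729a_al.CG.Rec

/-! # Module TrnA (M): transitivity on points

PROOF of `two_opp`: `card_opp`: the number of points `y ≤ W` with `¬ y ≤ orth x` is `t * Q ^ (finrank W - 2) ≥ 2` (`t ≥ 1` by `t_pos`).
PROOF of `trans_pt`. (1) If `x ≤ orth x'`: `exists_opp2` gives a point `w ≤ W` opposite to both, `u_trans` (for `w`, `x`, `x'`; `le_orth_comm`) gives `g` with `IsU w g`, so
`g ∈ D` (`hD.u`). (2) If there is a point `z ≤ W` with `z ≤ orth x`, `z ≤ orth x'`, use (1) twice and compose. (3) Otherwise `¬ x' ≤ orth x`, and by `two_opp` there is a point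
`y ≤ W`, `¬ y ≤ orth x`, `y ≠ x'`. If `y ≤ orth x'` then `y ⊔ x'` is a line (`TS.sup`, dimension `2`), meets `orth x` (a hyperplane by `finrank_orth`) in a vector `≠ 0`, which spans a
point (`TS.isPt`) perpendicular to `x` and to `x'`, excluded. So `y` is opposite to `x` and `x'`, and `u_trans` for `y`, `x`, `x'` works. -/

namespace Pool.Agent.Work.MP_bc729a_al.CG

open Module

universe u v

variable {K : Type u} {V : Type v} [Field K] [AddCommGroup V] [Module K V] [Finite K] [Finite V]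

namespace PS

variable {Φ : PS K V}

theorem two_opp {W x z : Submodule K V} (hW : Φ.ND W) (hd : 3 ≤ finrank K W ∨ 2 ≤ Φ.t)
    (hx : Φ.IsPt x) (hxW : x ≤ W) :
    ∃ y, Φ.IsPt y ∧ y ≤ W ∧ ¬ y ≤ Φ.orth x ∧ y ≠ z := by
  have hcard := card_opp hW hx hxW
  have hQ : 2 ≤ Nat.card K := Finite.one_lt_card
  have ht : 1 ≤ Φ.t := Φ.t_pos
  have h2 : 2 ≤ Φ.t * Nat.card K ^ (finrank K W - 2) := by
    rcases hd with hd | hd
    · have h3 : 2 ≤ Nat.card K ^ (finrank K W - 2) := by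
        calc 2 ≤ Nat.card K := hQ
          _ = Nat.card K ^ 1 := (pow_one _).symm
          _ ≤ Nat.card K ^ (finrank K W - 2) := Nat.pow_le_pow_right (by omega) (by omega)
      calc 2 = 1 * 2 := rfl
        _ ≤ Φ.t * Nat.card K ^ (finrank K W - 2) := Nat.mul_le_mul ht h3
    · have h3 : 1 ≤ Nat.card K ^ (finrank K W - 2) := Nat.one_le_pow _ _ (by omega)
      calc 2 = 2 * 1 := rfl
        _ ≤ Φ.t * Nat.card K ^ (finrank K W - 2) := Nat.mul_le_mul hd h3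
  rw [← hcard] at h2
  haveI : Finite {y : Submodule K V // Φ.IsPt y ∧ y ≤ W ∧ ¬ y ≤ Φ.orth x} :=
    Nat.finite_of_card_ne_zero (by omega)
  haveI : Nontrivial {y : Submodule K V // Φ.IsPt y ∧ y ≤ W ∧ ¬ y ≤ Φ.orth x} :=
    Finite.one_lt_card_iff_nontrivial.1 (by omega)
  obtain ⟨a, b, hab⟩ := exists_pair_ne {y : Submodule K V // Φ.IsPt y ∧ y ≤ W ∧ ¬ y ≤ Φ.orth x}
  by_cases h : a.1 = z
  · refine ⟨b.1, b.2.1, b.2.2.1, b.2.2.2, ?_⟩
    intro hb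
    exact hab (Subtype.ext (h.trans hb.symm))
  · exact ⟨a.1, a.2.1, a.2.2.1, a.2.2.2, h⟩

private theorem trans_pt_one {D : Subgroup (V ≃ₗ[K] V)} (hD : Φ.Grp D) {W x x' : Submodule K V}
    (hW : Φ.ND W) (hx : Φ.IsPt x) (hxW : x ≤ W)
    (hx' : Φ.IsPt x') (hxW' : x' ≤ W) (h : x ≤ Φ.orth x') :
    ∃ g ∈ D, (∀ v ∈ Φ.orth W, g v = v) ∧ x.map (g : V →ₗ[K] V) = x' := by
  obtain ⟨w, hw, hwW, h1, h2⟩ := exists_opp2 hW hx hxW hx' hxW' h
  obtain ⟨g, hg, hg1, hg2⟩ := u_trans hw hwW hx hxW hx' hxW'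
    (fun h3 => h1 (Φ.le_orth_comm.1 h3)) (fun h3 => h2 (Φ.le_orth_comm.1 h3))
  exact ⟨g, hD.u w hw (Φ.mem_UU.2 hg), hg1, hg2⟩

theorem trans_pt {D : Subgroup (V ≃ₗ[K] V)} (hD : Φ.Grp D) {W x x' : Submodule K V}
    (hW : Φ.ND W) (hd : 3 ≤ finrank K W ∨ 2 ≤ Φ.t) (hx : Φ.IsPt x) (hxW : x ≤ W)
    (hx' : Φ.IsPt x') (hxW' : x' ≤ W) :
    ∃ g ∈ D, (∀ v ∈ Φ.orth W, g v = v) ∧ x.map (g : V →ₗ[K] V) = x' := by
  by_cases hz : ∃ z, Φ.IsPt z ∧ z ≤ W ∧ z ≤ Φ.orth x ∧ z ≤ Φ.orth x'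
  · obtain ⟨z, hz, hzW, hzx, hzx'⟩ := hz
    obtain ⟨g, hg, hg1, hg2⟩ := trans_pt_one hD hW hx hxW hz hzW (Φ.le_orth_comm.1 hzx)
    obtain ⟨k, hk, hk1, hk2⟩ := trans_pt_one hD hW hz hzW hx' hxW' hzx'
    refine ⟨k * g, D.mul_mem hk hg, fun v hv => ?_, ?_⟩
    · change k (g v) = v
      rw [hg1 v hv, hk1 v hv]
    · have e : ((k * g : V ≃ₗ[K] V) : V →ₗ[K] V) = (k : V →ₗ[K] V).comp (g : V →ₗ[K] V) := rfl
      rw [e, Submodule.map_comp, hg2, hk2]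
  · obtain ⟨y, hy, hyW, hyx, hne⟩ := two_opp (z := x') hW hd hx hxW
    have hyx' : ¬ y ≤ Φ.orth x' := by
      intro h
      apply hz
      have hE : Φ.TS (y ⊔ x') := TS.sup hy.ts hx'.ts h
      have hinf : y ⊓ x' = ⊥ := hy.inf_eq_bot (fun h1 => hne (hy.eq_of_le hx' h1))
      have hd1 := Submodule.finrank_sup_add_finrank_inf_eq y x'
      rw [hinf, finrank_bot, hy.finrank, hx'.finrank] at hd1
      have hd2 := Φ.finrank_orth x
      rw [hx.finrank] at hd2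
      have hd3 := Submodule.finrank_sup_add_finrank_inf_eq (y ⊔ x') (Φ.orth x)
      have hd4 : finrank K ↥((y ⊔ x') ⊔ Φ.orth x) ≤ finrank K V := Submodule.finrank_le _
      have hpos : 0 < finrank K ↥((y ⊔ x') ⊓ Φ.orth x) := by omega
      have hnb : (y ⊔ x') ⊓ Φ.orth x ≠ ⊥ := by
        intro h0
        rw [h0, finrank_bot] at hpos
        exact lt_irrefl _ hpos
      obtain ⟨v, hv, hv0⟩ := Submodule.exists_mem_ne_zero_of_ne_bot hnb
      have hv1 : v ∈ y ⊔ x' := (Submodule.mem_inf.1 hv).1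
      have hv2 : v ∈ Φ.orth x := (Submodule.mem_inf.1 hv).2
      refine ⟨Submodule.span K {v}, hE.isPt hv1 hv0, ?_, ?_, ?_⟩
      · rw [Submodule.span_singleton_le_iff_mem]
        exact sup_le hyW hxW' hv1
      · rw [Submodule.span_singleton_le_iff_mem]
        exact hv2
      · rw [Submodule.span_singleton_le_iff_mem]
        exact Φ.orth_anti le_sup_right (hE.2 hv1)
    obtain ⟨g, hg, hg1, hg2⟩ := u_trans hy hyW hx hxW hx' hxW'
      (fun h3 => hyx (Φ.le_orth_comm.1 h3)) (fun h3 => hyx' (Φ.le_orth_comm.1 h3))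
    exact ⟨g, hD.u y hy (Φ.mem_UU.2 hg), hg1, hg2⟩

end PS

end Pool.Agent.Work.MP_bc729a_al.CG
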