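import Pool.Agent.Work.MP_bc729a_al.CG.Defs

/-! # Module HeA (M): finite fields with an involution

PROOF. Let `K₀ = {a | τ a = a}` (a subfield), `m = |K₀|`, `T a = a + τ a`, `N₀ = {a | T a = 0}`. `T` is `K₀`-linear with values in `K₀` and not zero: if `T = 0`, `T 1 = 0` gives `-1 = 1` and then `τ a = -a = a` for all `a`, excluded. So
`T` is onto `K₀` (`T (c * a) = c * T a` for `c ∈ K₀`). Choose `b₁` with `τ b₁ ≠ b₁` and put `c₀ = b₁ - τ b₁ ≠ 0`, `T c₀ = 0`. `a ↦ a * c₀` is a bijection of `K₀` with `N₀` (`τ (a c₀) = - τ a * c₀`). So the fibres of `T` over the elements of `K₀` have `m` elements and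
`|K| = m * m`. First claim, `t = m`: for `b ≠ 0` the number of `a` with `a * b + τ (a * b) + h = 0` is the number of `c` with `T c = -h ∈ K₀`, so it is `m`.
Second claim (norms): let `N a = a * τ a`, for `a ≠ 0`, a homomorphism `Kˣ → K₀ˣ`. Its kernel is `{c / τ c | c ≠ 0}`: if `a * τ a = 1` then for every `b` the element `c = b + a * τ b` satisfies `a * τ c = c`, and `c ≠ 0` for some `b` (if not, `b = 1` gives `a = -1`, and then
`b = τ b` for all `b`). The map `c ↦ c / τ c` on `Kˣ` has kernel `K₀ˣ`, so its image has `(m ^ 2 - 1) / (m - 1) = m + 1` elements (`m ≥ 2`), and the image of `N` has `(m ^ 2 - 1) / (m + 1) = m - 1 = |K₀ˣ|` elements: `N` is onto. -/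

namespace Pool.Agent.Work.MP_bc729a_al.CG

open Module

universe u v

variable {K : Type u} {V : Type v} [Field K] [AddCommGroup V] [Module K V] [Finite K] [Finite V]

theorem field_inv (τ : K →+* K) (h2 : ∀ a, τ (τ a) = a) (h1 : ∃ a, τ a ≠ a) :
    ∃ t : ℕ, t * t = Nat.card K ∧
      (∀ b h : K, b ≠ 0 → τ h = h → Nat.card {a : K // a * b + τ (a * b) + h = 0} = t) ∧
      ∀ h : K, τ h = h → ∃ a : K, a * τ a = h := by
  have hT1 : ∃ a1 : K, a1 + τ a1 ≠ 0 := by
    by_contra hc
    push Not at hc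
    obtain ⟨a, ha⟩ := h1
    apply ha
    have e1 := hc 1
    rw [map_one] at e1
    have e2 := hc a
    have e3 : (1 + 1 : K) * a = 0 := by rw [e1, zero_mul]
    linear_combination e2 - e3
  obtain ⟨a1, ha1⟩ := hT1
  have hTT : ∀ a, τ (a + τ a) = a + τ a := by
    intro a
    rw [map_add, h2, add_comm]
  obtain ⟨a2, ha2⟩ : ∃ a2 : K, a2 + τ a2 = 1 := by
    refine ⟨a1 / (a1 + τ a1), ?_⟩
    rw [map_div₀, hTT, ← add_div, div_self ha1]
  have ha3 : τ a2 = 1 - a2 := by linear_combination ha2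
  obtain ⟨b1, hb1⟩ := h1
  obtain ⟨c0, hc0, hc1⟩ : ∃ c0 : K, c0 ≠ 0 ∧ τ c0 = - c0 := by
    refine ⟨b1 - τ b1, ?_, ?_⟩
    · intro h
      exact hb1 (sub_eq_zero.1 h).symm
    · rw [map_sub, h2]
      ring
  refine ⟨Nat.card {a : K // τ a = a}, ?_, ?_, ?_⟩
  · rw [← Nat.card_prod]
    apply Nat.card_congr
    refine ⟨fun x => x.1.1 * a2 + x.2.1 * c0,
      fun a => (⟨a + τ a, hTT a⟩, ⟨(a - (a + τ a) * a2) / c0, ?_⟩), ?_, ?_⟩
    · rw [map_div₀, hc1, map_sub, map_mul, hTT, ha3]
      field_simp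
      ring
    · rintro ⟨⟨k, hk⟩, ⟨l, hl⟩⟩
      have e : k * a2 + l * c0 + τ (k * a2 + l * c0) = k := by
        rw [map_add, map_mul, map_mul, hk, hl, hc1]
        linear_combination k * ha2
      refine Prod.ext (Subtype.ext e) (Subtype.ext ?_)
      show (k * a2 + l * c0 - (k * a2 + l * c0 + τ (k * a2 + l * c0)) * a2) / c0 = l
      rw [e]
      field_simp
      ring
    · intro a
      show (a + τ a) * a2 + (a - (a + τ a) * a2) / c0 * c0 = a
      rw [div_mul_cancel₀ _ hc0]
      ring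
  · intro b h hb hh
    apply Nat.card_congr
    refine ⟨fun a => ⟨(a.1 * b + h * a2) / c0, ?_⟩, fun k => ⟨(k.1 * c0 - h * a2) / b, ?_⟩, ?_, ?_⟩
    · have e : τ (a.1 * b) = - (a.1 * b) - h := by linear_combination a.2
      rw [map_div₀, hc1, map_add, e, map_mul, hh, ha3]
      field_simp
      ring
    · have hk := k.2
      rw [div_mul_cancel₀ _ hb, map_sub, map_mul, map_mul, hk, hh, hc1, ha3]
      ring
    · rintro ⟨a, ha⟩
      apply Subtype.ext
      show ((a * b + h * a2) / c0 * c0 - h * a2) / b = a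
      rw [div_mul_cancel₀ _ hc0]
      field_simp
      ring
    · rintro ⟨k, hk⟩
      apply Subtype.ext
      show ((k * c0 - h * a2) / b * b + h * a2) / c0 = k
      rw [div_mul_cancel₀ _ hb]
      field_simp
      ring
  · intro h hh
    by_cases h0 : h = 0
    · exact ⟨0, by rw [h0, zero_mul]⟩
    obtain ⟨T, hT⟩ : ∃ T : Kˣ →* Kˣ, T = Units.map (τ : K →* K) := ⟨_, rfl⟩
    have hTv : ∀ u : Kˣ, ((T u : Kˣ) : K) = τ u := by
      intro u
      rw [hT]
      rfl
    obtain ⟨f, hf⟩ : ∃ f : Kˣ →* Kˣ, ∀ u, f u = u / T u :=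
      ⟨MonoidHom.id Kˣ / T, fun u => rfl⟩
    obtain ⟨g, hg⟩ : ∃ g : Kˣ →* Kˣ, ∀ u, g u = u * T u :=
      ⟨MonoidHom.id Kˣ * T, fun u => rfl⟩
    have hTT2 : ∀ u, T (T u) = u := by
      intro u
      apply Units.ext
      rw [hTv, hTv, h2]
    have hfr : f.range = g.ker := by
      apply le_antisymm
      · rintro _ ⟨u, rfl⟩
        rw [MonoidHom.mem_ker, hg, hf, map_div, hTT2, div_mul_div_cancel, div_self']
      · intro a ha
        rw [MonoidHom.mem_ker, hg] at ha
        have ha' : (a : K) * τ a = 1 := by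
          rw [← hTv, ← Units.val_mul, ha, Units.val_one]
        obtain ⟨b, hb⟩ : ∃ b : K, b + a * τ b ≠ 0 := by
          by_contra hc
          push Not at hc
          have e1 := hc 1
          rw [map_one, mul_one] at e1
          have e2 := hc b1
          apply hb1
          have e3 : (a : K) = -1 := by linear_combination e1
          rw [e3] at e2
          linear_combination -e2
        refine ⟨Units.mk0 _ hb, ?_⟩
        rw [hf, div_eq_iff_eq_mul]
        apply Units.ext
        rw [Units.val_mul, hTv, Units.val_mk0, map_add, map_mul, h2]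
        linear_combination (-b) * ha'
    have hgr : g.range ≤ f.ker := by
      rintro _ ⟨u, rfl⟩
      rw [MonoidHom.mem_ker, hf, hg, map_mul, hTT2, mul_comm, div_self']
    have hcf := f.ker.card_mul_index
    have hcg := g.ker.card_mul_index
    rw [Subgroup.index_ker] at hcf hcg
    have hcard : Nat.card g.range = Nat.card f.ker := by
      rw [hfr] at hcf
      rw [← hcf, mul_comm] at hcg
      exact Nat.eq_of_mul_eq_mul_right Nat.card_pos hcg
    have heq : g.range = f.ker := Subgroup.eq_of_le_of_card_ge hgr hcard.ge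
    have hmem : Units.mk0 h h0 ∈ f.ker := by
      rw [MonoidHom.mem_ker, hf, div_eq_one]
      apply Units.ext
      rw [hTv, Units.val_mk0, hh]
    rw [← heq] at hmem
    obtain ⟨u, hu⟩ := hmem
    refine ⟨u, ?_⟩
    rw [hg] at hu
    have := congrArg (fun v : Kˣ => (v : K)) hu
    simpa only [Units.val_mul, hTv, Units.val_mk0] using this

end Pool.Agent.Work.MP_bc729a_al.CG
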