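import Pool.Agent.Work.MP_bc729a_al.CG.Fm
import Pool.Agent.Work.MP_bc729a_al.CG.HeA

/-! # Module HeI (M): hermitian forms

PROOF. `Φ.B u v = h v u` (linear in `u`, `σ`-semilinear in `v`), `τ = σ`, `S v ↔ h v v = 0`, `c = 2`, `t` from `field_inv`. `σ (B u v) = B v u` (`hs`): `refl`, `nd`. `S_add`: `B (u + v) (u + v) = B u v + B v u = 0`. `S_odd`, `S_B` trivial.
`card_t`: `B (v + a • x) (v + a • x) = B v v + a * B x v + σ (a * B x v)` (`B x x = 0`), `σ (B v v) = B v v`, `B x v ≠ 0`: `field_inv` with `b = B x v`, `h = B v v`.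
`ex`: let `0 ≠ u ∈ W`; if `B u u = 0` we are done. Otherwise there is `0 ≠ v ∈ W` with `B v u = 0` (`finrank W ≥ 2`), if `B v v = 0` we are done; otherwise there is `a` with `a * σ a = - B v v / B u u` (fixed by `σ`), and `v + a • u` is singular and not `0`
(if it is, then `v ∈ span {u}` and `B v u = 0` gives `v = 0`). `typ`: the second case.
`ei`: let `b = B y x ≠ 0`, `w = y' - y`, `B w x = 0 = B x w`. Put `g v = v + b⁻¹ * B v x • w - (σ b)⁻¹ * B v w • x + (c * B v x) • x` with `c = b⁻¹ * (σ b)⁻¹ * B y w`. `g x = x`; `g y = y + w - (σ b)⁻¹ B y w x + c b x = y'`. The form is preserved: the extra terms of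
`B (g u) (g v)` are `B u x * B w v * (b⁻¹ - b⁻¹) + B u w * B x v * ((σ b)⁻¹ - (σ b)⁻¹) + B u x * B x v * (c + σ c + b⁻¹ (σ b)⁻¹ B w w)` and `B y w + B w y + B w w = B y' y' - B y y = 0`, so the last bracket is `0`. If `B v x = 0` then `g v - v = - (σ b)⁻¹ B v w • x`.
`g` is linear and injective (it preserves the nondegenerate form), so bijective. `S (g v) ↔ S v` follows. -/

namespace Pool.Agent.Work.MP_bc729a_al.CG

open Module

universe u v

variable {K : Type u} {V : Type v} [Field K] [AddCommGroup V] [Module K V] [Finite K] [Finite V]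

omit [Finite K] in
private theorem exists_perp {σ : K →+* K} (h : V →ₛₗ[σ] V →ₗ[K] K) (W : Submodule K V)
    (hW : 2 ≤ finrank K W) (u : V) : ∃ v ∈ W, v ≠ 0 ∧ h u v = 0 := by
  have hfin : Module.Finite K V := inferInstance
  let f : W →ₗ[K] K := (h u).comp W.subtype
  have h1 := LinearMap.finrank_range_add_finrank_ker f
  have h2 : finrank K (LinearMap.range f) ≤ 1 := by
    calc finrank K (LinearMap.range f) ≤ finrank K K := Submodule.finrank_le _
      _ = 1 := finrank_self K
  have h3 : 0 < finrank K (LinearMap.ker f) := by omega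
  obtain ⟨⟨⟨v, hvW⟩, hv⟩, hne⟩ := Module.finrank_pos_iff_exists_ne_zero.1 h3
  refine ⟨v, hvW, ?_, ?_⟩
  · rintro rfl
    exact hne rfl
  · exact hv

omit [Finite K] in
private theorem herm_ex {σ : K →+* K} (h : V →ₛₗ[σ] V →ₗ[K] K)
    (hs : ∀ u v, σ (h u v) = h v u)
    (hN : ∀ k : K, σ k = k → ∃ a : K, a * σ a = k) (W : Submodule K V)
    (hW : 2 ≤ finrank K W) : ∃ v ∈ W, v ≠ 0 ∧ h v v = 0 := by
  obtain ⟨u, huW, hu0, -⟩ := exists_perp h W hW 0
  by_cases huu : h u u = 0
  · exact ⟨u, huW, hu0, huu⟩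
  obtain ⟨v, hvW, hv0, huv⟩ := exists_perp h W hW u
  by_cases hvv : h v v = 0
  · exact ⟨v, hvW, hv0, hvv⟩
  have hvu : h v u = 0 := by rw [← hs u v, huv, map_zero]
  obtain ⟨a, ha⟩ := hN (-(h v v) / h u u) (by rw [map_div₀, map_neg, hs, hs])
  refine ⟨v + a • u, W.add_mem hvW (W.smul_mem a huW), ?_, ?_⟩
  · intro h0
    have h3 : h v (v + a • u) = h v v := by
      rw [map_add, map_smul, hvu, smul_zero, add_zero]
    rw [h0, map_zero] at h3
    exact hvv h3.symm
  · have h4 : h (v + a • u) (v + a • u) = h v v + a * σ a * h u u := by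
      simp only [map_add, LinearMap.add_apply, map_smul, LinearMap.map_smulₛₗ, LinearMap.smul_apply,
        smul_eq_mul, hvu, huv]
      ring
    rw [h4, ha, div_mul_cancel₀ _ huu, add_neg_cancel]

private theorem herm_ei {σ : K →+* K} (h : V →ₛₗ[σ] V →ₗ[K] K) (h2 : ∀ a, σ (σ a) = a)
    (hs : ∀ u v, σ (h u v) = h v u) (hn : ∀ u, (∀ v, h u v = 0) → u = 0)
    (x y y' : V) (hx : h x x = 0) (hy : h y y = 0) (hy' : h y' y' = 0) (hb : h x y ≠ 0)
    (he : h x y' = h x y) :
    ∃ g : V ≃ₗ[K] V, (∀ u v, h (g v) (g u) = h v u) ∧ (∀ v, h (g v) (g v) = 0 ↔ h v v = 0) ∧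
      g x = x ∧ g y = y' ∧ (∀ v, h x v = 0 → g v - v ∈ Submodule.span K {x}) ∧
      (∀ v, h x v = 0 → h (y' - y) v = 0 → g v = v) := by
  have hfin : Module.Finite K V := inferInstance
  set w : V := y' - y with hw
  set b : K := h x y with hbdef
  have hσb : σ b ≠ 0 := by
    intro h0
    apply hb
    rw [← h2 b, h0, map_zero]
  have hxw : h x w = 0 := by rw [hw, map_sub, he, sub_self]
  have hwx : h w x = 0 := by rw [← hs x w, hxw, map_zero]
  set c : K := b⁻¹ * (σ b)⁻¹ * h w y with hc
  have hsum : h w y + h y w + h w w = 0 := by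
    have h3 : y' = y + w := by rw [hw]; abel
    have h4 := hy'
    rw [h3] at h4
    simp only [map_add, LinearMap.add_apply, hy, zero_add] at h4
    rw [← h4]
    ring
  let f : V →ₗ[K] V :=
    { toFun := fun v => v + (b⁻¹ * h x v) • w - ((σ b)⁻¹ * h w v) • x + (c * h x v) • x
      map_add' := by
        intro u v
        simp only [map_add]
        module
      map_smul' := by
        intro a v
        simp only [map_smul, smul_eq_mul, RingHom.id_apply]
        module }
  have hf : ∀ v, f v = v + (b⁻¹ * h x v) • w - ((σ b)⁻¹ * h w v) • x + (c * h x v) • x :=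
    fun v => rfl
  have hsc : σ c = b⁻¹ * (σ b)⁻¹ * h y w := by
    rw [hc, map_mul, map_mul, map_inv₀, map_inv₀, h2, hs w y]
    ring
  have hform : ∀ u v, h (f v) (f u) = h v u := by
    intro u v
    rw [hf, hf]
    simp only [map_add, map_sub, LinearMap.add_apply, LinearMap.sub_apply, map_smul,
      LinearMap.map_smulₛₗ, LinearMap.smul_apply, smul_eq_mul, map_mul, map_inv₀, h2, hs, hxw, hwx,
      hx, hsc]
    have h5 : h x u * h v x * (c + b⁻¹ * (σ b)⁻¹ * h y w + b⁻¹ * (σ b)⁻¹ * h w w) = 0 := by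
      have : c + b⁻¹ * (σ b)⁻¹ * h y w + b⁻¹ * (σ b)⁻¹ * h w w =
          b⁻¹ * (σ b)⁻¹ * (h w y + h y w + h w w) := by
        rw [hc]
        ring
      rw [this, hsum, mul_zero, mul_zero]
    linear_combination h5
  have hinj : Function.Injective f := by
    rw [← LinearMap.ker_eq_bot, LinearMap.ker_eq_bot']
    intro v hv
    apply hn
    intro u
    rw [← hform u v, hv, map_zero, LinearMap.zero_apply]
  let g : V ≃ₗ[K] V := LinearEquiv.ofInjectiveEndo f hinj
  have hg : ∀ v, g v = f v := fun v => rfl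
  refine ⟨g, fun u v => ?_, fun v => ?_, ?_, ?_, fun v hv => ?_, fun v hv hv' => ?_⟩
  · rw [hg, hg, hform]
  · rw [hg, hform]
  · rw [hg, hf, hx, hwx]
    simp
  · rw [hg, hf, ← hbdef, hc, inv_mul_cancel₀ hb, one_smul]
    have h6 : b⁻¹ * (σ b)⁻¹ * h w y * b = (σ b)⁻¹ * h w y := by
      field_simp
    rw [h6, hw]
    abel
  · rw [hg, hf, hv]
    have h7 : v + (b⁻¹ * 0) • w - ((σ b)⁻¹ * h w v) • x + (c * 0) • x - v =
        (-((σ b)⁻¹ * h w v)) • x := by
      simp only [mul_zero, zero_smul, add_zero, neg_smul]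
      abel
    rw [h7]
    exact Submodule.smul_mem _ _ (Submodule.mem_span_singleton_self x)
  · rw [hg, hf, hv, hv']
    simp

theorem exists_herm {σ : K →+* K} (h : V →ₛₗ[σ] V →ₗ[K] K) (h2 : ∀ a, σ (σ a) = a)
    (h1 : ∃ a, σ a ≠ a) (hs : ∀ u v, σ (h u v) = h v u)
    (hn : ∀ u, (∀ v, h u v = 0) → u = 0) :
    ∃ Φ : PS K V, (∀ u v, Φ.B u v = h v u) ∧ (∀ v, Φ.S v ↔ h v v = 0) ∧ Φ.c = 2 ∧
      Φ.t * Φ.t = Nat.card K := by
  obtain ⟨t, ht, hT, hN⟩ := field_inv σ h2 h1
  refine ⟨{ τ := σ
            B := fun u v => h v u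
            S := fun v => h v v = 0
            c := 2
            t := t
            tau_tau := h2
            add_left := fun u v w => map_add _ _ _
            smul_left := fun a u v => by rw [map_smul, smul_eq_mul]
            add_right := fun u v w => by rw [map_add, LinearMap.add_apply]
            smul_right := fun a u v => by
              rw [LinearMap.map_smulₛₗ, LinearMap.smul_apply, smul_eq_mul]
            refl := fun u v h0 => by rw [← hs v u, h0, map_zero]
            nd := fun u h0 => hn u fun v => by rw [← hs v u, h0, map_zero]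
            S_zero := by rw [map_zero]
            S_smul := fun a v h0 => by
              rw [map_smul, LinearMap.map_smulₛₗ, LinearMap.smul_apply, h0, smul_zero, smul_zero]
            S_add := fun u v hu hv h0 => by
              have h3 : h u v = 0 := by rw [← hs v u, h0, map_zero]
              simp only [map_add, LinearMap.add_apply, hu, hv, h0, h3, add_zero]
            S_B := fun v h0 => h0
            S_odd := fun _ v h0 => h0
            card_t := ?_
            ex := fun W hW => herm_ex h hs hN W hW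
            typ := Or.inr (Or.inl ⟨rfl, ht⟩)
            ei := fun x y y' hx hy hy' hb he => herm_ei h h2 hs hn x y y' hx hy hy' hb he },
    fun u v => rfl, fun v => Iff.rfl, rfl, ht⟩
  intro x v hx hb
  have hb' : h v x ≠ 0 := by
    intro h0
    apply hb
    rw [← hs v x, h0, map_zero]
  rw [← hT (h v x) (h v v) hb' (hs v v)]
  apply Nat.card_congr
  apply Equiv.subtypeEquivRight
  intro a
  have h3 : h (v + a • x) (v + a • x) = a * h v x + σ (a * h v x) + h v v := by
    simp only [map_add, LinearMap.add_apply, map_smul, LinearMap.map_smulₛₗ, LinearMap.smul_apply,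
      smul_eq_mul, map_mul, hs, hx]
    ring
  rw [h3]

end Pool.Agent.Work.MP_bc729a_al.CG
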