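import Pool.Agent.Work.MP_bc729a_al.CG.Fm

/-! # Module SpI (M): alternating forms

PROOF. `τ = id`, `S v = True`, `c = 1`, `t = |K|`. `B u v = - B v u` (`IsAlt.neg`), `refl`, `nd` from `hn`. `card_t`: all `a : K`. `ex`: a space of dimension `≥ 1` has a vector `≠ 0`. `typ`: the third case.
`ei`: let `b = B y x ≠ 0`, `w = y' - y`, so `B w x = 0 = B x w`. Put `g v = v + b⁻¹ * B v x • w + b⁻¹ * B v w • x - (b⁻¹ ^ 2 * B y w * B v x) • x`. `g x = x` (`B x x = 0`, `B x w = 0`);
`g y = y + w + b⁻¹ B y w x - b⁻¹ B y w x = y'`. `B (g u) (g v) = B u v`: expand, using `B w w = 0`, `B x x = 0`, `B w x = 0`, `B w v = - B v w`, `B x v = - B v x`: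
the extra terms are `b⁻¹ B v x B u w + b⁻¹ B v w B u x + b⁻¹ B u x B w v + b⁻¹ B u w B x v = 0` (the terms with `b⁻¹ ^ 2 * B y w` cancel in the same way). If `B v x = 0` then `g v - v = b⁻¹ B v w • x`, and it is `0` if also `B v w = 0`.
`g` is linear and injective (it preserves the nondegenerate form), so it is bijective (`LinearEquiv.ofInjectiveEndo`). -/

namespace Pool.Agent.Work.MP_bc729a_al.CG

open Module

universe u v

variable {K : Type u} {V : Type v} [Field K] [AddCommGroup V] [Module K V] [Finite K] [Finite V]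

omit [Finite K] [Finite V] in
private theorem sp_aux (B : LinearMap.BilinForm K V) (hB : B.IsAlt) [Module.Finite K V]
    (hn : ∀ u, (∀ v, B u v = 0) → u = 0) (x y y' : V) (hb : B y x ≠ 0) (hy : B y' x = B y x) :
    ∃ g : V ≃ₗ[K] V, (∀ u v, B (g u) (g v) = B u v) ∧ g x = x ∧
      g y = y' ∧ (∀ v, B v x = 0 → g v - v ∈ Submodule.span K {x}) ∧
      (∀ v, B v x = 0 → B v (y' - y) = 0 → g v = v) := by
  obtain ⟨b, hbdef⟩ : ∃ b, b = B y x := ⟨_, rfl⟩
  obtain ⟨w, hw⟩ : ∃ w, w = y' - y := ⟨_, rfl⟩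
  have hb0 : b ≠ 0 := by rw [hbdef]; exact hb
  have hneg : ∀ u v, B u v = - B v u := fun u v => (LinearMap.BilinForm.IsAlt.neg_eq hB v u).symm
  have hself : ∀ u, B u u = 0 := fun u => hB u
  have hwx : B w x = 0 := by
    rw [hw, map_sub, LinearMap.sub_apply, hy, sub_self]
  have hxw : B x w = 0 := by rw [hneg, hwx, neg_zero]
  let g0 : V →ₗ[K] V :=
    { toFun := fun v => v + (b⁻¹ * B v x) • w + (b⁻¹ * B v w - b⁻¹ ^ 2 * B y w * B v x) • x
      map_add' := by
        intro u v
        simp only [map_add, LinearMap.add_apply]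
        module
      map_smul' := by
        intro a v
        simp only [map_smul, LinearMap.smul_apply, smul_eq_mul, RingHom.id_apply]
        module }
  have hg0 : ∀ v, g0 v = v + (b⁻¹ * B v x) • w + (b⁻¹ * B v w - b⁻¹ ^ 2 * B y w * B v x) • x :=
    fun _ => rfl
  have hiso : ∀ u v, B (g0 u) (g0 v) = B u v := by
    intro u v
    rw [hg0, hg0]
    simp only [map_add, LinearMap.add_apply, map_smul, LinearMap.smul_apply, smul_eq_mul, hself,
      hwx, hxw]
    rw [hneg w v, hneg x v]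
    ring
  have hinj : Function.Injective g0 := by
    rw [← LinearMap.ker_eq_bot, LinearMap.ker_eq_bot']
    intro u hu
    apply hn
    intro v
    rw [← hiso, hu, map_zero, LinearMap.zero_apply]
  let g := LinearEquiv.ofInjectiveEndo g0 hinj
  have hg : ∀ v, g v = v + (b⁻¹ * B v x) • w + (b⁻¹ * B v w - b⁻¹ ^ 2 * B y w * B v x) • x :=
    fun _ => rfl
  refine ⟨g, hiso, ?_, ?_, ?_, ?_⟩
  · rw [hg, hself, hxw]
    simp
  · rw [hg, ← hbdef]
    have h1 : b⁻¹ * b = 1 := inv_mul_cancel₀ hb0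
    have h2 : b⁻¹ * B y w - b⁻¹ ^ 2 * B y w * b = 0 := by
      have : b⁻¹ ^ 2 * B y w * b = b⁻¹ * B y w * (b⁻¹ * b) := by ring
      rw [this, h1]
      ring
    rw [h1, h2, one_smul, zero_smul, add_zero, hw]
    abel
  · intro v hv
    rw [hg, hv, Submodule.mem_span_singleton]
    refine ⟨b⁻¹ * B v w - b⁻¹ ^ 2 * B y w * 0, ?_⟩
    simp only [mul_zero, zero_smul, add_zero]
    abel
  · intro v hv hv2
    rw [← hw] at hv2
    rw [hg, hv, hv2]
    simp

theorem exists_sp (B : LinearMap.BilinForm K V) (hB : B.IsAlt)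
    (hn : ∀ u, (∀ v, B u v = 0) → u = 0) :
    ∃ Φ : PS K V, (∀ u v, Φ.B u v = B u v) ∧ (∀ v, Φ.S v) ∧ Φ.c = 1 ∧ Φ.t = Nat.card K := by
  have hfin : Module.Finite K V := inferInstance
  have hneg : ∀ u v, B u v = - B v u := fun u v => (LinearMap.BilinForm.IsAlt.neg_eq hB v u).symm
  refine ⟨{
    τ := RingHom.id K
    B := fun u v => B u v
    S := fun _ => True
    c := 1
    t := Nat.card K
    tau_tau := fun _ => rfl
    add_left := fun u v w => by rw [map_add, LinearMap.add_apply]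
    smul_left := fun a u v => by rw [map_smul, LinearMap.smul_apply, smul_eq_mul]
    add_right := fun u v w => by rw [map_add]
    smul_right := fun a u v => by rw [map_smul, smul_eq_mul, RingHom.id_apply]
    refl := fun u v h => by rw [hneg, h, neg_zero]
    nd := hn
    S_zero := trivial
    S_smul := fun _ _ _ => trivial
    S_add := fun _ _ _ _ _ => trivial
    S_B := fun v _ => hB v
    S_odd := fun _ _ _ => trivial
    card_t := ?_
    ex := ?_
    typ := Or.inr (Or.inr ⟨rfl, rfl⟩)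
    ei := ?_ }, fun _ _ => rfl, fun _ => trivial, rfl, rfl⟩
  · intro x v _ _
    exact Nat.card_congr (Equiv.subtypeUnivEquiv fun _ => trivial)
  · intro W hW
    have hne : W ≠ ⊥ := by
      intro h
      rw [h, finrank_bot] at hW
      omega
    obtain ⟨v, hv, hv0⟩ := Submodule.exists_mem_ne_zero_of_ne_bot hne
    exact ⟨v, hv, hv0, trivial⟩
  · intro x y y' _ _ _ hb hy
    obtain ⟨g, h1, h2, h3, h4, h5⟩ := sp_aux B hB hn x y y' hb hy
    exact ⟨g, h1, fun _ => Iff.rfl, h2, h3, h4, h5⟩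

end Pool.Agent.Work.MP_bc729a_al.CG
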