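import Pool.Agent.Work.MP_bc729a_al.CG.Fm
import Pool.Agent.Work.MP_bc729a_al.CG.Tst

/-! # Module SuD (S): determinants of unipotent elements

PROOF. `p` the characteristic (`CharP.exists`, prime as `K` is finite). `g ^ (p ^ 2) = 1` (`IsU.pow`), so `d ^ (p ^ 2) = 1` for `d = det g`, so `(d - 1) ^ (p ^ 2) = 0` in `K` (`sub_pow_char_pow`), `d = 1`. -/

namespace Pool.Agent.Work.MP_bc729a_al.CG

open Module

universe u v

variable {K : Type u} {V : Type v} [Field K] [AddCommGroup V] [Module K V] [Finite K] [Finite V]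

namespace PS

variable {Φ : PS K V}

theorem IsU.det {x : Submodule K V} {g : V ≃ₗ[K] V} (hg : Φ.IsU x g) :
    LinearEquiv.det g = 1 := by
  obtain ⟨p, hp⟩ := CharP.exists K
  haveI : CharP K p := hp
  haveI : Fact p.Prime := ⟨CharP.char_is_prime K p⟩
  have h1 : g ^ (p ^ 2) = 1 := IsU.pow hg
  have h2 : (LinearEquiv.det g) ^ (p ^ 2) = 1 := by rw [← map_pow, h1, map_one]
  have h3 : ((LinearEquiv.det g : Kˣ) : K) ^ (p ^ 2) = 1 := by
    rw [← Units.val_pow_eq_pow_val, h2, Units.val_one]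
  have h4 : (((LinearEquiv.det g : Kˣ) : K) - 1) ^ (p ^ 2) = 0 := by
    rw [sub_pow_char_pow, h3, one_pow, sub_self]
  have h5 := eq_zero_of_pow_eq_zero h4
  apply Units.ext
  rw [Units.val_one]
  exact sub_eq_zero.1 h5

end PS

end Pool.Agent.Work.MP_bc729a_al.CG
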