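import Pool.Agent.Work.MP_bc729a_al.CG.PMain
import Pool.Agent.Work.MP_bc729a_al.CG.SpI
import Pool.Agent.Work.MP_bc729a_al.CG.HeI
import Pool.Agent.Work.MP_bc729a_al.CG.OrI
import Pool.Agent.Work.MP_bc729a_al.CG.OrC
import Pool.Agent.Work.MP_bc729a_al.CG.SuD

/-! # The theorem for symplectic, unitary and orthogonal groups -/

namespace Pool.Agent.Work.MP_bc729a_al.CG

open Module

universe u v w

variable {K : Type u} {V : Type v} [Field K] [AddCommGroup V] [Module K V] [Finite K] [Finite V]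

theorem no_sp (B : LinearMap.BilinForm K V) (hB : B.IsAlt)
    (hn : ∀ u, (∀ v, B u v = 0) → u = 0) (hd : 5 ≤ finrank K V)
    (G : Type w) [Group G] [Finite G] (hG : MaxCompl G)
    (h : IsCompFactor (↥(SpB B) ⧸ Subgroup.center ↥(SpB B)) G) : False := by
  obtain ⟨Φ, h1, h2, h3, h4⟩ := exists_sp B hB hn
  have hD : Φ.Grp (SpB B) := by
    constructor
    · intro g hg
      refine ⟨fun u v => ?_, fun v => ⟨fun _ => h2 _, fun _ => h2 _⟩⟩
      rw [h1, h1]
      exact hg u v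
    · intro x _ g hg u v
      rw [← h1, ← h1]
      exact hg.1.1 u v
  refine PS.no_factor hD (by omega) ?_ G hG h
  rintro ⟨h5, -⟩
  have h6 : 1 < Nat.card K := Finite.one_lt_card
  omega

theorem no_herm {σ : K →+* K} (f : V →ₛₗ[σ] V →ₗ[K] K) (h2 : ∀ a, σ (σ a) = a)
    (h1 : ∃ a, σ a ≠ a) (hs : ∀ u v, σ (f u v) = f v u)
    (hn : ∀ u, (∀ v, f u v = 0) → u = 0) (hd : 6 ≤ finrank K V)
    (G : Type w) [Group G] [Finite G] (hG : MaxCompl G)
    (h : IsCompFactor (↥(SUh f) ⧸ Subgroup.center ↥(SUh f)) G) : False := by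
  obtain ⟨Φ, h3, h4, h5, h6⟩ := exists_herm f h2 h1 hs hn
  have hD : Φ.Grp (SUh f) := by
    constructor
    · intro g hg
      refine ⟨fun u v => ?_, fun v => ?_⟩
      · rw [h3, h3]
        exact hg.1 v u
      · rw [h4, h4, hg.1 v v]
    · intro x _ g hg
      refine ⟨fun u v => ?_, PS.IsU.det hg⟩
      rw [← h3, ← h3]
      exact hg.1.1 v u
  refine PS.no_factor hD (by omega) ?_ G hG h
  rintro ⟨h7, -⟩
  have h8 : 1 < Nat.card K := Finite.one_lt_card
  rw [h7] at h6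
  omega

theorem no_orth (Q : QuadraticForm K V)
    (hn : ∀ u, (∀ v, QuadraticMap.polar Q u v = 0) → u = 0) (hd : 7 ≤ finrank K V)
    (h8 : ¬ (finrank K V = 8 ∧ ∃ E : Submodule K V, finrank K E = 4 ∧ ∀ v ∈ E, Q v = 0))
    (G : Type w) [Group G] [Finite G] (hG : MaxCompl G)
    (h : IsCompFactor (↥⁅OQ Q, OQ Q⁆ ⧸ Subgroup.center ↥⁅OQ Q, OQ Q⁆) G) : False := by
  obtain ⟨Φ, h3, h4, h5, h6⟩ := exists_orth Q hn
  have hD : Φ.Grp ⁅OQ Q, OQ Q⁆ := by
    constructor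
    · have h7 : OQ Q ≤ Φ.Iso := by
        intro g hg
        refine ⟨fun u v => ?_, fun v => ?_⟩
        · rw [h3, h3, QuadraticMap.polar, QuadraticMap.polar, ← map_add, hg, hg, hg]
        · rw [h4, h4, hg]
      rw [Subgroup.commutator_le]
      intro a ha b hb
      exact Subgroup.mul_mem _ (Subgroup.mul_mem _ (Subgroup.mul_mem _ (h7 ha) (h7 hb))
        (Subgroup.inv_mem _ (h7 ha))) (Subgroup.inv_mem _ (h7 hb))
    · intro x hx
      exact PS.UU_le_Om h3 h4 (by omega) hx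
  refine PS.no_factor hD (by omega) ?_ G hG h
  rintro ⟨-, h9, E, hE, h10⟩
  exact h8 ⟨h9, E, h10, fun v hv => (h4 v).1 (hE.1 v hv)⟩

end Pool.Agent.Work.MP_bc729a_al.CG
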