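import Pool.Agent.Work.MP_bc729a_al.CG.Defs

/-! # Basic facts on singular points and perpendicular spaces -/

namespace Pool.Agent.Work.MP_bc729a_al.CG

open Module

universe u v

variable {K : Type u} {V : Type v} [Field K] [AddCommGroup V] [Module K V]

namespace PS

variable (Φ : PS K V)

theorem B_zero_left (v : V) : Φ.B 0 v = 0 := by
  have h := Φ.smul_left 0 0 v
  rwa [zero_smul, zero_mul] at h

theorem B_zero_right (v : V) : Φ.B v 0 = 0 := by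
  have h := Φ.smul_right 0 v 0
  rwa [zero_smul, map_zero, zero_mul] at h

theorem B_neg_left (u v : V) : Φ.B (-u) v = -Φ.B u v := by
  have h := Φ.smul_left (-1) u v
  rwa [neg_one_smul, neg_one_mul] at h

theorem B_neg_right (u v : V) : Φ.B u (-v) = -Φ.B u v := by
  have h := Φ.smul_right (-1) u v
  rwa [neg_one_smul, map_neg, map_one, neg_one_mul] at h

theorem B_sub_left (u v w : V) : Φ.B (u - v) w = Φ.B u w - Φ.B v w := by
  rw [sub_eq_add_neg, Φ.add_left, Φ.B_neg_left, ← sub_eq_add_neg]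

theorem B_sub_right (u v w : V) : Φ.B u (v - w) = Φ.B u v - Φ.B u w := by
  rw [sub_eq_add_neg, Φ.add_right, Φ.B_neg_right, ← sub_eq_add_neg]

theorem B_comm_zero {u v : V} : Φ.B u v = 0 ↔ Φ.B v u = 0 := ⟨Φ.refl u v, Φ.refl v u⟩

theorem tau_ne_zero {a : K} : Φ.τ a ≠ 0 ↔ a ≠ 0 := by
  constructor
  · rintro h rfl
    exact h (map_zero _)
  · intro h h'
    apply h
    rw [← Φ.tau_tau a, h', map_zero]

theorem S_neg {v : V} (h : Φ.S v) : Φ.S (-v) := by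
  have h1 := Φ.S_smul (-1) v h
  rwa [neg_one_smul] at h1

theorem S_smul_iff {a : K} (ha : a ≠ 0) {v : V} : Φ.S (a • v) ↔ Φ.S v := by
  refine ⟨fun h => ?_, Φ.S_smul a v⟩
  have h1 := Φ.S_smul a⁻¹ _ h
  rwa [smul_smul, inv_mul_cancel₀ ha, one_smul] at h1

theorem S_sub {u v : V} (hu : Φ.S u) (hv : Φ.S v) (h : Φ.B u v = 0) : Φ.S (u - v) := by
  rw [sub_eq_add_neg]
  apply Φ.S_add _ _ hu (Φ.S_neg hv)
  rw [Φ.B_neg_right, h, neg_zero]

theorem t_pos [Finite K] : 0 < Φ.t := by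
  have h : 1 < Nat.card K := Finite.one_lt_card
  rcases Φ.typ with ⟨-, h1⟩ | ⟨-, h1⟩ | ⟨-, h1⟩
  · omega
  · rcases Nat.eq_zero_or_pos Φ.t with h2 | h2
    · rw [h2] at h1
      omega
    · exact h2
  · omega

theorem one_le_c : 1 ≤ Φ.c := by
  rcases Φ.typ with ⟨h, -⟩ | ⟨h, -⟩ | ⟨h, -⟩ <;> omega

theorem c_le : Φ.c ≤ 3 := by
  rcases Φ.typ with ⟨h, -⟩ | ⟨h, -⟩ | ⟨h, -⟩ <;> omega

theorem exists_S [Finite K] {x v : V} (hx : Φ.S x) (h : Φ.B v x ≠ 0) : ∃ a : K, Φ.S (v + a • x) := by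
  have h1 := Φ.card_t x v hx h
  have h2 : Nat.card {a : K // Φ.S (v + a • x)} ≠ 0 := by
    rw [h1]
    exact Φ.t_pos.ne'
  obtain ⟨⟨a, ha⟩⟩ := (Nat.card_ne_zero.1 h2).1
  exact ⟨a, ha⟩

theorem orth_anti {U W : Submodule K V} (h : U ≤ W) : Φ.orth W ≤ Φ.orth U :=
  fun _ hv _ hu => hv _ (h hu)

theorem le_orth_comm {U W : Submodule K V} : U ≤ Φ.orth W ↔ W ≤ Φ.orth U :=
  ⟨fun h w hw _ hu => Φ.refl _ _ (h hu w hw), fun h u hu _ hw => Φ.refl _ _ (h hw u hu)⟩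

theorem orth_sup (U W : Submodule K V) : Φ.orth (U ⊔ W) = Φ.orth U ⊓ Φ.orth W := by
  apply le_antisymm
  · exact le_inf (Φ.orth_anti le_sup_left) (Φ.orth_anti le_sup_right)
  · rintro v ⟨h1, h2⟩ w hw
    obtain ⟨a, ha, b, hb, rfl⟩ := Submodule.mem_sup.1 hw
    rw [Φ.add_right, h1 a ha, h2 b hb, add_zero]

theorem orth_bot : Φ.orth ⊥ = ⊤ := by
  rw [eq_top_iff]
  rintro v - w hw
  rw [(Submodule.mem_bot K).1 hw, Φ.B_zero_right]

theorem orth_top : Φ.orth ⊤ = ⊥ := by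
  rw [eq_bot_iff]
  intro v hv
  exact (Submodule.mem_bot K).2 (Φ.nd v fun w => hv w trivial)

theorem mem_orth_span {u v : V} : v ∈ Φ.orth (Submodule.span K {u}) ↔ Φ.B v u = 0 := by
  constructor
  · intro h
    exact h u (Submodule.mem_span_singleton_self u)
  · intro h w hw
    obtain ⟨a, rfl⟩ := Submodule.mem_span_singleton.1 hw
    rw [Φ.smul_right, h, mul_zero]

theorem span_le_orth {u v : V} :
    Submodule.span K {v} ≤ Φ.orth (Submodule.span K {u}) ↔ Φ.B v u = 0 := by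
  rw [Submodule.span_singleton_le_iff_mem, mem_orth_span]

theorem span_le_orth' {W : Submodule K V} {v : V} :
    Submodule.span K {v} ≤ Φ.orth W ↔ ∀ w ∈ W, Φ.B v w = 0 := by
  rw [Submodule.span_singleton_le_iff_mem, mem_orth]

variable {Φ}

theorem isPt_span {v : V} (h0 : v ≠ 0) (h : Φ.S v) : Φ.IsPt (Submodule.span K {v}) :=
  ⟨v, h0, h, rfl⟩

theorem IsPt.finrank {x : Submodule K V} (h : Φ.IsPt x) : finrank K x = 1 := by
  obtain ⟨v, hv, -, rfl⟩ := h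
  exact finrank_span_singleton hv

theorem IsPt.S {x : Submodule K V} (h : Φ.IsPt x) {v : V} (hv : v ∈ x) : Φ.S v := by
  obtain ⟨w, -, hw, rfl⟩ := h
  obtain ⟨a, rfl⟩ := Submodule.mem_span_singleton.1 hv
  exact Φ.S_smul a w hw

theorem IsPt.eq_span {x : Submodule K V} (h : Φ.IsPt x) {v : V} (hv : v ∈ x) (h0 : v ≠ 0) :
    x = Submodule.span K {v} := by
  obtain ⟨w, -, -, rfl⟩ := h
  obtain ⟨a, rfl⟩ := Submodule.mem_span_singleton.1 hv
  have ha : a ≠ 0 := by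
    rintro rfl
    exact h0 (zero_smul _ _)
  apply le_antisymm
  · rw [Submodule.span_singleton_le_iff_mem, Submodule.mem_span_singleton]
    exact ⟨a⁻¹, by rw [smul_smul, inv_mul_cancel₀ ha, one_smul]⟩
  · rw [Submodule.span_singleton_le_iff_mem]
    exact hv

theorem IsPt.exists {x : Submodule K V} (h : Φ.IsPt x) : ∃ v ∈ x, v ≠ 0 := by
  obtain ⟨w, hw, -, rfl⟩ := h
  exact ⟨w, Submodule.mem_span_singleton_self w, hw⟩

theorem IsPt.ne_bot {x : Submodule K V} (h : Φ.IsPt x) : x ≠ ⊥ := by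
  obtain ⟨v, hv, h0⟩ := h.exists
  rintro rfl
  exact h0 ((Submodule.mem_bot K).1 hv)

theorem IsPt.self {x : Submodule K V} (h : Φ.IsPt x) : x ≤ Φ.orth x := by
  obtain ⟨w, -, hw, rfl⟩ := h
  rw [span_le_orth]
  exact Φ.S_B w hw

theorem IsPt.ts {x : Submodule K V} (h : Φ.IsPt x) : Φ.TS x := ⟨fun _ hv => h.S hv, h.self⟩

theorem IsPt.le_of_mem {x W : Submodule K V} (h : Φ.IsPt x) {v : V} (hv : v ∈ x) (h0 : v ≠ 0)
    (hW : v ∈ W) : x ≤ W := by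
  rw [h.eq_span hv h0, Submodule.span_singleton_le_iff_mem]
  exact hW

/-- two points which meet are equal -/
theorem IsPt.eq_of_le {x y : Submodule K V} (h : Φ.IsPt x) (h' : Φ.IsPt y) (hxy : x ≤ y) :
    x = y := by
  obtain ⟨v, hv, h0⟩ := h.exists
  rw [h.eq_span hv h0, h'.eq_span (hxy hv) h0]

theorem IsPt.inf_eq_bot {x W : Submodule K V} (h : Φ.IsPt x) (hW : ¬ x ≤ W) : x ⊓ W = ⊥ := by
  rw [eq_bot_iff]
  rintro v ⟨hv, hvW⟩
  rw [Submodule.mem_bot]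
  by_contra h0
  exact hW (h.le_of_mem hv h0 hvW)

theorem IsPt.map {x : Submodule K V} (h : Φ.IsPt x) {g : V ≃ₗ[K] V} (hg : g ∈ Φ.Iso) :
    Φ.IsPt (x.map (g : V →ₗ[K] V)) := by
  obtain ⟨w, hw0, hw, rfl⟩ := h
  refine ⟨g w, ?_, (hg.2 w).2 hw, ?_⟩
  · intro h
    exact hw0 ((LinearEquiv.map_eq_zero_iff g).1 h)
  · rw [Submodule.map_span, Set.image_singleton]
    rfl

theorem orth_map {W : Submodule K V} {g : V ≃ₗ[K] V} (hg : g ∈ Φ.Iso) :
    Φ.orth (W.map (g : V →ₗ[K] V)) = (Φ.orth W).map (g : V →ₗ[K] V) := by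
  ext v
  constructor
  · intro h
    refine ⟨g.symm v, ?_, g.apply_symm_apply v⟩
    intro w hw
    have h1 := h (g w) ⟨w, hw, rfl⟩
    rw [← hg.1 (g.symm v) w, g.apply_symm_apply]
    exact h1
  · rintro ⟨u, hu, rfl⟩ _ ⟨w, hw, rfl⟩
    exact (hg.1 u w).trans (hu w hw)

theorem map_le_map {U W : Submodule K V} {g : V ≃ₗ[K] V} :
    U.map (g : V →ₗ[K] V) ≤ W.map (g : V →ₗ[K] V) ↔ U ≤ W := by
  constructor
  · intro h u hu
    obtain ⟨w, hw, hwu⟩ := h ⟨u, hu, rfl⟩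
    have : w = u := g.injective hwu
    rwa [← this]
  · exact fun h => Submodule.map_mono h

theorem map_le_orth_map {U W : Submodule K V} {g : V ≃ₗ[K] V} (hg : g ∈ Φ.Iso) :
    U.map (g : V →ₗ[K] V) ≤ Φ.orth (W.map (g : V →ₗ[K] V)) ↔ U ≤ Φ.orth W := by
  rw [orth_map hg, map_le_map]

theorem TS.map {W : Submodule K V} (h : Φ.TS W) {g : V ≃ₗ[K] V} (hg : g ∈ Φ.Iso) :
    Φ.TS (W.map (g : V →ₗ[K] V)) := by
  refine ⟨?_, (map_le_orth_map hg).2 h.2⟩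
  rintro _ ⟨w, hw, rfl⟩
  exact (hg.2 w).2 (h.1 w hw)

theorem TS.mono {U W : Submodule K V} (h : Φ.TS W) (hU : U ≤ W) : Φ.TS U :=
  ⟨fun v hv => h.1 v (hU hv), hU.trans (h.2.trans (Φ.orth_anti hU))⟩

theorem TS.isPt {W : Submodule K V} (h : Φ.TS W) {v : V} (hv : v ∈ W) (h0 : v ≠ 0) :
    Φ.IsPt (Submodule.span K {v}) := isPt_span h0 (h.1 v hv)

theorem TS.sup {U W : Submodule K V} (hU : Φ.TS U) (hW : Φ.TS W) (h : U ≤ Φ.orth W) :
    Φ.TS (U ⊔ W) := by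
  constructor
  · intro v hv
    obtain ⟨a, ha, b, hb, rfl⟩ := Submodule.mem_sup.1 hv
    exact Φ.S_add a b (hU.1 a ha) (hW.1 b hb) (h ha b hb)
  · rw [Φ.orth_sup]
    exact sup_le (le_inf hU.2 h) (le_inf (Φ.le_orth_comm.1 h) hW.2)

theorem finrank_map_eq {W : Submodule K V} {g : V ≃ₗ[K] V} :
    finrank K (W.map (g : V →ₗ[K] V)) = finrank K W :=
  LinearEquiv.finrank_map_eq g W

end PS

theorem finite_aut [Finite V] : Finite (V ≃ₗ[K] V) :=
  Finite.of_injective (fun g : V ≃ₗ[K] V => (g : V → V)) DFunLike.coe_injective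

theorem finite_PG [Finite V] (D : Subgroup (V ≃ₗ[K] V)) : Finite ↥(PG D) := by
  have := finite_aut (K := K) (V := V)
  exact Finite.of_surjective (fun g : D => (⟨lat K V g.1, g.1, g.2, rfl⟩ : ↥(PG D))) (by
    rintro ⟨_, g, hg, rfl⟩
    exact ⟨⟨g, hg⟩, rfl⟩)

end Pool.Agent.Work.MP_bc729a_al.CG
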