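import Pool.Agent.Work.MP_bc729a_al.CG.Rix
import Pool.Agent.Work.MP_bc729a_al.CG.StbB

/-! # Module Bet (M): automorphisms act on the points

PROOF. For a point `x` the subgroup `(stE D x).map α` has index `(stE D x).index = pn ⊤` (`index_pt`), so it is `stE D y` for a point `y` (`eq_stE`), unique by `stE_inj`; `β x = y`. `β` is injective (`Subgroup.map_injective`, `stE_inj`), `Φ.Pt` is finite, so `β` is
a permutation. Perpendicularity: if `x = y` both sides hold (`IsPt.self`). If `x ≠ y` then `β x ≠ β y` and `opp_iff` (with `le_orth_comm`), as `relIndex` is preserved by the automorphism `α` (`Subgroup.relIndex_map_map_of_injective` or similar).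
Last statement: `s.1 x = y` gives `stE D y = (stE D x).map (conj s)` (`stE_conj`), apply `α`: `stE D (β y) = (stE D (β x)).map (conj (α s)) = stE D ((α s).1 (β x))`, and `(α s).1 (β x)` is a point (`exists_toPG`, `IsPt.map`); `stE_inj`. -/

namespace Pool.Agent.Work.MP_bc729a_al.CG

open Module

universe u v

variable {K : Type u} {V : Type v} [Field K] [AddCommGroup V] [Module K V] [Finite K] [Finite V]

namespace PS

variable {Φ : PS K V}

theorem exists_beta {D : Subgroup (V ≃ₗ[K] V)} (hD : Φ.Grp D) [IsSimpleGroup ↥(PG D)] {p : ℕ}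
    [Fact p.Prime] [CharP K p] (hc : Φ.c + 4 ≤ finrank K V)
    (hI : ∀ E, Φ.TS E → 2 ≤ finrank K E → Φ.pn ⊤ < Φ.bn D ⊤ E) (α : MulAut ↥(PG D)) :
    ∃ β : Equiv.Perm Φ.Pt,
      (∀ x y : Φ.Pt, (β x).1 ≤ Φ.orth (β y).1 ↔ x.1 ≤ Φ.orth y.1) ∧
      (∀ x : Φ.Pt, (stE D x.1).map α.toMonoidHom = stE D (β x).1) ∧
      ∀ (s : ↥(PG D)) (x y : Φ.Pt), s.1 x.1 = y.1 → (α s).1 (β x).1 = (β y).1 := by
  have h3 : 3 ≤ finrank K V := by
    have := Φ.one_le_c
    omega
  have hex : ∀ x : Φ.Pt, ∃ y : Φ.Pt, (stE D x.1).map α.toMonoidHom = stE D y.1 := by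
    intro x
    have h1 : ((stE D x.1).map α.toMonoidHom).index = Φ.pn ⊤ := by
      rw [← index_pt hD h3 x.2]
      exact Subgroup.index_map_equiv _ α
    obtain ⟨y, hy, e⟩ := eq_stE (p := p) hD hc hI h1
    exact ⟨⟨y, hy⟩, e⟩
  choose f hf using hex
  have hinj : Function.Injective f := by
    intro x x' h
    have h1 : (stE D x.1).map α.toMonoidHom = (stE D x'.1).map α.toMonoidHom := by
      rw [hf, hf, h]
    have h2 := Subgroup.map_injective α.injective h1
    exact Subtype.ext (stE_inj hD h3 x.2 x'.2 h2.le)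
  have hbij : Function.Bijective f := Finite.injective_iff_bijective.1 hinj
  refine ⟨Equiv.ofBijective f hbij, ?_, hf, ?_⟩
  · intro x y
    change (f x).1 ≤ Φ.orth (f y).1 ↔ x.1 ≤ Φ.orth y.1
    by_cases hxy : x = y
    · subst hxy
      exact ⟨fun _ => x.2.self, fun _ => (f x).2.self⟩
    · have h1 : y.1 ≠ x.1 := fun h => hxy (Subtype.ext h.symm)
      have h2 : (f y).1 ≠ (f x).1 := fun h => hxy (hinj (Subtype.ext h.symm))
      have e1 := opp_iff (p := p) hD hc y.2 x.2 h1
      have e2 := opp_iff (p := p) hD hc (f y).2 (f x).2 h2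
      have e3 : (stE D (f x).1).relIndex (stE D (f y).1) =
          (stE D x.1).relIndex (stE D y.1) := by
        rw [← hf, ← hf]
        exact Subgroup.relIndex_map_map_of_injective _ _ α.injective
      rw [e3] at e2
      exact not_iff_not.1 (e2.trans e1.symm)
  · intro s x y h
    change (α s).1 (f x).1 = (f y).1
    have h1 : stE D (f y).1 = stE D ((α s).1 (f x).1) := by
      rw [← stE_conj, ← hf x, ← hf y, ← h, ← stE_conj, Subgroup.map_map, Subgroup.map_map]
      congr 1
      ext t : 1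
      simp
    obtain ⟨g, hg, e⟩ := exists_toPG (α s)
    have hP : Φ.IsPt ((α s).1 (f x).1) := by
      rw [e]
      exact (f x).2.map (hD.le hg)
    exact (stE_inj hD h3 (f y).2 hP h1.le).symm

end PS

end Pool.Agent.Work.MP_bc729a_al.CG
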