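import Pool.Agent.Work.MP_bc729a_al.CG.Brec

/-! # Module BnA (S-M): there are at least as many images of a totally singular space as points, I

PROOF. Induction on `k = finrank E ≥ 1`, `w = finrank W`, `Q = |K| ≥ 2`; `2 k ≤ w` (`ts_dim`). `k = 1`: `E` is a point (`TS.isPt`), `bn_pt` (`w ≥ 3` or `t = Q ≥ 2`). `k ≥ 2`: `x, y` from `exists_opp_in`, `W'`, `E'` as in `dsc`,
`finrank W' = w - 2`, `finrank E' = k - 1`, so the induction hypothesis applies: `pn W' ≤ bn D W' E'`. `pn_ge` for `E' ≤ W'` and `pn_succ`: `pn W' ≥ pn E' + t Q ^ (w - 4)` and `pn E = pn E' + Q ^ (k - 1)`.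
`t Q ^ (w - 4) ≥ Q ^ (k - 1)`: if `w ≥ 2 k + 1`, `w - 4 ≥ k - 1`, `t ≥ 1`; if `t = Q`, `w ≥ 2 k`, `1 + (w - 4) ≥ 2 k - 3 ≥ k - 1`. So `pn E ≤ pn W' ≤ bn D W' E'` and `bn_rec`:
`pn W * pn E ≤ pn W * bn D W' E' ≤ bn D W E * pn E`; divide by `pn E > 0` (`pn_pos_of`). -/

namespace Pool.Agent.Work.MP_bc729a_al.CG

open Module

universe u v

variable {K : Type u} {V : Type v} [Field K] [AddCommGroup V] [Module K V] [Finite K] [Finite V]

namespace PS

variable {Φ : PS K V}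

private theorem bnA_pt {E : Submodule K V} (hE : Φ.TS E) (h : finrank K E = 1) : Φ.IsPt E := by
  obtain ⟨v, hv0, hv⟩ := finrank_eq_one_iff'.1 h
  have h0 : (v : V) ≠ 0 := fun h' => hv0 (Subtype.ext h')
  have h1 : E = Submodule.span K {(v : V)} := by
    apply le_antisymm
    · intro w hw
      obtain ⟨c, hc⟩ := hv ⟨w, hw⟩
      rw [Submodule.mem_span_singleton]
      exact ⟨c, congrArg Subtype.val hc⟩
    · rw [Submodule.span_singleton_le_iff_mem]
      exact v.2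
  exact ⟨v, h0, hE.1 _ v.2, h1⟩

private theorem bnA_step {D : Subgroup (V ≃ₗ[K] V)} (hD : Φ.Grp D) {W E x y : Submodule K V}
    (hW : Φ.ND W) (hd : 3 ≤ finrank K W ∨ 2 ≤ Φ.t) (hE : Φ.TS E) (hEW : E ≤ W)
    (hx : Φ.IsPt x) (hxE : x ≤ E) (hy : Φ.IsPt y) (hyW : y ≤ W) (h : ¬ y ≤ Φ.orth x)
    (h1 : Φ.pn E ≤ Φ.bn D (W ⊓ Φ.orth (x ⊔ y)) (E ⊓ Φ.orth y)) : Φ.pn W ≤ Φ.bn D W E := by
  have h2 := bn_rec hD hW hd hE hEW hx hxE hy hyW h
  have h3 : 0 < Φ.pn E := pn_pos_of hx hxE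
  have h4 : Φ.pn W * Φ.pn E ≤ Φ.bn D W E * Φ.pn E := (Nat.mul_le_mul_left _ h1).trans h2
  exact Nat.le_of_mul_le_mul_right h4 h3

private theorem bnA_aux {D : Subgroup (V ≃ₗ[K] V)} (hD : Φ.Grp D) (k : ℕ) :
    ∀ W E : Submodule K V, finrank K E = k → Φ.ND W → Φ.TS E → E ≤ W → E ≠ ⊥ →
    (2 * finrank K E + 1 ≤ finrank K W ∨ Φ.t = Nat.card K) → Φ.pn W ≤ Φ.bn D W E := by
  have hQ : 1 < Nat.card K := Finite.one_lt_card
  induction k with
  | zero =>
    intro W E hk _ _ _ h0 _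
    exact absurd (Submodule.finrank_eq_zero.1 hk) h0
  | succ k ih =>
    intro W E hk hW hE hEW h0 h
    have hd : 3 ≤ finrank K W ∨ 2 ≤ Φ.t := by
      rcases h with h | h
      · left
        omega
      · right
        omega
    rcases Nat.eq_zero_or_pos k with hk0 | hk0
    · have h1 : finrank K E = 1 := by omega
      exact (bn_pt hD hW hd (bnA_pt hE h1) hEW).ge
    · obtain ⟨x, y, hx, hxE, hy, hyW, hxy⟩ := exists_opp_in hW hE hEW h0
      obtain ⟨hW', hwd, hE', hed, hEW', -⟩ := dsc hW hE hEW hx hxE hy hyW hxy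
      have h0' : E ⊓ Φ.orth y ≠ ⊥ := by
        intro h'
        have h2 : finrank K ↥(E ⊓ Φ.orth y) = 0 := Submodule.finrank_eq_zero.2 h'
        omega
      apply bnA_step hD hW hd hE hEW hx hxE hy hyW hxy
      have h3 := ih _ _ (by omega) hW' hE' hEW' h0' (by
        rcases h with h | h
        · left
          omega
        · exact Or.inr h)
      have h4 := pn_ge hW' hE' hEW' h0'
      have h5 := pn_succ hE hE' hed
      have h6 := ts_dim hW hE hEW
      have h7 : Nat.card K ^ (finrank K E - 1) ≤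
          Φ.t * Nat.card K ^ (finrank K ↥(W ⊓ Φ.orth (x ⊔ y)) - 2) := by
        rcases h with h | h
        · have h8 : Nat.card K ^ (finrank K E - 1) ≤
              Nat.card K ^ (finrank K ↥(W ⊓ Φ.orth (x ⊔ y)) - 2) :=
            Nat.pow_le_pow_right (by omega) (by omega)
          exact h8.trans (Nat.le_mul_of_pos_left _ Φ.t_pos)
        · rw [h, ← pow_succ']
          exact Nat.pow_le_pow_right (by omega) (by omega)
      omega

theorem bn_ge {D : Subgroup (V ≃ₗ[K] V)} (hD : Φ.Grp D) {W E : Submodule K V}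
    (hW : Φ.ND W) (hE : Φ.TS E) (hEW : E ≤ W) (h0 : E ≠ ⊥)
    (h : 2 * finrank K E + 1 ≤ finrank K W ∨ Φ.t = Nat.card K) :
    Φ.pn W ≤ Φ.bn D W E :=
  bnA_aux hD _ W E rfl hW hE hEW h0 h

end PS

end Pool.Agent.Work.MP_bc729a_al.CG
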