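import Pool.Agent.Work.MP_bc729a_al.CG.Dsc
import Pool.Agent.Work.MP_bc729a_al.CG.TrnA

/-! # Module Brec (M): counting images of totally singular subspaces

Call `𝓕` the set of all `E.map g`, `g ∈ D`, `g` fixing the vectors of `orth W`, so `bn D W E = |𝓕|`.
`bn_pos`: `E ∈ 𝓕`. `bn_pt`: by `trans_pt` `𝓕` (for `E = x`) is the set of all points of `W` (if `g ∈ D ≤ Iso` fixes the vectors of `orth W` then `W.map g = W`, as `W = orth (orth W)` and `orth_map`).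
PROOF of `bn_rec`. Count the pairs `(z, F)`, `F ∈ 𝓕`, `z` a point, `z ≤ F`. For given `F = E.map g` the points `z ≤ F` are the images of the points of `E`: there are `pn E` of them, so the number of pairs is
`bn D W E * pn E`. Now let `z ≤ W` be a point. By `trans_pt` there is `g ∈ D` fixing the vectors of `orth W` with `x.map g = z`; `F ↦ F.map g` is a bijection of `𝓕` to itself, so the number of `F ∈ 𝓕` with
`z ≤ F` is the number `m` of `F ∈ 𝓕` with `x ≤ F`. So the number of pairs is at least `pn W * m`. Let `W' = W ⊓ orth (x ⊔ y)`, `E' = E ⊓ orth y`; `m ≥ bn D W' E'`: if `F' = E'.map g`, `g ∈ D` fixing the vectors of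
`orth W' = orth W ⊔ (x ⊔ y)` (`orth_inf`, `orth_orth`), then `g` fixes the vectors of `orth W`, of `x` and of `y`, `x ⊔ F' = (x ⊔ E').map g = E.map g ∈ 𝓕` (`dsc`), and `F'` is determined by `x ⊔ F'`:
`F' ≤ orth y` (`E' ≤ orth y`, `y.map g = y`), so `(x ⊔ F') ⊓ orth y = (x ⊓ orth y) ⊔ F' = F'` (modular law, `IsPt.inf_eq_bot`). -/

namespace Pool.Agent.Work.MP_bc729a_al.CG

open Module

universe u v

variable {K : Type u} {V : Type v} [Field K] [AddCommGroup V] [Module K V] [Finite K] [Finite V]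

namespace PS

variable {Φ : PS K V}

omit [Finite K] in
private theorem brec_finite : Finite (Submodule K V) :=
  Finite.of_injective (fun U : Submodule K V => (U : Set V)) SetLike.coe_injective

omit [Finite K] [Finite V] in
private theorem brec_map_fix {U : Submodule K V} {g : V ≃ₗ[K] V} (h : ∀ v ∈ U, g v = v) :
    U.map (g : V →ₗ[K] V) = U := by
  apply le_antisymm
  · rintro _ ⟨u, hu, rfl⟩
    change g u ∈ U
    rw [h u hu]
    exact hu
  · intro u hu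
    exact ⟨u, hu, h u hu⟩

private theorem brec_map_W {W : Submodule K V} {g : V ≃ₗ[K] V} (hg : g ∈ Φ.Iso)
    (h : ∀ v ∈ Φ.orth W, g v = v) : W.map (g : V →ₗ[K] V) = W := by
  have h1 := orth_map (W := Φ.orth W) hg
  rw [brec_map_fix h, orth_orth] at h1
  exact h1.symm

omit [Finite K] [Finite V] in
private theorem brec_inv (U : Submodule K V) (g : V ≃ₗ[K] V) :
    (U.map ((g⁻¹ : V ≃ₗ[K] V) : V →ₗ[K] V)).map (g : V →ₗ[K] V) = U := by
  rw [← Submodule.map_comp]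
  have e : (g : V →ₗ[K] V).comp ((g⁻¹ : V ≃ₗ[K] V) : V →ₗ[K] V) = LinearMap.id := by
    ext v
    exact g.apply_symm_apply v
  rw [e, Submodule.map_id]

omit [Finite K] [Finite V] in
private theorem brec_mul (U : Submodule K V) (g h : V ≃ₗ[K] V) :
    U.map ((g * h : V ≃ₗ[K] V) : V →ₗ[K] V) = (U.map (h : V →ₗ[K] V)).map (g : V →ₗ[K] V) := by
  rw [← Submodule.map_comp]
  rfl

theorem bn_pos {D : Subgroup (V ≃ₗ[K] V)} {W E : Submodule K V} : 0 < Φ.bn D W E := by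
  have hfin := brec_finite (K := K) (V := V)
  have hne : Nonempty {F : Submodule K V // ∃ g ∈ D, (∀ v ∈ Φ.orth W, g v = v) ∧
      E.map (g : V →ₗ[K] V) = F} := ⟨⟨E, 1, D.one_mem, fun _ _ => rfl, Submodule.map_id E⟩⟩
  exact Nat.card_pos

theorem bn_pt {D : Subgroup (V ≃ₗ[K] V)} (hD : Φ.Grp D) {W x : Submodule K V}
    (hW : Φ.ND W) (hd : 3 ≤ finrank K W ∨ 2 ≤ Φ.t) (hx : Φ.IsPt x) (hxW : x ≤ W) :
    Φ.bn D W x = Φ.pn W := by
  refine Nat.card_congr (Equiv.subtypeEquivRight fun F => ⟨?_, ?_⟩)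
  · rintro ⟨g, hg, hg1, rfl⟩
    refine ⟨hx.map (hD.le hg), ?_⟩
    rw [← brec_map_W (hD.le hg) hg1, map_le_map]
    exact hxW
  · rintro ⟨hF, hFW⟩
    exact trans_pt hD hW hd hx hxW hF hFW

theorem bn_rec {D : Subgroup (V ≃ₗ[K] V)} (hD : Φ.Grp D) {W E x y : Submodule K V}
    (hW : Φ.ND W) (hd : 3 ≤ finrank K W ∨ 2 ≤ Φ.t) (hE : Φ.TS E) (hEW : E ≤ W)
    (hx : Φ.IsPt x) (hxE : x ≤ E) (hy : Φ.IsPt y) (hyW : y ≤ W) (h : ¬ y ≤ Φ.orth x) :
    Φ.pn W * Φ.bn D (W ⊓ Φ.orth (x ⊔ y)) (E ⊓ Φ.orth y) ≤ Φ.bn D W E * Φ.pn E := by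
  have hfin := brec_finite (K := K) (V := V)
  obtain ⟨-, -, -, -, -, hmod⟩ := dsc hW hE hEW hx hxE hy hyW h
  have hxW := hxE.trans hEW
  -- an element of `D` for every point
  choose g hgD hgf hgx using fun z : {z : Submodule K V // Φ.IsPt z ∧ z ≤ W} =>
    trans_pt hD hW hd hx hxW z.2.1 z.2.2
  -- an element of `D` for every image
  choose k hkD hkf hkE using fun F : {F : Submodule K V // ∃ g ∈ D,
    (∀ v ∈ Φ.orth W, g v = v) ∧ E.map (g : V →ₗ[K] V) = F} => F.2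
  -- the images of `E'`
  have key : ∀ F : Submodule K V, (∃ g ∈ D, (∀ v ∈ Φ.orth (W ⊓ Φ.orth (x ⊔ y)), g v = v) ∧
      (E ⊓ Φ.orth y).map (g : V →ₗ[K] V) = F) →
      (∃ g ∈ D, (∀ v ∈ Φ.orth W, g v = v) ∧ E.map (g : V →ₗ[K] V) = x ⊔ F) ∧
      (x ⊔ F) ⊓ Φ.orth y = F := by
    rintro _ ⟨g', hg', hgf', rfl⟩
    have h1 : ∀ v ∈ Φ.orth W ⊔ (x ⊔ y), g' v = v := by
      intro v hv
      apply hgf'
      rw [orth_inf, orth_orth]
      exact hv
    have hx1 : x.map (g' : V →ₗ[K] V) = x :=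
      brec_map_fix fun v hv => h1 v ((le_sup_left.trans le_sup_right : x ≤ _) hv)
    have hy1 : y.map (g' : V →ₗ[K] V) = y :=
      brec_map_fix fun v hv => h1 v ((le_sup_right.trans le_sup_right : y ≤ _) hv)
    constructor
    · refine ⟨g', hg', fun v hv => h1 v ((le_sup_left : Φ.orth W ≤ _) hv), ?_⟩
      conv_lhs => rw [← hmod]
      rw [Submodule.map_sup, hx1]
    · have h2 : (E ⊓ Φ.orth y).map (g' : V →ₗ[K] V) ≤ Φ.orth y := by
        have h3 := Submodule.map_mono (f := (g' : V →ₗ[K] V))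
          (inf_le_right : E ⊓ Φ.orth y ≤ Φ.orth y)
        rw [← orth_map (hD.le hg'), hy1] at h3
        exact h3
      have h4 : x ⊓ Φ.orth y = ⊥ := hx.inf_eq_bot fun h5 => h (Φ.le_orth_comm.1 h5)
      rw [sup_comm, sup_inf_assoc_of_le x h2, h4, sup_bot_eq]
  -- the injection
  have hmem : ∀ (z : {z : Submodule K V // Φ.IsPt z ∧ z ≤ W})
      (F : {F : Submodule K V // ∃ g ∈ D, (∀ v ∈ Φ.orth (W ⊓ Φ.orth (x ⊔ y)), g v = v) ∧
        (E ⊓ Φ.orth y).map (g : V →ₗ[K] V) = F}),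
      ∃ g' ∈ D, (∀ v ∈ Φ.orth W, g' v = v) ∧
        E.map (g' : V →ₗ[K] V) = (x ⊔ F.1).map (g z : V →ₗ[K] V) := by
    intro z F
    obtain ⟨⟨g', hg', hgf', hgE'⟩, -⟩ := key F.1 F.2
    refine ⟨g z * g', D.mul_mem (hgD z) hg', fun v hv => ?_, ?_⟩
    · change g z (g' v) = v
      rw [hgf' v hv, hgf z v hv]
    · rw [brec_mul, hgE']
  let T (z : {z : Submodule K V // Φ.IsPt z ∧ z ≤ W})
      (F : {F : Submodule K V // ∃ g ∈ D, (∀ v ∈ Φ.orth (W ⊓ Φ.orth (x ⊔ y)), g v = v) ∧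
        (E ⊓ Φ.orth y).map (g : V →ₗ[K] V) = F}) :
      {F : Submodule K V // ∃ g ∈ D, (∀ v ∈ Φ.orth W, g v = v) ∧
        E.map (g : V →ₗ[K] V) = F} := ⟨(x ⊔ F.1).map (g z : V →ₗ[K] V), hmem z F⟩
  have hz : ∀ z F, z.1 ≤ (T z F).1 := by
    intro z F
    change z.1 ≤ (x ⊔ F.1).map (g z : V →ₗ[K] V)
    conv_lhs => rw [← hgx z]
    exact Submodule.map_mono le_sup_left
  have hpt : ∀ (z : {z : Submodule K V // Φ.IsPt z ∧ z ≤ W})
      (F : {F : Submodule K V // ∃ g ∈ D, (∀ v ∈ Φ.orth (W ⊓ Φ.orth (x ⊔ y)), g v = v) ∧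
        (E ⊓ Φ.orth y).map (g : V →ₗ[K] V) = F}),
      Φ.IsPt (z.1.map (((k (T z F))⁻¹ : V ≃ₗ[K] V) : V →ₗ[K] V)) ∧
      z.1.map (((k (T z F))⁻¹ : V ≃ₗ[K] V) : V →ₗ[K] V) ≤ E := by
    intro z F
    refine ⟨z.2.1.map (hD.le (D.inv_mem (hkD _))), ?_⟩
    rw [← map_le_map (g := k (T z F)), brec_inv, hkE]
    exact hz z F
  rw [pn, bn, bn, pn, ← Nat.card_prod, ← Nat.card_prod]
  apply Nat.card_le_card_of_injective (fun p => (T p.1 p.2, ⟨_, hpt p.1 p.2⟩))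
  rintro ⟨z, F⟩ ⟨z', F'⟩ hp
  have e1 : T z F = T z' F' := congrArg Prod.fst hp
  have e2 : z.1.map (((k (T z F))⁻¹ : V ≃ₗ[K] V) : V →ₗ[K] V) =
      z'.1.map (((k (T z' F'))⁻¹ : V ≃ₗ[K] V) : V →ₗ[K] V) :=
    congrArg (fun q => q.2.1) hp
  rw [← e1] at e2
  have e3 : z.1 = z'.1 := Submodule.map_injective_of_injective
    (f := (((k (T z F))⁻¹ : V ≃ₗ[K] V) : V →ₗ[K] V)) (k (T z F))⁻¹.injective e2
  have e4 : z = z' := Subtype.ext e3
  subst e4
  have e5 : (x ⊔ F.1).map (g z : V →ₗ[K] V) = (x ⊔ F'.1).map (g z : V →ₗ[K] V) :=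
    congrArg (fun q => q.1) e1
  have e6 : x ⊔ F.1 = x ⊔ F'.1 := Submodule.map_injective_of_injective
    (f := (g z : V →ₗ[K] V)) (g z).injective e5
  have e7 : F.1 = F'.1 := by
    rw [← (key F.1 F.2).2, ← (key F'.1 F'.2).2, e6]
  rw [Subtype.ext e7]

end PS

end Pool.Agent.Work.MP_bc729a_al.CG
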