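import Pool.Agent.Work.MP_bc729a_al.CG.StbA

/-! # Module Cen (M): the centre

PROOF of `center_iff`. `←`: `lat K V g = 1` says that `g` maps every subspace to itself, so `g v ∈ span {v}` for all `v`, so `g` is a scalar (for independent `v`, `w`: `g (v + w) = λ (v + w)` gives equal factors), and commutes with every linear map. `→`: let `g ∈ D` commute with all `h ∈ D`.
(1) `x.map g = x` for every point `x`: let `y = x.map g` (`IsPt.map`, `hD.le`). If `y ≠ x`, `exists_move` gives `h`, `IsU x h` (so `h ∈ D`), `y.map h ≠ y`; but `y.map h = (x.map g).map h = (x.map h).map g = x.map g = y` (`IsU.map_eq`). (2) So for every singular `v ≠ 0` there is `λ v` with `g v = λ v • v`. If `v, w` are singular, `≠ 0`,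
`B v w = 0`, then `λ v = λ w`: clear if `w ∈ span {v}`; otherwise `v + w ≠ 0` is singular and `g (v + w) = λ (v + w) • (v + w)`, compare. If `B v w ≠ 0` there is a point `z ≤ orth (span {v} ⊔ span {w})` (`exists_pt`, dimension `≥ n - 2 ≥ c`), and `λ v = λ z = λ w`. (3) `⊤` is spanned by its points
(`span_pts`, `ND_top`), so `g` is a scalar, `lat K V g = 1`.
`quot_center`: the homomorphism `D → PG D`, `g ↦ toPG g`, is onto (`exists_toPG`) and its kernel is the centre by `center_iff` (`QuotientGroup.quotientKerEquivOfSurjective`, `QuotientGroup.quotientMulEquivOfEq`). -/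

namespace Pool.Agent.Work.MP_bc729a_al.CG

open Module

universe u v

variable {K : Type u} {V : Type v} [Field K] [AddCommGroup V] [Module K V] [Finite K] [Finite V]

namespace PS

variable {Φ : PS K V}

private theorem cen_point {D : Subgroup (V ≃ₗ[K] V)} (hD : Φ.Grp D) (hc : Φ.c + 4 ≤ finrank K V)
    {g : V ≃ₗ[K] V} (hg : g ∈ D) (hcom : ∀ h ∈ D, g * h = h * g) {x : Submodule K V}
    (hx : Φ.IsPt x) : x.map (g : V →ₗ[K] V) = x := by
  by_contra hne
  obtain ⟨h, hh, hmv⟩ := exists_move (by omega) hx (hx.map (hD.le hg)) (Ne.symm hne)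
  apply hmv
  have h1 := hcom h (hD.u x hx hh)
  have h2 : lat K V g (lat K V h x) = lat K V h (lat K V g x) := by
    rw [← RelIso.mul_apply, ← map_mul, h1, map_mul, RelIso.mul_apply]
  rw [lat_apply, lat_apply, lat_apply, lat_apply, hh.map_eq] at h2
  exact h2.symm

private theorem cen_vec {D : Subgroup (V ≃ₗ[K] V)} (hD : Φ.Grp D) (hc : Φ.c + 4 ≤ finrank K V)
    {g : V ≃ₗ[K] V} (hg : g ∈ D) (hcom : ∀ h ∈ D, g * h = h * g) {v : V} (h0 : v ≠ 0)
    (hv : Φ.S v) : ∃ a : K, g v = a • v := by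
  have h1 := cen_point hD hc hg hcom (isPt_span h0 hv)
  have h2 : g v ∈ (Submodule.span K {v}).map (g : V →ₗ[K] V) :=
    ⟨v, Submodule.mem_span_singleton_self v, rfl⟩
  rw [h1] at h2
  obtain ⟨a, ha⟩ := Submodule.mem_span_singleton.1 h2
  exact ⟨a, ha.symm⟩

private theorem cen_perp {D : Subgroup (V ≃ₗ[K] V)} (hD : Φ.Grp D) (hc : Φ.c + 4 ≤ finrank K V)
    {g : V ≃ₗ[K] V} (hg : g ∈ D) (hcom : ∀ h ∈ D, g * h = h * g) {v w : V} (hv0 : v ≠ 0)
    (hv : Φ.S v) (hw0 : w ≠ 0) (hw : Φ.S w) (hB : Φ.B v w = 0) {a b : K} (ha : g v = a • v)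
    (hb : g w = b • w) : a = b := by
  by_cases hs : w ∈ Submodule.span K {v}
  · obtain ⟨c, rfl⟩ := Submodule.mem_span_singleton.1 hs
    rw [map_smul, ha, smul_comm] at hb
    exact smul_left_injective K hw0 hb
  · have h0 : v + w ≠ 0 := by
      intro h
      apply hs
      rw [Submodule.mem_span_singleton]
      exact ⟨-1, by rw [neg_one_smul]; exact neg_eq_of_add_eq_zero_right h⟩
    obtain ⟨d, hd⟩ := cen_vec hD hc hg hcom h0 (Φ.S_add v w hv hw hB)
    rw [map_add, ha, hb, smul_add] at hd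
    have h1 : (b - d) • w = (d - a) • v := by
      rw [sub_smul, sub_smul, sub_eq_sub_iff_add_eq_add, add_comm, hd]
    have h2 : b - d = 0 := by
      by_contra hne
      apply hs
      rw [Submodule.mem_span_singleton]
      refine ⟨(b - d)⁻¹ * (d - a), ?_⟩
      rw [mul_smul, ← h1, smul_smul, inv_mul_cancel₀ hne, one_smul]
    rw [h2, zero_smul] at h1
    have h3 : d - a = 0 := by
      rcases smul_eq_zero.1 h1.symm with h | h
      · exact h
      · exact absurd h hv0
    rw [sub_eq_zero] at h2 h3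
    rw [h2, h3]

private theorem cen_eq {D : Subgroup (V ≃ₗ[K] V)} (hD : Φ.Grp D) (hc : Φ.c + 4 ≤ finrank K V)
    {g : V ≃ₗ[K] V} (hg : g ∈ D) (hcom : ∀ h ∈ D, g * h = h * g) {v w : V} (hv0 : v ≠ 0)
    (hv : Φ.S v) (hw0 : w ≠ 0) (hw : Φ.S w) {a b : K} (ha : g v = a • v)
    (hb : g w = b • w) : a = b := by
  have h1 := Submodule.finrank_sup_add_finrank_inf_eq (Submodule.span K {v}) (Submodule.span K {w})
  rw [finrank_span_singleton hv0, finrank_span_singleton hw0] at h1
  have h2 := finrank_orth (Φ := Φ) (Submodule.span K {v} ⊔ Submodule.span K {w})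
  obtain ⟨z, hz, hzo⟩ := exists_pt (Φ := Φ)
    (W := Φ.orth (Submodule.span K {v} ⊔ Submodule.span K {w})) (by omega)
  obtain ⟨u, hu, hu0⟩ := hz.exists
  obtain ⟨d, hd⟩ := cen_vec hD hc hg hcom hu0 (hz.S hu)
  have h3 : Φ.B u v = 0 := hzo hu v (Submodule.mem_sup_left (Submodule.mem_span_singleton_self v))
  have h4 : Φ.B u w = 0 := hzo hu w (Submodule.mem_sup_right (Submodule.mem_span_singleton_self w))
  have h5 := cen_perp hD hc hg hcom hu0 (hz.S hu) hv0 hv h3 hd ha
  have h6 := cen_perp hD hc hg hcom hu0 (hz.S hu) hw0 hw h4 hd hb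
  rw [← h5, h6]

private theorem cen_scalar {D : Subgroup (V ≃ₗ[K] V)} (hD : Φ.Grp D)
    (hc : Φ.c + 4 ≤ finrank K V) {g : V ≃ₗ[K] V} (hg : g ∈ D) (hcom : ∀ h ∈ D, g * h = h * g) :
    ∃ a : K, ∀ v, g v = a • v := by
  obtain ⟨x, hx, -⟩ := exists_pt (Φ := Φ) (W := (⊤ : Submodule K V)) (by
    rw [finrank_top]
    omega)
  obtain ⟨u, hu, hu0⟩ := hx.exists
  obtain ⟨a, ha⟩ := cen_vec hD hc hg hcom hu0 (hx.S hu)
  refine ⟨a, ?_⟩
  let M : Submodule K V := LinearMap.eqLocus (g : V →ₗ[K] V) (a • LinearMap.id)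
  have hM : (⊤ : Submodule K V) ≤ M := by
    rw [span_pts ND_top hx le_top]
    apply sSup_le
    rintro z ⟨hz, -⟩ v hv
    change g v = a • v
    by_cases hv0 : v = 0
    · rw [hv0, map_zero, smul_zero]
    · obtain ⟨b, hb⟩ := cen_vec hD hc hg hcom hv0 (hz.S hv)
      rw [hb, cen_eq hD hc hg hcom hu0 (hx.S hu) hv0 (hz.S hv) ha hb]
  intro v
  exact hM (Submodule.mem_top (x := v))

theorem center_iff {D : Subgroup (V ≃ₗ[K] V)} (hD : Φ.Grp D) (hc : Φ.c + 4 ≤ finrank K V)
    {g : V ≃ₗ[K] V} (hg : g ∈ D) : (∀ h ∈ D, g * h = h * g) ↔ lat K V g = 1 := by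
  constructor
  · intro hcom
    obtain ⟨a, ha⟩ := cen_scalar hD hc hg hcom
    apply RelIso.ext
    intro W
    change W.map (g : V →ₗ[K] V) = W
    apply Submodule.eq_of_le_of_finrank_eq
    · rintro _ ⟨v, hv, rfl⟩
      change g v ∈ W
      rw [ha v]
      exact W.smul_mem a hv
    · exact finrank_map_eq
  · intro hlat h _
    have h1 : ∀ v, ¬ LinearIndependent K ![v, (g : V →ₗ[K] V) v] := by
      intro v hv
      have h2 : lat K V g (Submodule.span K {v}) = Submodule.span K {v} := by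
        rw [hlat]
        rfl
      have h3 : g v ∈ (Submodule.span K {v}).map (g : V →ₗ[K] V) :=
        ⟨v, Submodule.mem_span_singleton_self v, rfl⟩
      rw [← lat_apply, h2] at h3
      obtain ⟨a, ha⟩ := Submodule.mem_span_singleton.1 h3
      rw [LinearIndependent.pair_iff] at hv
      have h4 := hv a (-1) (by
        rw [ha, neg_one_smul]
        exact add_neg_cancel _)
      exact absurd h4.2 (by simp)
    obtain ⟨a, ha⟩ := LinearMap.exists_eq_smul_id_of_forall_notLinearIndependent h1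
    have h5 : ∀ v, g v = a • v := by
      intro v
      have h6 := DFunLike.congr_fun ha v
      exact h6
    apply LinearEquiv.ext
    intro v
    change g (h v) = h (g v)
    rw [h5, h5, map_smul]

theorem quot_center {D : Subgroup (V ≃ₗ[K] V)} (hD : Φ.Grp D) (hc : Φ.c + 4 ≤ finrank K V) :
    Nonempty ((↥D ⧸ Subgroup.center ↥D) ≃* ↥(PG D)) := by
  let f : ↥D →* ↥(PG D) :=
    { toFun := fun g => toPG g.2
      map_one' := Subtype.ext (map_one (lat K V))
      map_mul' := fun a b => Subtype.ext (map_mul (lat K V) a.1 b.1) }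
  have hf : Function.Surjective f := by
    intro s
    obtain ⟨g, hg, rfl⟩ := exists_toPG s
    exact ⟨⟨g, hg⟩, rfl⟩
  have hker : f.ker = Subgroup.center ↥D := by
    ext g
    rw [MonoidHom.mem_ker, Subgroup.mem_center_iff]
    have h1 : f g = 1 ↔ lat K V g.1 = 1 := by
      constructor
      · intro h
        exact congrArg Subtype.val h
      · intro h
        exact Subtype.ext h
    rw [h1, ← center_iff hD hc g.2]
    constructor
    · intro h k
      exact Subtype.ext (h k.1 k.2).symm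
    · intro h k hk
      exact (congrArg Subtype.val (h ⟨k, hk⟩)).symm
  exact ⟨(QuotientGroup.quotientMulEquivOfEq hker.symm).trans
    (QuotientGroup.quotientKerEquivOfSurjective f hf)⟩

end PS

end Pool.Agent.Work.MP_bc729a_al.CG
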