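import Pool.Agent.Work.MP_bc729a_al.CG.Nd

/-! # Module Cw (M): the number of singular vectors is divisible by the characteristic

PROOF. Let `Q = |K|`, a power of `p`, `w = finrank W`. `Φ.ex` gives `0 ≠ x ∈ W`, `S x`. The additive group `K` acts on `W` by
`v ↦ v + a • x`. On `{v ∈ W | B v x = 0}` singularity is preserved (`S_add`, `S_smul`: `B v (a • x) = 0`), the action is free, so the number of
singular `v ∈ W` with `B v x = 0` is divisible by `Q` (e.g. choose a complement of `span {x}` in `W ⊓ orth (span {x})`, or count fibres of the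
quotient by `span {x}`). On `{v ∈ W | B v x ≠ 0}` each orbit has `Q` elements and exactly `t` of them are singular (`card_t`); so the number of
singular ones is `t` times the number of orbits. If there is such a `v`, then `w ≥ 2` (`B x x = 0`) and the number of orbits is
`(Q ^ w - Q ^ (w-1)) / Q = Q ^ (w-2) * (Q - 1)`. `p ∣ t * Q ^ (w - 2)`: `typ`: if `c = 3`, `w ≥ 3`; otherwise `t * t = Q` or `t = Q`, so `p ∣ t`. -/

namespace Pool.Agent.Work.MP_bc729a_al.CG

open Module

universe u v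

variable {K : Type u} {V : Type v} [Field K] [AddCommGroup V] [Module K V] [Finite K] [Finite V]

namespace PS

variable {Φ : PS K V}

private theorem natCard_filter {α : Type*} [Fintype α] (P : α → Prop) [DecidablePred P] :
    Nat.card {v : α // P v} = (Finset.univ.filter P).card := by
  rw [Nat.card_eq_fintype_card, Fintype.card_subtype]

private theorem card_split {α : Type*} [Finite α] (P R : α → Prop) :
    Nat.card {v : α // P v} =
      Nat.card {v : α // P v ∧ R v} + Nat.card {v : α // P v ∧ ¬ R v} := by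
  classical
  rw [← Nat.card_congr (Equiv.sumCompl (fun v : {v : α // P v} => R v.1)), Nat.card_sum,
    Nat.card_congr (Equiv.subtypeSubtypeEquivSubtypeInter P R),
    Nat.card_congr (Equiv.subtypeSubtypeEquivSubtypeInter P (fun v => ¬ R v))]

private theorem B_add_smul (Φ : PS K V) {x : V} (hS : Φ.S x) (v : V) (a : K) :
    Φ.B (v + a • x) x = Φ.B v x := by
  rw [Φ.add_left, Φ.smul_left, Φ.S_B x hS, mul_zero, add_zero]

private theorem zero_part (Φ : PS K V) {p : ℕ} [Fact p.Prime] [CharP K p] {W : Submodule K V}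
    {x : V} (hx : x ∈ W) (h0 : x ≠ 0) (hS : Φ.S x) :
    p ∣ Nat.card {v : V // (v ∈ W ∧ Φ.S v) ∧ Φ.B v x = 0} := by
  classical
  haveI := Fintype.ofFinite V
  let f : Function.End {v : V // (v ∈ W ∧ Φ.S v) ∧ Φ.B v x = 0} := fun v =>
    ⟨v.1 + x, ⟨W.add_mem v.2.1.1 hx, Φ.S_add _ _ v.2.1.2 hS v.2.2⟩, by
      rw [Φ.add_left, v.2.2, Φ.S_B x hS, add_zero]⟩
  have hf : ∀ (k : ℕ) (v : {v : V // (v ∈ W ∧ Φ.S v) ∧ Φ.B v x = 0}),
      ((f ^ k) v).1 = v.1 + k • x := by
    intro k
    induction k with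
    | zero =>
      intro v
      rw [pow_zero, zero_smul, add_zero]
      rfl
    | succ k ih =>
      intro v
      rw [pow_succ']
      change ((f ^ k) v).1 + x = _
      rw [ih, succ_nsmul, add_assoc]
  have hp : f ^ p ^ 1 = 1 := by
    funext v
    apply Subtype.ext
    rw [pow_one, hf, ← Nat.cast_smul_eq_nsmul K, CharP.cast_eq_zero, zero_smul, add_zero]
    rfl
  have h := Equiv.Perm.card_fixedPoints_modEq hp
  have h1 : Fintype.card (Function.fixedPoints f) = 0 := by
    rw [Fintype.card_eq_zero_iff]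
    refine ⟨fun v => ?_⟩
    have h2 : v.1.1 + x = v.1.1 := congrArg Subtype.val v.2
    exact h0 (left_eq_add.1 h2.symm)
  rw [h1] at h
  rw [Nat.card_eq_fintype_card]
  exact (Nat.modEq_zero_iff_dvd).1 h

private theorem double (Φ : PS K V) (W : Submodule K V) {x : V} (hx : x ∈ W) (hS : Φ.S x) :
    Nat.card {v : V // v ∈ W ∧ ¬ Φ.B v x = 0} * Φ.t =
      Nat.card K * Nat.card {v : V // (v ∈ W ∧ Φ.S v) ∧ ¬ Φ.B v x = 0} := by
  classical
  haveI := Fintype.ofFinite V
  haveI := Fintype.ofFinite K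
  rw [natCard_filter, natCard_filter, Nat.card_eq_fintype_card (α := K)]
  have h := Finset.sum_card_bipartiteAbove_eq_sum_card_bipartiteBelow
    (s := (Finset.univ : Finset K)) (t := Finset.univ.filter (fun v : V => v ∈ W ∧ ¬ Φ.B v x = 0))
    (fun (a : K) (v : V) => Φ.S (v + a • x))
  have h1 : ∀ a ∈ (Finset.univ : Finset K),
      (Finset.bipartiteAbove (fun (a : K) (v : V) => Φ.S (v + a • x))
        (Finset.univ.filter (fun v : V => v ∈ W ∧ ¬ Φ.B v x = 0)) a).card =
      (Finset.univ.filter (fun v : V => (v ∈ W ∧ Φ.S v) ∧ ¬ Φ.B v x = 0)).card := by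
    intro a _
    refine Finset.card_bij' (fun v _ => v + a • x) (fun v _ => v - a • x) ?_ ?_ ?_ ?_
    · intro v hv
      rw [Finset.mem_bipartiteAbove, Finset.mem_filter] at hv
      rw [Finset.mem_filter]
      refine ⟨Finset.mem_univ _, ⟨W.add_mem hv.1.2.1 (W.smul_mem _ hx), hv.2⟩, ?_⟩
      rw [B_add_smul Φ hS]
      exact hv.1.2.2
    · intro v hv
      rw [Finset.mem_filter] at hv
      rw [Finset.mem_bipartiteAbove, Finset.mem_filter]
      refine ⟨⟨Finset.mem_univ _, W.sub_mem hv.2.1.1 (W.smul_mem _ hx), ?_⟩, ?_⟩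
      · rw [sub_eq_add_neg, ← neg_smul, B_add_smul Φ hS]
        exact hv.2.2
      · rw [sub_add_cancel]
        exact hv.2.1.2
    · intro v _
      exact add_sub_cancel_right v (a • x)
    · intro v _
      exact sub_add_cancel v (a • x)
  have h2 : ∀ v ∈ Finset.univ.filter (fun v : V => v ∈ W ∧ ¬ Φ.B v x = 0),
      (Finset.bipartiteBelow (fun (a : K) (v : V) => Φ.S (v + a • x))
        (Finset.univ : Finset K) v).card = Φ.t := by
    intro v hv
    rw [Finset.mem_filter] at hv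
    rw [← Φ.card_t x v hS hv.2.2, natCard_filter]
    rfl
  rw [Finset.sum_congr rfl h1, Finset.sum_congr rfl h2, Finset.sum_const, Finset.sum_const,
    Finset.card_univ, smul_eq_mul, smul_eq_mul] at h
  exact h.symm

private theorem ker_card (Φ : PS K V) (W : Submodule K V) {x : V} (hx : x ∈ W) (h0 : x ≠ 0)
    (hS : Φ.S x) {v : V} (hv : v ∈ W) (hvx : ¬ Φ.B v x = 0) :
    ∃ k, finrank K W = k + 2 ∧
      Nat.card {v : V // v ∈ W ∧ Φ.B v x = 0} = Nat.card K ^ (k + 1) := by
  let f : ↥W →ₗ[K] K :=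
    { toFun := fun v => Φ.B v.1 x
      map_add' := fun a b => Φ.add_left _ _ _
      map_smul' := fun a b => Φ.smul_left _ _ _ }
  have hf : Function.Surjective f := by
    intro k
    refine ⟨(k * (Φ.B v x)⁻¹) • ⟨v, hv⟩, ?_⟩
    change Φ.B ((k * (Φ.B v x)⁻¹) • v) x = k
    rw [Φ.smul_left, mul_assoc, inv_mul_cancel₀ hvx, mul_one]
  have h1 := f.finrank_range_add_finrank_ker
  rw [LinearMap.range_eq_top.2 hf, finrank_top, finrank_self] at h1
  have h2 : finrank K (LinearMap.ker f) ≠ 0 := by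
    intro h
    rw [Submodule.finrank_eq_zero] at h
    have h3 : (⟨x, hx⟩ : ↥W) ∈ LinearMap.ker f := Φ.S_B x hS
    rw [h, Submodule.mem_bot] at h3
    exact h0 (congrArg Subtype.val h3)
  obtain ⟨k, hk⟩ := Nat.exists_eq_succ_of_ne_zero h2
  refine ⟨k, by omega, ?_⟩
  have e : {v : V // v ∈ W ∧ Φ.B v x = 0} ≃ ↥(LinearMap.ker f) :=
    { toFun := fun v => ⟨⟨v.1, v.2.1⟩, v.2.2⟩
      invFun := fun v => ⟨v.1.1, v.1.2, v.2⟩
      left_inv := fun v => rfl
      right_inv := fun v => rfl }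
  rw [Nat.card_congr e, Module.natCard_eq_pow_finrank (K := K), hk]

theorem cw {p : ℕ} [Fact p.Prime] [CharP K p] {W : Submodule K V} (h : Φ.c ≤ finrank K W) :
    p ∣ Nat.card {v : V // v ∈ W ∧ Φ.S v} := by
  classical
  obtain ⟨x, hxW, hx0, hxS⟩ := Φ.ex W h
  rw [card_split (fun v => v ∈ W ∧ Φ.S v) (fun v => Φ.B v x = 0)]
  refine dvd_add (zero_part Φ hxW hx0 hxS) ?_
  by_cases hW : ∀ v ∈ W, Φ.B v x = 0
  · have h1 : Nat.card {v : V // (v ∈ W ∧ Φ.S v) ∧ ¬ Φ.B v x = 0} = 0 := by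
      rw [Nat.card_eq_zero]
      exact Or.inl ⟨fun v => v.2.2 (hW v.1 v.2.1.1)⟩
    rw [h1]
    exact dvd_zero p
  · push Not at hW
    obtain ⟨v, hv, hvx⟩ := hW
    obtain ⟨k, hk, hc⟩ := ker_card Φ W hxW hx0 hxS hv hvx
    have h1 := double Φ W hxW hxS
    have h2 := card_split (fun v => v ∈ W) (fun v => Φ.B v x = 0)
    have h3 : Nat.card {v : V // v ∈ W} = Nat.card K ^ (k + 2) := by
      rw [← hk]
      exact Module.natCard_eq_pow_finrank (K := K) (V := ↥W)
    rw [h3, hc] at h2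
    have hQ : 0 < Nat.card K := Nat.card_pos
    have hpQ : p ∣ Nat.card K := by
      haveI := Fintype.ofFinite K
      rw [← CharP.cast_eq_zero_iff K p, Nat.card_eq_fintype_card]
      exact Nat.cast_card_eq_zero K
    generalize Nat.card {v : V // (v ∈ W ∧ Φ.S v) ∧ ¬ Φ.B v x = 0} = N at h1 ⊢
    generalize Nat.card {v : V // v ∈ W ∧ ¬ Φ.B v x = 0} = Y at h1 h2
    have h4 : N + Nat.card K ^ k * Φ.t = Nat.card K ^ (k + 1) * Φ.t := by
      apply Nat.eq_of_mul_eq_mul_left hQ
      calc Nat.card K * (N + Nat.card K ^ k * Φ.t)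
          = Nat.card K * N + Nat.card K ^ (k + 1) * Φ.t := by ring
        _ = Y * Φ.t + Nat.card K ^ (k + 1) * Φ.t := by rw [h1]
        _ = (Nat.card K ^ (k + 1) + Y) * Φ.t := by ring
        _ = Nat.card K ^ (k + 2) * Φ.t := by rw [h2]
        _ = Nat.card K * (Nat.card K ^ (k + 1) * Φ.t) := by ring
    have h5 : p ∣ Nat.card K ^ k * Φ.t := by
      rcases Φ.typ with ⟨hc, -⟩ | ⟨-, ht⟩ | ⟨-, ht⟩
      · have h6 : k ≠ 0 := by omega
        exact (hpQ.trans (dvd_pow_self _ h6)).mul_right _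
      · rw [← ht] at hpQ
        have h6 : p ∣ Φ.t := (Fact.out : p.Prime).dvd_mul.1 hpQ |>.elim id id
        exact h6.mul_left _
      · rw [← ht] at hpQ
        exact hpQ.mul_left _
    have h6 : p ∣ Nat.card K ^ (k + 1) * Φ.t := by
      rw [pow_succ', mul_assoc]
      exact hpQ.mul_right _
    rw [← h4] at h6
    exact (Nat.dvd_add_left h5).1 h6

end PS

end Pool.Agent.Work.MP_bc729a_al.CG
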