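import Pool.Agent.Work.MP_bc729a_al.LA.Red

/-! # Finite classical groups of rank at least three: definitions

A structure `PS K V` treats alternating, hermitian and quadratic forms on the vector space `V` over the finite
field `K` at the same time: `B` is a nondegenerate reflexive form, linear in the first and `τ`-semilinear in the
second variable, `S v` says that `v` is singular. `c` is a number such that every subspace of dimension at least
`c` contains a nonzero singular vector, `t + 1` is the number of singular points of a hyperbolic line.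
(Alternating: `c = 1`, `t = |K|`; hermitian: `c = 2`, `t ^ 2 = |K|`; quadratic: `c = 3`, `t = 1`.) -/

namespace Pool.Agent.Work.MP_bc729a_al.CG

open Module

universe u v

/-- a form on `V` with its singular vectors -/
structure PS (K : Type u) (V : Type v) [Field K] [AddCommGroup V] [Module K V] where
  τ : K →+* K
  B : V → V → K
  S : V → Prop
  c : ℕ
  t : ℕ
  tau_tau : ∀ a, τ (τ a) = a
  add_left : ∀ u v w, B (u + v) w = B u w + B v w
  smul_left : ∀ (a : K) (u v : V), B (a • u) v = a * B u v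
  add_right : ∀ u v w, B u (v + w) = B u v + B u w
  smul_right : ∀ (a : K) (u v : V), B u (a • v) = τ a * B u v
  refl : ∀ u v, B u v = 0 → B v u = 0
  nd : ∀ u, (∀ v, B u v = 0) → u = 0
  S_zero : S 0
  S_smul : ∀ (a : K) (v : V), S v → S (a • v)
  S_add : ∀ u v, S u → S v → B u v = 0 → S (u + v)
  S_B : ∀ v, S v → B v v = 0
  S_odd : Odd (Nat.card K) → ∀ v, B v v = 0 → S v
  card_t : ∀ x v : V, S x → B v x ≠ 0 → Nat.card {a : K // S (v + a • x)} = t
  ex : ∀ W : Submodule K V, c ≤ finrank K W → ∃ v ∈ W, v ≠ 0 ∧ S v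
  typ : (c = 3 ∧ t = 1) ∨ (c = 2 ∧ t * t = Nat.card K) ∨ (c = 1 ∧ t = Nat.card K)
  ei : ∀ x y y' : V, S x → S y → S y' → B y x ≠ 0 → B y' x = B y x →
    ∃ g : V ≃ₗ[K] V, (∀ u v, B (g u) (g v) = B u v) ∧ (∀ v, S (g v) ↔ S v) ∧ g x = x ∧
      g y = y' ∧ (∀ v, B v x = 0 → g v - v ∈ Submodule.span K {x}) ∧
      (∀ v, B v x = 0 → B v (y' - y) = 0 → g v = v)

namespace PS

variable {K : Type u} {V : Type v} [Field K] [AddCommGroup V] [Module K V] (Φ : PS K V)

/-- the perpendicular space -/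
def orth (W : Submodule K V) : Submodule K V where
  carrier := {v | ∀ w ∈ W, Φ.B v w = 0}
  zero_mem' := by
    intro w _
    have h := Φ.smul_left 0 0 w
    rw [zero_smul, zero_mul] at h
    exact h
  add_mem' := by
    intro a b ha hb w hw
    rw [Φ.add_left, ha w hw, hb w hw, add_zero]
  smul_mem' := by
    intro a v hv w hw
    rw [Φ.smul_left, hv w hw, mul_zero]

theorem mem_orth {W : Submodule K V} {v : V} : v ∈ Φ.orth W ↔ ∀ w ∈ W, Φ.B v w = 0 := Iff.rfl

/-- singular points -/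
def IsPt (x : Submodule K V) : Prop := ∃ v : V, v ≠ 0 ∧ Φ.S v ∧ x = Submodule.span K {v}

/-- totally singular subspaces -/
def TS (E : Submodule K V) : Prop := (∀ v ∈ E, Φ.S v) ∧ E ≤ Φ.orth E

/-- nondegenerate subspaces -/
def ND (W : Submodule K V) : Prop := W ⊓ Φ.orth W = ⊥

/-- totally singular lines -/
def IsLn (E : Submodule K V) : Prop := Φ.TS E ∧ finrank K E = 2

/-- the type of singular points -/
abbrev Pt : Type v := {x : Submodule K V // Φ.IsPt x}

/-- the isometry group -/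
def Iso : Subgroup (V ≃ₗ[K] V) where
  carrier := {g | (∀ u v, Φ.B (g u) (g v) = Φ.B u v) ∧ ∀ v, Φ.S (g v) ↔ Φ.S v}
  one_mem' := ⟨fun _ _ => rfl, fun _ => Iff.rfl⟩
  mul_mem' := by
    rintro a b ⟨h1, h2⟩ ⟨h3, h4⟩
    exact ⟨fun u v => (h1 _ _).trans (h3 _ _), fun v => (h2 _).trans (h4 _)⟩
  inv_mem' := by
    rintro a ⟨h1, h2⟩
    refine ⟨fun u v => ?_, fun v => ?_⟩
    · have h := h1 (a⁻¹ u) (a⁻¹ v)
      have e1 : a (a⁻¹ u) = u := a.apply_symm_apply u
      have e2 : a (a⁻¹ v) = v := a.apply_symm_apply v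
      rw [e1, e2] at h
      exact h.symm
    · have h := h2 (a⁻¹ v)
      have e1 : a (a⁻¹ v) = v := a.apply_symm_apply v
      rw [e1] at h
      exact h.symm

theorem mem_Iso {g : V ≃ₗ[K] V} :
    g ∈ Φ.Iso ↔ (∀ u v, Φ.B (g u) (g v) = Φ.B u v) ∧ ∀ v, Φ.S (g v) ↔ Φ.S v := Iff.rfl

/-- the elements of the unipotent radical of the stabiliser of the point `x` -/
def IsU (x : Submodule K V) (g : V ≃ₗ[K] V) : Prop :=
  g ∈ Φ.Iso ∧ (∀ v ∈ x, g v = v) ∧ ∀ v ∈ Φ.orth x, g v - v ∈ x

/-- the unipotent radical -/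
def UU (x : Submodule K V) : Subgroup (V ≃ₗ[K] V) where
  carrier := {g | Φ.IsU x g}
  one_mem' := ⟨Φ.Iso.one_mem, fun _ _ => rfl, fun v _ => by
    change v - v ∈ x
    rw [sub_self]
    exact x.zero_mem⟩
  mul_mem' := by
    rintro a b ⟨ha1, ha2, ha3⟩ ⟨hb1, hb2, hb3⟩
    refine ⟨Φ.Iso.mul_mem ha1 hb1, fun v hv => ?_, fun v hv => ?_⟩
    · change a (b v) = v
      rw [hb2 v hv, ha2 v hv]
    · have h1 : a (b v) - v = a (b v - v) + (a v - v) := by
        rw [map_sub]
        abel
      change a (b v) - v ∈ x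
      rw [h1, ha2 _ (hb3 v hv)]
      exact x.add_mem (hb3 v hv) (ha3 v hv)
  inv_mem' := by
    rintro a ⟨ha1, ha2, ha3⟩
    refine ⟨Φ.Iso.inv_mem ha1, fun v hv => ?_, fun v hv => ?_⟩
    · have h1 := ha2 v hv
      have h2 : a⁻¹ (a v) = v := a.symm_apply_apply v
      rw [h1] at h2
      exact h2
    · have h3 : a (v - a⁻¹ v) = a v - v := by
        rw [map_sub]
        have h2 : a (a⁻¹ v) = v := a.apply_symm_apply v
        rw [h2]
      have h4 : a (a v - v) = a v - v := ha2 _ (ha3 v hv)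
      have h5 : v - a⁻¹ v = a v - v := a.injective (h3.trans h4.symm)
      have h6 : a⁻¹ v - v = -(a v - v) := by rw [← h5, neg_sub]
      rw [h6]
      exact x.neg_mem (ha3 v hv)

theorem mem_UU {x : Submodule K V} {g : V ≃ₗ[K] V} : g ∈ Φ.UU x ↔ Φ.IsU x g := Iff.rfl

/-- two perpendicular hyperbolic pairs of points -/
structure Quad (x y x' y' : Submodule K V) : Prop where
  px : Φ.IsPt x
  py : Φ.IsPt y
  px' : Φ.IsPt x'
  py' : Φ.IsPt y'
  xy : ¬ y ≤ Φ.orth x
  xy' : ¬ y' ≤ Φ.orth x'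
  xx : x' ≤ Φ.orth x
  yx : x' ≤ Φ.orth y
  xy1 : y' ≤ Φ.orth x
  yy : y' ≤ Φ.orth y

/-- the number of singular points of `W` -/
noncomputable def pn (W : Submodule K V) : ℕ :=
  Nat.card {x : Submodule K V // Φ.IsPt x ∧ x ≤ W}

/-- the number of images of `E` under the elements of `D` acting trivially on the perpendicular
space of `W` -/
noncomputable def bn (D : Subgroup (V ≃ₗ[K] V)) (W E : Submodule K V) : ℕ :=
  Nat.card {F : Submodule K V // ∃ g ∈ D, (∀ v ∈ Φ.orth W, g v = v) ∧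
    E.map (g : V →ₗ[K] V) = F}

/-- `D` is a group of isometries containing these elements -/
structure Grp (D : Subgroup (V ≃ₗ[K] V)) : Prop where
  le : D ≤ Φ.Iso
  u : ∀ x, Φ.IsPt x → Φ.UU x ≤ D

end PS

section lat

variable (K : Type u) (V : Type v) [Field K] [AddCommGroup V] [Module K V]

/-- the action on subspaces -/
def lat : (V ≃ₗ[K] V) →* (Submodule K V ≃o Submodule K V) where
  toFun g := Submodule.orderIsoMapComap g
  map_one' := by
    apply RelIso.ext
    intro W
    exact Submodule.map_id W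
  map_mul' := by
    intro g h
    apply RelIso.ext
    intro W
    exact Submodule.map_comp _ _ W

variable {K V}

theorem lat_apply (g : V ≃ₗ[K] V) (W : Submodule K V) :
    lat K V g W = W.map (g : V →ₗ[K] V) := rfl

/-- the group induced by `D` on the subspaces -/
abbrev PG (D : Subgroup (V ≃ₗ[K] V)) : Subgroup (Submodule K V ≃o Submodule K V) := D.map (lat K V)

variable (D : Subgroup (V ≃ₗ[K] V))

/-- the stabiliser of a subspace -/
def stE (E : Submodule K V) : Subgroup ↥(PG D) where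
  carrier := {s | s.1 E = E}
  one_mem' := rfl
  mul_mem' := by
    intro s t hs ht
    change s.1 (t.1 E) = E
    rw [show t.1 E = E from ht]
    exact hs
  inv_mem' := by
    intro s hs
    change s.1.symm E = E
    rw [OrderIso.symm_apply_eq]
    exact hs.symm

variable {D}

theorem mem_stE {E : Submodule K V} {s : ↥(PG D)} : s ∈ stE D E ↔ s.1 E = E := Iff.rfl

/-- the element of `PG D` given by an element of `D` -/
def toPG {g : V ≃ₗ[K] V} (h : g ∈ D) : ↥(PG D) := ⟨lat K V g, g, h, rfl⟩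

theorem toPG_apply {g : V ≃ₗ[K] V} (h : g ∈ D) (W : Submodule K V) :
    (toPG h).1 W = W.map (g : V →ₗ[K] V) := rfl

theorem exists_toPG (s : ↥(PG D)) : ∃ (g : V ≃ₗ[K] V) (h : g ∈ D), s = toPG h := by
  obtain ⟨s, g, h, rfl⟩ := s
  exact ⟨g, h, rfl⟩

variable (D)

/-- the elements of `D` whose image is in `N` -/
def pull (N : Subgroup ↥(PG D)) : Subgroup (V ≃ₗ[K] V) where
  carrier := {g | ∃ h : g ∈ D, toPG h ∈ N}
  one_mem' := ⟨D.one_mem, by
    have h : toPG D.one_mem = 1 := Subtype.ext (map_one (lat K V))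
    rw [h]
    exact N.one_mem⟩
  mul_mem' := by
    rintro a b ⟨ha, ha'⟩ ⟨hb, hb'⟩
    refine ⟨D.mul_mem ha hb, ?_⟩
    have h : toPG (D.mul_mem ha hb) = toPG ha * toPG hb := Subtype.ext (map_mul (lat K V) a b)
    rw [h]
    exact N.mul_mem ha' hb'
  inv_mem' := by
    rintro a ⟨ha, ha'⟩
    refine ⟨D.inv_mem ha, ?_⟩
    have h : toPG (D.inv_mem ha) = (toPG ha)⁻¹ := Subtype.ext (map_inv (lat K V) a)
    rw [h]
    exact N.inv_mem ha'

variable {D}

theorem mem_pull {N : Subgroup ↥(PG D)} {g : V ≃ₗ[K] V} :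
    g ∈ pull D N ↔ ∃ h : g ∈ D, toPG h ∈ N := Iff.rfl

end lat

end Pool.Agent.Work.MP_bc729a_al.CG
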