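import Pool.Agent.Work.MP_bc729a_al.CG.Fm

/-! # Module EiA (S-M): Eichler transformations

PROOF. Write `P` for the polar form; `P x x = 2 Q x = 0`. Everything is a computation with `eich_apply`, bilinearity of `P` and `Q (a + b) = Q a + Q b + P a b`. `eich_Q`: with `f = P v x • u - P v u • x - (Q u * P v x) • x`, `Q f = (P v x) ^ 2 * Q u` (as `P u x = 0`, `Q x = 0`) and
`P v f = P v x * P v u - P v u * P v x - Q u * (P v x) ^ 2`. `eich_mul`: `P (E u' v) x = P v x`, `P (E u' v) u = P v u + P v x * P u' u`, and `Q (u + u') = Q u + Q u' + P u u'`. `eich_bij`: `E u (E (-u) v) = E 0 v = v`.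
`eich_conj`: `g` preserves `P`. -/

namespace Pool.Agent.Work.MP_bc729a_al.CG

open Module

universe u v

variable {K : Type u} {V : Type v} [Field K] [AddCommGroup V] [Module K V] [Finite K] [Finite V]

private theorem eich_apply2 (Q : QuadraticForm K V) (x u v : V) :
    eich Q x u v = v + (QuadraticMap.polar Q v x • u +
      (-(QuadraticMap.polar Q v u + Q u * QuadraticMap.polar Q v x)) • x) := by
  rw [eich_apply]
  module

private theorem polar_xx {Q : QuadraticForm K V} {x : V} (hx : Q x = 0) :
    QuadraticMap.polar Q x x = 0 := by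
  rw [QuadraticMap.polar_self, hx, smul_zero]

theorem eich_Q {Q : QuadraticForm K V} {x u : V} (hx : Q x = 0)
    (hu : QuadraticMap.polar Q u x = 0) (v : V) : Q (eich Q x u v) = Q v := by
  rw [eich_apply2, QuadraticMap.map_add Q v, QuadraticMap.map_add Q (_ • u), QuadraticMap.map_smul,
    QuadraticMap.map_smul, hx, QuadraticMap.polar_smul_left, QuadraticMap.polar_smul_right, hu,
    QuadraticMap.polar_add_right, QuadraticMap.polar_smul_right, QuadraticMap.polar_smul_right]
  simp only [smul_eq_mul]
  ring

theorem eich_mul {Q : QuadraticForm K V} {x u u' : V} (hx : Q x = 0)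
    (hu : QuadraticMap.polar Q u x = 0) (hu' : QuadraticMap.polar Q u' x = 0) (v : V) :
    eich Q x u (eich Q x u' v) = eich Q x (u + u') v := by
  have hxu : QuadraticMap.polar Q x u = 0 := by
    rw [QuadraticMap.polar_comm]
    exact hu
  have h1 : QuadraticMap.polar Q (eich Q x u' v) x = QuadraticMap.polar Q v x := by
    rw [eich_apply2, QuadraticMap.polar_add_left, QuadraticMap.polar_add_left,
      QuadraticMap.polar_smul_left, QuadraticMap.polar_smul_left, hu', polar_xx hx]
    simp
  have h2 : QuadraticMap.polar Q (eich Q x u' v) u = QuadraticMap.polar Q v u +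
      QuadraticMap.polar Q v x * QuadraticMap.polar Q u' u := by
    rw [eich_apply2, QuadraticMap.polar_add_left, QuadraticMap.polar_add_left,
      QuadraticMap.polar_smul_left, QuadraticMap.polar_smul_left, hxu]
    simp
  have h3 : QuadraticMap.polar Q u' u = QuadraticMap.polar Q u u' := QuadraticMap.polar_comm _ _ _
  rw [eich_apply Q x u, h1, h2, eich_apply Q x u', eich_apply Q x (u + u'),
    QuadraticMap.polar_add_right, QuadraticMap.map_add Q u u', h3]
  module

theorem eich_bij {Q : QuadraticForm K V} {x u : V} (hx : Q x = 0)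
    (hu : QuadraticMap.polar Q u x = 0) : ∃ e ∈ OQ Q, ∀ v, e v = eich Q x u v := by
  have hn : QuadraticMap.polar Q (-u) x = 0 := by
    rw [QuadraticMap.polar_neg_left, hu, neg_zero]
  have h0 : ∀ v, eich Q x 0 v = v := by
    intro v
    rw [eich_apply, QuadraticMap.polar_zero_right, QuadraticMap.map_zero]
    simp
  refine ⟨LinearEquiv.ofLinear (eich Q x u) (eich Q x (-u)) ?_ ?_, fun v => ?_, fun v => rfl⟩
  · refine LinearMap.ext fun v => ?_
    change eich Q x u (eich Q x (-u) v) = v
    rw [eich_mul hx hu hn, add_neg_cancel, h0]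
  · refine LinearMap.ext fun v => ?_
    change eich Q x (-u) (eich Q x u v) = v
    rw [eich_mul hx hn hu, neg_add_cancel, h0]
  · exact eich_Q hx hu v

theorem eich_conj {Q : QuadraticForm K V} {x u : V} {g : V ≃ₗ[K] V} (hg : g ∈ OQ Q)
    (hx : g x = x) (v : V) : g (eich Q x u v) = eich Q x (g u) (g v) := by
  have hQ : ∀ w, Q (g w) = Q w := hg
  have hP : ∀ a b, QuadraticMap.polar Q (g a) (g b) = QuadraticMap.polar Q a b := by
    intro a b
    unfold QuadraticMap.polar
    rw [← map_add, hQ, hQ, hQ]
  have h1 : QuadraticMap.polar Q (g v) x = QuadraticMap.polar Q v x := by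
    have h2 := hP v x
    rwa [hx] at h2
  rw [eich_apply, eich_apply, hP, h1, hQ]
  simp only [map_add, map_sub, map_smul, hx]

end Pool.Agent.Work.MP_bc729a_al.CG
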