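import Pool.Agent.Work.MP_bc729a_al.CG.TrnA

/-! # Module Gen (M): two opposite unipotent radicals generate

PROOF. (1) `UU z ≤ pull D N` for every point `z` with `¬ z ≤ orth x`: `u_trans` with `W = ⊤` gives `g`, `IsU x g`, `y.map g = z`; `g ∈ pull D N` by `h1`, `UU_conj` with `P = pull D N`
(`g ∈ Iso`). (2) `UU z ≤ pull D N` for every point `z ≤ orth x`: `exists_opp2` (`W = ⊤`) gives a point `w` opposite to `x` and to `z`; `UU w ≤ pull D N` by (1); `u_trans` for
`w`, `x`, `z` gives `g`, `IsU w g`, `x.map g = z`; `UU_conj`.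
(3) Let `M` be the subgroup of `PG D` generated by the elements `toPG` of all elements of all `UU z`, `z` a point (all in `D` by `hD.u`). `M ≤ N` by (1), (2) (`mem_pull`). `M` is normal: the
generating set is invariant under conjugation with `toPG h`, `h ∈ D` (`exists_toPG`, `IsU.conj`, `IsPt.map`, `toPG` is multiplicative: `Subtype.ext (map_mul ..)`). `M ≠ ⊥`: `two_opp` gives a
point `y' ≠ y` opposite to `x`, `u_trans` gives `g`, `IsU x g`, `y.map g = y' ≠ y`, so `toPG g ≠ 1`. `PG D` is simple, so `M = ⊤`. -/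

namespace Pool.Agent.Work.MP_bc729a_al.CG

open Module

universe u v

variable {K : Type u} {V : Type v} [Field K] [AddCommGroup V] [Module K V] [Finite K] [Finite V]

namespace PS

variable {Φ : PS K V}

theorem gen_top {D : Subgroup (V ≃ₗ[K] V)} (hD : Φ.Grp D) [IsSimpleGroup ↥(PG D)]
    (hn : 3 ≤ finrank K V) {N : Subgroup ↥(PG D)} {x y : Submodule K V} (hx : Φ.IsPt x)
    (hy : Φ.IsPt y) (h : ¬ y ≤ Φ.orth x) (h1 : Φ.UU x ≤ pull D N) (h2 : Φ.UU y ≤ pull D N) :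
    N = ⊤ := by
  have A1 : ∀ z, Φ.IsPt z → ¬ z ≤ Φ.orth x → Φ.UU z ≤ pull D N := by
    intro z hz hzx
    obtain ⟨g, hg, -, hgy⟩ := u_trans hx le_top hy le_top hz le_top h hzx
    have h3 := UU_conj hg.1 (h1 (Φ.mem_UU.2 hg)) h2
    rwa [hgy] at h3
  have A2 : ∀ z, Φ.IsPt z → Φ.UU z ≤ pull D N := by
    intro z hz
    by_cases hzx : z ≤ Φ.orth x
    · obtain ⟨w, hw, -, hwx, hwz⟩ :=
        exists_opp2 ND_top hx le_top hz le_top (Φ.le_orth_comm.1 hzx)
      obtain ⟨g, hg, -, hgx⟩ := u_trans hw le_top hx le_top hz le_top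
        (fun h3 => hwx (Φ.le_orth_comm.1 h3)) (fun h3 => hwz (Φ.le_orth_comm.1 h3))
      have h3 := UU_conj hg.1 (A1 w hw hwx (Φ.mem_UU.2 hg)) h1
      rwa [hgx] at h3
    · exact A1 z hz hzx
  obtain ⟨S, hS⟩ : ∃ S : Set ↥(PG D), S = {s | ∃ (z : Submodule K V) (g : V ≃ₗ[K] V) (hg : g ∈ D),
    Φ.IsPt z ∧ Φ.IsU z g ∧ s = toPG hg} := ⟨_, rfl⟩
  have hMN : Subgroup.normalClosure S ≤ N := by
    rw [Subgroup.normalClosure, Subgroup.closure_le]
    intro t ht
    obtain ⟨a, ha, c, hc⟩ := Group.mem_conjugatesOfSet_iff.1 ht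
    rw [hS] at ha
    obtain ⟨z, g, hg, hz, hzg, rfl⟩ := ha
    obtain ⟨k, hk, hck⟩ := exists_toPG (c : ↥(PG D))
    have h3 : t = toPG (D.mul_mem (D.mul_mem hk hg) (D.inv_mem hk)) := by
      have h4 : t = (c : ↥(PG D)) * toPG hg * (c : ↥(PG D))⁻¹ := by
        have h5 : (c : ↥(PG D)) * toPG hg = t * (c : ↥(PG D)) := hc
        rw [h5]
        group
      rw [h4, hck]
      exact Subtype.ext (by
        rw [Subgroup.coe_mul, Subgroup.coe_mul, Subgroup.coe_inv]
        show lat K V k * lat K V g * (lat K V k)⁻¹ = lat K V (k * g * k⁻¹)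
        rw [map_mul, map_mul, map_inv])
    have h4 : Φ.IsU (z.map (k : V →ₗ[K] V)) (k * g * k⁻¹) := hzg.conj (hD.le hk)
    have h5 : k * g * k⁻¹ ∈ pull D N := A2 _ (hz.map (hD.le hk)) (Φ.mem_UU.2 h4)
    obtain ⟨h6, h7⟩ := mem_pull.1 h5
    rw [h3]
    exact h7
  have hnt : Subgroup.normalClosure S ≠ ⊥ := by
    obtain ⟨y', hy', -, hy'x, hne⟩ := two_opp (z := y) ND_top
      (Or.inl (by rw [finrank_top]; exact hn)) hx le_top
    obtain ⟨g, hg, -, hgy⟩ := u_trans hx le_top hy le_top hy' le_top h hy'x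
    have hgD : g ∈ D := hD.u x hx (Φ.mem_UU.2 hg)
    intro hbot
    have h3 : toPG hgD ∈ Subgroup.normalClosure S := Subgroup.subset_normalClosure (by
      rw [hS]
      exact ⟨x, g, hgD, hx, hg, rfl⟩)
    rw [hbot, Subgroup.mem_bot] at h3
    apply hne
    rw [← hgy, ← toPG_apply hgD, h3]
    rfl
  have hM : Subgroup.normalClosure S = ⊤ :=
    (Subgroup.normalClosure_normal.eq_bot_or_eq_top).resolve_left hnt
  rw [hM] at hMN
  exact top_le_iff.1 hMN

end PS

end Pool.Agent.Work.MP_bc729a_al.CG
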