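import Pool.Agent.Work.MP_bc729a_al.CG.OrthD

/-! # Module Nd (S-M): nondegenerate subspaces

PROOF. `ND_top`: `orth_top`. `ND.orth`: `orth_orth`. `ND.sup`: `orth (W ⊔ orth W) = orth W ⊓ W = ⊥` (`orth_sup`, `orth_orth`), so
`W ⊔ orth W = orth ⊥ = ⊤` (`orth_orth`, `orth_bot`). `ND.exists_ne`: otherwise `v ∈ orth W` (`refl`), so `v ∈ W ⊓ orth W = ⊥`.
`ND.finrank_inf_orth`: `orth (W ⊓ orth U) = orth W ⊔ U` (`orth_inf`, `orth_orth`) and `orth W ⊓ U ≤ orth W ⊓ W = ⊥`, so its dimension is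
`finrank (orth W) + finrank U`; `finrank_orth` twice.
`ND.inf_orth`: let `v ∈ W ⊓ orth L` and `v ∈ orth (W ⊓ orth L) = orth W ⊔ L`, `v = a + l`; `a = v - l ∈ W ⊓ orth W = ⊥`, so `v = l ∈ L ⊓ orth L = ⊥`.
`ND.sup_inf`: `L ⊔ (W ⊓ orth L) = (L ⊔ orth L) ⊓ W` (modular law `sup_inf_assoc_of_le`, `L ≤ W`) `= W`. -/

namespace Pool.Agent.Work.MP_bc729a_al.CG

open Module

universe u v

variable {K : Type u} {V : Type v} [Field K] [AddCommGroup V] [Module K V] [Finite K] [Finite V]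

namespace PS

variable {Φ : PS K V}

theorem ND_top : Φ.ND (⊤ : Submodule K V) := by
  unfold ND
  rw [Φ.orth_top, inf_bot_eq]

theorem ND.orth {W : Submodule K V} (h : Φ.ND W) : Φ.ND (Φ.orth W) := by
  unfold ND at h ⊢
  rw [Φ.orth_orth, inf_comm]
  exact h

theorem ND.sup {W : Submodule K V} (h : Φ.ND W) : W ⊔ Φ.orth W = ⊤ := by
  unfold ND at h
  have h1 : Φ.orth (W ⊔ Φ.orth W) = ⊥ := by
    rw [Φ.orth_sup, Φ.orth_orth, inf_comm]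
    exact h
  rw [← Φ.orth_orth (W ⊔ Φ.orth W), h1, Φ.orth_bot]

theorem ND.exists_ne {W : Submodule K V} (h : Φ.ND W) {v : V} (hv : v ∈ W) (h0 : v ≠ 0) :
    ∃ u ∈ W, Φ.B u v ≠ 0 := by
  by_contra hcon
  push Not at hcon
  have h1 : v ∈ W ⊓ Φ.orth W := ⟨hv, fun u hu => Φ.refl _ _ (hcon u hu)⟩
  unfold ND at h
  rw [h, Submodule.mem_bot] at h1
  exact h0 h1

theorem ND.finrank_inf_orth {W U : Submodule K V} (hW : Φ.ND W) (h : U ≤ W) :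
    finrank K ↥(W ⊓ Φ.orth U) + finrank K U = finrank K W := by
  have h1 := Φ.finrank_orth (W ⊓ Φ.orth U)
  rw [Φ.orth_inf, Φ.orth_orth] at h1
  have h2 := Submodule.finrank_sup_add_finrank_inf_eq (Φ.orth W) U
  have h3 : Φ.orth W ⊓ U = ⊥ := by
    rw [eq_bot_iff]
    unfold ND at hW
    rw [← hW, inf_comm]
    exact inf_le_inf_right _ h
  rw [h3, finrank_bot] at h2
  have h4 := Φ.finrank_orth W
  omega

theorem ND.inf_orth {W L : Submodule K V} (hW : Φ.ND W) (hL : Φ.ND L) (h : L ≤ W) :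
    Φ.ND (W ⊓ Φ.orth L) := by
  unfold ND at hW hL ⊢
  rw [Φ.orth_inf, Φ.orth_orth, eq_bot_iff]
  rintro v ⟨⟨hvW, hvL⟩, hv⟩
  obtain ⟨a, ha, l, hl, rfl⟩ := Submodule.mem_sup.1 hv
  have haW : a ∈ W := by
    have h1 := W.sub_mem hvW (h hl)
    rwa [add_sub_cancel_right] at h1
  have ha0 : a ∈ W ⊓ Φ.orth W := ⟨haW, ha⟩
  rw [hW, Submodule.mem_bot] at ha0
  rw [ha0, zero_add] at hvL ⊢
  have hl0 : l ∈ L ⊓ Φ.orth L := ⟨hl, hvL⟩
  rw [hL] at hl0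
  exact hl0

theorem ND.sup_inf {W L : Submodule K V} (hL : Φ.ND L) (h : L ≤ W) : L ⊔ W ⊓ Φ.orth L = W := by
  rw [inf_comm, ← sup_inf_assoc_of_le _ h, hL.sup, top_inf_eq]

end PS

end Pool.Agent.Work.MP_bc729a_al.CG
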