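import Pool.Agent.Work.MP_bc729a_al.CG.Bas

/-! # Module OrthD (M): dimensions of perpendicular spaces

PROOF of `finrank_orth`. Let `w i` be a basis of `W` (`k = finrank W`). `f : V → (Fin k → K)`, `f v i = B v (w i)`, is linear with kernel
`orth W` (`B v (∑ a i • w i) = ∑ τ (a i) B v (w i)`). It is onto: otherwise its range is a proper subspace of `K^k` and there is `a ≠ 0` with
`∑ a i * B v (w i) = 0` for all `v`; with `b i = τ (a i)` (`tau_tau`) `B v (∑ b i • w i) = 0` for all `v`, so `∑ b i • w i = 0` by `refl`, `nd`,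
so all `b i = 0` and `a i = τ (b i) = 0`, contradiction. Rank-nullity.
`orth_orth`: `W ≤ orth (orth W)` by `le_orth_comm`, and the dimensions agree. `orth_inf`: apply `orth_orth` to
`orth (orth U ⊔ orth W) = orth (orth U) ⊓ orth (orth W) = U ⊓ W` (`orth_sup`). -/

namespace Pool.Agent.Work.MP_bc729a_al.CG

open Module

universe u v

variable {K : Type u} {V : Type v} [Field K] [AddCommGroup V] [Module K V] [Finite K] [Finite V]

namespace PS

variable {Φ : PS K V}

private theorem orthd_sum (v : V) {k : ℕ} (a : Fin k → K) (w : Fin k → V) :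
    Φ.B v (∑ i, a i • w i) = ∑ i, Φ.τ (a i) * Φ.B v (w i) := by
  let F : V →+ K := ⟨⟨Φ.B v, Φ.B_zero_right v⟩, Φ.add_right v⟩
  have h : F (∑ i, a i • w i) = ∑ i, F (a i • w i) := map_sum F _ _
  change Φ.B v (∑ i, a i • w i) = ∑ i, Φ.B v (a i • w i) at h
  rw [h]
  exact Finset.sum_congr rfl fun i _ => Φ.smul_right (a i) v (w i)

theorem finrank_orth (W : Submodule K V) :
    finrank K (Φ.orth W) + finrank K W = finrank K V := by
  classical
  have hfd : Module.Finite K V := inferInstance
  obtain ⟨k, hk⟩ : ∃ k, k = finrank K W := ⟨_, rfl⟩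
  let b : Basis (Fin (finrank K W)) K W := Module.finBasis K W
  let f : V →ₗ[K] (Fin (finrank K W) → K) :=
    { toFun := fun v i => Φ.B v (b i)
      map_add' := fun u v => funext fun i => Φ.add_left u v (b i)
      map_smul' := fun a v => funext fun i => Φ.smul_left a v (b i) }
  have hf : ∀ v i, f v i = Φ.B v (b i) := fun _ _ => rfl
  have hker : LinearMap.ker f = Φ.orth W := by
    ext v
    rw [LinearMap.mem_ker]
    constructor
    · intro h w hw
      have h1 : (w : V) = ∑ i, (b.repr ⟨w, hw⟩ i) • (b i : V) := by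
        have h2 := b.sum_repr ⟨w, hw⟩
        calc w = ((∑ i, (b.repr ⟨w, hw⟩ i) • b i : W) : V) := (congrArg Subtype.val h2).symm
          _ = ∑ i, (b.repr ⟨w, hw⟩ i) • (b i : V) := by
            rw [AddSubmonoidClass.coe_finset_sum]
            rfl
      rw [h1, orthd_sum]
      refine Finset.sum_eq_zero fun i _ => ?_
      rw [← hf v i, h, Pi.zero_apply, mul_zero]
    · intro h
      funext i
      exact h (b i) (b i).2
  have hrange : LinearMap.range f = ⊤ := by
    by_contra hne
    obtain ⟨φ, hφ0, hφ⟩ := Submodule.exists_le_ker_of_lt_top _ (lt_top_iff_ne_top.2 hne)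
    apply hφ0
    set a : Fin (finrank K W) → K := fun i => φ (fun j => if i = j then 1 else 0) with ha
    have h1 : ∀ v : V, ∑ i, a i * Φ.B v (b i) = 0 := by
      intro v
      have h2 : φ (f v) = 0 := LinearMap.mem_ker.1 (hφ ⟨v, rfl⟩)
      rw [LinearMap.pi_apply_eq_sum_univ] at h2
      rw [← h2]
      refine Finset.sum_congr rfl fun i _ => ?_
      rw [hf, smul_eq_mul, mul_comm]
    have h2 : ∑ i, Φ.τ (a i) • (b i : V) = 0 := by
      apply Φ.nd
      intro v
      apply Φ.refl
      rw [orthd_sum, ← h1 v]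
      refine Finset.sum_congr rfl fun i _ => ?_
      rw [Φ.tau_tau]
    have h3 : ∑ i, Φ.τ (a i) • b i = 0 := by
      apply Subtype.ext
      simpa using h2
    have h4 := Fintype.linearIndependent_iff.1 b.linearIndependent _ h3
    have h5 : ∀ i, a i = 0 := by
      intro i
      rw [← Φ.tau_tau (a i), h4 i, map_zero]
    apply LinearMap.ext
    intro x
    rw [LinearMap.pi_apply_eq_sum_univ, LinearMap.zero_apply]
    refine Finset.sum_eq_zero fun i _ => ?_
    have h6 : φ (fun j => if i = j then 1 else 0) = 0 := h5 i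
    rw [h6, smul_zero]
  have h := LinearMap.finrank_range_add_finrank_ker f
  rw [hker, hrange, finrank_top, Module.finrank_fintype_fun_eq_card, Fintype.card_fin] at h
  omega

theorem orth_orth (W : Submodule K V) : Φ.orth (Φ.orth W) = W := by
  have hfd : Module.Finite K V := inferInstance
  symm
  apply Submodule.eq_of_le_of_finrank_eq
  · exact Φ.le_orth_comm.2 le_rfl
  · have h1 := finrank_orth (Φ := Φ) W
    have h2 := finrank_orth (Φ := Φ) (Φ.orth W)
    omega

theorem orth_inf (U W : Submodule K V) : Φ.orth (U ⊓ W) = Φ.orth U ⊔ Φ.orth W := by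
  rw [← orth_orth (Φ := Φ) (Φ.orth U ⊔ Φ.orth W), Φ.orth_sup, orth_orth, orth_orth]

end PS

end Pool.Agent.Work.MP_bc729a_al.CG
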