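import Pool.Agent.Work.MP_bc729a_al.CG.PMainA
import Pool.Agent.Work.MP_bc729a_al.CG.PMainB
import Pool.Agent.Work.MP_bc729a_al.CG.Bnd
import Pool.Agent.Work.MP_bc729a_al.CG.Cen

/-! # No composition factor is a classical group -/

namespace Pool.Agent.Work.MP_bc729a_al.CG

open Module

universe u v w

variable {K : Type u} {V : Type v} [Field K] [AddCommGroup V] [Module K V] [Finite K] [Finite V]

namespace PS

variable {Φ : PS K V}

theorem polar_main {D : Subgroup (V ≃ₗ[K] V)} (hD : Φ.Grp D) [IsSimpleGroup ↥(PG D)]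
    (hc : Φ.c + 4 ≤ finrank K V)
    (h8 : ¬ (Φ.t = 1 ∧ finrank K V = 8 ∧ ∃ E, Φ.TS E ∧ finrank K E = 4))
    {X : Subgroup (MulAut ↥(PG D))} (hX : LA.Red ↥(PG D) X) : False := by
  have hI : ∀ E, Φ.TS E → 2 ≤ finrank K E → Φ.pn ⊤ < Φ.bn D ⊤ E := by
    intro E hE h2
    apply idx_bound hD hc hE h2
    rintro ⟨h1, h3, h4⟩
    exact h8 ⟨h1, h3, E, hE, h4⟩
  rcases Nat.even_or_odd (Nat.card K) with h | h
  · exact main_even hD hc h hI hX
  · exact main_odd hD hc h hI hX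

theorem no_factor {D : Subgroup (V ≃ₗ[K] V)} (hD : Φ.Grp D) (hc : Φ.c + 4 ≤ finrank K V)
    (h8 : ¬ (Φ.t = 1 ∧ finrank K V = 8 ∧ ∃ E, Φ.TS E ∧ finrank K E = 4))
    (G : Type w) [Group G] [Finite G] (hG : MaxCompl G)
    (h : IsCompFactor (↥D ⧸ Subgroup.center ↥D) G) : False := by
  obtain ⟨e⟩ := quot_center hD hc
  have h' : IsCompFactor ↥(PG D) G := by
    obtain ⟨m, s, hs, i, hi, ⟨f⟩⟩ := h
    exact ⟨m, s, hs, i, hi, ⟨f.trans e⟩⟩
  have hfin : Finite ↥(PG D) := finite_PG D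
  have hs : IsSimpleGroup ↥(PG D) := by
    obtain ⟨m, s, hs, i, hi, ⟨f⟩⟩ := h'
    obtain ⟨-, hi', hsimp⟩ := hs.2.2 i
    have := hsimp
    exact MulEquiv.isSimpleGroup f.symm
  obtain ⟨X, hX⟩ := LA.exists_red (PG_nonab hD (by omega) (by omega)) G hG h'
  exact polar_main hD hc h8 hX

end PS

end Pool.Agent.Work.MP_bc729a_al.CG
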