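import Pool.Agent.Work.MP_bc729a_al.CG.Bt
import Pool.Agent.Work.MP_bc729a_al.CG.Idxp

/-! # Module Rix (S-M): subgroups of the index of a point stabiliser

PROOF. `pn ⊤ ≡ 1 mod p` (`pn_mod`), so `¬ p ∣ R.index`; `pn ⊤ ≥ 2` (`exists_pt`, `exists_opp` with `W = ⊤`: two opposite points are different), so `R ≠ ⊤`. `bt` with `R₀ = R` and `Z` the set of all points (`Nat.card Z = pn ⊤`) gives
`x`, `E` with `x ≤ E`, `TS E`, `R ≤ stE D E`. `(stE D E).index` divides `R.index`, so `bn D ⊤ E ≤ pn ⊤` (`index_stE`), so `finrank E ≤ 1` by `hI`, and `E = x`. `(stE D x).index = pn ⊤ = R.index` (`index_pt`) and `R ≤ stE D x`, all finite: equal. -/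

namespace Pool.Agent.Work.MP_bc729a_al.CG

open Module

universe u v

variable {K : Type u} {V : Type v} [Field K] [AddCommGroup V] [Module K V] [Finite K] [Finite V]

namespace PS

variable {Φ : PS K V}

theorem eq_stE {D : Subgroup (V ≃ₗ[K] V)} (hD : Φ.Grp D) [IsSimpleGroup ↥(PG D)] {p : ℕ}
    [Fact p.Prime] [CharP K p] (hc : Φ.c + 4 ≤ finrank K V)
    (hI : ∀ E, Φ.TS E → 2 ≤ finrank K E → Φ.pn ⊤ < Φ.bn D ⊤ E) {R : Subgroup ↥(PG D)}
    (hR : R.index = Φ.pn ⊤) : ∃ x, Φ.IsPt x ∧ R = stE D x := by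
  have hc1 := Φ.one_le_c
  have hn : 3 ≤ finrank K V := by omega
  have hct : Φ.c ≤ finrank K (⊤ : Submodule K V) := by
    rw [finrank_top]
    omega
  have hfin : Finite (Submodule K V) :=
    Finite.of_injective (fun U : Submodule K V => (U : Set V)) SetLike.coe_injective
  have hmod : Φ.pn ⊤ ≡ 1 [MOD p] := pn_mod hct
  have hprime : p.Prime := Fact.out
  have hp : ¬ p ∣ Φ.pn ⊤ := by
    intro hdvd
    have h1 : Φ.pn ⊤ ≡ 0 [MOD p] := (Nat.modEq_zero_iff_dvd).2 hdvd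
    have h2 : 1 ≡ 0 [MOD p] := hmod.symm.trans h1
    have h3 := (Nat.modEq_zero_iff_dvd).1 h2
    exact hprime.one_lt.ne' (Nat.dvd_one.1 h3)
  have hp0 : Φ.pn ⊤ ≠ 0 := fun h => hp (h ▸ dvd_zero p)
  have hRt : R ≠ ⊤ := by
    intro h
    rw [h, Subgroup.index_top] at hR
    obtain ⟨x, hx, -⟩ := exists_pt hct
    have hND : Φ.ND ⊤ := by
      unfold ND
      rw [orth_top, inf_bot_eq]
    obtain ⟨y, hy, -, hxy⟩ := exists_opp hND hx le_top
    have h1 : Nat.card {x : Submodule K V // Φ.IsPt x ∧ x ≤ ⊤} = 1 := hR.symm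
    have h2 := (Nat.card_eq_one_iff_unique.1 h1).1
    have h3 := congrArg Subtype.val (h2.elim ⟨x, hx, le_top⟩ ⟨y, hy, le_top⟩)
    have h4 : x = y := h3
    apply hxy
    rw [← h4]
    exact hx.self
  have hcard : Nat.card {z : Submodule K V | Φ.IsPt z} = Φ.pn ⊤ :=
    Nat.card_congr (Equiv.subtypeEquivRight fun z => ⟨fun h => ⟨h, le_top⟩, fun h => h.1⟩)
  obtain ⟨x, hx, E, hE, hxE, hRE⟩ := bt hD hn (le_refl R) (by rw [hR]; exact hp) hRt
    (Z := {z : Submodule K V | Φ.IsPt z}) (fun z hz => hz) (by rw [hcard]; exact hp) (by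
      intro s _ z hz
      obtain ⟨g, hg, rfl⟩ := exists_toPG s
      rw [toPG_apply]
      exact IsPt.map (Φ := Φ) hz (hD.le hg))
  have hx' : Φ.IsPt x := hx
  have h1 : (stE D E).index ≤ Φ.pn ⊤ := by
    rw [← hR]
    exact Nat.le_of_dvd (Nat.pos_of_ne_zero (by rw [hR]; exact hp0))
      (Subgroup.index_dvd_of_le hRE)
  rw [index_stE (Φ := Φ)] at h1
  have h2 : finrank K E ≤ 1 := by
    by_contra h
    exact absurd (hI E hE (by omega)) (by omega)
  have h3 : x = E := by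
    refine Submodule.eq_of_le_of_finrank_le hxE ?_
    rw [hx'.finrank]
    exact h2
  subst h3
  refine ⟨x, hx', le_antisymm hRE ?_⟩
  have h4 := index_pt hD hn hx'
  have h5 := Subgroup.relIndex_mul_index hRE
  rw [h4, hR] at h5
  have h6 : R.relIndex (stE D x) = 1 :=
    Nat.eq_of_mul_eq_mul_right (Nat.pos_of_ne_zero hp0) (by rw [h5, one_mul])
  exact Subgroup.relIndex_eq_one.1 h6

end PS

end Pool.Agent.Work.MP_bc729a_al.CG
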