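import Pool.Agent.Work.MP_bc729a_al.CG.Defs

/-! # Module Trl (S-M): the trace lemma

PROOF. Over `ZMod p` let `A x y = 1` if `r x y`, else `0`, and `N x y = A x (σ y)`. `(A * A) x y = #{z | r x z ∧ r y z} = 1` (symmetry of `r`), so
`A * A = J` (all entries `1`). `(N * N) x z = ∑ y, A x (σ y) * A y (σ z)`, and `A y (σ z) = A (σ y) z` (`hσ`, `h2`), so with `w = σ y` it is
`(A * A) x z = 1`: `N * N = J`. Row sums: `∑ y, A x y = #{z | r x z ∧ r x z} = 1`, so `∑ y, N x y = 1` and `N * J = J`. In the same way the column
sums are `1` and `J * N = J`. `J * J = |P| • J` and `J * J = N * (N * J) = J`, so `|P| = 1` in `ZMod p` (`P` is not empty). So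
`J` is idempotent of trace `|P| = 1`, and `M = N - J` satisfies `M * M = J - J - J + J * J = 0`, `trace M = 0` (a nilpotent matrix over a field has nilpotent
trace: `Matrix.isNilpotent_trace_of_isNilpotent`), so `trace N = 1 ≠ 0`. If no `x` satisfies `r x (σ x)` then `trace N = 0`.
(The module LA/TrK has a similar argument.) -/

namespace Pool.Agent.Work.MP_bc729a_al.CG

open Module

universe u v

variable {K : Type u} {V : Type v} [Field K] [AddCommGroup V] [Module K V]

theorem trace_lemma {P : Type v} [Finite P] [Nonempty P] {p : ℕ} [Fact p.Prime]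
    (r : P → P → Prop) (hs : ∀ x y, r x y → r y x)
    (hc : ∀ x y, Nat.card {z : P // r x z ∧ r y z} ≡ 1 [MOD p]) (σ : P → P)
    (h2 : ∀ x, σ (σ x) = x) (hσ : ∀ x y, r x y → r (σ x) (σ y)) : ∃ x, r x (σ x) := by
  classical
  haveI : Fintype P := Fintype.ofFinite P
  by_contra hcon
  push Not at hcon
  let A : P → P → ZMod p := fun x y => if r x y then 1 else 0
  have hAs : ∀ x y, A x y = A y x := by
    intro x y
    show (if r x y then (1 : ZMod p) else 0) = if r y x then 1 else 0
    by_cases h : r x y
    · rw [if_pos h, if_pos (hs x y h)]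
    · rw [if_neg h, if_neg (fun h' => h (hs y x h'))]
  have hAA : ∀ x y, ∑ z, A x z * A y z = 1 := by
    intro x y
    have h1 : ∀ z, A x z * A y z = if (r x z ∧ r y z) then (1 : ZMod p) else 0 := by
      intro z
      show (if r x z then (1 : ZMod p) else 0) * (if r y z then (1 : ZMod p) else 0) = _
      by_cases h : r x z <;> by_cases h' : r y z <;> simp [h, h']
    rw [Finset.sum_congr rfl (fun z _ => h1 z), Finset.sum_boole]
    have h3 : (Finset.univ.filter (fun z => r x z ∧ r y z)).card =
        Nat.card {z : P // r x z ∧ r y z} := by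
      rw [Nat.card_eq_fintype_card, Fintype.card_subtype]
    rw [h3]
    have h4 := (ZMod.natCast_eq_natCast_iff _ _ _).2 (hc x y)
    rw [h4, Nat.cast_one]
  have hAσ : ∀ y z, A y (σ z) = A (σ y) z := by
    intro y z
    show (if r y (σ z) then (1 : ZMod p) else 0) = if r (σ y) z then 1 else 0
    have h1 : r y (σ z) ↔ r (σ y) z := by
      constructor
      · intro h
        have := hσ _ _ h
        rwa [h2] at this
      · intro h
        have := hσ _ _ h
        rwa [h2] at this
    simp only [h1]
  have hbij : Function.Bijective σ := Function.Involutive.bijective h2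
  have hrow : ∀ x, ∑ w, A x w = 1 := by
    intro x
    rw [← hAA x x]
    refine Finset.sum_congr rfl fun w _ => ?_
    show (if r x w then (1 : ZMod p) else 0) =
      (if r x w then (1 : ZMod p) else 0) * (if r x w then (1 : ZMod p) else 0)
    by_cases h : r x w <;> simp [h]
  let N : Matrix P P (ZMod p) := Matrix.of fun x y => A x (σ y)
  let J : Matrix P P (ZMod p) := Matrix.of fun _ _ => 1
  have hNN : N * N = J := by
    ext x z
    rw [Matrix.mul_apply]
    show ∑ y, A x (σ y) * A y (σ z) = 1
    rw [Finset.sum_congr rfl (fun y _ => by rw [hAσ y z, hAs (σ y) z]),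
      hbij.sum_comp (fun w => A x w * A z w)]
    exact hAA x z
  have hNJ : N * J = J := by
    ext x z
    rw [Matrix.mul_apply]
    show ∑ y, A x (σ y) * 1 = 1
    rw [Finset.sum_congr rfl (fun y _ => mul_one _), hbij.sum_comp (fun w => A x w)]
    exact hrow x
  have hJN : J * N = J := by
    ext x z
    rw [Matrix.mul_apply]
    show ∑ y, 1 * A y (σ z) = 1
    rw [Finset.sum_congr rfl (fun y _ => by rw [one_mul, hAs y (σ z)])]
    exact hrow (σ z)
  have hJJ : J * J = J := by
    calc J * J = (N * N) * J := by rw [hNN]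
      _ = N * (N * J) := Matrix.mul_assoc _ _ _
      _ = J := by rw [hNJ, hNJ]
  have htrJ : Matrix.trace J = 1 := by
    obtain ⟨x0⟩ := (inferInstance : Nonempty P)
    have h1 := congrFun (congrFun hJJ x0) x0
    rw [Matrix.mul_apply] at h1
    have h3 : ∑ _y : P, (1 : ZMod p) * 1 = 1 := h1
    show ∑ _y : P, (1 : ZMod p) = 1
    simpa using h3
  have hM : (N - J) * (N - J) = 0 := by
    rw [mul_sub, sub_mul, sub_mul, hNN, hJN, hNJ, hJJ]
    simp
  have hnil : IsNilpotent (N - J) := ⟨2, by rw [pow_two]; exact hM⟩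
  have htr := Matrix.isNilpotent_trace_of_isNilpotent hnil
  rw [isNilpotent_iff_eq_zero, Matrix.trace_sub, htrJ] at htr
  have htN : Matrix.trace N = 0 := by
    show ∑ x, A x (σ x) = 0
    refine Finset.sum_eq_zero fun x _ => ?_
    show (if r x (σ x) then (1 : ZMod p) else 0) = 0
    rw [if_neg (hcon x)]
  rw [htN, zero_sub, neg_eq_zero] at htr
  exact one_ne_zero htr

end Pool.Agent.Work.MP_bc729a_al.CG
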